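import Pool.Agent.J6H40.KT.Stm

/-! # Project KT (helper40), module BON (helper42): a Bonferroni inequality -/

set_option autoImplicit false

namespace Pool.Agent.J6H40.KT

open Pool.Agent.J6H40.WG2

/-- **BON**: the sum over the ordered pairs of different elements is the square of the sum `s` minus the sum of the
squares, which is at most `s`; and `s - (s ^ 2 - s) = 1 - (1 - s) ^ 2` is at most one. -/
theorem t_BON : s_BON := by
  intro B Z hZ
  have h1 : ∑ p ∈ B ×ˢ B, Z p.1 * Z p.2 = (∑ n ∈ B, Z n) * ∑ n ∈ B, Z n := by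
    rw [Finset.sum_mul_sum, Finset.sum_product]
  have h2 : ∑ p ∈ B.diag, Z p.1 * Z p.2 = ∑ n ∈ B, Z n * Z n := by
    rw [Finset.sum_diag]
  have h3 : ∑ p ∈ B ×ˢ B, Z p.1 * Z p.2
      = ∑ p ∈ B.diag, Z p.1 * Z p.2 + ∑ p ∈ B.offDiag, Z p.1 * Z p.2 := by
    rw [← Finset.diag_union_offDiag, Finset.sum_union (Finset.disjoint_diag_offDiag B)]
  have h4 : ∑ n ∈ B, Z n * Z n ≤ ∑ n ∈ B, Z n := by
    refine Finset.sum_le_sum (fun n hn => ?_)
    exact mul_le_of_le_one_left (hZ n hn).1 (hZ n hn).2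
  nlinarith [sq_nonneg (1 - ∑ n ∈ B, Z n)]

end Pool.Agent.J6H40.KT
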