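import Pool.Agent.J6H40.KT.Stm

set_option autoImplicit false

/-!
# Weighted count of k-tuples in blocks
-/

open MeasureTheory Filter
open scoped Topology

namespace Pool.Agent.J6H40.KT

open Pool.Agent.J6H40.WG2

namespace CB

/-- level sets of a monotone function in an interval are intervals -/
theorem level {z : ℕ → ℕ} (hz : Monotone z) (u w v : ℕ) :
    ∃ a b, a ≤ b ∧ (Finset.Ico u w).filter (fun n => z n = v) = Finset.Ico a b := by
  classical
  by_cases hne : ((Finset.Ico u w).filter (fun n => z n = v)).Nonempty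
  · set F := (Finset.Ico u w).filter (fun n => z n = v) with hF
    have h1 := F.min'_mem hne
    have h2 := F.max'_mem hne
    refine ⟨F.min' hne, F.max' hne + 1, ?_, ?_⟩
    · have := F.min'_le _ h2
      omega
    · ext n
      rw [Finset.mem_Ico]
      constructor
      · intro hn
        exact ⟨F.min'_le _ hn, Nat.lt_succ_of_le (F.le_max' _ hn)⟩
      · rintro ⟨h3, h4⟩
        have h1' := Finset.mem_filter.1 h1
        have h2' := Finset.mem_filter.1 h2
        rw [Finset.mem_Ico] at h1' h2'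
        refine Finset.mem_filter.2 ⟨Finset.mem_Ico.2 ?_, ?_⟩
        · omega
        · have h5 := hz h3
          have h6 := hz (Nat.le_of_lt_succ h4)
          omega
  · rw [Finset.not_nonempty_iff_eq_empty] at hne
    exact ⟨0, 0, le_rfl, by rw [hne]; simp⟩

/-- the sieve condition -/
def cond (H : Finset ℕ) (v n : ℕ) : Prop := ∀ q ∈ Finset.Icc 1 v, q.Prime → ∀ h ∈ H, ¬ q ∣ n + h

theorem le_dm {H : Finset ℕ} {h : ℕ} (hh : h ∈ H) : h ≤ dm H := Finset.le_sup (f := id) hh

theorem adm_iff {z : ℕ → ℕ} (hz : Monotone z) {H : Finset ℕ} {v n : ℕ} (h1 : z n = v)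
    (h2 : z (n + dm H) = v) : Adm z H n ↔ cond H v n := by
  have hv : ∀ h ∈ H, z (n + h) = v := by
    intro h hh
    have e1 := hz (Nat.le_add_right n h)
    have e2 := hz (Nat.add_le_add_left (le_dm hh) n)
    omega
  constructor
  · intro h q hq hp k hk
    exact h k hk q hp (by rw [hv k hk]; exact (Finset.mem_Icc.1 hq).2)
  · intro h k hk q hp hq
    rw [hv k hk] at hq
    exact h q (Finset.mem_Icc.2 ⟨hp.one_lt.le, hq⟩) hp k hk

theorem wt_bound (hW : ∀ v : ℕ, 1 ≤ W v ∧ W v ≤ v + 1) {z : ℕ → ℕ} (hz : Monotone z) {H : Finset ℕ}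
    {n V : ℕ} (hV : z (n + dm H) ≤ V) : 0 ≤ wt z H n ∧ wt z H n ≤ ((V : ℝ) + 1) ^ H.card := by
  classical
  have hle : ∏ h ∈ H, W (z (n + h)) ≤ ((V : ℝ) + 1) ^ H.card := by
    rw [← Finset.prod_const]
    refine Finset.prod_le_prod (fun h _ => zero_le_one.trans (hW _).1) fun h hh => ?_
    refine (hW _).2.trans ?_
    have e2 := hz (Nat.add_le_add_left (le_dm hh) n)
    have : z (n + h) ≤ V := e2.trans hV
    have : ((z (n + h) : ℕ) : ℝ) ≤ V := by exact_mod_cast this
    linarith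
  have h0 : 0 ≤ ∏ h ∈ H, W (z (n + h)) :=
    Finset.prod_nonneg fun h _ => zero_le_one.trans (hW _).1
  unfold wt
  split_ifs
  · exact ⟨h0, hle⟩
  · exact ⟨le_rfl, by positivity⟩

open Classical in
/-- one level -/
theorem fiber (hW : ∀ v : ℕ, 1 ≤ W v ∧ W v ≤ v + 1) {z : ℕ → ℕ} (hz : Monotone z) {H : Finset ℕ}
    {u w V v : ℕ} (hV : z (w + dm H) ≤ V) (hv : v ≤ V) :
    |∑ n ∈ (Finset.Ico u w).filter (fun n => z n = v), wt z H n -
      W v ^ H.card * ∑ n ∈ (Finset.Ico u w).filter (fun n => z n = v), (if cond H v n then (1 : ℝ) else 0)| ≤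
      (dm H : ℝ) * ((V : ℝ) + 1) ^ H.card := by
  obtain ⟨a, b, hab, hlev⟩ := level hz u w v
  rw [Finset.mul_sum, ← Finset.sum_sub_distrib]
  refine (Finset.abs_sum_le_sum_abs _ _).trans ?_
  have hpos : (0 : ℝ) ≤ ((V : ℝ) + 1) ^ H.card := by positivity
  have hWv : W v ^ H.card ≤ ((V : ℝ) + 1) ^ H.card := by
    refine pow_le_pow_left₀ (zero_le_one.trans (hW v).1) ((hW v).2.trans ?_) _
    have : (v : ℝ) ≤ V := by exact_mod_cast hv
    linarith
  have hW0 : 0 ≤ W v ^ H.card := pow_nonneg (zero_le_one.trans (hW v).1) _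
  calc ∑ n ∈ (Finset.Ico u w).filter (fun n => z n = v),
        |wt z H n - W v ^ H.card * (if cond H v n then (1 : ℝ) else 0)|
      ≤ ∑ n ∈ (Finset.Ico u w).filter (fun n => z n = v),
          (if z (n + dm H) = v then 0 else ((V : ℝ) + 1) ^ H.card) := by
        refine Finset.sum_le_sum fun n hn => ?_
        rw [Finset.mem_filter, Finset.mem_Ico] at hn
        by_cases hg : z (n + dm H) = v
        · rw [if_pos hg]
          have hiff := adm_iff hz hn.2 hg
          have hvh : ∀ h ∈ H, z (n + h) = v := by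
            intro h hh
            have e1 := hz (Nat.le_add_right n h)
            have e2 := hz (Nat.add_le_add_left (le_dm hh) n)
            omega
          have : wt z H n = W v ^ H.card * (if cond H v n then (1 : ℝ) else 0) := by
            unfold wt
            by_cases hc : cond H v n
            · rw [if_pos (hiff.2 hc), if_pos hc, mul_one, ← Finset.prod_const]
              exact Finset.prod_congr rfl fun h hh => by rw [hvh h hh]
            · rw [if_neg (fun h => hc (hiff.1 h)), if_neg hc, mul_zero]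
          rw [this, sub_self, abs_zero]
        · rw [if_neg hg]
          have h1 := wt_bound hW hz (H := H) (n := n) (V := V)
            ((hz (Nat.add_le_add_right hn.1.2.le _)).trans hV)
          have h2 : 0 ≤ W v ^ H.card * (if cond H v n then (1 : ℝ) else 0) ∧
              W v ^ H.card * (if cond H v n then (1 : ℝ) else 0) ≤ ((V : ℝ) + 1) ^ H.card := by
            split_ifs
            · rw [mul_one]; exact ⟨hW0, hWv⟩
            · rw [mul_zero]; exact ⟨le_rfl, hpos⟩
          rw [abs_le]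
          constructor <;> linarith [h1.1, h1.2, h2.1, h2.2]
    _ = (((Finset.Ico u w).filter (fun n => z n = v)).filter (fun n => ¬ z (n + dm H) = v)).card *
          ((V : ℝ) + 1) ^ H.card := by
        rw [Finset.sum_ite, Finset.sum_const_zero, zero_add, Finset.sum_const, nsmul_eq_mul]
    _ ≤ (dm H : ℝ) * ((V : ℝ) + 1) ^ H.card := by
        refine mul_le_mul_of_nonneg_right ?_ hpos
        have hsub : ((Finset.Ico u w).filter (fun n => z n = v)).filter
            (fun n => ¬ z (n + dm H) = v) ⊆ Finset.Ico (b - dm H) b := by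
          intro n hn
          rw [Finset.mem_filter, hlev, Finset.mem_Ico] at hn
          rw [Finset.mem_Ico]
          refine ⟨?_, hn.1.2⟩
          by_contra hlt
          apply hn.2
          have : n + dm H ∈ (Finset.Ico u w).filter (fun n => z n = v) := by
            rw [hlev, Finset.mem_Ico]
            omega
          exact (Finset.mem_filter.1 this).2
        have h1 := Finset.card_le_card hsub
        rw [Nat.card_Ico] at h1
        have : (((Finset.Ico u w).filter (fun n => z n = v)).filter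
            (fun n => ¬ z (n + dm H) = v)).card ≤ dm H := by omega
        exact_mod_cast this

open Classical in
/-- the count in an interval -/
theorem core (hW : ∀ v : ℕ, 1 ≤ W v ∧ W v ≤ v + 1) {z : ℕ → ℕ} (hz : Monotone z) {H : Finset ℕ}
    {ε : ℝ} (hε : 0 < ε) {s : ℕ} (hs : ∀ v u w : ℕ, u ≤ w →
      |(((Finset.Ico u w).filter (fun n => ∀ q ∈ Finset.Icc 1 v, q.Prime → ∀ h ∈ H, ¬ q ∣ n + h)).card : ℝ)
        - ((w : ℝ) - u) * Pr H v| ≤ ε * (((w : ℝ) - u) * Pr H v) + ((v : ℝ) + 2) ^ s)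
    {u w V : ℕ} (huw : u ≤ w) (hV : z (w + dm H) ≤ V) :
    |∑ n ∈ Finset.Ico u w, wt z H n - ∑ n ∈ Finset.Ico u w, Sg H (z n)| ≤
      ε * ∑ n ∈ Finset.Ico u w, Sg H (z n) +
        ((V : ℝ) + 1) * (((V : ℝ) + 1) ^ H.card * ((V : ℝ) + 2) ^ s +
          (dm H : ℝ) * ((V : ℝ) + 1) ^ H.card) := by
  have hmap : ∀ n ∈ Finset.Ico u w, z n ∈ Finset.range (V + 1) := by
    intro n hn
    rw [Finset.mem_Ico] at hn
    rw [Finset.mem_range]
    have := hz (show n ≤ w + dm H by omega)
    omega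
  have hfib : ∀ g : ℕ → ℝ, ∑ n ∈ Finset.Ico u w, g n = ∑ v ∈ Finset.range (V + 1),
      ∑ n ∈ (Finset.Ico u w).filter (fun n => z n = v), g n :=
    fun g => (Finset.sum_fiberwise_of_maps_to hmap g).symm
  have key : ∀ v ∈ Finset.range (V + 1),
      |∑ n ∈ (Finset.Ico u w).filter (fun n => z n = v), wt z H n -
        ∑ n ∈ (Finset.Ico u w).filter (fun n => z n = v), Sg H (z n)| ≤
      ε * ∑ n ∈ (Finset.Ico u w).filter (fun n => z n = v), Sg H (z n) +
        (((V : ℝ) + 1) ^ H.card * ((V : ℝ) + 2) ^ s + (dm H : ℝ) * ((V : ℝ) + 1) ^ H.card) := by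
    intro v hv
    have hv' : v ≤ V := Nat.lt_succ_iff.1 (Finset.mem_range.1 hv)
    have h1 := fiber hW hz (H := H) (u := u) hV hv'
    obtain ⟨a, b, hab, hlev⟩ := level hz u w v
    have h2 := hs v a b hab
    have hcard : (∑ n ∈ (Finset.Ico u w).filter (fun n => z n = v), (if cond H v n then (1 : ℝ) else 0))
        = (((Finset.Ico a b).filter (fun n => ∀ q ∈ Finset.Icc 1 v, q.Prime → ∀ h ∈ H,
          ¬ q ∣ n + h)).card : ℝ) := by
      rw [hlev, Finset.sum_boole]
      congr 2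
      ext n
      constructor <;> intro h <;> (rw [Finset.mem_filter] at h ⊢; exact h)
    have hSg : ∑ n ∈ (Finset.Ico u w).filter (fun n => z n = v), Sg H (z n) =
        W v ^ H.card * (((b : ℝ) - a) * Pr H v) := by
      have : ∑ n ∈ (Finset.Ico u w).filter (fun n => z n = v), Sg H (z n) =
          ∑ n ∈ (Finset.Ico u w).filter (fun n => z n = v), Sg H v :=
        Finset.sum_congr rfl fun n hn => by rw [(Finset.mem_filter.1 hn).2]
      rw [this, hlev, Finset.sum_const, Nat.card_Ico, nsmul_eq_mul, Nat.cast_sub hab]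
      unfold Sg
      ring
    rw [hcard] at h1
    rw [hSg]
    have hW0 : 0 ≤ W v ^ H.card := pow_nonneg (zero_le_one.trans (hW v).1) _
    have hWv : W v ^ H.card ≤ ((V : ℝ) + 1) ^ H.card := by
      refine pow_le_pow_left₀ (zero_le_one.trans (hW v).1) ((hW v).2.trans ?_) _
      have : (v : ℝ) ≤ V := by exact_mod_cast hv'
      linarith
    have h3 := mul_le_mul_of_nonneg_left h2 hW0
    rw [← abs_of_nonneg hW0, ← abs_mul, abs_of_nonneg hW0, mul_sub] at h3
    have h4 : W v ^ H.card * ((v : ℝ) + 2) ^ s ≤ ((V : ℝ) + 1) ^ H.card * ((V : ℝ) + 2) ^ s := by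
      refine mul_le_mul hWv ?_ (by positivity) (by positivity)
      refine pow_le_pow_left₀ (by positivity) ?_ _
      have : (v : ℝ) ≤ V := by exact_mod_cast hv'
      linarith
    have h5 := abs_sub_le (∑ n ∈ (Finset.Ico u w).filter (fun n => z n = v), wt z H n)
      (W v ^ H.card * (((Finset.Ico a b).filter (fun n => ∀ q ∈ Finset.Icc 1 v, q.Prime → ∀ h ∈ H,
          ¬ q ∣ n + h)).card : ℝ)) (W v ^ H.card * (((b : ℝ) - a) * Pr H v))
    have h6 : W v ^ H.card * (ε * (((b : ℝ) - a) * Pr H v) + ((v : ℝ) + 2) ^ s) =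
        ε * (W v ^ H.card * (((b : ℝ) - a) * Pr H v)) + W v ^ H.card * ((v : ℝ) + 2) ^ s := by ring
    rw [h6] at h3
    linarith
  rw [hfib, hfib (fun n => Sg H (z n)), ← Finset.sum_sub_distrib]
  refine (Finset.abs_sum_le_sum_abs _ _).trans ((Finset.sum_le_sum key).trans ?_)
  rw [Finset.sum_add_distrib, ← Finset.mul_sum, Finset.sum_const, Finset.card_range, nsmul_eq_mul]
  push_cast
  exact le_rfl

/-- logarithms -/
theorem logs (N : ℕ) (C ε : ℝ) (hε : 0 < ε) {z : ℕ → ℕ} (hz : Slow z) :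
    ∀ᶠ x : ℕ in atTop, C * ((z (8 * x ^ 2) : ℝ) + 2) ^ N + C ≤ ε * (bl x : ℝ) := by
  obtain ⟨_, hz2⟩ := hz
  set δ : ℝ := 1 / (4 * ((N : ℝ) + 1)) with hδ
  have hδ0 : 0 < δ := by positivity
  have h1 := hz2 δ hδ0
  have h8 : Tendsto (fun x : ℕ => 8 * x ^ 2) atTop atTop := by
    refine tendsto_atTop_mono (fun x => ?_) tendsto_id
    show x ≤ 8 * x ^ 2
    nlinarith [Nat.zero_le x]
  have h2 := h8.eventually h1
  have hlog : Tendsto (fun x : ℕ => Real.log (x : ℝ)) atTop atTop :=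
    Real.tendsto_log_atTop.comp tendsto_natCast_atTop_atTop
  have ht : Tendsto (fun x : ℕ => Real.log (x : ℝ) ^ ((1 : ℝ) / 4)) atTop atTop :=
    (tendsto_rpow_atTop (by norm_num)).comp hlog
  set A : ℝ := max C 0 * 6 ^ N + |C| + ε with hA
  have hA0 : 0 < A := by
    have : 0 ≤ max C 0 * 6 ^ N := mul_nonneg (le_max_right _ _) (by positivity)
    have := abs_nonneg C
    rw [hA]; linarith
  have h3 := ht.eventually_ge_atTop (max 1 (2 * A / ε))
  filter_upwards [h2, h3, hlog.eventually_ge_atTop 8, eventually_ge_atTop 2] with x hx2 hx3 hx4 hx5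
  set L := Real.log (x : ℝ) with hL
  set t := L ^ ((1 : ℝ) / 4) with ht'
  have hL0 : 0 < L := by linarith
  have ht1 : 1 ≤ t := (le_max_left _ _).trans hx3
  have htA : 2 * A / ε ≤ t := (le_max_right _ _).trans hx3
  have hLδ : 1 ≤ L ^ δ := Real.one_le_rpow (by linarith) hδ0.le
  have hx0 : (0 : ℝ) < x := by
    have : 0 < x := by omega
    exact_mod_cast this
  have hlog8 : Real.log ((8 * x ^ 2 : ℕ) : ℝ) ≤ 3 * L := by
    push_cast
    rw [Real.log_mul (by norm_num) (by positivity), Real.log_pow]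
    have : Real.log 8 ≤ 8 := by
      have := Real.log_le_sub_one_of_pos (show (0 : ℝ) < 8 by norm_num)
      linarith
    push_cast
    linarith
  have hz3 : (z (8 * x ^ 2) : ℝ) ≤ 3 * L ^ δ := by
    refine hx2.trans ?_
    have hlogpos : 0 ≤ Real.log ((8 * x ^ 2 : ℕ) : ℝ) := Real.log_natCast_nonneg _
    refine (Real.rpow_le_rpow hlogpos hlog8 hδ0.le).trans ?_
    rw [Real.mul_rpow (by norm_num) hL0.le]
    refine mul_le_mul_of_nonneg_right ?_ (by positivity)
    calc (3 : ℝ) ^ δ ≤ 3 ^ (1 : ℝ) := by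
          refine Real.rpow_le_rpow_of_exponent_le (by norm_num) ?_
          rw [hδ, div_le_one (by positivity)]
          have : (0 : ℝ) ≤ N := Nat.cast_nonneg _
          linarith
      _ = 3 := Real.rpow_one _
  have hz5 : (z (8 * x ^ 2) : ℝ) + 2 ≤ 6 * L ^ δ := by linarith
  have hpow : ((z (8 * x ^ 2) : ℝ) + 2) ^ N ≤ 6 ^ N * t := by
    refine (pow_le_pow_left₀ (by positivity) hz5 N).trans ?_
    rw [mul_pow]
    refine mul_le_mul_of_nonneg_left ?_ (by positivity)
    rw [ht', ← Real.rpow_natCast (L ^ δ), ← Real.rpow_mul hL0.le]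
    refine Real.rpow_le_rpow_of_exponent_le (by linarith) ?_
    rw [hδ]
    have hN : (0 : ℝ) ≤ N := Nat.cast_nonneg _
    rw [div_mul_eq_mul_div, one_mul, div_le_div_iff₀ (by positivity) (by norm_num)]
    linarith
  have hbl : t ^ 2 - 1 ≤ (bl x : ℝ) := by
    have h5 : t ^ 2 = Real.sqrt L := by
      rw [ht', ← Real.rpow_natCast, ← Real.rpow_mul hL0.le, Real.sqrt_eq_rpow]
      norm_num
    rw [h5]
    unfold bl
    have := Nat.lt_floor_add_one (Real.sqrt (Real.log (x : ℝ)))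
    rw [← hL] at this ⊢
    linarith
  have hpow0 : 0 ≤ ((z (8 * x ^ 2) : ℝ) + 2) ^ N := by positivity
  have e1 : C * ((z (8 * x ^ 2) : ℝ) + 2) ^ N ≤ max C 0 * (6 ^ N * t) :=
    (mul_le_mul_of_nonneg_right (le_max_left C 0) hpow0).trans
      (mul_le_mul_of_nonneg_left hpow (le_max_right _ _))
  have e2 : C ≤ |C| := le_abs_self C
  have e3 : ε * (t ^ 2 - 1) ≤ ε * (bl x : ℝ) := mul_le_mul_of_nonneg_left hbl hε.le
  have e4 : 2 * A ≤ ε * t := by
    rw [div_le_iff₀ hε] at htA
    linarith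
  have e5 : 2 * A * t ≤ ε * t * t := mul_le_mul_of_nonneg_right e4 (by linarith)
  have e6 : A ≤ A * t := le_mul_of_one_le_right hA0.le ht1
  have e7 : max C 0 * (6 ^ N * t) ≤ A * t := by
    rw [← mul_assoc]
    refine mul_le_mul_of_nonneg_right ?_ (by linarith)
    have := abs_nonneg C
    rw [hA]; linarith
  have e8 : |C| + ε ≤ A := by
    have : 0 ≤ max C 0 * 6 ^ N := mul_nonneg (le_max_right _ _) (by positivity)
    rw [hA]; linarith
  nlinarith

end CB

open CB in
/-- weighted count of k-tuples in blocks -/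
theorem t_CB (h1 : s_CNTH) (h2 : s_WB) : s_CB := by
  classical
  intro H hH z hz σ hσ hlim ε hε
  obtain ⟨hzm, _⟩ := id hz
  have hW := h2.1
  -- constants
  set ε₁ : ℝ := min (ε / 8) 1 with hε₁
  have hε₁0 : 0 < ε₁ := by rw [hε₁]; positivity
  have hε₁1 : ε₁ ≤ 1 := min_le_right _ _
  have hε₁8 : ε₁ ≤ ε / 8 := min_le_left _ _
  set ε₂ : ℝ := ε / (8 * (σ + 1)) with hε₂
  have hε₂0 : 0 < ε₂ := by rw [hε₂]; positivity
  obtain ⟨s, hs⟩ := h1 H hH ε₂ hε₂0
  set D := dm H with hD
  set N := H.card + s + 1 with hN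
  set C : ℝ := 1 + D + (σ + 1) * D with hC
  have hC0 : 0 ≤ C := by rw [hC]; positivity
  have hlog := logs N C (ε / 4) (by positivity) hz
  -- the limit
  have hev : ∀ᶠ m : ℕ in atTop, |Sg H (z m) - σ| ≤ ε₁ := by
    have := (Metric.tendsto_nhds.1 hlim) ε₁ hε₁0
    filter_upwards [this] with m hm
    rw [Real.dist_eq] at hm
    exact hm.le
  obtain ⟨m₀, hm₀⟩ := eventually_atTop.1 hev
  have hblx : ∀ᶠ x : ℕ in atTop, D ≤ bl x ∧ bl x ≤ x ^ 2 := by
    have hb : Tendsto bl atTop atTop := by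
      have h5 : Tendsto (fun x : ℕ => Real.sqrt (Real.log (x : ℝ))) atTop atTop :=
        Real.tendsto_sqrt_atTop.comp (Real.tendsto_log_atTop.comp tendsto_natCast_atTop_atTop)
      exact tendsto_nat_floor_atTop.comp h5
    filter_upwards [hb.eventually_ge_atTop D, eventually_ge_atTop 1] with x hx hx1
    refine ⟨hx, ?_⟩
    have h6 : (bl x : ℝ) ≤ (x : ℝ) ^ 2 := by
      unfold bl
      refine (Nat.floor_le (Real.sqrt_nonneg _)).trans ?_
      have hx1' : (1 : ℝ) ≤ x := by exact_mod_cast hx1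
      rw [Real.sqrt_le_left (by positivity)]
      have h7 : Real.log (x : ℝ) ≤ x := (Real.log_le_sub_one_of_pos (by linarith)).trans (by linarith)
      nlinarith [mul_self_nonneg ((x : ℝ) ^ 2 - 1), mul_self_nonneg ((x : ℝ) - 1)]
    exact_mod_cast h6
  filter_upwards [hlog, hblx, eventually_ge_atTop m₀, eventually_ge_atTop (D + 1)] with x hx1 hx2 hx3
    hx4
  intro y hxy hyx
  obtain ⟨hDb, hbx⟩ := hx2
  -- both intervals
  have main : ∀ w : ℕ, y + bl x - D ≤ w → w ≤ y + bl x → y ≤ w →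
      |∑ n ∈ Finset.Ioc y w, wt z H n - σ * (bl x : ℝ)| ≤ ε * (bl x : ℝ) := by
    intro w hw1 hw2 hyw
    have hIoc : Finset.Ioc y w = Finset.Ico (y + 1) (w + 1) := by
      ext n
      rw [Finset.mem_Ioc, Finset.mem_Ico]
      omega
    rw [hIoc]
    set V := z (8 * x ^ 2) with hVdef
    have hV : z (w + 1 + dm H) ≤ V := by
      refine hzm ?_
      have : x ≤ x ^ 2 := by nlinarith
      rw [← hD]
      omega
    have hc := core hW hzm (H := H) hε₂0 hs (show y + 1 ≤ w + 1 by omega) hV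
    set B : ℝ := ((w + 1 : ℕ) : ℝ) - ((y + 1 : ℕ) : ℝ) with hB
    have hBb : B ≤ bl x ∧ (bl x : ℝ) - D ≤ B ∧ 0 ≤ B := by
      rw [hB]
      push_cast
      have e1 : (w : ℝ) ≤ y + bl x := by exact_mod_cast hw2
      have e2 : (y : ℝ) + bl x ≤ w + D := by
        have : y + bl x ≤ w + D := by omega
        exact_mod_cast this
      have e3 : (y : ℝ) ≤ w := by exact_mod_cast hyw
      refine ⟨by linarith, by linarith, by linarith⟩
    have hSg : |∑ n ∈ Finset.Ico (y + 1) (w + 1), Sg H (z n) - σ * B| ≤ ε₁ * B := by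
      have : σ * B = ∑ n ∈ Finset.Ico (y + 1) (w + 1), σ := by
        rw [Finset.sum_const, Nat.card_Ico, nsmul_eq_mul, Nat.cast_sub (by omega), hB]
        ring
      rw [this, ← Finset.sum_sub_distrib]
      refine (Finset.abs_sum_le_sum_abs _ _).trans ?_
      calc ∑ n ∈ Finset.Ico (y + 1) (w + 1), |Sg H (z n) - σ|
          ≤ ∑ n ∈ Finset.Ico (y + 1) (w + 1), ε₁ := by
            refine Finset.sum_le_sum fun n hn => hm₀ n ?_
            rw [Finset.mem_Ico] at hn
            omega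
        _ = ε₁ * B := by
            rw [Finset.sum_const, Nat.card_Ico, nsmul_eq_mul, Nat.cast_sub (by omega), hB]
            ring
    set Q := ∑ n ∈ Finset.Ico (y + 1) (w + 1), Sg H (z n) with hQ
    have hV0 : (0 : ℝ) ≤ V := Nat.cast_nonneg _
    -- the error term
    have herr : ((V : ℝ) + 1) * (((V : ℝ) + 1) ^ H.card * ((V : ℝ) + 2) ^ s +
        (dm H : ℝ) * ((V : ℝ) + 1) ^ H.card) ≤ (1 + D) * ((V : ℝ) + 2) ^ N := by
      have e1 : ((V : ℝ) + 1) ^ H.card ≤ ((V : ℝ) + 2) ^ H.card :=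
        pow_le_pow_left₀ (by linarith) (by linarith) _
      have e2 : (1 : ℝ) ≤ ((V : ℝ) + 2) ^ s := one_le_pow₀ (by linarith)
      have e3 : (0 : ℝ) ≤ ((V : ℝ) + 2) ^ H.card := by positivity
      have hD' : (dm H : ℝ) = D := by rw [hD]
      have e4 : ((V : ℝ) + 1) ^ H.card * ((V : ℝ) + 2) ^ s + (dm H : ℝ) * ((V : ℝ) + 1) ^ H.card ≤
          (1 + D) * (((V : ℝ) + 2) ^ H.card * ((V : ℝ) + 2) ^ s) := by
        have f1 : ((V : ℝ) + 1) ^ H.card * ((V : ℝ) + 2) ^ s ≤
            ((V : ℝ) + 2) ^ H.card * ((V : ℝ) + 2) ^ s :=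
          mul_le_mul_of_nonneg_right e1 (by linarith)
        have f2 : ((V : ℝ) + 1) ^ H.card ≤ ((V : ℝ) + 2) ^ H.card * ((V : ℝ) + 2) ^ s :=
          e1.trans (le_mul_of_one_le_right e3 e2)
        have f3 : (dm H : ℝ) * ((V : ℝ) + 1) ^ H.card ≤
            D * (((V : ℝ) + 2) ^ H.card * ((V : ℝ) + 2) ^ s) := by
          rw [hD']
          exact mul_le_mul_of_nonneg_left f2 (Nat.cast_nonneg _)
        linarith
      have e5 : (0 : ℝ) ≤ (1 + D) * (((V : ℝ) + 2) ^ H.card * ((V : ℝ) + 2) ^ s) := by positivity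
      calc ((V : ℝ) + 1) * (((V : ℝ) + 1) ^ H.card * ((V : ℝ) + 2) ^ s +
            (dm H : ℝ) * ((V : ℝ) + 1) ^ H.card)
          ≤ ((V : ℝ) + 2) * ((1 + D) * (((V : ℝ) + 2) ^ H.card * ((V : ℝ) + 2) ^ s)) :=
            mul_le_mul (by linarith) e4 (by positivity) (by linarith)
        _ = (1 + D) * ((V : ℝ) + 2) ^ N := by
            rw [hN, pow_add, pow_add, pow_one]; ring
    have hpow1 : (1 : ℝ) ≤ ((V : ℝ) + 2) ^ N := one_le_pow₀ (by linarith)
    have hCb : (1 + D) * ((V : ℝ) + 2) ^ N + (σ + 1) * D ≤ ε / 4 * (bl x : ℝ) := by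
      have f1 : (1 + (D : ℝ)) * ((V : ℝ) + 2) ^ N ≤ C * ((V : ℝ) + 2) ^ N := by
        refine mul_le_mul_of_nonneg_right ?_ (by linarith)
        rw [hC]
        have : 0 ≤ (σ + 1) * (D : ℝ) := by positivity
        linarith
      have f2 : (σ + 1) * (D : ℝ) ≤ C := by
        rw [hC]
        have : (0 : ℝ) ≤ D := Nat.cast_nonneg _
        linarith
      linarith
    have hQ1 := abs_le.1 hSg
    have hb0 : (0 : ℝ) ≤ bl x := Nat.cast_nonneg _
    have hQB : |Q - σ * (bl x : ℝ)| ≤ ε / 8 * (bl x : ℝ) + σ * D := by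
      have g1 : ε₁ * B ≤ ε / 8 * (bl x : ℝ) :=
        mul_le_mul hε₁8 hBb.1 hBb.2.2 (by positivity)
      have g2 : σ * B ≤ σ * (bl x : ℝ) := mul_le_mul_of_nonneg_left hBb.1 hσ.le
      have g3 : σ * ((bl x : ℝ) - D) ≤ σ * B := mul_le_mul_of_nonneg_left hBb.2.1 hσ.le
      have g4 : 0 ≤ σ * (D : ℝ) := by positivity
      rw [abs_le]
      constructor
      · linarith [hQ1.1]
      · linarith [hQ1.2]
    have hQup : Q ≤ (σ + 1) * (bl x : ℝ) := by
      have g1 : ε₁ * B ≤ 1 * (bl x : ℝ) := mul_le_mul hε₁1 hBb.1 hBb.2.2 (by norm_num)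
      have g2 : σ * B ≤ σ * (bl x : ℝ) := mul_le_mul_of_nonneg_left hBb.1 hσ.le
      linarith [hQ1.2]
    have hε₂Q : ε₂ * Q ≤ ε / 8 * (bl x : ℝ) := by
      refine (mul_le_mul_of_nonneg_left hQup hε₂0.le).trans (le_of_eq ?_)
      rw [hε₂]
      field_simp
    have hsD : σ * (D : ℝ) ≤ (σ + 1) * D := by
      have : (0 : ℝ) ≤ D := Nat.cast_nonneg _
      linarith
    have hc' := abs_le.1 hc
    have hq' := abs_le.1 hQB
    rw [abs_le]
    constructor
    · linarith [hc'.1, hq'.1]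
    · linarith [hc'.2, hq'.2]
  refine ⟨main _ (by omega) le_rfl (by omega), ?_⟩
  have e : y + bl x - dm H = y + bl x - D := by rw [hD]
  rw [e]
  exact main _ le_rfl (by omega) (by omega)

end Pool.Agent.J6H40.KT
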