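import Pool.Agent.J6H40.KT.Stm
import Pool.Agent.J6H40.WG2.CNT

/-!
Counting rough k-tuples with a relative error and a polynomial absolute error (module KT-CNTH, helper99).
The large primes are treated by the fundamental lemma inside a residue class, the bounded primes are then
split into residue classes one at a time.
-/

set_option autoImplicit false

open Finset

namespace Pool.Agent.J6H40.KT

open Pool.Agent.J6H40.WG2

/-- the large primes, in a residue class -/
theorem cnth_large (k : ℕ) : ∃ C0 : ℕ, 1 ≤ C0 ∧ ∀ (b J : ℕ) (P : Finset ℕ) (Om : ℕ → Finset ℕ),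
    C0 ≤ b → (∀ p ∈ P, p.Prime ∧ C0 < p ∧ p ≤ 2 ^ 2 ^ J) →
    (∀ p ∈ P, Om p ⊆ range p ∧ (Om p).card ≤ k) →
    ∀ (R : Finset ℕ) (c : ℕ → ℕ) (u w : ℕ), (∀ p ∈ R, p.Prime ∧ c p < p) → Disjoint R P → u ≤ w →
      |(((Finset.Ico u w).filter
          (fun n => (∀ p ∈ R, n % p = c p) ∧ ∀ p ∈ P, n % p ∉ Om p)).card : ℝ)
        - (((w : ℝ) - u) / ∏ p ∈ R, (p : ℝ)) * ∏ p ∈ P, (1 - ((Om p).card : ℝ) / p)| ≤
        (1 / 2) ^ b * ((((w : ℝ) - u) / ∏ p ∈ R, (p : ℝ)) *
          ∏ p ∈ P, (1 - ((Om p).card : ℝ) / p)) +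
          ((J : ℝ) + 2) * (((2 ^ 2 ^ J : ℕ) : ℝ) ^ (C0 * b)) ^ 2 := by
  classical
  obtain ⟨C0, hC0, h⟩ := Pool.Agent.TH882.FL.fl1 k
  refine ⟨C0, hC0, fun b J P Om hb hP hOm R c u w hR hRP huw => ?_⟩
  have hL : 0 ≤ (w : ℝ) - u := by
    have : (u : ℝ) ≤ w := by exact_mod_cast huw
    linarith
  have hpR : 0 < ∏ p ∈ R, (p : ℝ) := Finset.prod_pos fun p hp => by
    exact_mod_cast (hR p hp).1.pos
  have h1 := h b J C0 P Om hb le_rfl hP (fun p hp => (hOm p hp).2)
    ((Finset.Ico u w).filter (fun n => ∀ p ∈ R, n % p = c p))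
    (((w : ℝ) - u) / ∏ p ∈ R, (p : ℝ)) (div_nonneg hL hpR.le) (by
      intro T hT c' hc'
      have hdis : Disjoint R T := hRP.mono_right hT
      have h2 := cnt_crt u w huw (R ∪ T) (by
          intro p hp
          rw [Finset.mem_union] at hp
          rcases hp with hp | hp
          · exact (hR p hp).1
          · exact (hP p (hT hp)).1) (fun p => if p ∈ R then c p else c' p) (by
          intro p hp
          rw [Finset.mem_union] at hp
          by_cases hpR' : p ∈ R
          · simp only [hpR', if_true]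
            exact (hR p hpR').2
          · simp only [hpR', if_false]
            rcases hp with hp | hp
            · exact absurd hp hpR'
            · exact Finset.mem_range.1 ((hOm p (hT hp)).1 (hc' p hp)))
      have e1 : (Finset.Ico u w).filter
          (fun n => ∀ p ∈ R ∪ T, n % p = if p ∈ R then c p else c' p) =
          ((Finset.Ico u w).filter (fun n => ∀ p ∈ R, n % p = c p)).filter
            (fun n => ∀ p ∈ T, n % p = c' p) := by
        ext n
        simp only [Finset.mem_filter, Finset.mem_union]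
        constructor
        · rintro ⟨hn, h3⟩
          refine ⟨⟨hn, fun p hp => ?_⟩, fun p hp => ?_⟩
          · have := h3 p (Or.inl hp)
            rwa [if_pos hp] at this
          · have := h3 p (Or.inr hp)
            rwa [if_neg (fun h' => (Finset.disjoint_left.1 hdis h') hp)] at this
        · rintro ⟨⟨hn, h3⟩, h4⟩
          refine ⟨hn, fun p hp => ?_⟩
          by_cases hpR' : p ∈ R
          · rw [if_pos hpR']
            exact h3 p hpR'
          · rw [if_neg hpR']
            rcases hp with hp | hp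
            · exact absurd hp hpR'
            · exact h4 p hp
      rw [e1, Finset.prod_union hdis] at h2
      rw [div_div]
      exact h2)
  have e2 : ((Finset.Ico u w).filter (fun n => ∀ p ∈ R, n % p = c p)).filter
      (fun n => ∀ p ∈ P, n % p ∉ Om p) = (Finset.Ico u w).filter
          (fun n => (∀ p ∈ R, n % p = c p) ∧ ∀ p ∈ P, n % p ∉ Om p) := by
    rw [Finset.filter_filter]
  rw [e2] at h1
  exact h1

/-- the bounded primes -/
theorem cnth_ind (P : Finset ℕ) (Om : ℕ → Finset ℕ) (δ E : ℝ) (hE : 0 ≤ E)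
    (base : ∀ (R : Finset ℕ) (c : ℕ → ℕ) (u w : ℕ), (∀ p ∈ R, p.Prime ∧ c p < p) →
      Disjoint R P → u ≤ w →
      |(((Finset.Ico u w).filter
          (fun n => (∀ p ∈ R, n % p = c p) ∧ ∀ p ∈ P, n % p ∉ Om p)).card : ℝ)
        - (((w : ℝ) - u) / ∏ p ∈ R, (p : ℝ)) * ∏ p ∈ P, (1 - ((Om p).card : ℝ) / p)| ≤
        δ * ((((w : ℝ) - u) / ∏ p ∈ R, (p : ℝ)) *
          ∏ p ∈ P, (1 - ((Om p).card : ℝ) / p)) + E) (Q : Finset ℕ) :
    (∀ q ∈ Q, q.Prime ∧ q ∉ P ∧ Om q ⊆ range q) →
    ∀ (R : Finset ℕ) (c : ℕ → ℕ) (u w : ℕ), (∀ p ∈ R, p.Prime ∧ c p < p) →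
      Disjoint R (Q ∪ P) → u ≤ w →
      |(((Finset.Ico u w).filter
          (fun n => (∀ p ∈ R, n % p = c p) ∧ ∀ p ∈ Q ∪ P, n % p ∉ Om p)).card : ℝ)
        - (((w : ℝ) - u) / ∏ p ∈ R, (p : ℝ)) * ∏ p ∈ Q ∪ P, (1 - ((Om p).card : ℝ) / p)| ≤
        δ * ((((w : ℝ) - u) / ∏ p ∈ R, (p : ℝ)) *
          ∏ p ∈ Q ∪ P, (1 - ((Om p).card : ℝ) / p)) + (∏ q ∈ Q, (q : ℝ)) * E := by
  classical
  induction Q using Finset.induction_on with
  | empty =>
    intro _ R c u w hR hd huw
    rw [Finset.empty_union] at hd ⊢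
    rw [Finset.prod_empty, one_mul]
    exact base R c u w hR hd huw
  | insert q Q hqQ ih =>
    intro hQ R c u w hR hd huw
    obtain ⟨hq, hqP, hOq⟩ := hQ q (Finset.mem_insert_self _ _)
    have hqQP : q ∉ Q ∪ P := by
      rw [Finset.mem_union, not_or]
      exact ⟨hqQ, hqP⟩
    have hqR : q ∉ R := by
      intro h
      exact Finset.disjoint_left.1 hd h (Finset.mem_union_left _ (Finset.mem_insert_self _ _))
    have hne : ∀ p ∈ R, p ≠ q := by
      rintro p hp rfl
      exact hqR hp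
    have hdis : Disjoint (insert q R) (Q ∪ P) := by
      rw [Finset.disjoint_insert_left]
      refine ⟨hqQP, hd.mono_right ?_⟩
      exact Finset.union_subset_union (Finset.subset_insert _ _) (Finset.Subset.refl _)
    have ih' := ih (fun p hp => hQ p (Finset.mem_insert_of_mem hp))
    set S0 := (Finset.Ico u w).filter
          (fun n => (∀ p ∈ R, n % p = c p) ∧ ∀ p ∈ insert q Q ∪ P, n % p ∉ Om p) with hS0
    set t := range q \ Om q with ht
    have hcard : S0.card = ∑ r ∈ t, (S0.filter (fun n => n % q = r)).card := by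
      apply Finset.card_eq_sum_card_fiberwise
      intro n hn
      have hn' : n ∈ S0 := hn
      rw [hS0, Finset.mem_filter] at hn'
      have h1 := hn'.2.2 q (Finset.mem_union_left _ (Finset.mem_insert_self _ _))
      show n % q ∈ t
      rw [ht, Finset.mem_sdiff, Finset.mem_range]
      exact ⟨Nat.mod_lt _ hq.pos, h1⟩
    set ρ : ℝ := ∏ p ∈ Q ∪ P, (1 - ((Om p).card : ℝ) / p) with hrho
    set A : ℝ := ((w : ℝ) - u) / ∏ p ∈ R, (p : ℝ) with hA
    have hq0 : (0 : ℝ) < q := by exact_mod_cast hq.pos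
    have hterm : ∀ r ∈ t, |((S0.filter (fun n => n % q = r)).card : ℝ) - A / q * ρ| ≤
        δ * (A / q * ρ) + (∏ q ∈ Q, (q : ℝ)) * E := by
      intro r hr
      rw [ht, Finset.mem_sdiff, Finset.mem_range] at hr
      have h1 := ih' (insert q R) (Function.update c q r) u w (by
        intro p hp
        rw [Finset.mem_insert] at hp
        rcases hp with rfl | hp
        · refine ⟨hq, ?_⟩
          rw [Function.update_self]
          exact hr.1
        · refine ⟨(hR p hp).1, ?_⟩
          rw [Function.update_of_ne (hne p hp)]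
          exact (hR p hp).2) hdis huw
      have e1 : S0.filter (fun n => n % q = r) = (Finset.Ico u w).filter
          (fun n => (∀ p ∈ insert q R, n % p = Function.update c q r p) ∧
            ∀ p ∈ Q ∪ P, n % p ∉ Om p) := by
        ext n
        rw [hS0, Finset.filter_filter, Finset.mem_filter, Finset.mem_filter]
        constructor
        · rintro ⟨hn, ⟨h2, h3⟩, h4⟩
          refine ⟨hn, fun p hp => ?_, fun p hp => ?_⟩
          · rw [Finset.mem_insert] at hp
            rcases hp with rfl | hp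
            · rw [Function.update_self]
              exact h4
            · rw [Function.update_of_ne (hne p hp)]
              exact h2 p hp
          · apply h3
            rw [Finset.insert_union]
            exact Finset.mem_insert_of_mem hp
        · rintro ⟨hn, h2, h3⟩
          have h4 : n % q = r := by
            have := h2 q (Finset.mem_insert_self _ _)
            rwa [Function.update_self] at this
          refine ⟨hn, ⟨fun p hp => ?_, fun p hp => ?_⟩, h4⟩
          · have := h2 p (Finset.mem_insert_of_mem hp)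
            rwa [Function.update_of_ne (hne p hp)] at this
          · rw [Finset.insert_union, Finset.mem_insert] at hp
            rcases hp with rfl | hp
            · rw [h4]
              exact hr.2
            · exact h3 p hp
      rw [Finset.prod_insert hqR, mul_comm (q : ℝ), ← div_div, ← hA, ← e1] at h1
      exact h1
    have htc : (t.card : ℝ) = q - (Om q).card := by
      rw [ht, Finset.card_sdiff_of_subset hOq, Finset.card_range]
      have : (Om q).card ≤ q := by
        have := Finset.card_le_card hOq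
        rwa [Finset.card_range] at this
      push_cast [this]
      ring
    have hsum : |(S0.card : ℝ) - (t.card : ℝ) * (A / q * ρ)| ≤
        (t.card : ℝ) * (δ * (A / q * ρ) + (∏ q ∈ Q, (q : ℝ)) * E) := by
      have e1 : (S0.card : ℝ) - (t.card : ℝ) * (A / q * ρ) =
          ∑ r ∈ t, (((S0.filter (fun n => n % q = r)).card : ℝ) - A / q * ρ) := by
        rw [Finset.sum_sub_distrib, Finset.sum_const, nsmul_eq_mul, hcard]
        push_cast
        ring
      rw [e1]
      refine (Finset.abs_sum_le_sum_abs _ _).trans ?_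
      refine (Finset.sum_le_sum hterm).trans ?_
      rw [Finset.sum_const, nsmul_eq_mul]
    rw [Finset.insert_union, Finset.prod_insert hqQP, ← hrho, Finset.prod_insert hqQ]
    have e2 : (t.card : ℝ) * (A / q * ρ) = A * ((1 - ((Om q).card : ℝ) / q) * ρ) := by
      rw [htc]
      field_simp
    have hle : (t.card : ℝ) ≤ q := by
      rw [htc]
      have : (0 : ℝ) ≤ (Om q).card := Nat.cast_nonneg _
      linarith
    have hpQ : 0 ≤ ∏ q ∈ Q, (q : ℝ) := Finset.prod_nonneg fun p _ => Nat.cast_nonneg p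
    rw [← e2]
    refine hsum.trans ?_
    have h5 : (t.card : ℝ) * ((∏ q ∈ Q, (q : ℝ)) * E) ≤ q * ((∏ q ∈ Q, (q : ℝ)) * E) :=
      mul_le_mul_of_nonneg_right hle (mul_nonneg hpQ hE)
    have e3 : (t.card : ℝ) * (δ * (A / q * ρ) + (∏ q ∈ Q, (q : ℝ)) * E) =
        δ * ((t.card : ℝ) * (A / q * ρ)) + (t.card : ℝ) * ((∏ q ∈ Q, (q : ℝ)) * E) := by ring
    rw [e3]
    have e4 : (q : ℝ) * (∏ q ∈ Q, (q : ℝ)) * E = q * ((∏ q ∈ Q, (q : ℝ)) * E) := by ring
    rw [e4]
    linarith

/-- the forbidden residue classes -/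
def omH (H : Finset ℕ) (q : ℕ) : Finset ℕ := (H.image (fun h => h % q)).image (fun x => (q - x) % q)

lemma omH_card (H : Finset ℕ) (q : ℕ) (hq : 0 < q) : (omH H q).card = nu H q := by
  unfold omH nu
  apply Finset.card_image_of_injOn
  intro x hx y hy hxy
  have hx' : x < q := by
    have : x ∈ H.image (fun h => h % q) := hx
    rw [Finset.mem_image] at this
    obtain ⟨h, -, rfl⟩ := this
    exact Nat.mod_lt _ hq
  have hy' : y < q := by
    have : y ∈ H.image (fun h => h % q) := hy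
    rw [Finset.mem_image] at this
    obtain ⟨h, -, rfl⟩ := this
    exact Nat.mod_lt _ hq
  have hxy' : (q - x) % q = (q - y) % q := hxy
  rcases Nat.eq_zero_or_pos x with hx0 | hx0
  · rcases Nat.eq_zero_or_pos y with hy0 | hy0
    · rw [hx0, hy0]
    · rw [hx0, Nat.sub_zero, Nat.mod_self, Nat.mod_eq_of_lt (by omega)] at hxy'
      omega
  · rcases Nat.eq_zero_or_pos y with hy0 | hy0
    · rw [hy0, Nat.sub_zero, Nat.mod_self, Nat.mod_eq_of_lt (by omega)] at hxy'
      omega
    · rw [Nat.mod_eq_of_lt (by omega), Nat.mod_eq_of_lt (by omega)] at hxy'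
      omega

lemma omH_sub (H : Finset ℕ) (q : ℕ) (hq : 0 < q) : omH H q ⊆ range q := by
  intro x hx
  unfold omH at hx
  rw [Finset.mem_image] at hx
  obtain ⟨y, -, rfl⟩ := hx
  rw [Finset.mem_range]
  exact Nat.mod_lt _ hq

lemma omH_mem (H : Finset ℕ) (q : ℕ) (hq : 0 < q) (n : ℕ) :
    n % q ∉ omH H q ↔ ∀ h ∈ H, ¬ q ∣ n + h := by
  have key : ∀ h : ℕ, n % q = (q - h % q) % q ↔ q ∣ n + h := by
    intro h
    rw [Nat.dvd_iff_mod_eq_zero, Nat.add_mod]
    have hx : h % q < q := Nat.mod_lt _ hq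
    have hy : n % q < q := Nat.mod_lt _ hq
    generalize h % q = x at hx ⊢
    generalize n % q = y at hy ⊢
    rcases Nat.eq_zero_or_pos x with hx0 | hx0
    · rw [hx0, Nat.sub_zero, Nat.mod_self, Nat.add_zero, Nat.mod_eq_of_lt hy]
    · rw [Nat.mod_eq_of_lt (by omega : q - x < q)]
      rcases lt_or_ge (y + x) q with h1 | h1
      · rw [Nat.mod_eq_of_lt h1]
        omega
      · rw [Nat.mod_eq_sub_mod h1, Nat.mod_eq_of_lt (by omega)]
        omega
  unfold omH
  rw [Finset.mem_image]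
  constructor
  · intro h1 h hh hd
    apply h1
    exact ⟨h % q, Finset.mem_image_of_mem _ hh, ((key h).2 hd).symm⟩
  · rintro h1 ⟨x, hx, hx2⟩
    rw [Finset.mem_image] at hx
    obtain ⟨h, hh, rfl⟩ := hx
    exact h1 h hh ((key h).1 hx2.symm)

theorem t_CNTH : s_CNTH := by
  classical
  intro H hH ε hε
  obtain ⟨C0, hC0, hl⟩ := cnth_large H.card
  obtain ⟨n, hn⟩ := exists_pow_lt_of_lt_one hε (by norm_num : (1 / 2 : ℝ) < 1)
  set b : ℕ := C0 + n with hb
  have hbε : ((1 : ℝ) / 2) ^ b ≤ ε :=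
    (pow_le_pow_of_le_one (by norm_num) (by norm_num) (by omega)).trans hn.le
  refine ⟨C0 ^ C0 + (1 + 4 * (C0 * b)), ?_⟩
  intro v u w huw
  obtain ⟨J, hJ1, hJ2, hJ3⟩ := exists_J v
  set P : Finset ℕ := (Finset.Icc 1 v).filter (fun q => q.Prime ∧ C0 < q) with hP
  set Q : Finset ℕ := (Finset.Icc 1 v).filter (fun q => q.Prime ∧ ¬ C0 < q) with hQ
  have hU : Q ∪ P = (Finset.Icc 1 v).filter Nat.Prime := by
    ext q
    rw [Finset.mem_union, hP, hQ, Finset.mem_filter, Finset.mem_filter, Finset.mem_filter]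
    tauto
  set E : ℝ := ((J : ℝ) + 2) * (((2 ^ 2 ^ J : ℕ) : ℝ) ^ (C0 * b)) ^ 2 with hE
  have hE0 : 0 ≤ E := by positivity
  have hbase := hl b J P (omH H) (by omega) (by
      intro p hp
      rw [hP, Finset.mem_filter, Finset.mem_Icc] at hp
      exact ⟨hp.2.1, hp.2.2, hp.1.2.trans hJ1⟩) (by
      intro p hp
      rw [hP, Finset.mem_filter] at hp
      refine ⟨omH_sub H p hp.2.1.pos, ?_⟩
      rw [omH_card H p hp.2.1.pos]
      exact Finset.card_image_le)
  have h0 := cnth_ind P (omH H) ((1 / 2) ^ b) E hE0 hbase Q (by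
      intro q hq
      rw [hQ, Finset.mem_filter] at hq
      refine ⟨hq.2.1, fun hq' => ?_, omH_sub H q hq.2.1.pos⟩
      rw [hP, Finset.mem_filter] at hq'
      exact hq.2.2 hq'.2.2) ∅ (fun _ => 0) u w (by simp) (Finset.disjoint_empty_left _) huw
  have h2 : ((Finset.Ico u w).filter
      (fun n => ∀ q ∈ Finset.Icc 1 v, q.Prime → ∀ h ∈ H, ¬ q ∣ n + h)) =
      (Finset.Ico u w).filter (fun n => (∀ p ∈ (∅ : Finset ℕ), n % p = (fun _ => 0) p) ∧
        ∀ p ∈ Q ∪ P, n % p ∉ omH H p) := by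
    refine Finset.filter_congr fun n _ => ?_
    constructor
    · intro h
      refine ⟨by simp, fun q hq => ?_⟩
      rw [hU, Finset.mem_filter] at hq
      exact (omH_mem H q hq.2.pos n).2 (h q hq.1 hq.2)
    · rintro ⟨-, h⟩ q hq hp
      exact (omH_mem H q hp.pos n).1 (h q (by rw [hU, Finset.mem_filter]; exact ⟨hq, hp⟩))
  have h3 : ∏ p ∈ Q ∪ P, (1 - ((omH H p).card : ℝ) / p) = Pr H v := by
    unfold Pr
    rw [hU]
    refine Finset.prod_congr rfl fun p hp => ?_
    rw [Finset.mem_filter] at hp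
    rw [omH_card H p hp.2.pos]
  rw [h2]
  rw [h3, Finset.prod_empty, div_one] at h0
  refine h0.trans ?_
  have hL : 0 ≤ (w : ℝ) - u := by
    have : (u : ℝ) ≤ w := by exact_mod_cast huw
    linarith
  have hπ0 : 0 ≤ Pr H v := by
    unfold Pr
    refine Finset.prod_nonneg fun p hp => ?_
    rw [Finset.mem_filter] at hp
    have h1 := hH.2 p hp.2
    have h4 : (0 : ℝ) < p := by exact_mod_cast hp.2.pos
    have h5 : (nu H p : ℝ) / p ≤ 1 := by
      rw [div_le_one h4]
      exact_mod_cast h1.le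
    linarith
  have hrel : (1 / 2 : ℝ) ^ b * (((w : ℝ) - u) * Pr H v) ≤ ε * (((w : ℝ) - u) * Pr H v) :=
    mul_le_mul_of_nonneg_right hbε (mul_nonneg hL hπ0)
  have hv2 : (2 : ℝ) ≤ (v : ℝ) + 2 := by
    have : (0 : ℝ) ≤ v := Nat.cast_nonneg _
    linarith
  have hEb : E ≤ ((v : ℝ) + 2) ^ (1 + 4 * (C0 * b)) := by
    have h4 : ((J : ℝ) + 2) ≤ (v : ℝ) + 2 := by
      have : (J : ℝ) ≤ v := by exact_mod_cast hJ2
      linarith
    have h5 : (((2 ^ 2 ^ J : ℕ) : ℝ) ^ (C0 * b)) ^ 2 ≤ ((((v : ℝ) + 2) ^ 2) ^ (C0 * b)) ^ 2 := by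
      have h6 : ((2 ^ 2 ^ J : ℕ) : ℝ) ≤ ((v : ℝ) + 2) ^ 2 := by exact_mod_cast hJ3
      exact pow_le_pow_left₀ (by positivity) (pow_le_pow_left₀ (by positivity) h6 _) _
    calc E ≤ ((v : ℝ) + 2) * ((((v : ℝ) + 2) ^ 2) ^ (C0 * b)) ^ 2 :=
          mul_le_mul h4 h5 (by positivity) (by linarith)
      _ = ((v : ℝ) + 2) ^ (1 + 4 * (C0 * b)) := by
          rw [← pow_mul, ← pow_mul, pow_add, pow_one]
          congr 2
          ring
  have hQp : (∏ q ∈ Q, (q : ℝ)) ≤ ((v : ℝ) + 2) ^ (C0 ^ C0) := by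
    have h4 : ∏ q ∈ Q, q ≤ C0 ^ C0 := by
      have h5 : ∏ q ∈ Q, q ≤ C0 ^ Q.card := by
        apply Finset.prod_le_pow_card
        intro q hq
        rw [hQ, Finset.mem_filter] at hq
        omega
      have h6 : Q.card ≤ C0 := by
        have h1 : Q ⊆ Finset.Icc 1 C0 := by
          intro q hq
          rw [hQ, Finset.mem_filter, Finset.mem_Icc] at hq
          rw [Finset.mem_Icc]
          exact ⟨hq.1.1, by omega⟩
        have h2 := Finset.card_le_card h1
        rwa [Nat.card_Icc, Nat.add_sub_cancel] at h2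
      exact h5.trans (Nat.pow_le_pow_right hC0 h6)
    have h7 : C0 ^ C0 ≤ 2 ^ (C0 ^ C0) := Nat.lt_two_pow_self.le
    calc (∏ q ∈ Q, (q : ℝ)) = ((∏ q ∈ Q, q : ℕ) : ℝ) := by push_cast; rfl
      _ ≤ ((2 ^ (C0 ^ C0) : ℕ) : ℝ) := by exact_mod_cast h4.trans h7
      _ = (2 : ℝ) ^ (C0 ^ C0) := by push_cast; rfl
      _ ≤ ((v : ℝ) + 2) ^ (C0 ^ C0) := pow_le_pow_left₀ (by norm_num) hv2 _
  have habs : (∏ q ∈ Q, (q : ℝ)) * E ≤ ((v : ℝ) + 2) ^ (C0 ^ C0 + (1 + 4 * (C0 * b))) := by
    rw [pow_add]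
    exact mul_le_mul hQp hEb hE0 (by positivity)
  linarith

end Pool.Agent.J6H40.KT
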