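import Pool.Agent.J6H40.KT.Stm

set_option autoImplicit false
set_option linter.unusedSectionVars false

/-!
# GU: the weights of the upper part
-/

open MeasureTheory Filter

namespace Pool.Agent.J6H40.KT

open Pool.Agent.J6H40.WG2

namespace GU

variable {Ω : Type} [mΩ : MeasurableSpace Ω] {μ : Measure Ω} [IsProbabilityMeasure μ]
  {ℱ : Filtration ℕ mΩ} {S : ℕ → Set Ω}

/-- the event that the bounds hold up to the time `m` -/
def V (μ : Measure Ω) (ℱ : Filtration ℕ mΩ) (S : ℕ → Set Ω) (U : Finset ℕ) (pm pp : ℕ → ℝ)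
    (m : ℕ) : Set Ω :=
  {ω | ∀ k ∈ U, k ≤ m → pm k ≤ cp μ ℱ S k ω ∧ cp μ ℱ S k ω ≤ pp k}

theorem cp_meas (μ : Measure Ω) (ℱ : Filtration ℕ mΩ) (S : ℕ → Set Ω) {k m : ℕ} (h : k ≤ m) :
    Measurable[ℱ (m - 1)] (cp μ ℱ S k) := by
  have h1 : StronglyMeasurable[ℱ (k - 1)] (cp μ ℱ S k) := stronglyMeasurable_condExp
  exact (h1.mono (ℱ.mono (by omega))).measurable

theorem V_meas (U : Finset ℕ) (pm pp : ℕ → ℝ) (m : ℕ) :
    MeasurableSet[ℱ (m - 1)] (V μ ℱ S U pm pp m) := by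
  have h1 : V μ ℱ S U pm pp m =
      ⋂ k ∈ U, {ω | k ≤ m → pm k ≤ cp μ ℱ S k ω ∧ cp μ ℱ S k ω ≤ pp k} := by
    ext ω
    simp [V]
  rw [h1]
  refine Finset.measurableSet_biInter _ fun k _ => ?_
  by_cases hk : k ≤ m
  · simp only [hk, true_imp_iff]
    have h2 := measurableSet_le (@measurable_const _ _ _ (ℱ (m - 1)) (pm k)) (cp_meas μ ℱ S hk)
    have h3 := measurableSet_le (cp_meas μ ℱ S hk) (@measurable_const _ _ _ (ℱ (m - 1)) (pp k))
    exact MeasurableSet.inter h2 h3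
  · simp only [hk, false_imp_iff]
    exact MeasurableSet.univ

open Classical in
/-- the indicator function of `V` -/
noncomputable def e (μ : Measure Ω) (ℱ : Filtration ℕ mΩ) (S : ℕ → Set Ω) (U : Finset ℕ)
    (pm pp : ℕ → ℝ) (m : ℕ) (ω : Ω) : ℝ := if ω ∈ V μ ℱ S U pm pp m then 1 else 0

theorem e_meas (U : Finset ℕ) (pm pp : ℕ → ℝ) (m : ℕ) :
    Measurable[ℱ (m - 1)] (e μ ℱ S U pm pp m) := by
  classical
  unfold e
  exact Measurable.ite (V_meas U pm pp m) measurable_const measurable_const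

variable {U : Finset ℕ} {pm pp : ℕ → ℝ} {m : ℕ}

theorem e_bound (ω : Ω) : 0 ≤ e μ ℱ S U pm pp m ω ∧ e μ ℱ S U pm pp m ω ≤ 1 := by
  unfold e
  split_ifs <;> norm_num

theorem gu_eq (ω : Ω) : gu μ ℱ S U pm pp m ω =
    e μ ℱ S U pm pp m ω * (S m).indicator (fun _ => (1 : ℝ)) ω +
      (1 - e μ ℱ S U pm pp m ω) * pm m := by
  classical
  unfold gu e
  by_cases hV : ω ∈ V μ ℱ S U pm pp m
  · have hV' : ∀ k ∈ U, k ≤ m → pm k ≤ cp μ ℱ S k ω ∧ cp μ ℱ S k ω ≤ pp k := hV
    rw [if_pos hV', if_pos hV]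
    by_cases hS : ω ∈ S m
    · rw [if_pos hS, Set.indicator_of_mem hS]
      ring
    · rw [if_neg hS, Set.indicator_of_notMem hS]
      ring
  · have hV' : ¬ ∀ k ∈ U, k ≤ m → pm k ≤ cp μ ℱ S k ω ∧ cp μ ℱ S k ω ≤ pp k := hV
    rw [if_neg hV', if_neg hV]
    ring

theorem int_of (f : Ω → ℝ) (C : ℝ) (hf : Measurable f) (hC : ∀ ω, |f ω| ≤ C) :
    Integrable f μ :=
  Integrable.of_bound hf.aestronglyMeasurable C (Filter.Eventually.of_forall fun ω => hC ω)

end GU

open GU in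
theorem t_GU (h1 : s_PULL) : s_GU := by
  intro Ω mΩ μ _ ℱ S hS U pm pp hU m hm
  obtain ⟨hm1, hp0, hpp, hp1⟩ := hU m hm
  have hle : ℱ (m - 1) ≤ mΩ := ℱ.le _
  have hem : Measurable (e μ ℱ S U pm pp m) := (e_meas U pm pp m).mono hle le_rfl
  have hind : Measurable (fun ω => (S m).indicator (fun _ => (1 : ℝ)) ω) :=
    (measurable_const.indicator (ℱ.le m _ (hS m)))
  have hcpi : Integrable (cp μ ℱ S m) μ := integrable_condExp
  have heb : ∀ ω, |e μ ℱ S U pm pp m ω| ≤ 1 := fun ω => by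
    rw [abs_of_nonneg (e_bound ω).1]
    exact (e_bound ω).2
  have hib : ∀ ω, |(S m).indicator (fun _ => (1 : ℝ)) ω| ≤ 1 := fun ω => by
    by_cases hS' : ω ∈ S m
    · rw [Set.indicator_of_mem hS', abs_one]
    · rw [Set.indicator_of_notMem hS', abs_zero]
      norm_num
  refine ⟨?_, ?_, ?_⟩
  · have hmono : ℱ (m - 1) ≤ ℱ m := ℱ.mono (by omega)
    have he' : Measurable[ℱ m] (e μ ℱ S U pm pp m) := (e_meas U pm pp m).mono hmono le_rfl
    have hi' : Measurable[ℱ m] (fun ω => (S m).indicator (fun _ => (1 : ℝ)) ω) :=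
      (@measurable_const _ _ _ (ℱ m) (1 : ℝ)).indicator (hS m)
    have hg : Measurable[ℱ m] (gu μ ℱ S U pm pp m) := by
      have : gu μ ℱ S U pm pp m = fun ω =>
          e μ ℱ S U pm pp m ω * (S m).indicator (fun _ => (1 : ℝ)) ω +
            (1 - e μ ℱ S U pm pp m ω) * pm m := funext fun ω => gu_eq ω
      rw [this]
      exact (he'.mul hi').add ((measurable_const.sub he').mul_const _)
    exact hg.stronglyMeasurable
  · intro ω
    classical
    unfold gu
    split_ifs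
    · norm_num
    · norm_num
    · exact ⟨hp0, hpp.trans hp1⟩
  · intro f hf hf0 hfC
    obtain ⟨C, hC⟩ := hfC
    have hfC' : ∀ ω, |f ω| ≤ C := fun ω => by
      rw [abs_of_nonneg (hf0 ω)]
      exact hC ω
    have hfm : Measurable f := (hf.measurable).mono hle le_rfl
    have hes : StronglyMeasurable[ℱ (m - 1)] (e μ ℱ S U pm pp m) :=
      (e_meas U pm pp m).stronglyMeasurable
    have hfe : StronglyMeasurable[ℱ (m - 1)] (fun ω => f ω * e μ ℱ S U pm pp m ω) := hf.mul hes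
    have hfeC : ∀ ω, |f ω * e μ ℱ S U pm pp m ω| ≤ C * 1 := by
      intro ω
      rw [abs_mul]
      exact mul_le_mul (hfC' ω) (heb ω) (abs_nonneg _) ((abs_nonneg _).trans (hfC' ω))
    have hpull := h1 Ω μ ℱ S hS m (fun ω => f ω * e μ ℱ S U pm pp m ω) (C * 1) hfe hfeC
    have i1 : Integrable (fun ω => f ω * e μ ℱ S U pm pp m ω *
        (S m).indicator (fun _ => (1 : ℝ)) ω) μ := by
      refine int_of _ (C * 1 * 1) ((hfm.mul hem).mul hind) fun ω => ?_
      rw [abs_mul]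
      exact mul_le_mul (hfeC ω) (hib ω) (abs_nonneg _) ((abs_nonneg _).trans (hfeC ω))
    have i2 : Integrable (fun ω => f ω * (1 - e μ ℱ S U pm pp m ω) * pm m) μ := by
      refine int_of _ (C * 1 * |pm m|) ((hfm.mul (measurable_const.sub hem)).mul_const _)
        fun ω => ?_
      rw [abs_mul, abs_mul]
      have h2 : |1 - e μ ℱ S U pm pp m ω| ≤ 1 := by
        rw [abs_le]
        have := e_bound (μ := μ) (ℱ := ℱ) (S := S) (U := U) (pm := pm) (pp := pp) (m := m) ω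
        constructor <;> linarith
      exact mul_le_mul_of_nonneg_right (mul_le_mul (hfC' ω) h2 (abs_nonneg _)
        ((abs_nonneg _).trans (hfC' ω))) (abs_nonneg _)
    have i3 : Integrable (fun ω => f ω * e μ ℱ S U pm pp m ω * cp μ ℱ S m ω) μ :=
      hcpi.bdd_mul (hfm.mul hem).aestronglyMeasurable (Filter.Eventually.of_forall hfeC)
    have hmain : ∫ ω, f ω * gu μ ℱ S U pm pp m ω ∂μ =
        ∫ ω, (f ω * e μ ℱ S U pm pp m ω * cp μ ℱ S m ω +
          f ω * (1 - e μ ℱ S U pm pp m ω) * pm m) ∂μ := by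
      calc ∫ ω, f ω * gu μ ℱ S U pm pp m ω ∂μ
          = ∫ ω, (f ω * e μ ℱ S U pm pp m ω * (S m).indicator (fun _ => (1 : ℝ)) ω +
            f ω * (1 - e μ ℱ S U pm pp m ω) * pm m) ∂μ := by
            congr 1
            funext ω
            rw [gu_eq]
            ring
        _ = ∫ ω, f ω * e μ ℱ S U pm pp m ω * (S m).indicator (fun _ => (1 : ℝ)) ω ∂μ +
            ∫ ω, f ω * (1 - e μ ℱ S U pm pp m ω) * pm m ∂μ := integral_add i1 i2
        _ = ∫ ω, f ω * e μ ℱ S U pm pp m ω * cp μ ℱ S m ω ∂μ +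
            ∫ ω, f ω * (1 - e μ ℱ S U pm pp m ω) * pm m ∂μ := by rw [hpull]
        _ = _ := (integral_add i3 i2).symm
    have hfi : Integrable f μ := int_of f C hfm hfC'
    rw [hmain, ← integral_const_mul, ← integral_const_mul]
    have hpt : ∀ ω, pm m * f ω ≤ f ω * e μ ℱ S U pm pp m ω * cp μ ℱ S m ω +
          f ω * (1 - e μ ℱ S U pm pp m ω) * pm m ∧
        f ω * e μ ℱ S U pm pp m ω * cp μ ℱ S m ω +
          f ω * (1 - e μ ℱ S U pm pp m ω) * pm m ≤ pp m * f ω := by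
      intro ω
      classical
      unfold e
      by_cases hV : ω ∈ V μ ℱ S U pm pp m
      · rw [if_pos hV]
        obtain ⟨h2, h3⟩ := hV m hm le_rfl
        constructor
        · nlinarith [mul_le_mul_of_nonneg_left h2 (hf0 ω)]
        · nlinarith [mul_le_mul_of_nonneg_left h3 (hf0 ω)]
      · rw [if_neg hV]
        constructor
        · nlinarith
        · nlinarith [mul_le_mul_of_nonneg_left hpp (hf0 ω)]
    exact ⟨integral_mono (hfi.const_mul _) (i3.add i2) fun ω => (hpt ω).1,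
      integral_mono (i3.add i2) (hfi.const_mul _) fun ω => (hpt ω).2⟩

end Pool.Agent.J6H40.KT
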