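import Pool.Agent.J6H40.KT.Stm

set_option autoImplicit false

/-!
# Module L1: avoiding patterns (helper20)
-/

open MeasureTheory Filter
open scoped Topology

namespace Pool.Agent.J6H40.KT

open Pool.Agent.J6H40.WG2

namespace L1aux

variable {Ω : Type} [mΩ : MeasurableSpace Ω]

/-- all bounds hold up to the time `m` -/
def Vs (μ : Measure Ω) (ℱ : Filtration ℕ mΩ) (S : ℕ → Set Ω) (U : Finset ℕ) (pp : ℕ → ℝ) (m : ℕ) :
    Set Ω := {ω | ∀ k ∈ U, k ≤ m → cp μ ℱ S k ω ≤ pp k}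

/-- a pattern can be completed at the time `m` -/
def Cs (S : ℕ → Set Ω) (H R : Finset ℕ) (m : ℕ) : Set Ω :=
  {ω | dm H ≤ m ∧ m - dm H ∈ R ∧ ∀ h ∈ H, h < dm H → ω ∈ S (m - dm H + h)}

theorem meas_Vs (μ : Measure Ω) (ℱ : Filtration ℕ mΩ) (S : ℕ → Set Ω) (U : Finset ℕ) (pp : ℕ → ℝ)
    (m : ℕ) : MeasurableSet[ℱ m] (Vs μ ℱ S U pp m) := by
  have h1 : Vs μ ℱ S U pp m = ⋂ k ∈ U.filter (fun k => k ≤ m), {ω | cp μ ℱ S k ω ≤ pp k} := by
    ext ω
    simp only [Vs, Set.mem_iInter, Finset.mem_filter]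
    exact ⟨fun h k hk => h k hk.1 hk.2, fun h k hk hkm => h k ⟨hk, hkm⟩⟩
  rw [h1]
  refine Finset.measurableSet_biInter _ fun k hk => ?_
  have hkm : k ≤ m := (Finset.mem_filter.1 hk).2
  have h2 : Measurable[ℱ m] (cp μ ℱ S k) := by
    have h3 : Measurable[ℱ (k - 1)] (cp μ ℱ S k) := stronglyMeasurable_condExp.measurable
    exact h3.mono (ℱ.mono (by omega)) le_rfl
  exact h2 measurableSet_Iic

theorem meas_Cs (ℱ : Filtration ℕ mΩ) (S : ℕ → Set Ω) (hS : ∀ n, MeasurableSet[ℱ n] (S n))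
    (H R : Finset ℕ) (m : ℕ) : MeasurableSet[ℱ (m - 1)] (Cs S H R m) := by
  by_cases h : dm H ≤ m ∧ m - dm H ∈ R
  · have h1 : Cs S H R m = ⋂ k ∈ H.filter (fun k => k < dm H), S (m - dm H + k) := by
      ext ω
      simp only [Cs, Set.mem_iInter, Finset.mem_filter]
      exact ⟨fun h k hk => h.2.2 k hk.1 hk.2, fun h' => ⟨h.1, h.2, fun k hk hkm => h' k ⟨hk, hkm⟩⟩⟩
    rw [h1]
    refine Finset.measurableSet_biInter _ fun k hk => ?_
    have hkm : k < dm H := (Finset.mem_filter.1 hk).2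
    exact ℱ.mono (by omega) _ (hS _)
  · have h1 : Cs S H R m = ∅ := by
      ext ω
      simp only [Cs, Set.mem_empty_iff_false, iff_false]
      exact fun h' => h ⟨h'.1, h'.2.1⟩
    rw [h1]
    exact @MeasurableSet.empty _ (ℱ (m - 1))

theorem integrable_bdd {μ : Measure Ω} [IsProbabilityMeasure μ] {f : Ω → ℝ} (hf : Measurable f)
    (C : ℝ) (h : ∀ ω, |f ω| ≤ C) : Integrable f μ :=
  Integrable.of_bound hf.aestronglyMeasurable C (ae_of_all _ h)

end L1aux

open L1aux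

theorem t_L1 (h1 : s_LW) (h2 : s_PRD) : s_L1 := by
  classical
  intro Ω mΩ μ _ ℱ S hS H R y A pp η hH hη hA hR
  -- the maximum of H
  have hDH : dm H ∈ H := by
    obtain ⟨b, hb, hb2⟩ := Finset.exists_mem_eq_sup H hH id
    unfold dm
    rw [hb2]
    exact hb
  have hDmax : ∀ h ∈ H, h ≤ dm H := fun h hh => Finset.le_sup (f := id) hh
  obtain ⟨D, hD⟩ : ∃ D, D = dm H := ⟨_, rfl⟩
  -- the times
  obtain ⟨U, hUdef⟩ : ∃ U, U = R.biUnion (fun n => H.image (fun h => n + h)) := ⟨_, rfl⟩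
  have hUmem : ∀ m, m ∈ U ↔ ∃ n ∈ R, ∃ h ∈ H, n + h = m := by
    intro m
    rw [hUdef]
    simp only [Finset.mem_biUnion, Finset.mem_image]
  have hU : ∀ m ∈ U, y < m ∧ 0 ≤ pp m ∧ pp m ≤ 1 / 2 ∧
      Real.exp (-((1 + η) * pp m)) ≤ 1 - pp m := by
    intro m hm
    obtain ⟨n, hn, h, hh, rfl⟩ := (hUmem m).1 hm
    exact hR n hn h hh
  have hRU : ∀ n ∈ R, ∀ h ∈ H, n + h ∈ U := fun n hn h hh => (hUmem _).2 ⟨n, hn, h, hh, rfl⟩
  -- the weights
  have hLW := h1 Ω μ ℱ S hS (Cs S H R) U pp (fun m hm =>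
    ⟨by have := (hU m hm).1; omega, (hU m hm).2.1, (hU m hm).2.2.1, meas_Cs ℱ S hS H R m⟩)
  obtain ⟨w, hw⟩ : ∃ w : ℕ → Ω → ℝ, w = fun m => lw μ ℱ S (Cs S H R) U pp m := ⟨_, rfl⟩
  have hwm : ∀ m ∈ U, StronglyMeasurable[ℱ m] (w m) := fun m hm => by rw [hw]; exact (hLW m hm).1
  have hw0 : ∀ m ∈ U, ∀ ω, 0 ≤ w m ω ∧ w m ω ≤ 2 := fun m hm => by rw [hw]; exact (hLW m hm).2.1
  have hwf : ∀ m ∈ U, ∀ f : Ω → ℝ, StronglyMeasurable[ℱ (m - 1)] f → (∀ ω, 0 ≤ f ω) →
      (∃ K : ℝ, ∀ ω, f ω ≤ K) → ∫ ω, f ω * w m ω ∂μ = ∫ ω, f ω ∂μ ∧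
      ∫ ω, f ω * (w m ω * (S m ∩ Vs μ ℱ S U pp m).indicator (fun _ => (1 : ℝ)) ω) ∂μ ≤
        pp m * ∫ ω, f ω ∂μ := fun m hm => by rw [hw]; exact (hLW m hm).2.2
  have hwmeas : ∀ m ∈ U, Measurable (w m) := fun m hm => ((hwm m hm).mono (ℱ.le m)).measurable
  -- the indicator of A
  obtain ⟨iA, hiA⟩ : ∃ iA : Ω → ℝ, iA = A.indicator (fun _ => (1 : ℝ)) := ⟨_, rfl⟩
  have hAm : MeasurableSet A := ℱ.le y _ hA
  have hiAm : StronglyMeasurable[ℱ y] iA := by
    rw [hiA]
    exact (@stronglyMeasurable_const _ _ (ℱ y) _ _).indicator hA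
  have hiA01 : ∀ ω, 0 ≤ iA ω ∧ iA ω ≤ 1 := by
    intro ω
    rw [hiA]
    by_cases h : ω ∈ A
    · rw [Set.indicator_of_mem h]
      norm_num
    · rw [Set.indicator_of_notMem h]
      norm_num
  have hiAmeas : Measurable iA := (hiAm.mono (ℱ.le y)).measurable
  have hiAint : ∫ ω, iA ω ∂μ = μ.real A := by
    rw [hiA, integral_indicator_const _ hAm]
    simp
  -- the product
  obtain ⟨M, hM⟩ : ∃ M : Ω → ℝ, M = fun ω => ∏ m ∈ U, w m ω := ⟨_, rfl⟩
  have hMmeas : Measurable M := by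
    rw [hM]
    exact Finset.measurable_prod _ fun m hm => hwmeas m hm
  have hM0 : ∀ ω, 0 ≤ M ω := fun ω => by
    rw [hM]
    exact Finset.prod_nonneg fun m hm => (hw0 m hm ω).1
  have hMb : ∀ ω, M ω ≤ 2 ^ U.card := fun ω => by
    rw [hM, ← Finset.prod_const]
    exact Finset.prod_le_prod (fun m hm => (hw0 m hm ω).1) fun m hm => (hw0 m hm ω).2
  have hMint : ∫ ω, iA ω * M ω ∂μ = μ.real A := by
    have h3 := h2 Ω μ ℱ w (fun _ => 1) U y iA 1 hiAm hiA01
      (fun m hm => ⟨(hU m hm).1, hwm m hm, hw0 m hm, zero_le_one⟩)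
    have h4 := h3.1 (fun m hm f hf hf0 hfb => by
      rw [one_mul]
      exact (hwf m hm f hf hf0 hfb).1.le)
    have h5 := h3.2 (fun m hm f hf hf0 hfb => by
      rw [one_mul]
      exact (hwf m hm f hf hf0 hfb).1.ge)
    rw [Finset.prod_const_one, one_mul] at h4 h5
    rw [← hiAint, hM]
    exact le_antisymm h4 h5
  -- the events C ∩ V
  obtain ⟨ind, hind⟩ : ∃ ind : ℕ → Ω → ℝ, ind = fun m =>
    (Cs S H R m ∩ Vs μ ℱ S U pp m).indicator (fun _ => (1 : ℝ)) := ⟨_, rfl⟩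
  have hindm : ∀ m, Measurable (ind m) := by
    intro m
    rw [hind]
    exact measurable_const.indicator
      ((ℱ.le _ _ (meas_Cs ℱ S hS H R m)).inter (ℱ.le _ _ (meas_Vs μ ℱ S U pp m)))
  have hind01 : ∀ m ω, 0 ≤ ind m ω ∧ ind m ω ≤ 1 := by
    intro m ω
    rw [hind]
    show 0 ≤ (Cs S H R m ∩ Vs μ ℱ S U pp m).indicator (fun _ => (1 : ℝ)) ω ∧
      (Cs S H R m ∩ Vs μ ℱ S U pp m).indicator (fun _ => (1 : ℝ)) ω ≤ 1
    by_cases h : ω ∈ Cs S H R m ∩ Vs μ ℱ S U pp m
    · rw [Set.indicator_of_mem h]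
      norm_num
    · rw [Set.indicator_of_notMem h]
      norm_num
  -- the key integral
  have hkey : ∀ n ∈ R, ∫ ω, iA ω * M ω * ind (n + D) ω ∂μ ≤
      (∏ h ∈ H.erase D, pp (n + h)) * μ.real A := by
    intro n hn
    obtain ⟨P, hP⟩ : ∃ P, P = (H.erase D).image (fun h => n + h) := ⟨_, rfl⟩
    have hPU : P ⊆ U := by
      intro m hm
      rw [hP] at hm
      obtain ⟨h, hh, rfl⟩ := Finset.mem_image.1 hm
      exact hRU n hn h (Finset.mem_of_mem_erase hh)
    obtain ⟨g, hg⟩ : ∃ g : ℕ → Ω → ℝ, g = fun m ω => if m ∈ P then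
      w m ω * (S m ∩ Vs μ ℱ S U pp m).indicator (fun _ => (1 : ℝ)) ω else w m ω := ⟨_, rfl⟩
    have hgm : ∀ m ∈ U, StronglyMeasurable[ℱ m] (g m) := by
      intro m hm
      rw [hg]
      by_cases hmP : m ∈ P
      · simp only [if_pos hmP]
        exact (hwm m hm).mul ((@stronglyMeasurable_const _ _ (ℱ m) _ _).indicator
          ((hS m).inter (meas_Vs μ ℱ S U pp m)))
      · simp only [if_neg hmP]
        exact hwm m hm
    have hg0 : ∀ m ∈ U, ∀ ω, 0 ≤ g m ω ∧ g m ω ≤ 2 := by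
      intro m hm ω
      rw [hg]
      by_cases hmP : m ∈ P
      · simp only [if_pos hmP]
        by_cases h : ω ∈ S m ∩ Vs μ ℱ S U pp m
        · rw [Set.indicator_of_mem h, mul_one]
          exact hw0 m hm ω
        · rw [Set.indicator_of_notMem h, mul_zero]
          norm_num
      · simp only [if_neg hmP]
        exact hw0 m hm ω
    have h3 := (h2 Ω μ ℱ g (fun m => if m ∈ P then pp m else 1) U y iA 1 hiAm hiA01
      (fun m hm => ⟨(hU m hm).1, hgm m hm, hg0 m hm, by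
        by_cases hmP : m ∈ P
        · simp only [if_pos hmP]
          exact (hU m hm).2.1
        · simp only [if_neg hmP]
          exact zero_le_one⟩)).1 (fun m hm f hf hf0 hfb => by
        rw [hg]
        by_cases hmP : m ∈ P
        · simp only [if_pos hmP]
          exact (hwf m hm f hf hf0 hfb).2
        · simp only [if_neg hmP, one_mul]
          exact (hwf m hm f hf hf0 hfb).1.le)
    have h4 : ∏ m ∈ U, (if m ∈ P then pp m else 1) = ∏ h ∈ H.erase D, pp (n + h) := by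
      rw [Finset.prod_ite_mem, Finset.inter_eq_right.2 hPU, hP, Finset.prod_image]
      intro a _ b _ hab
      exact Nat.add_left_cancel hab
    rw [h4, hiAint] at h3
    refine le_trans (integral_mono ?_ ?_ ?_) h3
    · refine integrable_bdd ((hiAmeas.mul hMmeas).mul (hindm _)) (2 ^ U.card) fun ω => ?_
      rw [abs_of_nonneg (mul_nonneg (mul_nonneg (hiA01 ω).1 (hM0 ω)) (hind01 _ ω).1)]
      calc iA ω * M ω * ind (n + D) ω ≤ 1 * 2 ^ U.card * 1 := by
            refine mul_le_mul (mul_le_mul (hiA01 ω).2 (hMb ω) (hM0 ω) zero_le_one)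
              (hind01 _ ω).2 (hind01 _ ω).1 (by positivity)
        _ = 2 ^ U.card := by ring
    · have hgmeas : Measurable (fun ω => ∏ m ∈ U, g m ω) :=
        Finset.measurable_prod _ fun m hm => ((hgm m hm).mono (ℱ.le m)).measurable
      refine integrable_bdd (hiAmeas.mul hgmeas) (2 ^ U.card) fun ω => ?_
      rw [abs_of_nonneg (mul_nonneg (hiA01 ω).1 (Finset.prod_nonneg fun m hm => (hg0 m hm ω).1))]
      have h5 : ∏ m ∈ U, g m ω ≤ 2 ^ U.card := by
        rw [← Finset.prod_const]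
        exact Finset.prod_le_prod (fun m hm => (hg0 m hm ω).1) fun m hm => (hg0 m hm ω).2
      calc iA ω * ∏ m ∈ U, g m ω ≤ 1 * 2 ^ U.card :=
            mul_le_mul (hiA01 ω).2 h5 (Finset.prod_nonneg fun m hm => (hg0 m hm ω).1) zero_le_one
        _ = 2 ^ U.card := one_mul _
    · intro ω
      show iA ω * M ω * ind (n + D) ω ≤ iA ω * ∏ m ∈ U, g m ω
      rw [mul_assoc]
      refine mul_le_mul_of_nonneg_left ?_ (hiA01 ω).1
      rw [hind]
      show M ω * (Cs S H R (n + D) ∩ Vs μ ℱ S U pp (n + D)).indicator (fun _ => (1 : ℝ)) ω ≤ _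
      by_cases h : ω ∈ Cs S H R (n + D) ∩ Vs μ ℱ S U pp (n + D)
      · rw [Set.indicator_of_mem h, mul_one, hM]
        refine le_of_eq (Finset.prod_congr rfl fun m hm => ?_)
        rw [hg]
        by_cases hmP : m ∈ P
        · simp only [if_pos hmP]
          have h6 : ω ∈ S m ∩ Vs μ ℱ S U pp m := by
            rw [hP] at hmP
            obtain ⟨k, hk, rfl⟩ := Finset.mem_image.1 hmP
            have hkH := Finset.mem_of_mem_erase hk
            have hkD : k < D := by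
              have h7 := hDmax k hkH
              have h8 := Finset.ne_of_mem_erase hk
              omega
            refine ⟨?_, fun j hj hjm => h.2 j hj (by omega)⟩
            have h9 := h.1.2.2 k hkH (by omega)
            rw [← hD] at h9
            rwa [Nat.add_sub_cancel] at h9
          rw [Set.indicator_of_mem h6, mul_one]
        · simp only [if_neg hmP]
      · rw [Set.indicator_of_notMem h, mul_zero]
        exact Finset.prod_nonneg fun m hm => (hg0 m hm ω).1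
  -- the exponent
  obtain ⟨Y, hY⟩ : ∃ Y : Ω → ℝ, Y = fun ω => ∑ n ∈ R, (1 + η) * pp (n + D) * ind (n + D) ω :=
    ⟨_, rfl⟩
  obtain ⟨a, ha⟩ : ∃ a : ℝ, a = (1 + η) * ∑ n ∈ R, ∏ h ∈ H, pp (n + h) := ⟨_, rfl⟩
  have hppD : ∀ n ∈ R, 0 ≤ pp (n + D) := fun n hn => by
    rw [hD]
    exact (hR n hn _ hDH).2.1
  have hYmeas : Measurable Y := by
    rw [hY]
    exact Finset.measurable_sum _ fun n _ => (hindm _).const_mul _
  have hMY : ∀ ω, M ω ≤ Real.exp (Y ω) := by
    intro ω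
    have h3 : Y ω = ∑ m ∈ U, (1 + η) * pp m * ind m ω := by
      rw [hY]
      have h4 : R.image (fun n => n + D) ⊆ U := by
        intro m hm
        obtain ⟨n, hn, rfl⟩ := Finset.mem_image.1 hm
        exact hRU n hn D (hD ▸ hDH)
      rw [← Finset.sum_subset h4, Finset.sum_image]
      · intro a _ b _ hab
        exact Nat.add_right_cancel hab
      · intro m _ hm
        have h5 : ind m ω = 0 := by
          rw [hind]
          refine Set.indicator_of_notMem ?_ _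
          rintro ⟨⟨h6, h7, -⟩, -⟩
          apply hm
          rw [← hD] at h6 h7
          exact Finset.mem_image.2 ⟨m - D, h7, by omega⟩
        rw [h5, mul_zero]
    rw [h3, Real.exp_sum, hM]
    refine Finset.prod_le_prod (fun m hm => (hw0 m hm ω).1) fun m hm => ?_
    rw [hw, hind]
    show lw μ ℱ S (Cs S H R) U pp m ω ≤ Real.exp ((1 + η) * pp m *
      (Cs S H R m ∩ Vs μ ℱ S U pp m).indicator (fun _ => (1 : ℝ)) ω)
    unfold lw
    by_cases hV : ω ∈ Vs μ ℱ S U pp m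
    · have hV' : ∀ k ∈ U, k ≤ m → cp μ ℱ S k ω ≤ pp k := hV
      rw [if_pos hV']
      by_cases hC : ω ∈ Cs S H R m
      · rw [if_pos hC, Set.indicator_of_mem (show ω ∈ Cs S H R m ∩ Vs μ ℱ S U pp m from ⟨hC, hV⟩),
          mul_one]
        by_cases hSm : ω ∈ S m
        · rw [if_pos hSm]
          exact (Real.exp_pos _).le
        · rw [if_neg hSm]
          obtain ⟨-, h5, h6, h7⟩ := hU m hm
          have h8 := hV' m hm le_rfl
          rw [← inv_inv (Real.exp ((1 + η) * pp m)), ← Real.exp_neg]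
          exact inv_anti₀ (Real.exp_pos _) (by linarith)
      · rw [if_neg hC]
        exact Real.one_le_exp (mul_nonneg (mul_nonneg (by linarith) (hU m hm).2.1)
          (Set.indicator_nonneg (fun _ _ => zero_le_one) _))
    · rw [if_neg (show ¬ ∀ k ∈ U, k ≤ m → cp μ ℱ S k ω ≤ pp k from hV)]
      exact Real.one_le_exp (mul_nonneg (mul_nonneg (by linarith) (hU m hm).2.1)
        (Set.indicator_nonneg (fun _ _ => zero_le_one) _))
  have hYint : ∫ ω, iA ω * M ω * Y ω ∂μ ≤ a * μ.real A := by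
    have h3 : ∀ ω, iA ω * M ω * Y ω =
        ∑ n ∈ R, (1 + η) * pp (n + D) * (iA ω * M ω * ind (n + D) ω) := by
      intro ω
      rw [hY, Finset.mul_sum]
      exact Finset.sum_congr rfl fun n _ => by ring
    simp only [h3]
    rw [integral_finsetSum]
    · rw [ha, Finset.mul_sum, Finset.sum_mul]
      refine Finset.sum_le_sum fun n hn => ?_
      rw [integral_const_mul]
      calc (1 + η) * pp (n + D) * ∫ ω, iA ω * M ω * ind (n + D) ω ∂μ
          ≤ (1 + η) * pp (n + D) * ((∏ h ∈ H.erase D, pp (n + h)) * μ.real A) :=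
            mul_le_mul_of_nonneg_left (hkey n hn) (mul_nonneg (by linarith) (hppD n hn))
        _ = (1 + η) * (pp (n + D) * ∏ h ∈ H.erase D, pp (n + h)) * μ.real A := by ring
        _ = (1 + η) * (∏ h ∈ H, pp (n + h)) * μ.real A := by
            rw [Finset.mul_prod_erase H (fun h => pp (n + h)) (hD ▸ hDH)]
    · intro n _
      refine (integrable_bdd ((hiAmeas.mul hMmeas).mul (hindm (n + D))) (2 ^ U.card)
        fun ω => ?_).const_mul _
      show |iA ω * M ω * ind (n + D) ω| ≤ 2 ^ U.card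
      rw [abs_of_nonneg (mul_nonneg (mul_nonneg (hiA01 ω).1 (hM0 ω)) (hind01 _ ω).1)]
      calc iA ω * M ω * ind (n + D) ω ≤ 1 * 2 ^ U.card * 1 := by
            refine mul_le_mul (mul_le_mul (hiA01 ω).2 (hMb ω) (hM0 ω) zero_le_one)
              (hind01 _ ω).2 (hind01 _ ω).1 (by positivity)
        _ = 2 ^ U.card := by ring
  -- the event
  obtain ⟨F, hF⟩ : ∃ F : Set Ω, F = {ω | (∃ n ∈ R, ∀ h ∈ H, ω ∈ S (n + h)) ∧
    ∀ n ∈ R, ∀ h ∈ H, cp μ ℱ S (n + h) ω ≤ pp (n + h)} := ⟨_, rfl⟩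
  have hMF : ∀ ω ∈ F, M ω = 0 := by
    intro ω hω
    rw [hF] at hω
    obtain ⟨⟨n, hn, hnS⟩, hb⟩ := hω
    rw [hM]
    refine Finset.prod_eq_zero (hRU n hn D (hD ▸ hDH)) ?_
    rw [hw]
    show lw μ ℱ S (Cs S H R) U pp (n + D) ω = 0
    unfold lw
    rw [if_pos, if_pos, if_pos (hnS D (hD ▸ hDH))]
    · refine ⟨by omega, ?_, fun h hh _ => ?_⟩
      · rw [← hD, Nat.add_sub_cancel]
        exact hn
      · rw [← hD, Nat.add_sub_cancel]
        exact hnS h hh
    · intro k hk _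
      obtain ⟨n', hn', h', hh', rfl⟩ := (hUmem k).1 hk
      exact hb n' hn' h' hh'
  have hFm : MeasurableSet F := by
    have h3 : F = (⋃ n ∈ R, ⋂ h ∈ H, S (n + h)) ∩
        ⋂ n ∈ R, ⋂ h ∈ H, {ω | cp μ ℱ S (n + h) ω ≤ pp (n + h)} := by
      rw [hF]
      ext ω
      simp only [Set.mem_inter_iff, Set.mem_iUnion, Set.mem_iInter, exists_prop]
      rfl
    rw [h3]
    refine MeasurableSet.inter ?_ ?_
    · exact Finset.measurableSet_biUnion _ fun n _ =>
        Finset.measurableSet_biInter _ fun h _ => ℱ.le _ _ (hS _)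
    · refine Finset.measurableSet_biInter _ fun n _ =>
        Finset.measurableSet_biInter _ fun h _ => ?_
      have h4 : Measurable (cp μ ℱ S (n + h)) := by
        have h5 : StronglyMeasurable[ℱ (n + h - 1)] (cp μ ℱ S (n + h)) := stronglyMeasurable_condExp
        exact (h5.mono (ℱ.le _)).measurable
      exact measurableSet_le h4 measurable_const
  -- conclusion
  rw [← hF, ← ha]
  have hexp : 0 < Real.exp (-a) := Real.exp_pos _
  have hpt : ∀ ω, (A ∩ F).indicator (fun _ => (1 : ℝ)) ω ≤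
      iA ω - Real.exp (-a) * (1 + a) * (iA ω * M ω) + Real.exp (-a) * (iA ω * M ω * Y ω) := by
    intro ω
    by_cases hωA : ω ∈ A
    · have h3 : iA ω = 1 := by rw [hiA, Set.indicator_of_mem hωA]
      rw [h3]
      by_cases hωF : ω ∈ F
      · rw [Set.indicator_of_mem (show ω ∈ A ∩ F from ⟨hωA, hωF⟩), hMF ω hωF]
        simp
      · rw [Set.indicator_of_notMem (fun h => hωF h.2)]
        have h4 : 1 + (a - Y ω) ≤ Real.exp (a - Y ω) := by
          have := Real.add_one_le_exp (a - Y ω)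
          linarith
        have h5 : M ω * (1 + (a - Y ω)) ≤ Real.exp (Y ω) * Real.exp (a - Y ω) :=
          le_trans (mul_le_mul_of_nonneg_left h4 (hM0 ω))
            (mul_le_mul_of_nonneg_right (hMY ω) (Real.exp_pos _).le)
        rw [← Real.exp_add, show Y ω + (a - Y ω) = a by ring] at h5
        have h6 : Real.exp (-a) * (M ω * (1 + (a - Y ω))) ≤ 1 := by
          calc Real.exp (-a) * (M ω * (1 + (a - Y ω))) ≤ Real.exp (-a) * Real.exp a :=
                mul_le_mul_of_nonneg_left h5 hexp.le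
            _ = 1 := by rw [← Real.exp_add, neg_add_cancel, Real.exp_zero]
        nlinarith
    · have h3 : iA ω = 0 := by rw [hiA, Set.indicator_of_notMem hωA]
      rw [h3, Set.indicator_of_notMem (fun h => hωA h.1)]
      simp
  have hi1 : Integrable iA μ := integrable_bdd hiAmeas 1 fun ω => by
    rw [abs_of_nonneg (hiA01 ω).1]
    exact (hiA01 ω).2
  have hi2 : Integrable (fun ω => iA ω * M ω) μ := by
    refine integrable_bdd (hiAmeas.mul hMmeas) (2 ^ U.card) fun ω => ?_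
    rw [abs_of_nonneg (mul_nonneg (hiA01 ω).1 (hM0 ω))]
    calc iA ω * M ω ≤ 1 * 2 ^ U.card := mul_le_mul (hiA01 ω).2 (hMb ω) (hM0 ω) zero_le_one
      _ = 2 ^ U.card := one_mul _
  have hYb : ∀ ω, 0 ≤ Y ω ∧ Y ω ≤ ∑ n ∈ R, (1 + η) * pp (n + D) := by
    intro ω
    rw [hY]
    constructor
    · exact Finset.sum_nonneg fun n hn =>
        mul_nonneg (mul_nonneg (by linarith) (hppD n hn)) (hind01 _ ω).1
    · refine Finset.sum_le_sum fun n hn => ?_
      have h3 : 0 ≤ (1 + η) * pp (n + D) := mul_nonneg (by linarith) (hppD n hn)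
      calc (1 + η) * pp (n + D) * ind (n + D) ω ≤ (1 + η) * pp (n + D) * 1 :=
            mul_le_mul_of_nonneg_left (hind01 _ ω).2 h3
        _ = _ := mul_one _
  have hi3 : Integrable (fun ω => iA ω * M ω * Y ω) μ := by
    refine integrable_bdd ((hiAmeas.mul hMmeas).mul hYmeas)
      (2 ^ U.card * ∑ n ∈ R, (1 + η) * pp (n + D)) fun ω => ?_
    rw [abs_of_nonneg (mul_nonneg (mul_nonneg (hiA01 ω).1 (hM0 ω)) (hYb ω).1)]
    refine mul_le_mul ?_ (hYb ω).2 (hYb ω).1 (by positivity)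
    calc iA ω * M ω ≤ 1 * 2 ^ U.card := mul_le_mul (hiA01 ω).2 (hMb ω) (hM0 ω) zero_le_one
      _ = 2 ^ U.card := one_mul _
  have hi4 : Integrable (fun ω => iA ω - Real.exp (-a) * (1 + a) * (iA ω * M ω)) μ :=
    hi1.sub (hi2.const_mul _)
  have hi5 : Integrable (fun ω => Real.exp (-a) * (iA ω * M ω * Y ω)) μ := hi3.const_mul _
  have h3 : μ.real (A ∩ F) = ∫ ω, (A ∩ F).indicator (fun _ => (1 : ℝ)) ω ∂μ := by
    rw [integral_indicator_const _ (hAm.inter hFm)]
    simp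
  rw [h3]
  calc ∫ ω, (A ∩ F).indicator (fun _ => (1 : ℝ)) ω ∂μ
      ≤ ∫ ω, (iA ω - Real.exp (-a) * (1 + a) * (iA ω * M ω) +
          Real.exp (-a) * (iA ω * M ω * Y ω)) ∂μ := by
        refine integral_mono ?_ ?_ hpt
        · exact (integrable_const (1 : ℝ)).indicator (hAm.inter hFm)
        · exact hi4.add hi5
    _ = μ.real A - Real.exp (-a) * (1 + a) * μ.real A +
          Real.exp (-a) * ∫ ω, iA ω * M ω * Y ω ∂μ := by
        rw [integral_add hi4 hi5, integral_sub hi1 (hi2.const_mul _), integral_const_mul,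
          integral_const_mul, hiAint, hMint]
    _ ≤ μ.real A - Real.exp (-a) * (1 + a) * μ.real A + Real.exp (-a) * (a * μ.real A) := by
        have := mul_le_mul_of_nonneg_left hYint hexp.le
        linarith
    _ = (1 - Real.exp (-a)) * μ.real A := by ring

end Pool.Agent.J6H40.KT
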