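import Pool.Agent.J6H40.KT.Stm

set_option autoImplicit false

/-!
# KT/LA: probability bound, lower part
-/

open MeasureTheory Filter
open scoped Topology

namespace Pool.Agent.J6H40.KT

open Pool.Agent.J6H40.WG2

namespace LA

lemma const (k : ℕ) (c d : ℝ) (hcd : c < d) : ∃ κ : ℝ, 0 < κ ∧ (1 + κ) ^ k * c ≤ d := by
  have hf : Continuous (fun x : ℝ => (1 + x) ^ k * c) := by fun_prop
  have h0 : (fun x : ℝ => (1 + x) ^ k * c) 0 < d := by simpa using hcd
  have h1 : ∀ᶠ x in 𝓝 (0 : ℝ), (1 + x) ^ k * c < d := hf.continuousAt.eventually_lt continuousAt_const h0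
  obtain ⟨e, he, h2⟩ := Metric.eventually_nhds_iff.1 h1
  refine ⟨e / 2, by positivity, (h2 ?_).le⟩
  rw [Real.dist_eq, sub_zero, abs_of_pos (by positivity)]
  linarith

lemma tlog : Tendsto (fun X : ℕ => Real.log X) atTop atTop :=
  Real.tendsto_log_atTop.comp tendsto_natCast_atTop_atTop

lemma e3 (k : ℕ) (hk : 1 ≤ k) (ε σ : ℝ) (hε : 0 < ε) (hε1 : ε < 1) (hσ : 0 < σ) (D : ℕ) :
    ∀ᶠ X : ℕ in atTop, (1 - ε) * Real.log (2 * X) ^ (k + 1) / σ + D + 1 + Real.sqrt (Real.log X) ≤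
      (1 - ε / 2) * Real.log X ^ (k + 1) / σ := by
  obtain ⟨τ, hτ, h1⟩ := const (k + 1) (1 - ε) (1 - 3 * ε / 4) (by linarith)
  filter_upwards [tlog.eventually_ge_atTop 1, tlog.eventually_ge_atTop (Real.log 2 / τ),
    tlog.eventually_ge_atTop (4 * σ * (D + 2) / ε), eventually_ge_atTop 1] with X hX2 hX3 hX4 hX1
  obtain ⟨l, hl⟩ : ∃ l, l = Real.log X := ⟨_, rfl⟩
  rw [← hl] at hX2 hX3 hX4 ⊢
  have hX0 : (X : ℝ) ≠ 0 := by
    have : 0 < X := hX1
    positivity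
  have e1 : Real.log (2 * X) = Real.log 2 + l := by
    rw [hl, Real.log_mul (by norm_num) hX0]
  have hlog2 : 0 ≤ Real.log 2 := Real.log_nonneg (by norm_num)
  have e2 : Real.log (2 * X) ≤ (1 + τ) * l := by
    rw [e1]
    rw [div_le_iff₀ hτ] at hX3
    linarith
  have e3 : Real.log (2 * X) ^ (k + 1) ≤ (1 + τ) ^ (k + 1) * l ^ (k + 1) := by
    rw [← mul_pow]
    exact pow_le_pow_left₀ (by rw [e1]; positivity) e2 _
  have e4 : (1 - ε) * Real.log (2 * X) ^ (k + 1) ≤ (1 - 3 * ε / 4) * l ^ (k + 1) := by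
    calc (1 - ε) * Real.log (2 * X) ^ (k + 1) ≤ (1 - ε) * ((1 + τ) ^ (k + 1) * l ^ (k + 1)) :=
          mul_le_mul_of_nonneg_left e3 (by linarith)
      _ = ((1 + τ) ^ (k + 1) * (1 - ε)) * l ^ (k + 1) := by ring
      _ ≤ _ := mul_le_mul_of_nonneg_right h1 (by positivity)
  have e5 : l ^ 2 ≤ l ^ (k + 1) := pow_le_pow_right₀ hX2 (by omega)
  have e6 : √l ≤ l := by
    rw [Real.sqrt_le_left (by linarith)]
    nlinarith
  have e7 : (D : ℝ) + 1 + √l ≤ ε / 4 * l ^ (k + 1) / σ := by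
    rw [le_div_iff₀ hσ]
    rw [div_le_iff₀ hε] at hX4
    have hD : (0 : ℝ) ≤ D := Nat.cast_nonneg D
    have g1 : (D : ℝ) + 1 + √l ≤ (D + 2) * l := by nlinarith
    have g2 : (D + 2) * l * σ ≤ ε / 4 * l ^ 2 := by nlinarith
    have g3 : ε / 4 * l ^ 2 ≤ ε / 4 * l ^ (k + 1) := mul_le_mul_of_nonneg_left e5 (by positivity)
    have g4 : ((D : ℝ) + 1 + √l) * σ ≤ (D + 2) * l * σ := mul_le_mul_of_nonneg_right g1 hσ.le
    linarith
  have e8 : (1 - ε) * Real.log (2 * X) ^ (k + 1) / σ ≤ (1 - 3 * ε / 4) * l ^ (k + 1) / σ := by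
    gcongr
  have e9 : (1 - ε / 2) * l ^ (k + 1) / σ = (1 - 3 * ε / 4) * l ^ (k + 1) / σ + ε / 4 * l ^ (k + 1) / σ := by
    ring
  rw [e9]
  linarith

lemma e4 (k : ℕ) (ε σ : ℝ) (hε : 0 < ε) (hσ : 0 < σ) :
    ∀ᶠ X : ℕ in atTop, 2 * (Real.log X ^ (k + 1) / σ) ≤ (X : ℝ) ^ (ε / 8) := by
  have h := isLittleO_log_rpow_rpow_atTop ((k + 1 : ℕ) : ℝ) (show 0 < ε / 8 by positivity)
  have h2 := (h.comp_tendsto tendsto_natCast_atTop_atTop).def (show 0 < σ / 2 by positivity)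
  filter_upwards [h2, eventually_ge_atTop 1] with X hX hX1
  simp only [Function.comp_apply, Real.rpow_natCast, Real.norm_eq_abs] at hX
  have h3 : (0 : ℝ) ≤ Real.log X := Real.log_nonneg (by exact_mod_cast hX1)
  rw [abs_of_nonneg (by positivity), abs_of_nonneg (by positivity)] at hX
  rw [← mul_div_assoc, div_le_iff₀ hσ]
  linarith

lemma blocks (f : ℕ → ℝ) (y β : ℕ) (M : ℝ) (t : ℕ)
    (h : ∀ j < t, ∑ n ∈ Finset.Ioc (y + j * β) (y + j * β + β), f n ≤ M) :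
    ∑ n ∈ Finset.Ioc y (y + t * β), f n ≤ t * M := by
  induction t with
  | zero => simp
  | succ t ih =>
    have h1 := ih (fun j hj => h j (by omega))
    have h2 := h t (by omega)
    have h3 : y + (t + 1) * β = y + t * β + β := by ring
    rw [h3, ← Finset.sum_Ioc_consecutive f (show y ≤ y + t * β by omega)
      (show y + t * β ≤ y + t * β + β by omega)]
    push_cast
    linarith

lemma W_pos (v : ℕ) : 0 < W v := by
  unfold W
  apply Finset.prod_pos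
  intro q hq
  have : (1 : ℝ) < q := by exact_mod_cast (Finset.mem_filter.1 hq).2.one_lt
  have : (q : ℝ)⁻¹ < 1 := inv_lt_one_of_one_lt₀ this
  exact inv_pos.2 (by linarith)

lemma wt_nonneg (z : ℕ → ℕ) (H : Finset ℕ) (n : ℕ) : 0 ≤ wt z H n := by
  unfold wt
  split_ifs
  · exact Finset.prod_nonneg fun h _ => (W_pos _).le
  · exact le_rfl

end LA

open LA

theorem t_LA (h1 : s_L2) (h2 : s_CB) (h3 : s_DT) (h4 : s_EXP) : s_LA := by
  classical
  intro H hH z hz σ hσ hlim Ω mΩ μ _ ℱ S hM ε hε hε1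
  obtain ⟨k, hkd⟩ : ∃ k, k = H.card := ⟨_, rfl⟩
  have hk : 1 ≤ k := hkd ▸ hH.1.card_pos
  obtain ⟨κ, hκ, hκ1⟩ := LA.const (k + 2) (1 - ε / 2) (1 - ε / 4) (by linarith)
  refine ⟨κ, hκ, ?_⟩
  obtain ⟨p0, hp0, hp02, hexp⟩ := h4 κ hκ
  obtain ⟨m0, hm0⟩ := eventually_atTop.1 (h3 z hz (p0 / (1 + κ)) (by positivity))
  filter_upwards [h2 H hH z hz σ hσ hlim (κ * σ) (by positivity), LA.e3 k hk ε σ hε hε1 hσ (dm H),
    LA.e4 k ε σ hε hσ, eventually_ge_atTop (max m0 2), LA.tlog.eventually_ge_atTop 1] with X hCB hE3 hE4 hXm hl1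
  intro N hN
  rw [← hkd]
  have hXm0 : m0 ≤ X := le_trans (le_max_left _ _) hXm
  have hX2 : 2 ≤ X := le_trans (le_max_right _ _) hXm
  obtain ⟨l, hl⟩ : ∃ l, l = Real.log X := ⟨_, rfl⟩
  rw [← hl] at hE3 hE4 hl1
  obtain ⟨D, hD⟩ : ∃ D, D = dm H := ⟨_, rfl⟩
  rw [← hD] at hE3
  obtain ⟨β, hβ⟩ : ∃ β, β = bl X := ⟨_, rfl⟩
  rw [← hβ] at hCB
  have hβle : (β : ℝ) ≤ √l := by
    rw [hβ, hl]
    exact Nat.floor_le (Real.sqrt_nonneg _)
  have hβ1 : 1 ≤ β := by
    rw [hβ]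
    apply Nat.le_floor
    rw [Nat.cast_one, Real.one_le_sqrt, ← hl]
    exact hl1
  have hβ0 : (0 : ℝ) < β := by exact_mod_cast hβ1
  obtain ⟨t, ht⟩ : ∃ t, t = ⌊(1 - ε / 2) * l ^ (k + 1) / σ / β⌋₊ := ⟨_, rfl⟩
  have hl0 : 0 ≤ l := by linarith
  have hnn : 0 ≤ (1 - ε / 2) * l ^ (k + 1) / σ := by
    have : 0 ≤ 1 - ε / 2 := by linarith
    positivity
  obtain ⟨b, hb⟩ : ∃ b, b = t * β := ⟨_, rfl⟩
  have hb1 : (b : ℝ) ≤ (1 - ε / 2) * l ^ (k + 1) / σ := by
    have h5 : (t : ℝ) ≤ (1 - ε / 2) * l ^ (k + 1) / σ / β := ht ▸ Nat.floor_le (by positivity)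
    rw [le_div_iff₀ hβ0] at h5
    rw [hb]
    push_cast
    exact h5
  have hb2 : (1 - ε) * Real.log (2 * X) ^ (k + 1) / σ + D + 1 ≤ b := by
    have h5 : (1 - ε / 2) * l ^ (k + 1) / σ / β < t + 1 := ht ▸ Nat.lt_floor_add_one _
    rw [div_lt_iff₀ hβ0] at h5
    rw [hb]
    push_cast
    linarith
  have hlog2X : 0 ≤ Real.log (2 * X) := by
    apply Real.log_nonneg
    have : (2 : ℝ) ≤ X := by exact_mod_cast hX2
    linarith
  have hnn2 : 0 ≤ (1 - ε) * Real.log (2 * X) ^ (k + 1) / σ := by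
    have : 0 ≤ 1 - ε := by linarith
    positivity
  have hbD : D + 1 ≤ b := by
    have : (D : ℝ) + 1 ≤ b := by linarith
    exact_mod_cast this
  have hb0 : 0 < b := by omega
  have hb0R : (0 : ℝ) < b := by exact_mod_cast hb0
  obtain ⟨r, hr⟩ : ∃ r, r = X / b := ⟨_, rfl⟩
  have hrb : r * b ≤ X := hr ▸ Nat.div_mul_le_self X b
  have hrb2 : X < (r + 1) * b := by
    rw [hr]
    have := Nat.lt_div_mul_add (a := X) hb0
    linarith
  have hib : ∀ i < r, i * b + b ≤ X := fun i hi => by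
    have : (i + 1) * b ≤ r * b := Nat.mul_le_mul_right b (by omega)
    linarith
  obtain ⟨R, hR⟩ : ∃ R : ℕ → Finset ℕ, R = fun i =>
    (Finset.Ioc (X + i * b) (X + (i + 1) * b - D)).filter (fun n => Adm z H n) := ⟨_, rfl⟩
  have hRm : ∀ i n, n ∈ R i ↔ (X + i * b < n ∧ n + D ≤ X + (i + 1) * b) ∧ Adm z H n := by
    intro i n
    rw [hR, Finset.mem_filter, Finset.mem_Ioc]
    have : (i + 1) * b = i * b + b := by ring
    constructor
    · rintro ⟨⟨h5, h6⟩, h7⟩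
      exact ⟨⟨h5, by omega⟩, h7⟩
    · rintro ⟨⟨h5, h6⟩, h7⟩
      exact ⟨⟨h5, by omega⟩, h7⟩
  obtain ⟨pp, hpp⟩ : ∃ pp : ℕ → ℝ, pp = fun m => (1 + κ) * (W (z m) / Real.log m) := ⟨_, rfl⟩
  have hppm : ∀ m, X ≤ m → 0 ≤ pp m ∧ pp m ≤ p0 := by
    intro m hm
    obtain ⟨h5, h6⟩ := hm0 m (hXm0.trans hm)
    rw [hpp]
    refine ⟨by positivity, ?_⟩
    rw [le_div_iff₀ (by positivity)] at h6
    show (1 + κ) * (W (z m) / Real.log m) ≤ p0
    linarith
  have hDle : ∀ h ∈ H, h ≤ D := fun h hh => by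
    rw [hD]
    exact Finset.le_sup (f := id) hh
  -- the bound for the sum
  have hsum : ∀ i < r, (1 + κ) * ∑ n ∈ R i, ∏ h ∈ H, pp (n + h) ≤ (1 - ε / 4) * l := by
    intro i hi
    have hlpos : 0 < l := by linarith
    have s1 : ∀ n ∈ R i, ∏ h ∈ H, pp (n + h) ≤ ((1 + κ) / l) ^ k * wt z H n := by
      intro n hn
      obtain ⟨⟨hn1, hn2⟩, hn3⟩ := (hRm i n).1 hn
      have e0 : wt z H n = ∏ h ∈ H, W (z (n + h)) := by
        unfold wt
        rw [if_pos hn3]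
      rw [e0, hkd, ← Finset.prod_const, ← Finset.prod_mul_distrib]
      apply Finset.prod_le_prod
      · intro h hh
        exact (hppm (n + h) (by omega)).1
      · intro h hh
        rw [hpp]
        have h5 : l ≤ Real.log ((n + h : ℕ) : ℝ) := by
          rw [hl]
          apply Real.log_le_log
          · have : 0 < X := by omega
            exact_mod_cast this
          · exact_mod_cast (by omega : X ≤ n + h)
        have h6 := W_pos (z (n + h))
        calc (1 + κ) * (W (z (n + h)) / Real.log ((n + h : ℕ) : ℝ)) ≤ (1 + κ) * (W (z (n + h)) / l) := by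
              gcongr
          _ = (1 + κ) / l * W (z (n + h)) := by ring
    have s2 : ∑ n ∈ R i, wt z H n ≤ ∑ n ∈ Finset.Ioc (X + i * b) (X + i * b + t * β), wt z H n := by
      apply Finset.sum_le_sum_of_subset_of_nonneg
      · intro n hn
        obtain ⟨⟨hn1, hn2⟩, hn3⟩ := (hRm i n).1 hn
        rw [Finset.mem_Ioc, ← hb]
        have : (i + 1) * b = i * b + b := by ring
        exact ⟨hn1, by omega⟩
      · intro n _ _
        exact wt_nonneg z H n
    have s3 : ∑ n ∈ Finset.Ioc (X + i * b) (X + i * b + t * β), wt z H n ≤ t * ((σ + κ * σ) * β) := by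
      apply blocks
      intro j hj
      have h5 : j * β + β ≤ b := by
        have : (j + 1) * β ≤ t * β := Nat.mul_le_mul_right β (by omega)
        rw [hb]
        linarith
      have h6 := hib i hi
      have h7 : X + i * b + j * β ≤ X ^ 2 := by
        have : X * 2 ≤ X * X := Nat.mul_le_mul_left X hX2
        rw [pow_two]
        omega
      have h8 := (hCB (X + i * b + j * β) (by omega) h7).1
      have h9 := (abs_le.1 h8).2
      linarith
    have s4 : ∑ n ∈ R i, wt z H n ≤ (1 + κ) * σ * b := by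
      refine (s2.trans s3).trans (le_of_eq ?_)
      rw [hb]
      push_cast
      ring
    have s5 : ∑ n ∈ R i, ∏ h ∈ H, pp (n + h) ≤ ((1 + κ) / l) ^ k * ((1 + κ) * σ * b) := by
      refine (Finset.sum_le_sum s1).trans ?_
      rw [← Finset.mul_sum]
      exact mul_le_mul_of_nonneg_left s4 (by positivity)
    calc (1 + κ) * ∑ n ∈ R i, ∏ h ∈ H, pp (n + h)
        ≤ (1 + κ) * (((1 + κ) / l) ^ k * ((1 + κ) * σ * ((1 - ε / 2) * l ^ (k + 1) / σ))) := by
          refine mul_le_mul_of_nonneg_left (s5.trans ?_) (by positivity)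
          refine mul_le_mul_of_nonneg_left ?_ (by positivity)
          exact mul_le_mul_of_nonneg_left hb1 (by positivity)
      _ = (1 + κ) ^ (k + 2) * (1 - ε / 2) * l := by
          rw [div_pow]
          field_simp
          ring
      _ ≤ (1 - ε / 4) * l := mul_le_mul_of_nonneg_right hκ1 hl0
  have hL2 := h1 Ω μ ℱ S hM.adapted H R X b r pp κ ((1 - ε / 4) * l) hH.1 hκ
    (by
      intro i hi n hn h hh
      obtain ⟨⟨hn1, hn2⟩, hn3⟩ := (hRm i n).1 hn
      have := hDle h hh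
      obtain ⟨g1, g2⟩ := hppm (n + h) (by omega)
      exact ⟨by omega, by omega, g1, g2.trans hp02, hexp _ g1 g2⟩)
    hsum
  -- the inclusion of the events
  have hsub : {ω | (∀ x : ℕ, X ≤ x → x ≤ 2 * X → ∃ n : ℕ, x < n ∧
        (n : ℝ) ≤ x + (1 - ε) * Real.log x ^ (k + 1) / σ ∧ ∀ h ∈ H, ω ∈ S (n + h)) ∧
      ω ∈ Up μ ℱ S z κ N} ⊆
      {ω | (∀ i < r, ∃ n ∈ R i, ∀ h ∈ H, ω ∈ S (n + h)) ∧ ∀ i < r, ∀ n ∈ R i, ∀ h ∈ H,
        cp μ ℱ S (n + h) ω ≤ pp (n + h)} := by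
    rintro ω ⟨hω1, hω2⟩
    refine ⟨fun i hi => ?_, fun i hi n hn h hh => ?_⟩
    · have h6 := hib i hi
      obtain ⟨n, hn1, hn2, hn3⟩ := hω1 (X + i * b) (by omega) (by omega)
      refine ⟨n, (hRm i n).2 ⟨⟨hn1, ?_⟩, ?_⟩, hn3⟩
      · have h7 : Real.log ((X + i * b : ℕ) : ℝ) ≤ Real.log (2 * X) := by
          apply Real.log_le_log
          · exact_mod_cast (by omega : 0 < X + i * b)
          · exact_mod_cast (by omega : X + i * b ≤ 2 * X)
        have h8 : 0 ≤ Real.log ((X + i * b : ℕ) : ℝ) := Real.log_natCast_nonneg _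
        have h9 : (1 - ε) * Real.log ((X + i * b : ℕ) : ℝ) ^ (k + 1) / σ ≤
            (1 - ε) * Real.log (2 * X) ^ (k + 1) / σ := by
          have : 0 ≤ 1 - ε := by linarith
          gcongr
        have h10 : (n : ℝ) + D ≤ ((X + (i + 1) * b : ℕ) : ℝ) := by
          push_cast
          push_cast at hn2
          push_cast at h9
          linarith
        exact_mod_cast h10
      · intro h hh
        by_contra hc
        have := hM.sieved (n + h) hc
        have h11 := hn3 h hh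
        rw [this] at h11
        exact h11
    · obtain ⟨⟨hn1, hn2⟩, hn3⟩ := (hRm i n).1 hn
      rw [hpp]
      exact hω2 (n + h) (by omega) (hn3 h hh)
  have hmono := measureReal_mono (μ := μ) hsub
  refine hmono.trans (hL2.trans ?_)
  -- the final estimate
  have hXpos : (0 : ℝ) < X := by
    have : 0 < X := by omega
    exact_mod_cast this
  have hX1R : (1 : ℝ) ≤ X := by exact_mod_cast (by omega : 1 ≤ X)
  have ha : Real.exp (-((1 - ε / 4) * l)) = (X : ℝ) ^ (-(1 - ε / 4)) := by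
    rw [Real.rpow_def_of_pos hXpos, ← hl]
    congr 1
    ring
  have hble : (b : ℝ) ≤ l ^ (k + 1) / σ := by
    refine hb1.trans ?_
    gcongr
    have : 0 ≤ l ^ (k + 1) := by positivity
    nlinarith
  have h2b : 2 * (b : ℝ) ≤ (X : ℝ) ^ (ε / 8) := by linarith
  have hXe : (X : ℝ) ^ (ε / 8) ≤ X := by
    calc (X : ℝ) ^ (ε / 8) ≤ (X : ℝ) ^ (1 : ℝ) := Real.rpow_le_rpow_of_exponent_le hX1R (by linarith)
      _ = X := Real.rpow_one _
  have hr2 : (X : ℝ) ≤ 2 * r * b := by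
    have h5 : (X : ℝ) < (r + 1) * b := by exact_mod_cast hrb2
    linarith
  have hkey : (X : ℝ) ^ (ε / 8) ≤ r * Real.exp (-((1 - ε / 4) * l)) := by
    rw [ha]
    have e1 : (X : ℝ) ^ (ε / 8) * (X : ℝ) ^ (ε / 8) = X * (X : ℝ) ^ (-(1 - ε / 4)) := by
      rw [← Real.rpow_add hXpos]
      nth_rewrite 2 [← Real.rpow_one (X : ℝ)]
      rw [← Real.rpow_add hXpos]
      congr 1
      ring
    have hP : 0 < (X : ℝ) ^ (-(1 - ε / 4)) := Real.rpow_pos_of_pos hXpos _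
    have hE : 0 < (X : ℝ) ^ (ε / 8) := Real.rpow_pos_of_pos hXpos _
    have e2 : (X : ℝ) ^ (ε / 8) * (2 * b) ≤ (r * (X : ℝ) ^ (-(1 - ε / 4))) * (2 * b) := by
      calc (X : ℝ) ^ (ε / 8) * (2 * b) ≤ (X : ℝ) ^ (ε / 8) * (X : ℝ) ^ (ε / 8) :=
            mul_le_mul_of_nonneg_left h2b hE.le
        _ = X * (X : ℝ) ^ (-(1 - ε / 4)) := e1
        _ ≤ (2 * r * b) * (X : ℝ) ^ (-(1 - ε / 4)) := mul_le_mul_of_nonneg_right hr2 hP.le
        _ = _ := by ring
    exact le_of_mul_le_mul_right e2 (by positivity)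
  have ha1 : Real.exp (-((1 - ε / 4) * l)) ≤ 1 := by
    apply Real.exp_le_one_iff.2
    have : 0 ≤ (1 - ε / 4) * l := mul_nonneg (by linarith) hl0
    linarith
  calc (1 - Real.exp (-((1 - ε / 4) * l))) ^ r ≤ (Real.exp (-(Real.exp (-((1 - ε / 4) * l))))) ^ r := by
        apply pow_le_pow_left₀ (by linarith)
        exact Real.one_sub_le_exp_neg _
    _ = Real.exp (-(r * Real.exp (-((1 - ε / 4) * l)))) := by
        rw [← Real.exp_nat_mul]
        congr 1
        ring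
    _ ≤ Real.exp (-(X : ℝ) ^ (ε / 8)) := by
        apply Real.exp_le_exp.2
        linarith

end Pool.Agent.J6H40.KT
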