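import Pool.Agent.J6H40.KT.Stm2

set_option autoImplicit false

/-!
# Module LT (helper22): lower tail by the Laplace transform
-/

open MeasureTheory Filter
open scoped Topology

namespace Pool.Agent.J6H40.KT

open Pool.Agent.J6H40.WG2

namespace LTaux

variable {Ω : Type}

/-- the block contains a chosen pattern -/
def XS (S : ℕ → Set Ω) (H : Finset ℕ) (B : ℕ → Finset ℕ) (i : ℕ) : Set Ω :=
  {ω | ∃ n ∈ B i, ∀ h ∈ H, ω ∈ S (n + h)}

/-- the bounds hold in the block -/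
def VS (c : ℕ → Ω → ℝ) (H : Finset ℕ) (B : ℕ → Finset ℕ) (pm pp : ℕ → ℝ) (i : ℕ) : Set Ω :=
  {ω | ∀ n ∈ B i, ∀ h ∈ H, pm (n + h) ≤ c (n + h) ω ∧ c (n + h) ω ≤ pp (n + h)}

theorem measX {m' : MeasurableSpace Ω} (S : ℕ → Set Ω) (H : Finset ℕ) (B : ℕ → Finset ℕ) (i : ℕ)
    (hS : ∀ n ∈ B i, ∀ h ∈ H, MeasurableSet (S (n + h))) : MeasurableSet (XS S H B i) := by
  have h1 : XS S H B i = ⋃ n ∈ B i, ⋂ h ∈ H, S (n + h) := by
    ext ω
    simp only [XS, Set.mem_ofPred_eq, Set.mem_iUnion, Set.mem_iInter, exists_prop]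
  rw [h1]
  exact Finset.measurableSet_biUnion _ fun n hn => Finset.measurableSet_biInter _ fun h hh =>
    hS n hn h hh

theorem measV {m' : MeasurableSpace Ω} (c : ℕ → Ω → ℝ) (H : Finset ℕ) (B : ℕ → Finset ℕ)
    (pm pp : ℕ → ℝ) (i : ℕ) (hc : ∀ n ∈ B i, ∀ h ∈ H, Measurable (c (n + h))) :
    MeasurableSet (VS c H B pm pp i) := by
  have h1 : VS c H B pm pp i = ⋂ n ∈ B i, ⋂ h ∈ H,
      ({ω | pm (n + h) ≤ c (n + h) ω} ∩ {ω | c (n + h) ω ≤ pp (n + h)}) := by
    ext ω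
    simp only [VS, Set.mem_ofPred_eq, Set.mem_iInter, Set.mem_inter_iff]
  rw [h1]
  exact Finset.measurableSet_biInter _ fun n hn => Finset.measurableSet_biInter _ fun h hh =>
    (measurableSet_le measurable_const (hc n hn h hh)).inter
      (measurableSet_le (hc n hn h hh) measurable_const)

open Classical in
/-- the factor of a block -/
noncomputable def g (S : ℕ → Set Ω) (c : ℕ → Ω → ℝ) (H : Finset ℕ) (B : ℕ → Finset ℕ)
    (pm pp : ℕ → ℝ) (lam : ℝ) (i : ℕ) (ω : Ω) : ℝ :=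
  if ω ∈ VS c H B pm pp i then (if ω ∈ XS S H B i then Real.exp (-lam) else 1) else 0

theorem g_nonneg (S : ℕ → Set Ω) (c : ℕ → Ω → ℝ) (H : Finset ℕ) (B : ℕ → Finset ℕ)
    (pm pp : ℕ → ℝ) (lam : ℝ) (i : ℕ) (ω : Ω) : 0 ≤ g S c H B pm pp lam i ω := by
  unfold g
  split_ifs
  · exact (Real.exp_pos _).le
  · exact zero_le_one
  · exact le_rfl

theorem g_le_one (S : ℕ → Set Ω) (c : ℕ → Ω → ℝ) (H : Finset ℕ) (B : ℕ → Finset ℕ)
    (pm pp : ℕ → ℝ) {lam : ℝ} (hl : 0 ≤ lam) (i : ℕ) (ω : Ω) : g S c H B pm pp lam i ω ≤ 1 := by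
  unfold g
  split_ifs
  · exact Real.exp_le_one_iff.2 (by linarith)
  · exact le_rfl
  · exact zero_le_one

theorem meas_g {m' : MeasurableSpace Ω} (S : ℕ → Set Ω) (c : ℕ → Ω → ℝ) (H : Finset ℕ)
    (B : ℕ → Finset ℕ) (pm pp : ℕ → ℝ) (lam : ℝ) (i : ℕ)
    (hS : ∀ n ∈ B i, ∀ h ∈ H, MeasurableSet (S (n + h)))
    (hc : ∀ n ∈ B i, ∀ h ∈ H, Measurable (c (n + h))) :
    Measurable (g S c H B pm pp lam i) := by
  unfold g
  exact Measurable.ite (measV c H B pm pp i hc)
    (Measurable.ite (measX S H B i hS) measurable_const measurable_const) measurable_const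

/-- the Laplace transform -/
theorem laplace (h1 : s_U1F) (Ω : Type) [mΩ : MeasurableSpace Ω] (μ : Measure Ω)
    [IsProbabilityMeasure μ] (ℱ : Filtration ℕ mΩ) (S : ℕ → Set Ω)
    (hS : ∀ n, MeasurableSet[ℱ n] (S n)) (H : Finset ℕ) (B : ℕ → Finset ℕ) (y b : ℕ)
    (pm pp : ℕ → ℝ) (ρ lam : ℝ) (hρ : ρ ≤ 1) (hlam : 0 ≤ lam) (r : ℕ) :
    (∀ i < r, ∀ n ∈ B i, ∀ h ∈ H, y + i * b < n + h ∧ n + h ≤ y + (i + 1) * b ∧
      0 ≤ pm (n + h) ∧ pm (n + h) ≤ pp (n + h) ∧ pp (n + h) ≤ 1) →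
    (∀ i < r, 1 - ∑ n ∈ B i, ∏ h ∈ H, pm (n + h) +
        ∑ p ∈ (B i).offDiag, ∏ m ∈ H.image (fun h => p.1 + h) ∪ H.image (fun h => p.2 + h), pp m
          ≤ 1 - ρ) →
    Measurable[ℱ (y + r * b)] (fun ω => ∏ i ∈ Finset.range r, g S (cp μ ℱ S) H B pm pp lam i ω) ∧
    ∫ ω, ∏ i ∈ Finset.range r, g S (cp μ ℱ S) H B pm pp lam i ω ∂μ ≤
      (1 - (1 - Real.exp (-lam)) * ρ) ^ r := by
  classical
  have hcm : ∀ m n : ℕ, m ≤ n → Measurable[ℱ n] (cp μ ℱ S m) := by
    intro m n hmn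
    have h2 : StronglyMeasurable[ℱ (m - 1)] (cp μ ℱ S m) := stronglyMeasurable_condExp
    exact (h2.mono (ℱ.mono ((Nat.sub_le _ _).trans hmn))).measurable
  have he1 : Real.exp (-lam) ≤ 1 := Real.exp_le_one_iff.2 (by linarith)
  have he0 : 0 < Real.exp (-lam) := Real.exp_pos _
  induction r with
  | zero =>
    intro _ _
    refine ⟨?_, ?_⟩
    · simp only [Finset.range_zero, Finset.prod_empty]
      exact measurable_const
    · simp
  | succ r ih =>
    intro hB hsum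
    obtain ⟨ih1, ih2⟩ := ih (fun i hi => hB i (Nat.lt_succ_of_lt hi))
      (fun i hi => hsum i (Nat.lt_succ_of_lt hi))
    have hle : ∀ n ∈ B r, ∀ h ∈ H, n + h ≤ y + (r + 1) * b := fun n hn h hh =>
      (hB r (Nat.lt_succ_self r) n hn h hh).2.1
    have hmono : ℱ (y + r * b) ≤ ℱ (y + (r + 1) * b) :=
      ℱ.mono (Nat.add_le_add_left (Nat.mul_le_mul_right b (Nat.le_succ r)) y)
    have hg : Measurable[ℱ (y + (r + 1) * b)] (g S (cp μ ℱ S) H B pm pp lam r) :=
      meas_g (m' := ℱ (y + (r + 1) * b)) S _ H B pm pp lam r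
        (fun n hn h hh => ℱ.mono (hle n hn h hh) _ (hS (n + h)))
        (fun n hn h hh => hcm _ _ (hle n hn h hh))
    set F : Ω → ℝ := fun ω => ∏ i ∈ Finset.range r, g S (cp μ ℱ S) H B pm pp lam i ω with hF
    have hF0 : ∀ ω, 0 ≤ F ω := fun ω => Finset.prod_nonneg fun i _ => g_nonneg _ _ _ _ _ _ _ _ _
    have hF1 : ∀ ω, F ω ≤ 1 := fun ω => Finset.prod_le_one
      (fun i _ => g_nonneg _ _ _ _ _ _ _ _ _) fun i _ => g_le_one _ _ _ _ _ _ hlam _ _
    have hstep : ∀ ω, ∏ i ∈ Finset.range (r + 1), g S (cp μ ℱ S) H B pm pp lam i ω =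
        F ω * g S (cp μ ℱ S) H B pm pp lam r ω := fun ω => Finset.prod_range_succ _ _
    refine ⟨?_, ?_⟩
    · have h2 : (fun ω => ∏ i ∈ Finset.range (r + 1), g S (cp μ ℱ S) H B pm pp lam i ω) =
          fun ω => F ω * g S (cp μ ℱ S) H B pm pp lam r ω := funext hstep
      rw [h2]
      exact (ih1.mono hmono le_rfl).mul hg
    · set E : Set Ω := {ω | (∀ n ∈ B r, ∃ h ∈ H, ω ∉ S (n + h)) ∧ ∀ n ∈ B r, ∀ h ∈ H,
        pm (n + h) ≤ cp μ ℱ S (n + h) ω ∧ cp μ ℱ S (n + h) ω ≤ pp (n + h)} with hE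
      have hEeq : E = (XS S H B r)ᶜ ∩ VS (cp μ ℱ S) H B pm pp r := by
        ext ω
        simp only [hE, XS, VS, Set.mem_ofPred_eq, Set.mem_inter_iff, Set.mem_compl_iff]
        push Not
        rfl
      have hEm : MeasurableSet E := by
        rw [hEeq]
        exact (measX S H B r (fun n _ h _ => ℱ.le _ _ (hS (n + h)))).compl.inter
          (measV _ H B pm pp r (fun n _ h _ => (hcm _ _ le_rfl).mono (ℱ.le (n + h)) le_rfl))
      have hFm : Measurable F := ih1.mono (ℱ.le _) le_rfl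
      have hU := h1 Ω μ ℱ S hS H (B r) (y + r * b) F 1 pm pp ih1.stronglyMeasurable
        (fun ω => ⟨hF0 ω, hF1 ω⟩) (by
          intro n hn h hh
          have h3 := hB r (Nat.lt_succ_self r) n hn h hh
          exact ⟨h3.1, h3.2.2⟩)
      have hs := hsum r (Nat.lt_succ_self r)
      have hFint : 0 ≤ ∫ ω, F ω ∂μ := integral_nonneg hF0
      have hU2 : ∫ ω, F ω * E.indicator (fun _ => (1 : ℝ)) ω ∂μ ≤ (1 - ρ) * ∫ ω, F ω ∂μ :=
        hU.trans (mul_le_mul_of_nonneg_right hs hFint)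
      have hFi : Integrable F μ := Integrable.of_bound hFm.aestronglyMeasurable 1
        (Eventually.of_forall fun ω => by
          rw [Real.norm_eq_abs, abs_of_nonneg (hF0 ω)]
          exact hF1 ω)
      have hind0 : ∀ ω, 0 ≤ E.indicator (fun _ => (1 : ℝ)) ω := fun ω =>
        Set.indicator_nonneg (fun _ _ => zero_le_one) ω
      have hind1 : ∀ ω, E.indicator (fun _ => (1 : ℝ)) ω ≤ 1 := fun ω =>
        Set.indicator_le_self' (fun _ _ => zero_le_one) ω
      have hindm : Measurable (E.indicator (fun _ => (1 : ℝ))) := measurable_const.indicator hEm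
      have hFEi : Integrable (fun ω => F ω * E.indicator (fun _ => (1 : ℝ)) ω) μ :=
        Integrable.of_bound (hFm.mul hindm).aestronglyMeasurable 1
        (Eventually.of_forall fun ω => by
          rw [Real.norm_eq_abs, abs_of_nonneg (mul_nonneg (hF0 ω) (hind0 ω))]
          exact mul_le_one₀ (hF1 ω) (hind0 ω) (hind1 ω))
      have hpt : ∀ ω, ∏ i ∈ Finset.range (r + 1), g S (cp μ ℱ S) H B pm pp lam i ω ≤
          Real.exp (-lam) * F ω +
            (1 - Real.exp (-lam)) * (F ω * E.indicator (fun _ => (1 : ℝ)) ω) := by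
        intro ω
        rw [hstep]
        have h2 : g S (cp μ ℱ S) H B pm pp lam r ω ≤
            Real.exp (-lam) + (1 - Real.exp (-lam)) * E.indicator (fun _ => (1 : ℝ)) ω := by
          unfold g
          by_cases hV : ω ∈ VS (cp μ ℱ S) H B pm pp r
          · by_cases hX : ω ∈ XS S H B r
            · rw [if_pos hV, if_pos hX]
              have := mul_nonneg (sub_nonneg.2 he1) (hind0 ω)
              linarith
            · rw [if_pos hV, if_neg hX]
              have h3 : ω ∈ E := by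
                rw [hEeq]
                exact ⟨hX, hV⟩
              rw [Set.indicator_of_mem h3]
              linarith
          · rw [if_neg hV]
            have := mul_nonneg (sub_nonneg.2 he1) (hind0 ω)
            linarith
        have h3 := mul_le_mul_of_nonneg_left h2 (hF0 ω)
        calc _ ≤ _ := h3
          _ = _ := by ring
      have hP : Integrable
          (fun ω => ∏ i ∈ Finset.range (r + 1), g S (cp μ ℱ S) H B pm pp lam i ω) μ := by
        have h2 : (fun ω => ∏ i ∈ Finset.range (r + 1), g S (cp μ ℱ S) H B pm pp lam i ω) =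
          fun ω => F ω * g S (cp μ ℱ S) H B pm pp lam r ω := funext hstep
        rw [h2]
        refine Integrable.of_bound (hFm.mul (hg.mono (ℱ.le _) le_rfl)).aestronglyMeasurable 1
          (Eventually.of_forall fun ω => ?_)
        have h3 := g_nonneg S (cp μ ℱ S) H B pm pp lam r ω
        rw [Real.norm_eq_abs, abs_of_nonneg (mul_nonneg (hF0 ω) h3)]
        exact mul_le_one₀ (hF1 ω) h3 (g_le_one _ _ _ _ _ _ hlam _ _)
      have hq : 0 ≤ 1 - (1 - Real.exp (-lam)) * ρ := by nlinarith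
      calc ∫ ω, ∏ i ∈ Finset.range (r + 1), g S (cp μ ℱ S) H B pm pp lam i ω ∂μ
          ≤ ∫ ω, (Real.exp (-lam) * F ω +
            (1 - Real.exp (-lam)) * (F ω * E.indicator (fun _ => (1 : ℝ)) ω)) ∂μ :=
            integral_mono hP ((hFi.const_mul _).add (hFEi.const_mul _)) hpt
        _ = Real.exp (-lam) * ∫ ω, F ω ∂μ +
            (1 - Real.exp (-lam)) * ∫ ω, F ω * E.indicator (fun _ => (1 : ℝ)) ω ∂μ := by
            rw [integral_add (hFi.const_mul _) (hFEi.const_mul _), integral_const_mul,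
              integral_const_mul]
        _ ≤ Real.exp (-lam) * ∫ ω, F ω ∂μ +
            (1 - Real.exp (-lam)) * ((1 - ρ) * ∫ ω, F ω ∂μ) := by
            have := mul_le_mul_of_nonneg_left hU2 (sub_nonneg.2 he1)
            linarith
        _ = (1 - (1 - Real.exp (-lam)) * ρ) * ∫ ω, F ω ∂μ := by ring
        _ ≤ (1 - (1 - Real.exp (-lam)) * ρ) * (1 - (1 - Real.exp (-lam)) * ρ) ^ r :=
            mul_le_mul_of_nonneg_left ih2 hq
        _ = (1 - (1 - Real.exp (-lam)) * ρ) ^ (r + 1) := by rw [pow_succ]; ring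

end LTaux

open LTaux in
/-- LT -/
theorem t_LT (h1 : s_U1F) : s_LT := by
  classical
  intro Ω mΩ μ _ ℱ S hS H B y b r pm pp ρ lam K hρ0 hρ1 hlam hB hsum
  obtain ⟨hm, hi⟩ := laplace h1 Ω μ ℱ S hS H B y b pm pp ρ lam hρ1 hlam r hB hsum
  set P : Ω → ℝ := fun ω => ∏ i ∈ Finset.range r, g S (cp μ ℱ S) H B pm pp lam i ω with hP
  have hP0 : ∀ ω, 0 ≤ P ω := fun ω => Finset.prod_nonneg fun i _ => g_nonneg _ _ _ _ _ _ _ _ _
  have hP1 : ∀ ω, P ω ≤ 1 := fun ω => Finset.prod_le_one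
    (fun i _ => g_nonneg _ _ _ _ _ _ _ _ _) fun i _ => g_le_one _ _ _ _ _ _ hlam _ _
  have hPm : Measurable P := hm.mono (ℱ.le _) le_rfl
  have hPi : Integrable P μ := Integrable.of_bound hPm.aestronglyMeasurable 1
    (Eventually.of_forall fun ω => by
      rw [Real.norm_eq_abs, abs_of_nonneg (hP0 ω)]
      exact hP1 ω)
  have hmk := mul_meas_ge_le_integral_of_nonneg (Eventually.of_forall hP0) hPi
    (Real.exp (-(lam * K)))
  have hsub : μ.real {ω | (((Finset.range r).filter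
      (fun i => ∃ n ∈ B i, ∀ h ∈ H, ω ∈ S (n + h))).card : ℝ) ≤ K ∧
      ∀ i < r, ∀ n ∈ B i, ∀ h ∈ H,
        pm (n + h) ≤ cp μ ℱ S (n + h) ω ∧ cp μ ℱ S (n + h) ω ≤ pp (n + h)} ≤
      μ.real {ω | Real.exp (-(lam * K)) ≤ P ω} := by
    refine measureReal_mono ?_ (measure_ne_top _ _)
    rintro ω ⟨hk, hV⟩
    have h2 : P ω = ∏ i ∈ Finset.range r,
        (if (∃ n ∈ B i, ∀ h ∈ H, ω ∈ S (n + h)) then Real.exp (-lam) else 1) := by
      rw [hP]
      refine Finset.prod_congr rfl fun i hi => ?_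
      have h3 : ω ∈ VS (cp μ ℱ S) H B pm pp i := hV i (Finset.mem_range.1 hi)
      unfold g
      rw [if_pos h3]
      by_cases hX : ω ∈ XS S H B i
      · rw [if_pos hX]
        exact (if_pos hX).symm
      · rw [if_neg hX]
        exact (if_neg hX).symm
    have h3 : P ω = Real.exp (-(lam * (((Finset.range r).filter
        (fun i => ∃ n ∈ B i, ∀ h ∈ H, ω ∈ S (n + h))).card : ℝ))) := by
      rw [h2, Finset.prod_ite, Finset.prod_const, Finset.prod_const_one, mul_one,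
        ← Real.exp_nat_mul]
      congr 1
      ring
    rw [Set.mem_ofPred_eq, h3, Real.exp_le_exp]
    have := mul_le_mul_of_nonneg_left hk hlam
    linarith
  have hpos : 0 < Real.exp (-(lam * K)) := Real.exp_pos _
  refine hsub.trans ?_
  have h4 : Real.exp (-(lam * K)) * μ.real {ω | Real.exp (-(lam * K)) ≤ P ω} ≤
      (1 - (1 - Real.exp (-lam)) * ρ) ^ r := hmk.trans hi
  have h5 : Real.exp (lam * K) * Real.exp (-(lam * K)) = 1 := by
    rw [← Real.exp_add, add_neg_cancel, Real.exp_zero]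
  calc μ.real {ω | Real.exp (-(lam * K)) ≤ P ω}
      = Real.exp (lam * K) * (Real.exp (-(lam * K)) *
          μ.real {ω | Real.exp (-(lam * K)) ≤ P ω}) := by
        rw [← mul_assoc, h5, one_mul]
    _ ≤ Real.exp (lam * K) * (1 - (1 - Real.exp (-lam)) * ρ) ^ r :=
        mul_le_mul_of_nonneg_left h4 (Real.exp_pos _).le

end Pool.Agent.J6H40.KT
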