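import Pool.Agent.J6H40.KT.Stm

set_option autoImplicit false
set_option linter.unusedSectionVars false

/-!
# LW: the weights of the lower part
-/

open MeasureTheory Filter

namespace Pool.Agent.J6H40.KT

open Pool.Agent.J6H40.WG2

namespace LW

variable {Ω : Type} [mΩ : MeasurableSpace Ω] {μ : Measure Ω} [IsProbabilityMeasure μ]
  {ℱ : Filtration ℕ mΩ} {S : ℕ → Set Ω}

/-- the event that the bounds hold up to the time `m` -/
def V (μ : Measure Ω) (ℱ : Filtration ℕ mΩ) (S : ℕ → Set Ω) (U : Finset ℕ) (p : ℕ → ℝ) (m : ℕ) :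
    Set Ω := {ω | ∀ k ∈ U, k ≤ m → cp μ ℱ S k ω ≤ p k}

theorem cp_meas (μ : Measure Ω) (ℱ : Filtration ℕ mΩ) (S : ℕ → Set Ω) {k m : ℕ} (h : k ≤ m) :
    Measurable[ℱ (m - 1)] (cp μ ℱ S k) := by
  have h1 : StronglyMeasurable[ℱ (k - 1)] (cp μ ℱ S k) := stronglyMeasurable_condExp
  exact (h1.mono (ℱ.mono (by omega))).measurable

theorem V_meas (U : Finset ℕ) (p : ℕ → ℝ) (m : ℕ) : MeasurableSet[ℱ (m - 1)] (V μ ℱ S U p m) := by
  have h1 : V μ ℱ S U p m = ⋂ k ∈ U, {ω | k ≤ m → cp μ ℱ S k ω ≤ p k} := by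
    ext ω
    simp [V]
  rw [h1]
  refine Finset.measurableSet_biInter _ fun k _ => ?_
  by_cases hk : k ≤ m
  · simp only [hk, true_imp_iff]
    exact measurableSet_le (cp_meas μ ℱ S hk) (@measurable_const _ _ _ (ℱ (m - 1)) _)
  · simp only [hk, false_imp_iff]
    exact MeasurableSet.univ

open Classical in
/-- the inverse of the conditional probability of the complement, on the event `V ∩ C` -/
noncomputable def h (μ : Measure Ω) (ℱ : Filtration ℕ mΩ) (S : ℕ → Set Ω) (C : ℕ → Set Ω)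
    (U : Finset ℕ) (p : ℕ → ℝ) (m : ℕ) (ω : Ω) : ℝ :=
  if ω ∈ V μ ℱ S U p m ∩ C m then (1 - cp μ ℱ S m ω)⁻¹ else 0

theorem h_meas (C : ℕ → Set Ω) (U : Finset ℕ) (p : ℕ → ℝ) (m : ℕ)
    (hC : MeasurableSet[ℱ (m - 1)] (C m)) : Measurable[ℱ (m - 1)] (h μ ℱ S C U p m) := by
  classical
  unfold h
  refine Measurable.ite ((V_meas U p m).inter hC) ?_ measurable_const
  exact (measurable_const.sub (cp_meas μ ℱ S le_rfl)).inv

variable {C : ℕ → Set Ω} {U : Finset ℕ} {p : ℕ → ℝ} {m : ℕ}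

theorem V_bound (hm : m ∈ U) (hp : p m ≤ 1 / 2) {ω : Ω} (hω : ω ∈ V μ ℱ S U p m) :
    cp μ ℱ S m ω ≤ p m ∧ 0 < 1 - cp μ ℱ S m ω ∧ (1 - cp μ ℱ S m ω)⁻¹ ≤ 2 := by
  have h1 := hω m hm le_rfl
  have h2 : 1 / 2 ≤ 1 - cp μ ℱ S m ω := by linarith
  refine ⟨h1, by linarith, ?_⟩
  have := inv_anti₀ (by norm_num : (0 : ℝ) < 1 / 2) h2
  norm_num at this
  linarith

theorem h_bound (hm : m ∈ U) (hp : p m ≤ 1 / 2) (ω : Ω) :
    0 ≤ h μ ℱ S C U p m ω ∧ h μ ℱ S C U p m ω ≤ 2 := by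
  classical
  unfold h
  split_ifs with hω
  · obtain ⟨-, h2, h3⟩ := V_bound hm hp hω.1
    exact ⟨(inv_pos.2 h2).le, h3⟩
  · norm_num

open Classical in
/-- the indicator of the complement of `V ∩ C` -/
noncomputable def e (μ : Measure Ω) (ℱ : Filtration ℕ mΩ) (S : ℕ → Set Ω) (C : ℕ → Set Ω)
    (U : Finset ℕ) (p : ℕ → ℝ) (m : ℕ) (ω : Ω) : ℝ := if ω ∈ V μ ℱ S U p m ∩ C m then 0 else 1

theorem e_meas (C : ℕ → Set Ω) (U : Finset ℕ) (p : ℕ → ℝ) (m : ℕ)
    (hC : MeasurableSet[ℱ (m - 1)] (C m)) : Measurable[ℱ (m - 1)] (e μ ℱ S C U p m) := by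
  classical
  unfold e
  exact Measurable.ite ((V_meas U p m).inter hC) measurable_const measurable_const

theorem e_bound (ω : Ω) : 0 ≤ e μ ℱ S C U p m ω ∧ e μ ℱ S C U p m ω ≤ 1 := by
  unfold e
  split_ifs <;> norm_num

open Classical in
/-- the indicator of `V \ C` -/
noncomputable def v (μ : Measure Ω) (ℱ : Filtration ℕ mΩ) (S : ℕ → Set Ω) (C : ℕ → Set Ω)
    (U : Finset ℕ) (p : ℕ → ℝ) (m : ℕ) (ω : Ω) : ℝ := if ω ∈ V μ ℱ S U p m ∩ (C m)ᶜ then 1 else 0

theorem v_meas (C : ℕ → Set Ω) (U : Finset ℕ) (p : ℕ → ℝ) (m : ℕ)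
    (hC : MeasurableSet[ℱ (m - 1)] (C m)) : Measurable[ℱ (m - 1)] (v μ ℱ S C U p m) := by
  classical
  unfold v
  exact Measurable.ite ((V_meas U p m).inter hC.compl) measurable_const measurable_const

theorem v_bound (ω : Ω) : 0 ≤ v μ ℱ S C U p m ω ∧ v μ ℱ S C U p m ω ≤ 1 := by
  unfold v
  split_ifs <;> norm_num

theorem lw_eq (ω : Ω) : lw μ ℱ S C U p m ω = e μ ℱ S C U p m ω + h μ ℱ S C U p m ω -
    h μ ℱ S C U p m ω * (S m).indicator (fun _ => (1 : ℝ)) ω := by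
  classical
  unfold lw e h
  by_cases hV : ω ∈ V μ ℱ S U p m
  · have hV' : ∀ k ∈ U, k ≤ m → cp μ ℱ S k ω ≤ p k := hV
    rw [if_pos hV']
    by_cases hC : ω ∈ C m
    · have hVC : ω ∈ V μ ℱ S U p m ∩ C m := ⟨hV, hC⟩
      rw [if_pos hC, if_pos hVC, if_pos hVC]
      by_cases hS : ω ∈ S m
      · rw [if_pos hS, Set.indicator_of_mem hS]
        ring
      · rw [if_neg hS, Set.indicator_of_notMem hS]
        ring
    · have hn : ω ∉ V μ ℱ S U p m ∩ C m := fun hh => hC hh.2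
      rw [if_neg hC, if_neg hn, if_neg hn]
      ring
  · have hV' : ¬ ∀ k ∈ U, k ≤ m → cp μ ℱ S k ω ≤ p k := hV
    have hn : ω ∉ V μ ℱ S U p m ∩ C m := fun hh => hV hh.1
    rw [if_neg hV', if_neg hn, if_neg hn]
    ring

theorem lw_mul (ω : Ω) : lw μ ℱ S C U p m ω *
    (S m ∩ {ω | ∀ k ∈ U, k ≤ m → cp μ ℱ S k ω ≤ p k}).indicator (fun _ => (1 : ℝ)) ω =
    v μ ℱ S C U p m ω * (S m).indicator (fun _ => (1 : ℝ)) ω := by
  classical
  unfold lw v
  by_cases hV : ω ∈ V μ ℱ S U p m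
  · have hV' : ∀ k ∈ U, k ≤ m → cp μ ℱ S k ω ≤ p k := hV
    rw [if_pos hV']
    by_cases hS : ω ∈ S m
    · have h1 : ω ∈ S m ∩ {ω | ∀ k ∈ U, k ≤ m → cp μ ℱ S k ω ≤ p k} := ⟨hS, hV'⟩
      rw [if_pos hS, Set.indicator_of_mem hS, Set.indicator_of_mem h1]
      by_cases hC : ω ∈ C m
      · have hn : ω ∉ V μ ℱ S U p m ∩ (C m)ᶜ := fun hh => hh.2 hC
        rw [if_pos hC, if_neg hn]
      · have hVC : ω ∈ V μ ℱ S U p m ∩ (C m)ᶜ := ⟨hV, hC⟩
        rw [if_neg hC, if_pos hVC]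
    · have h1 : ω ∉ S m ∩ {ω | ∀ k ∈ U, k ≤ m → cp μ ℱ S k ω ≤ p k} := fun hh => hS hh.1
      rw [Set.indicator_of_notMem hS, Set.indicator_of_notMem h1, mul_zero, mul_zero]
  · have hV' : ¬ ∀ k ∈ U, k ≤ m → cp μ ℱ S k ω ≤ p k := hV
    have hn : ω ∉ V μ ℱ S U p m ∩ (C m)ᶜ := fun hh => hV hh.1
    have h1 : ω ∉ S m ∩ {ω | ∀ k ∈ U, k ≤ m → cp μ ℱ S k ω ≤ p k} := fun hh => hV hh.2
    rw [if_neg hn, Set.indicator_of_notMem h1, mul_zero, zero_mul]

theorem int_of (f : Ω → ℝ) (K : ℝ) (hf : Measurable f) (hK : ∀ ω, |f ω| ≤ K) :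
    Integrable f μ :=
  Integrable.of_bound hf.aestronglyMeasurable K (Filter.Eventually.of_forall fun ω => hK ω)

end LW

open LW in
theorem t_LW (h1 : s_PULL) : s_LW := by
  intro Ω mΩ μ _ ℱ S hS C U p hU m hm
  obtain ⟨hm1, hp0, hp, hCm⟩ := hU m hm
  have hle : ℱ (m - 1) ≤ mΩ := ℱ.le _
  have hhF := h_meas (μ := μ) (ℱ := ℱ) (S := S) C U p m hCm
  have heF := e_meas (μ := μ) (ℱ := ℱ) (S := S) C U p m hCm
  have hvF := v_meas (μ := μ) (ℱ := ℱ) (S := S) C U p m hCm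
  have hhm : Measurable (h μ ℱ S C U p m) := hhF.mono hle le_rfl
  have hem : Measurable (e μ ℱ S C U p m) := heF.mono hle le_rfl
  have hvm : Measurable (v μ ℱ S C U p m) := hvF.mono hle le_rfl
  have hind : Measurable (fun ω => (S m).indicator (fun _ => (1 : ℝ)) ω) :=
    (measurable_const.indicator (ℱ.le m _ (hS m)))
  have hcpi : Integrable (cp μ ℱ S m) μ := integrable_condExp
  have hhb : ∀ ω, |h μ ℱ S C U p m ω| ≤ 2 := fun ω => by
    rw [abs_of_nonneg (h_bound hm hp ω).1]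
    exact (h_bound hm hp ω).2
  refine ⟨?_, ?_, ?_⟩
  · -- measurability
    have hmono : ℱ (m - 1) ≤ ℱ m := ℱ.mono (by omega)
    have hh' : Measurable[ℱ m] (h μ ℱ S C U p m) := hhF.mono hmono le_rfl
    have he' : Measurable[ℱ m] (e μ ℱ S C U p m) := heF.mono hmono le_rfl
    have hi' : Measurable[ℱ m] (fun ω => (S m).indicator (fun _ => (1 : ℝ)) ω) :=
      (@measurable_const _ _ _ (ℱ m) (1 : ℝ)).indicator (hS m)
    have hg : Measurable[ℱ m] (lw μ ℱ S C U p m) := by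
      have : lw μ ℱ S C U p m = fun ω => e μ ℱ S C U p m ω + h μ ℱ S C U p m ω -
          h μ ℱ S C U p m ω * (S m).indicator (fun _ => (1 : ℝ)) ω := funext fun ω => lw_eq ω
      rw [this]
      exact (he'.add hh').sub (hh'.mul hi')
    exact hg.stronglyMeasurable
  · intro ω
    classical
    unfold lw
    split_ifs with h2 h3 h4
    · norm_num
    · obtain ⟨-, h4, h5⟩ := V_bound (μ := μ) (ℱ := ℱ) (S := S) hm hp (ω := ω) h2
      exact ⟨(inv_pos.2 h4).le, h5⟩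
    · norm_num
    · norm_num
  · intro f hf hf0 hfK
    obtain ⟨K, hK⟩ := hfK
    have hfK' : ∀ ω, |f ω| ≤ K := fun ω => by
      rw [abs_of_nonneg (hf0 ω)]
      exact hK ω
    have hfm : Measurable f := (hf.measurable).mono hle le_rfl
    refine ⟨?_, ?_⟩
    · simp only [lw_eq]
      have hfh : StronglyMeasurable[ℱ (m - 1)] (fun ω => f ω * h μ ℱ S C U p m ω) :=
        hf.mul hhF.stronglyMeasurable
      have hfhb : ∀ ω, |f ω * h μ ℱ S C U p m ω| ≤ K * 2 := by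
        intro ω
        rw [abs_mul]
        exact mul_le_mul (hfK' ω) (hhb ω) (abs_nonneg _) ((abs_nonneg _).trans (hfK' ω))
      have hpull := h1 Ω μ ℱ S hS m _ (K * 2) hfh hfhb
      have i1 : Integrable (fun ω => f ω * (e μ ℱ S C U p m ω + h μ ℱ S C U p m ω)) μ := by
        refine int_of _ (K * (1 + 2)) (hfm.mul (hem.add hhm)) fun ω => ?_
        rw [abs_mul]
        have h2 : |e μ ℱ S C U p m ω + h μ ℱ S C U p m ω| ≤ 1 + 2 := by
          refine (abs_add_le _ _).trans (add_le_add ?_ (hhb ω))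
          rw [abs_of_nonneg (e_bound ω).1]
          exact (e_bound ω).2
        exact mul_le_mul (hfK' ω) h2 (abs_nonneg _) ((abs_nonneg _).trans (hfK' ω))
      have i2 : Integrable (fun ω => f ω * h μ ℱ S C U p m ω *
          (S m).indicator (fun _ => (1 : ℝ)) ω) μ := by
        refine int_of _ (K * 2 * 1) ((hfm.mul hhm).mul hind) fun ω => ?_
        rw [abs_mul]
        refine mul_le_mul (hfhb ω) ?_ (abs_nonneg _) ((abs_nonneg _).trans (hfhb ω))
        by_cases hS' : ω ∈ S m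
        · rw [Set.indicator_of_mem hS', abs_one]
        · rw [Set.indicator_of_notMem hS', abs_zero]
          norm_num
      have i3 : Integrable (fun ω => f ω * h μ ℱ S C U p m ω * cp μ ℱ S m ω) μ :=
        hcpi.bdd_mul (hfm.mul hhm).aestronglyMeasurable (Filter.Eventually.of_forall hfhb)
      calc ∫ ω, f ω * (e μ ℱ S C U p m ω + h μ ℱ S C U p m ω -
            h μ ℱ S C U p m ω * (S m).indicator (fun _ => (1 : ℝ)) ω) ∂μ
          = ∫ ω, (f ω * (e μ ℱ S C U p m ω + h μ ℱ S C U p m ω) -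
              f ω * h μ ℱ S C U p m ω * (S m).indicator (fun _ => (1 : ℝ)) ω) ∂μ := by
            congr 1
            funext ω
            ring
        _ = ∫ ω, f ω * (e μ ℱ S C U p m ω + h μ ℱ S C U p m ω) ∂μ -
              ∫ ω, f ω * h μ ℱ S C U p m ω * (S m).indicator (fun _ => (1 : ℝ)) ω ∂μ :=
            integral_sub i1 i2
        _ = ∫ ω, f ω * (e μ ℱ S C U p m ω + h μ ℱ S C U p m ω) ∂μ -
              ∫ ω, f ω * h μ ℱ S C U p m ω * cp μ ℱ S m ω ∂μ := by rw [hpull]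
        _ = ∫ ω, (f ω * (e μ ℱ S C U p m ω + h μ ℱ S C U p m ω) -
              f ω * h μ ℱ S C U p m ω * cp μ ℱ S m ω) ∂μ := (integral_sub i1 i3).symm
        _ = _ := by
            congr 1
            funext ω
            classical
            unfold e h
            split_ifs with h2
            · obtain ⟨-, h4, -⟩ := V_bound (μ := μ) (ℱ := ℱ) (S := S) hm hp h2.1
              have h5 : (1 - cp μ ℱ S m ω)⁻¹ * (1 - cp μ ℱ S m ω) = 1 := inv_mul_cancel₀ h4.ne'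
              linear_combination f ω * h5
            · ring
    · simp only [lw_mul]
      have hfv : StronglyMeasurable[ℱ (m - 1)] (fun ω => f ω * v μ ℱ S C U p m ω) :=
        hf.mul hvF.stronglyMeasurable
      have hfvb : ∀ ω, |f ω * v μ ℱ S C U p m ω| ≤ K := by
        intro ω
        rw [abs_mul, abs_of_nonneg (v_bound ω).1]
        calc |f ω| * v μ ℱ S C U p m ω ≤ |f ω| * 1 :=
              mul_le_mul_of_nonneg_left (v_bound ω).2 (abs_nonneg _)
          _ ≤ K := by rw [mul_one]; exact hfK' ω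
      have hpull := h1 Ω μ ℱ S hS m _ K hfv hfvb
      have h3 : ∫ ω, f ω * (v μ ℱ S C U p m ω * (S m).indicator (fun _ => (1 : ℝ)) ω) ∂μ =
          ∫ ω, f ω * v μ ℱ S C U p m ω * cp μ ℱ S m ω ∂μ := by
        rw [← hpull]
        congr 1
        funext ω
        ring
      rw [h3, ← integral_const_mul]
      have i3 : Integrable (fun ω => f ω * v μ ℱ S C U p m ω * cp μ ℱ S m ω) μ :=
        hcpi.bdd_mul (hfm.mul hvm).aestronglyMeasurable (Filter.Eventually.of_forall hfvb)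
      refine integral_mono i3 ((int_of f K hfm hfK').const_mul _) fun ω => ?_
      dsimp only
      classical
      unfold v
      split_ifs with h2
      · obtain ⟨h4, -, -⟩ := V_bound (μ := μ) (ℱ := ℱ) (S := S) hm hp h2.1
        rw [mul_one, mul_comm]
        exact mul_le_mul_of_nonneg_right h4 (hf0 ω)
      · rw [mul_zero, zero_mul]
        exact mul_nonneg hp0 (hf0 ω)

end Pool.Agent.J6H40.KT
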