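import Pool.Agent.J6H40.KT.Stm

/-!
# Project KT: module PL
-/

set_option autoImplicit false

open MeasureTheory Filter
open scoped Topology

namespace Pool.Agent.J6H40.KT

open Pool.Agent.J6H40.WG2

theorem PL_lim (ε : ℝ) (hε : 0 < ε) :
    Tendsto (fun X : ℕ => Real.exp (-(X : ℝ) ^ (ε / 8))) atTop (𝓝 0) := by
  have h1 : Tendsto (fun x : ℝ => x ^ (ε / 8)) atTop atTop :=
    tendsto_rpow_atTop (by positivity)
  have h2 : Tendsto (fun X : ℕ => (X : ℝ) ^ (ε / 8)) atTop atTop :=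
    h1.comp tendsto_natCast_atTop_atTop
  exact Real.tendsto_exp_neg_atTop_nhds_zero.comp h2

theorem t_PL (h1 : s_LA) (h2 : s_GE) : s_PL := by
  intro H hH z hz σ hσ hlim Ω mΩ μ hμ ℱ S hM ε hε hε1
  obtain ⟨κ, hκ0, hLA⟩ := h1 H hH z hz σ hσ hlim Ω μ ℱ S hM ε hε hε1
  obtain ⟨X0, hX0⟩ := eventually_atTop.1 hLA
  have key : ∀ x0 N : ℕ, μ {ω | (∀ x : ℕ, x0 ≤ x → ∃ n : ℕ, x < n ∧
      (n : ℝ) ≤ x + (1 - ε) * Real.log x ^ (H.card + 1) / σ ∧ ∀ h ∈ H, ω ∈ S (n + h)) ∧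
      ω ∈ Up μ ℱ S z κ N} = 0 := by
    intro x0 N
    have hreal : μ.real {ω | (∀ x : ℕ, x0 ≤ x → ∃ n : ℕ, x < n ∧
        (n : ℝ) ≤ x + (1 - ε) * Real.log x ^ (H.card + 1) / σ ∧ ∀ h ∈ H, ω ∈ S (n + h)) ∧
        ω ∈ Up μ ℱ S z κ N} = 0 := by
      refine le_antisymm (ge_of_tendsto (PL_lim ε hε) ?_) measureReal_nonneg
      filter_upwards [eventually_ge_atTop X0, eventually_ge_atTop x0, eventually_ge_atTop N]
        with X hX hXx hXN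
      refine le_trans (measureReal_mono ?_) (hX0 X hX N hXN)
      rintro ω ⟨hω, hωU⟩
      exact ⟨fun x hx _ => hω x (hXx.trans hx), hωU⟩
    exact (measureReal_eq_zero_iff).1 hreal
  have hae : ∀ᵐ ω ∂μ, ∀ x0 N : ℕ, ω ∉ {ω | (∀ x : ℕ, x0 ≤ x → ∃ n : ℕ, x < n ∧
      (n : ℝ) ≤ x + (1 - ε) * Real.log x ^ (H.card + 1) / σ ∧ ∀ h ∈ H, ω ∈ S (n + h)) ∧
      ω ∈ Up μ ℱ S z κ N} :=
    ae_all_iff.2 fun x0 => ae_all_iff.2 fun N => measure_eq_zero_iff_ae_notMem.1 (key x0 N)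
  filter_upwards [hae, h2 Ω μ ℱ S z hM κ hκ0] with ω hω hGE x0
  obtain ⟨N, _, hUp⟩ := hGE
  by_contra hcon
  apply hω x0 N
  refine ⟨fun x hx => ?_, hUp⟩
  by_contra hno
  apply hcon
  refine ⟨x, hx, fun n hn1 hn2 => ?_⟩
  by_contra hno2
  apply hno
  refine ⟨n, hn1, hn2, fun h hh => ?_⟩
  by_contra hno3
  exact hno2 ⟨h, hh, hno3⟩

end Pool.Agent.J6H40.KT
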