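import Pool.Agent.J6H40.KT.Stm

/-! # KT-PRD: integrals of products of weights -/

set_option autoImplicit false

open MeasureTheory Filter
open scoped Topology

namespace Pool.Agent.J6H40.KT

open Pool.Agent.J6H40.WG2

namespace PRDaux

theorem prod_bd {Ω : Type} (g : ℕ → Ω → ℝ) (T : Finset ℕ)
    (h : ∀ m ∈ T, ∀ ω, 0 ≤ g m ω ∧ g m ω ≤ 2) (ω : Ω) :
    0 ≤ ∏ m ∈ T, g m ω ∧ ∏ m ∈ T, g m ω ≤ 2 ^ T.card := by
  refine ⟨Finset.prod_nonneg fun m hm => (h m hm ω).1, ?_⟩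
  calc ∏ m ∈ T, g m ω ≤ ∏ _m ∈ T, (2 : ℝ) :=
        Finset.prod_le_prod (fun m hm => (h m hm ω).1) (fun m hm => (h m hm ω).2)
    _ = 2 ^ T.card := by rw [Finset.prod_const]

end PRDaux

open PRDaux

theorem t_PRD : s_PRD := by
  intro Ω mΩ μ _ ℱ g c T y f0 K hf0 hf0b
  induction T using Finset.induction_on_max with
  | empty =>
    intro _
    exact ⟨fun _ => by simp, fun _ => by simp⟩
  | insert M T' hlt ih =>
    intro h1
    obtain ⟨ih1, ih2⟩ := ih (fun m hm => h1 m (Finset.mem_insert_of_mem hm))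
    have hM := h1 M (Finset.mem_insert_self _ _)
    have hMT : M ∉ T' := fun h => lt_irrefl _ (hlt M h)
    have hbd := prod_bd g T' fun m hm => (h1 m (Finset.mem_insert_of_mem hm)).2.2.1
    have hsm : StronglyMeasurable[ℱ (M - 1)] (fun ω => f0 ω * ∏ m ∈ T', g m ω) := by
      refine (hf0.mono (ℱ.mono (Nat.le_sub_one_of_lt hM.1))).mul ?_
      exact Finset.stronglyMeasurable_fun_prod T' fun m hm =>
        (h1 m (Finset.mem_insert_of_mem hm)).2.1.mono (ℱ.mono (Nat.le_sub_one_of_lt (hlt m hm)))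
    have hnn : ∀ ω, 0 ≤ f0 ω * ∏ m ∈ T', g m ω := fun ω => mul_nonneg (hf0b ω).1 (hbd ω).1
    have hub : ∃ C : ℝ, ∀ ω, f0 ω * ∏ m ∈ T', g m ω ≤ C :=
      ⟨K * 2 ^ T'.card, fun ω =>
        mul_le_mul (hf0b ω).2 (hbd ω).2 (hbd ω).1 ((hf0b ω).1.trans (hf0b ω).2)⟩
    have e1 : ∫ ω, f0 ω * ∏ m ∈ insert M T', g m ω ∂μ =
        ∫ ω, (f0 ω * ∏ m ∈ T', g m ω) * g M ω ∂μ := by
      refine integral_congr_ae (Eventually.of_forall fun ω => ?_)
      simp only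
      rw [Finset.prod_insert hMT]
      ring
    rw [e1, Finset.prod_insert hMT]
    constructor
    · intro h2
      have h3 := h2 M (Finset.mem_insert_self _ _) _ hsm hnn hub
      have h4 := ih1 (fun m hm => h2 m (Finset.mem_insert_of_mem hm))
      calc ∫ ω, (f0 ω * ∏ m ∈ T', g m ω) * g M ω ∂μ
          ≤ c M * ∫ ω, f0 ω * ∏ m ∈ T', g m ω ∂μ := h3
        _ ≤ c M * ((∏ m ∈ T', c m) * ∫ ω, f0 ω ∂μ) := mul_le_mul_of_nonneg_left h4 hM.2.2.2
        _ = c M * (∏ m ∈ T', c m) * ∫ ω, f0 ω ∂μ := by ring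
    · intro h2
      have h3 := h2 M (Finset.mem_insert_self _ _) _ hsm hnn hub
      have h4 := ih2 (fun m hm => h2 m (Finset.mem_insert_of_mem hm))
      calc c M * (∏ m ∈ T', c m) * ∫ ω, f0 ω ∂μ
          = c M * ((∏ m ∈ T', c m) * ∫ ω, f0 ω ∂μ) := by ring
        _ ≤ c M * ∫ ω, f0 ω * ∏ m ∈ T', g m ω ∂μ := mul_le_mul_of_nonneg_left h4 hM.2.2.2
        _ ≤ ∫ ω, (f0 ω * ∏ m ∈ T', g m ω) * g M ω ∂μ := h3

end Pool.Agent.J6H40.KT
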