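import Pool.Agent.J6H40.KT.Stm

set_option autoImplicit false

/-!
# Project KT, module PU (helper22): Borel–Cantelli, upper part
-/

open MeasureTheory Filter
open scoped Topology

namespace Pool.Agent.J6H40.KT

open Pool.Agent.J6H40.WG2

theorem t_PU (h1 : s_UA) (h2 : s_GE) : s_PU := by
  classical
  intro H hH z hz σ hσ hlim Ω mΩ μ hμ ℱ S hM ε hε
  obtain ⟨κ, hκ0, hU⟩ := h1 H hH z hz σ hσ hlim Ω μ ℱ S hM.adapted ε hε
  obtain ⟨x1, hx1⟩ := eventually_atTop.1 hU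
  obtain ⟨G, hG⟩ : ∃ G : ℕ → ℕ → Set Ω, ∀ N x ω, ω ∈ G N x ↔
      ((x1 ≤ x ∧ N ≤ x) ∧ (∀ n : ℕ, x < n →
        (n : ℝ) ≤ x + (1 + ε) * Real.log x ^ (H.card + 1) / σ → ∃ h ∈ H, ω ∉ S (n + h)) ∧
        ω ∈ Lo μ ℱ S z κ N ∧ ω ∈ Up μ ℱ S z κ N) :=
    ⟨fun N x => {ω | (x1 ≤ x ∧ N ≤ x) ∧ (∀ n : ℕ, x < n →
        (n : ℝ) ≤ x + (1 + ε) * Real.log x ^ (H.card + 1) / σ → ∃ h ∈ H, ω ∉ S (n + h)) ∧
        ω ∈ Lo μ ℱ S z κ N ∧ ω ∈ Up μ ℱ S z κ N}, fun _ _ _ => Iff.rfl⟩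
  have key : ∀ N : ℕ, ∀ᵐ ω ∂μ, ∀ᶠ x : ℕ in atTop, ω ∉ G N x := by
    intro N
    apply ae_eventually_notMem
    have hb : ∀ x : ℕ, μ (G N x) ≤ ENNReal.ofReal ((x : ℝ) ^ (-(1 + ε / 2))) := by
      intro x
      by_cases hcnd : x1 ≤ x ∧ N ≤ x
      · have h4 := hx1 x hcnd.1 N hcnd.2
        have hsub : G N x ⊆ {ω | (∀ n : ℕ, x < n →
            (n : ℝ) ≤ x + (1 + ε) * Real.log x ^ (H.card + 1) / σ → ∃ h ∈ H, ω ∉ S (n + h)) ∧
            ω ∈ Lo μ ℱ S z κ N ∧ ω ∈ Up μ ℱ S z κ N} := fun ω h => ((hG N x ω).1 h).2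
        refine (measure_mono hsub).trans ?_
        rw [← ofReal_measureReal (measure_ne_top _ _)]
        exact ENNReal.ofReal_le_ofReal h4
      · have h5 : G N x = ∅ :=
          Set.eq_empty_of_forall_notMem (fun ω h => hcnd ((hG N x ω).1 h).1)
        rw [h5, measure_empty]
        exact bot_le
    refine ne_top_of_le_ne_top (Summable.tsum_ofReal_ne_top ?_) (ENNReal.tsum_le_tsum hb)
    exact Real.summable_nat_rpow.2 (by linarith)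
  filter_upwards [ae_all_iff.2 key, h2 Ω μ ℱ S z hM κ hκ0] with ω hω hGE
  obtain ⟨N, hN1, hN2⟩ := hGE
  obtain ⟨x0, hx0⟩ := eventually_atTop.1 (hω N)
  refine ⟨max x0 (max x1 N), fun x hx => ?_⟩
  have hx0' : x0 ≤ x := (le_max_left _ _).trans hx
  have hx1' : x1 ≤ x := ((le_max_left _ _).trans (le_max_right _ _)).trans hx
  have hxN : N ≤ x := ((le_max_right _ _).trans (le_max_right _ _)).trans hx
  by_contra hcon
  refine hx0 x hx0' ((hG N x ω).2 ⟨⟨hx1', hxN⟩, ?_, hN1, hN2⟩)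
  intro n hn hn2
  by_contra hcon2
  refine hcon ⟨n, hn, hn2, fun h hh => ?_⟩
  by_contra hS
  exact hcon2 ⟨h, hh, hS⟩

end Pool.Agent.J6H40.KT
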