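import Pool.Agent.J6H40.KT.Stm

set_option autoImplicit false

/-!
# The singular series of an admissible set
-/

open Filter
open scoped Topology

namespace Pool.Agent.J6H40.KT

open Pool.Agent.J6H40.WG2

/-- one factor of the singular series -/
private noncomputable def ff (H : Finset ℕ) (q : ℕ) : ℝ :=
  ((1 - (q : ℝ)⁻¹)⁻¹) ^ H.card * (1 - (nu H q : ℝ) / q)

private lemma sg_eq (H : Finset ℕ) (v : ℕ) :
    Sg H v = ∏ q ∈ Finset.Icc 1 v, if q.Prime then ff H q else 1 := by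
  unfold Sg W Pr
  rw [← Finset.prod_pow, ← Finset.prod_mul_distrib, Finset.prod_filter]
  rfl

private lemma sg_succ (H : Finset ℕ) (v : ℕ) :
    Sg H (v + 1) = Sg H v * (if (v + 1).Prime then ff H (v + 1) else 1) := by
  rw [sg_eq, sg_eq, Finset.prod_Icc_succ_top (by omega)]

private lemma ff_pos {H : Finset ℕ} (hH : Admissible H) {q : ℕ} (hq : q.Prime) : 0 < ff H q := by
  have h2 : (2 : ℝ) ≤ q := by exact_mod_cast hq.two_le
  have hn : (nu H q : ℝ) < q := by exact_mod_cast hH.2 q hq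
  have h1 : (q : ℝ)⁻¹ < 1 := inv_lt_one_of_one_lt₀ (by linarith)
  have h3 : (nu H q : ℝ) / q < 1 := by rw [div_lt_one (by linarith)]; exact hn
  unfold ff
  have h4 : 0 < (1 - (q : ℝ)⁻¹)⁻¹ := inv_pos.mpr (by linarith)
  have h5 : 0 < 1 - (nu H q : ℝ) / q := by linarith
  positivity

private lemma nu_eq {H : Finset ℕ} {q : ℕ} (hq : dm H < q) : nu H q = H.card := by
  unfold nu
  apply Finset.card_image_of_injOn
  intro a ha b hb hab
  have h1 : a ≤ dm H := Finset.le_sup (f := id) ha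
  have h2 : b ≤ dm H := Finset.le_sup (f := id) hb
  simp only at hab
  rw [Nat.mod_eq_of_lt (by omega), Nat.mod_eq_of_lt (by omega)] at hab
  exact hab

private lemma pow_upper (x : ℝ) (h0 : 0 ≤ x) (h1 : x ≤ 1) (k : ℕ) :
    (1 - x) ^ k ≤ 1 - k * x + (k : ℝ) ^ 2 * x ^ 2 := by
  induction k with
  | zero => simp
  | succ k ih =>
    have h2 : (1 - x) ^ (k + 1) ≤ (1 - k * x + (k : ℝ) ^ 2 * x ^ 2) * (1 - x) := by
      rw [pow_succ]
      exact mul_le_mul_of_nonneg_right ih (by linarith)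
    refine h2.trans ?_
    push_cast
    have hk : (0 : ℝ) ≤ k := Nat.cast_nonneg k
    have e : (1 - ((k : ℝ) + 1) * x + ((k : ℝ) + 1) ^ 2 * x ^ 2) - (1 - k * x + (k : ℝ) ^ 2 * x ^ 2) * (1 - x)
        = (k + 1) * x ^ 2 + (k : ℝ) ^ 2 * x ^ 3 := by ring
    have h3 : 0 ≤ (k + 1) * x ^ 2 + (k : ℝ) ^ 2 * x ^ 3 := by positivity
    linarith

private lemma ff_le {H : Finset ℕ} {q : ℕ} (hq : q.Prime) (hd : dm H < q) : ff H q ≤ 1 := by
  have h2 : (2 : ℝ) ≤ q := by exact_mod_cast hq.two_le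
  have h1 : (q : ℝ)⁻¹ < 1 := inv_lt_one_of_one_lt₀ (by linarith)
  have h0 : 0 < (q : ℝ)⁻¹ := inv_pos.mpr (by linarith)
  unfold ff
  rw [nu_eq hd, inv_pow, inv_mul_le_iff₀ (pow_pos (by linarith) _), mul_one, div_eq_mul_inv]
  have := one_add_mul_le_pow (a := -(q : ℝ)⁻¹) (by linarith) H.card
  calc 1 - (H.card : ℝ) * (q : ℝ)⁻¹ = 1 + (H.card : ℝ) * (-(q : ℝ)⁻¹) := by ring
    _ ≤ (1 + -(q : ℝ)⁻¹) ^ H.card := this
    _ = (1 - (q : ℝ)⁻¹) ^ H.card := by rw [sub_eq_add_neg]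

private lemma le_ff {H : Finset ℕ} {q : ℕ} (hq : q.Prime) (hd : dm H < q) :
    1 - ((H.card : ℝ) ^ 2 * 2 ^ H.card) / (q : ℝ) ^ 2 ≤ ff H q := by
  have h2 : (2 : ℝ) ≤ q := by exact_mod_cast hq.two_le
  have h0 : 0 < (q : ℝ)⁻¹ := inv_pos.mpr (by linarith)
  have h1 : (q : ℝ)⁻¹ ≤ 1 / 2 := by
    rw [one_div]; exact inv_anti₀ (by norm_num) h2
  have hu := pow_upper (q : ℝ)⁻¹ h0.le (by linarith) H.card
  unfold ff
  rw [nu_eq hd, div_eq_mul_inv, div_eq_mul_inv, ← inv_pow]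
  set x : ℝ := (q : ℝ)⁻¹ with hx
  set k : ℝ := (H.card : ℝ) with hk
  have hy : 0 < (1 - x)⁻¹ ^ H.card := by
    have : 0 < (1 - x)⁻¹ := inv_pos.mpr (by linarith)
    positivity
  have hy2 : (1 - x)⁻¹ ^ H.card ≤ 2 ^ H.card := by
    apply pow_le_pow_left₀ (inv_nonneg.mpr (by linarith))
    rw [inv_le_comm₀ (by linarith) (by norm_num)]
    linarith
  have hy3 : (1 - x)⁻¹ ^ H.card * (1 - x) ^ H.card = 1 := by
    rw [← mul_pow, inv_mul_cancel₀ (by linarith), one_pow]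
  have hkx : 0 ≤ k ^ 2 * x ^ 2 := by positivity
  calc 1 - k ^ 2 * 2 ^ H.card * x ^ 2 = 1 - 2 ^ H.card * (k ^ 2 * x ^ 2) := by ring
    _ ≤ 1 - (1 - x)⁻¹ ^ H.card * (k ^ 2 * x ^ 2) := by
        have := mul_le_mul_of_nonneg_right hy2 hkx
        linarith
    _ = (1 - x)⁻¹ ^ H.card * ((1 - x) ^ H.card - k ^ 2 * x ^ 2) := by rw [mul_sub, hy3]
    _ ≤ (1 - x)⁻¹ ^ H.card * (1 - k * x) := by
        apply mul_le_mul_of_nonneg_left _ hy.le
        linarith

private lemma sg_pos {H : Finset ℕ} (hH : Admissible H) (v : ℕ) : 0 < Sg H v := by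
  rw [sg_eq]
  apply Finset.prod_pos
  intro q _
  split_ifs with hq
  · exact ff_pos hH hq
  · norm_num

/-- the lower bound of the products beyond `q0` -/
private lemma sg_lower {H : Finset ℕ} (hH : Admissible H) {q0 : ℕ} (h0 : 1 ≤ q0) (hd : dm H ≤ q0)
    (hC : 2 * ((H.card : ℝ) ^ 2 * 2 ^ H.card) ≤ q0) (n : ℕ) :
    Sg H q0 * (1 - ((H.card : ℝ) ^ 2 * 2 ^ H.card) * (1 / (q0 : ℝ) - 1 / ((q0 + n : ℕ) : ℝ))) ≤ Sg H (q0 + n) := by
  set C : ℝ := (H.card : ℝ) ^ 2 * 2 ^ H.card with hCd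
  have hC0 : 0 ≤ C := by positivity
  have hq0 : (1 : ℝ) ≤ q0 := by exact_mod_cast h0
  induction n with
  | zero => simp
  | succ n ih =>
    have hp := sg_pos hH q0
    have hv : (q0 : ℝ) ≤ ((q0 + n : ℕ) : ℝ) := by exact_mod_cast Nat.le_add_right q0 n
    have hvp : (0 : ℝ) < ((q0 + n : ℕ) : ℝ) := by linarith
    have hs : 0 ≤ C * (1 / (q0 : ℝ) - 1 / ((q0 + n : ℕ) : ℝ)) := by
      apply mul_nonneg hC0
      have := one_div_le_one_div_of_le (by linarith) hv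
      linarith
    have e1 : ((q0 + (n + 1) : ℕ) : ℝ) = ((q0 + n : ℕ) : ℝ) + 1 := by push_cast; ring
    rw [← add_assoc, sg_succ]
    have hcast : ((q0 + n + 1 : ℕ) : ℝ) = ((q0 + n : ℕ) : ℝ) + 1 := by push_cast; ring
    rw [hcast]
    set v : ℝ := ((q0 + n : ℕ) : ℝ) with hvd
    have ht : 1 / v - 1 / (v + 1) = 1 / (v * (v + 1)) := by
      field_simp; ring
    have ht2 : 1 / (v + 1) ^ 2 ≤ 1 / (v * (v + 1)) := by
      apply one_div_le_one_div_of_le (by positivity)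
      nlinarith
    have ht3 : C / (v + 1) ^ 2 ≤ C * (1 / v - 1 / (v + 1)) := by
      rw [ht, div_eq_mul_one_div]
      exact mul_le_mul_of_nonneg_left ht2 hC0
    have ht4 : 0 ≤ C / (v + 1) ^ 2 := by positivity
    have hfac : 1 - C / (v + 1) ^ 2 ≤ (if (q0 + n + 1).Prime then ff H (q0 + n + 1) else 1) := by
      split_ifs with hpr
      · have := le_ff (H := H) hpr (by omega)
        rw [hcast] at this
        exact this
      · linarith
    have hs1 : C * (1 / (q0 : ℝ) - 1 / v) ≤ 1 := by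
      have h3 : C * (1 / (q0 : ℝ) - 1 / v) ≤ C * (1 / (q0 : ℝ)) := by
        apply mul_le_mul_of_nonneg_left _ hC0
        have : 0 ≤ 1 / v := by positivity
        linarith
      have h4 : C * (1 / (q0 : ℝ)) ≤ 1 := by
        rw [mul_one_div, div_le_one (by linarith)]
        linarith
      linarith
    have hft : 0 ≤ (if (q0 + n + 1).Prime then ff H (q0 + n + 1) else (1 : ℝ)) := by
      split_ifs with hpr
      · exact (ff_pos hH hpr).le
      · norm_num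
    calc Sg H q0 * (1 - C * (1 / (q0 : ℝ) - 1 / (v + 1)))
        ≤ Sg H q0 * ((1 - C * (1 / (q0 : ℝ) - 1 / v)) * (1 - C / (v + 1) ^ 2)) := by
          apply mul_le_mul_of_nonneg_left _ hp.le
          have h5 : 0 ≤ (C * (1 / (q0 : ℝ) - 1 / v)) * (C / (v + 1) ^ 2) := mul_nonneg hs ht4
          nlinarith
      _ ≤ Sg H q0 * ((1 - C * (1 / (q0 : ℝ) - 1 / v)) *
            (if (q0 + n + 1).Prime then ff H (q0 + n + 1) else 1)) := by
          apply mul_le_mul_of_nonneg_left _ hp.le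
          apply mul_le_mul_of_nonneg_left hfac
          linarith
      _ = (Sg H q0 * (1 - C * (1 / (q0 : ℝ) - 1 / v))) *
            (if (q0 + n + 1).Prime then ff H (q0 + n + 1) else 1) := by ring
      _ ≤ Sg H (q0 + n) * (if (q0 + n + 1).Prime then ff H (q0 + n + 1) else 1) :=
          mul_le_mul_of_nonneg_right ih hft

private lemma sg_lim {H : Finset ℕ} (hH : Admissible H) :
    ∃ σ : ℝ, 0 < σ ∧ Tendsto (fun v => Sg H v) atTop (𝓝 σ) := by
  set C : ℝ := (H.card : ℝ) ^ 2 * 2 ^ H.card with hCd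
  have hC0 : 0 ≤ C := by positivity
  set q0 : ℕ := max (max 1 (dm H)) ⌈2 * C⌉₊ with hq0
  have h1 : 1 ≤ q0 := by
    rw [hq0]; exact le_max_of_le_left (le_max_left _ _)
  have h2 : dm H ≤ q0 := by
    rw [hq0]; exact le_max_of_le_left (le_max_right _ _)
  have h3 : 2 * C ≤ q0 := by
    have : ⌈2 * C⌉₊ ≤ q0 := by rw [hq0]; exact le_max_right _ _
    exact (Nat.le_ceil _).trans (by exact_mod_cast this)
  have hq1 : (1 : ℝ) ≤ q0 := by exact_mod_cast h1
  have hp := sg_pos hH q0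
  have hanti : Antitone (fun n => Sg H (n + q0)) := by
    apply antitone_nat_of_succ_le
    intro n
    have e : n + 1 + q0 = (n + q0) + 1 := by ring
    rw [e, sg_succ]
    have hle : (if (n + q0 + 1).Prime then ff H (n + q0 + 1) else (1 : ℝ)) ≤ 1 := by
      split_ifs with hpr
      · exact ff_le hpr (by omega)
      · exact le_rfl
    calc Sg H (n + q0) * (if (n + q0 + 1).Prime then ff H (n + q0 + 1) else 1)
        ≤ Sg H (n + q0) * 1 := mul_le_mul_of_nonneg_left hle (sg_pos hH _).le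
      _ = Sg H (n + q0) := mul_one _
  have hlow : ∀ n, Sg H q0 / 2 ≤ Sg H (n + q0) := by
    intro n
    have h4 := sg_lower hH h1 h2 h3 n
    rw [add_comm q0 n] at h4
    refine le_trans ?_ h4
    rw [div_eq_mul_inv]
    apply mul_le_mul_of_nonneg_left _ hp.le
    have hnq : (0 : ℝ) ≤ 1 / ((n + q0 : ℕ) : ℝ) := by positivity
    have h5 : C * (1 / (q0 : ℝ) - 1 / ((n + q0 : ℕ) : ℝ)) ≤ C * (1 / (q0 : ℝ)) := by
      apply mul_le_mul_of_nonneg_left _ hC0
      linarith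
    have h6 : C * (1 / (q0 : ℝ)) ≤ 1 / 2 := by
      rw [mul_one_div, div_le_iff₀ (by linarith)]
      linarith
    have h7 : ((2 : ℝ))⁻¹ = 1 / 2 := by norm_num
    rw [h7]
    linarith
  have hbdd : BddBelow (Set.range (fun n => Sg H (n + q0))) := by
    refine ⟨Sg H q0 / 2, ?_⟩
    rintro _ ⟨n, rfl⟩
    exact hlow n
  refine ⟨⨅ n, Sg H (n + q0), ?_, ?_⟩
  · exact lt_of_lt_of_le (by linarith) (le_ciInf hlow)
  · exact (tendsto_add_atTop_iff_nat q0).mp (tendsto_atTop_ciInf hanti hbdd)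

theorem t_SING : s_SING := by
  intro H hH
  refine ⟨fun v => sg_pos hH v, ?_⟩
  intro z hz
  rcases tendsto_atTop_of_monotone hz with h | ⟨l, hl⟩
  · obtain ⟨σ, hσ, ht⟩ := sg_lim hH
    exact ⟨σ, hσ, ht.comp h⟩
  · refine ⟨Sg H l, sg_pos hH l, ?_⟩
    rw [nhds_discrete, tendsto_pure] at hl
    refine tendsto_const_nhds.congr' ?_
    filter_upwards [hl] with m hm
    rw [hm]

end Pool.Agent.J6H40.KT
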