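import Pool.Agent.J6H40.KT.Stm2

set_option autoImplicit false

/-!
# Project KT, module TB (helper8): Borel–Cantelli for the Hardy–Littlewood law in short intervals
-/

open MeasureTheory Filter
open scoped Topology

namespace Pool.Agent.J6H40.KT

open Pool.Agent.J6H40.WG2

lemma tb_summable (c : ℝ) (hc : 0 < c) :
    Summable fun x : ℕ => ((x : ℝ) + 1) * Real.exp (-(c * Real.log x ^ 2)) := by
  have h1 : Summable fun x : ℕ => (x : ℝ) ^ (-2 : ℝ) := Real.summable_nat_rpow.2 (by norm_num)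
  refine summable_of_isBigO_nat h1 ?_
  refine Asymptotics.IsBigO.of_bound 2 ?_
  have h2 : Tendsto (fun x : ℕ => Real.log x) atTop atTop :=
    Real.tendsto_log_atTop.comp tendsto_natCast_atTop_atTop
  filter_upwards [h2.eventually_ge_atTop (3 / c), eventually_ge_atTop 1] with x hx hx1
  have hx1' : (1 : ℝ) ≤ x := by exact_mod_cast hx1
  have hx0 : (0 : ℝ) < x := by linarith
  have hlog : 0 ≤ Real.log x := Real.log_nonneg hx1'
  rw [Real.norm_of_nonneg (by positivity), Real.norm_of_nonneg (by positivity)]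
  have h3 : 3 ≤ c * Real.log x := by
    rw [div_le_iff₀ hc] at hx
    linarith
  have h4 : Real.exp (-(c * Real.log x ^ 2)) ≤ (x : ℝ) ^ (-3 : ℝ) := by
    rw [Real.rpow_def_of_pos hx0]
    apply Real.exp_le_exp.2
    have h5 := mul_le_mul_of_nonneg_right h3 hlog
    have h6 : c * Real.log x ^ 2 = c * Real.log x * Real.log x := by ring
    rw [h6]
    linarith
  have h7 : (x : ℝ) ^ (-3 : ℝ) = (x : ℝ) ^ (-2 : ℝ) * (x : ℝ)⁻¹ := by
    rw [← Real.rpow_neg_one (x : ℝ), ← Real.rpow_add hx0]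
    norm_num
  calc ((x : ℝ) + 1) * Real.exp (-(c * Real.log x ^ 2))
      ≤ (2 * x) * ((x : ℝ) ^ (-2 : ℝ) * (x : ℝ)⁻¹) := by
        rw [← h7]
        exact mul_le_mul (by linarith) h4 (Real.exp_pos _).le (by linarith)
    _ = 2 * (x : ℝ) ^ (-2 : ℝ) := by
        field_simp

lemma tb_bc {Ω : Type} [mΩ : MeasurableSpace Ω] (μ : Measure Ω) [IsProbabilityMeasure μ]
    (E : ℕ → ℕ → Set Ω) (c : ℝ) (hc : 0 < c) (x1 : ℕ)
    (hE : ∀ x, x1 ≤ x → ∀ y ≤ x, μ.real (E x y) ≤ Real.exp (-(c * Real.log x ^ 2))) :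
    ∀ᵐ ω ∂μ, ∃ x0 : ℕ, ∀ x y : ℕ, x0 ≤ x → y ≤ x → ω ∉ E x y := by
  classical
  obtain ⟨G, hG⟩ : ∃ G : ℕ → ℕ → Set Ω, ∀ x y ω, ω ∈ G x y ↔ (x1 ≤ x ∧ ω ∈ E x y) :=
    ⟨fun x y => {ω | x1 ≤ x ∧ ω ∈ E x y}, fun _ _ _ => Iff.rfl⟩
  have key : ∀ᵐ ω ∂μ, ∀ᶠ x : ℕ in atTop, ω ∉ ⋃ y ∈ Finset.range (x + 1), G x y := by
    apply ae_eventually_notMem
    have hb : ∀ x : ℕ, μ (⋃ y ∈ Finset.range (x + 1), G x y) ≤
        ENNReal.ofReal (((x : ℝ) + 1) * Real.exp (-(c * Real.log x ^ 2))) := by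
      intro x
      refine (measure_biUnion_finset_le _ _).trans ?_
      have h3 : ∀ y ∈ Finset.range (x + 1), μ (G x y) ≤
          ENNReal.ofReal (Real.exp (-(c * Real.log x ^ 2))) := by
        intro y hy
        by_cases hcnd : x1 ≤ x
        · have h4 := hE x hcnd y (by
            have := Finset.mem_range.1 hy
            omega)
          refine (measure_mono (fun ω h => ((hG x y ω).1 h).2)).trans ?_
          rw [← ofReal_measureReal (measure_ne_top _ _)]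
          exact ENNReal.ofReal_le_ofReal h4
        · have h5 : G x y = ∅ :=
            Set.eq_empty_of_forall_notMem (fun ω h => hcnd ((hG x y ω).1 h).1)
          rw [h5, measure_empty]
          exact bot_le
      refine (Finset.sum_le_sum h3).trans ?_
      rw [Finset.sum_const, Finset.card_range, nsmul_eq_mul,
        ENNReal.ofReal_mul (by positivity)]
      refine mul_le_mul_left ?_ _
      rw [show ((x : ℝ) + 1) = ((x + 1 : ℕ) : ℝ) by push_cast; ring, ENNReal.ofReal_natCast]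
    exact ne_top_of_le_ne_top (tb_summable c hc).tsum_ofReal_ne_top (ENNReal.tsum_le_tsum hb)
  filter_upwards [key] with ω hω
  obtain ⟨x0, hx0⟩ := eventually_atTop.1 hω
  refine ⟨max x0 x1, fun x y hx hy hmem => ?_⟩
  refine hx0 x ((le_max_left _ _).trans hx) ?_
  simp only [Set.mem_iUnion]
  exact ⟨y, Finset.mem_range.2 (by omega), (hG x y ω).2 ⟨(le_max_right _ _).trans hx, hmem⟩⟩

theorem t_TB (h1 : s_TL) (h2 : s_TU) (h3 : s_GE) : s_TB := by
  classical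
  intro H hH z hz σ hσ hSg Ω mΩ μ hμ ℱ S hM ε hε
  obtain ⟨ε', hε'⟩ : ∃ ε' : ℝ, ε' = min ε (1 / 2) := ⟨_, rfl⟩
  have hε0 : 0 < ε' := by rw [hε']; exact lt_min hε (by norm_num)
  have hε1 : ε' < 1 := by rw [hε']; exact (min_le_right _ _).trans_lt (by norm_num)
  have hεε : ε' ≤ ε := by rw [hε']; exact min_le_left _ _
  obtain ⟨κ1, hκ1, c1, hc1, hL⟩ := h1 H hH z hz σ hσ hSg Ω μ ℱ S hM ε' hε0 hε1
  obtain ⟨κ2, hκ2, c2, hc2, hU⟩ := h2 H hH z hz σ hσ hSg Ω μ ℱ S hM ε' hε0 hε1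
  obtain ⟨x1, hx1⟩ := eventually_atTop.1 hL
  obtain ⟨x2, hx2⟩ := eventually_atTop.1 hU
  have keyL : ∀ N : ℕ, ∀ᵐ ω ∂μ, ∃ x0 : ℕ, ∀ x y : ℕ, x0 ≤ x → y ≤ x →
      ω ∉ {ω | Real.log x ^ (H.card + 2) ≤ y ∧
        (cnt S H ω x y : ℝ) ≤ (1 - ε') * (σ * y / Real.log x ^ H.card) ∧
        ω ∈ Lo μ ℱ S z κ1 N ∧ ω ∈ Up μ ℱ S z κ1 N} := by
    intro N
    refine tb_bc μ _ c1 hc1 (max x1 N) ?_
    intro x hx y hy
    by_cases hcnd : Real.log x ^ (H.card + 2) ≤ y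
    · refine le_trans ?_ (hx1 x ((le_max_left _ _).trans hx) y hcnd hy N
        ((le_max_right _ _).trans hx))
      exact measureReal_mono (fun ω h => h.2) (measure_ne_top _ _)
    · have h5 : {ω | Real.log x ^ (H.card + 2) ≤ y ∧
        (cnt S H ω x y : ℝ) ≤ (1 - ε') * (σ * y / Real.log x ^ H.card) ∧
        ω ∈ Lo μ ℱ S z κ1 N ∧ ω ∈ Up μ ℱ S z κ1 N} = ∅ :=
        Set.eq_empty_of_forall_notMem (fun ω h => hcnd h.1)
      rw [h5, measureReal_empty]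
      positivity
  have keyU : ∀ N : ℕ, ∀ᵐ ω ∂μ, ∃ x0 : ℕ, ∀ x y : ℕ, x0 ≤ x → y ≤ x →
      ω ∉ {ω | Real.log x ^ (H.card + 2) ≤ y ∧
        (1 + ε') * (σ * y / Real.log x ^ H.card) ≤ (cnt S H ω x y : ℝ) ∧
        ω ∈ Up μ ℱ S z κ2 N} := by
    intro N
    refine tb_bc μ _ c2 hc2 (max x2 N) ?_
    intro x hx y hy
    by_cases hcnd : Real.log x ^ (H.card + 2) ≤ y
    · refine le_trans ?_ (hx2 x ((le_max_left _ _).trans hx) y hcnd hy N
        ((le_max_right _ _).trans hx))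
      exact measureReal_mono (fun ω h => h.2) (measure_ne_top _ _)
    · have h5 : {ω | Real.log x ^ (H.card + 2) ≤ y ∧
        (1 + ε') * (σ * y / Real.log x ^ H.card) ≤ (cnt S H ω x y : ℝ) ∧
        ω ∈ Up μ ℱ S z κ2 N} = ∅ :=
        Set.eq_empty_of_forall_notMem (fun ω h => hcnd h.1)
      rw [h5, measureReal_empty]
      positivity
  filter_upwards [ae_all_iff.2 keyL, ae_all_iff.2 keyU, h3 Ω μ ℱ S z hM κ1 hκ1,
    h3 Ω μ ℱ S z hM κ2 hκ2] with ω hωL hωU hG1 hG2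
  obtain ⟨N1, hN1, hN1'⟩ := hG1
  obtain ⟨N2, -, hN2'⟩ := hG2
  obtain ⟨a, ha⟩ := hωL N1
  obtain ⟨b, hb⟩ := hωU N2
  refine ⟨max (max a b) 1, fun x y hx hxy hyx => ?_⟩
  have hxa : a ≤ x := ((le_max_left _ _).trans (le_max_left _ _)).trans hx
  have hxb : b ≤ x := ((le_max_right _ _).trans (le_max_left _ _)).trans hx
  have hx1' : 1 ≤ x := (le_max_right _ _).trans hx
  have hlog : 0 ≤ Real.log x := Real.log_nonneg (by exact_mod_cast hx1')
  have hlo : (1 - ε') * (σ * y / Real.log x ^ H.card) < (cnt S H ω x y : ℝ) := by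
    by_contra hcon
    exact ha x y hxa hyx ⟨hxy, not_lt.1 hcon, hN1, hN1'⟩
  have hup : (cnt S H ω x y : ℝ) < (1 + ε') * (σ * y / Real.log x ^ H.card) := by
    by_contra hcon
    exact hb x y hxb hyx ⟨hxy, not_lt.1 hcon, hN2'⟩
  have hM0 : 0 ≤ σ * y / Real.log x ^ H.card := by positivity
  have h6 := mul_le_mul_of_nonneg_right hεε hM0
  rw [abs_le]
  constructor <;> linarith

end Pool.Agent.J6H40.KT
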