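import Pool.Agent.J6H40.KT.Stm2

/-! # KT2-TL (helper85 for helper40): lower tail -/

set_option autoImplicit false

open MeasureTheory Filter
open scoped Topology

namespace Pool.Agent.J6H40.KT

open Pool.Agent.J6H40.WG2

namespace TLx

lemma logT : Tendsto (fun n : ℕ => Real.log (n : ℝ)) atTop atTop :=
  Real.tendsto_log_atTop.comp tendsto_natCast_atTop_atTop

lemma log2 (x : ℕ) (hx : 2 ≤ x) : Real.log ((2 * x : ℕ) : ℝ) ≤ 2 * Real.log x := by
  have hx0 : (2 : ℝ) ≤ x := by exact_mod_cast hx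
  have h1 : ((2 * x : ℕ) : ℝ) ≤ (x : ℝ) ^ 2 := by
    push_cast
    nlinarith
  calc Real.log ((2 * x : ℕ) : ℝ) ≤ Real.log ((x : ℝ) ^ 2) := by
        apply Real.log_le_log _ h1
        push_cast
        linarith
    _ = 2 * Real.log x := by
        rw [Real.log_pow]
        norm_num

lemma bl_sq (x : ℕ) : (bl x : ℝ) ≤ Real.sqrt (Real.log x) := by
  unfold bl
  exact Nat.floor_le (Real.sqrt_nonneg _)

lemma bl_pos (x : ℕ) (h : 1 ≤ Real.log x) : 1 ≤ bl x := by
  unfold bl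
  rw [Nat.one_le_floor_iff, Real.one_le_sqrt]
  exact h

lemma small_one (z : ℕ → ℕ) (hz : Slow z) :
    ∀ᶠ x : ℕ in atTop, 2 * ((z (2 * x) : ℝ) + 1) / Real.log x ≤ 1 := by
  obtain ⟨m0, hm0⟩ := eventually_atTop.1 (hz.2 (1 / 2) (by norm_num))
  filter_upwards [eventually_ge_atTop (m0 + 2), logT.eventually_ge_atTop 64] with x hx hL
  have h1 := hm0 (2 * x) (by omega)
  have hL0 : 0 < Real.log (x : ℝ) := by linarith
  have h2 : Real.log ((2 * x : ℕ) : ℝ) ^ (1 / 2 : ℝ) ≤ Real.sqrt (2 * Real.log x) := by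
    rw [← Real.sqrt_eq_rpow]
    exact Real.sqrt_le_sqrt (log2 x (by omega))
  have h3 : Real.sqrt (2 * Real.log x) ≤ Real.log x / 4 := by
    rw [Real.sqrt_le_left (by positivity)]
    nlinarith
  rw [div_le_one hL0]
  linarith

lemma small_sec (z : ℕ → ℕ) (hz : Slow z) (k : ℕ) (e : ℝ) (he : 0 < e) :
    ∀ᶠ x : ℕ in atTop, (bl x : ℝ) ^ 2 * (2 * ((z (2 * x) : ℝ) + 1) / Real.log x) ^ (k + 1) ≤
      e * ((bl x : ℝ) / Real.log x ^ k) := by
  obtain ⟨δ, hδ⟩ : ∃ δ : ℝ, δ = 1 / (4 * (k + 1)) := ⟨_, rfl⟩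
  have hδ0 : 0 < δ := by rw [hδ]; positivity
  obtain ⟨m0, hm0⟩ := eventually_atTop.1 (hz.2 δ hδ0)
  have hT : Tendsto (fun n : ℕ => Real.log (n : ℝ) ^ (1 / 4 : ℝ)) atTop atTop :=
    (tendsto_rpow_atTop (by norm_num)).comp logT
  filter_upwards [eventually_ge_atTop (m0 + 2), logT.eventually_ge_atTop 1,
    hT.eventually_ge_atTop (2 * 4 ^ (k + 1) / e)] with x hx hL ht
  obtain ⟨L, hLd⟩ : ∃ L, L = Real.log (x : ℝ) := ⟨_, rfl⟩
  rw [← hLd] at hL ht ⊢
  have hL0 : 0 < L := by linarith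
  obtain ⟨t, htd⟩ : ∃ t, t = L ^ (1 / 4 : ℝ) := ⟨_, rfl⟩
  rw [← htd] at ht
  have ht0 : 0 < t := by rw [htd]; positivity
  have ht4 : t ^ 4 = L := by
    rw [htd, ← Real.rpow_natCast, ← Real.rpow_mul hL0.le]
    norm_num
  have hsq : Real.sqrt L = t ^ 2 := by
    rw [← ht4, show t ^ 4 = (t ^ 2) ^ 2 by ring]
    exact Real.sqrt_sq (by positivity)
  have hb : (bl x : ℝ) ≤ t ^ 2 := by
    rw [← hsq, hLd]
    exact bl_sq x
  have hb0 : (0 : ℝ) ≤ bl x := Nat.cast_nonneg _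
  have h1 := hm0 (2 * x) (by omega)
  have h2L : Real.log ((2 * x : ℕ) : ℝ) ≤ 2 * L := by rw [hLd]; exact log2 x (by omega)
  have hlog0 : 0 ≤ Real.log ((2 * x : ℕ) : ℝ) := Real.log_natCast_nonneg _
  have h2 : (z (2 * x) : ℝ) ≤ (2 * L) ^ δ := h1.trans (Real.rpow_le_rpow hlog0 h2L hδ0.le)
  have h3 : 1 ≤ (2 * L) ^ δ := Real.one_le_rpow (by linarith) hδ0.le
  have h4 : (2 * ((z (2 * x) : ℝ) + 1)) ^ (k + 1) ≤ 4 ^ (k + 1) * (2 * t) := by
    calc (2 * ((z (2 * x) : ℝ) + 1)) ^ (k + 1) ≤ (4 * (2 * L) ^ δ) ^ (k + 1) := by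
          apply pow_le_pow_left₀ (by positivity)
          linarith
      _ = 4 ^ (k + 1) * ((2 * L) ^ δ) ^ (k + 1) := by rw [mul_pow]
      _ = 4 ^ (k + 1) * (2 * L) ^ (1 / 4 : ℝ) := by
          congr 1
          rw [← Real.rpow_natCast, ← Real.rpow_mul (by positivity), hδ]
          congr 1
          push_cast
          field_simp
      _ ≤ 4 ^ (k + 1) * (2 * t) := by
          apply mul_le_mul_of_nonneg_left _ (by positivity)
          rw [Real.mul_rpow (by norm_num) hL0.le, ← htd]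
          apply mul_le_mul_of_nonneg_right _ ht0.le
          calc (2 : ℝ) ^ (1 / 4 : ℝ) ≤ 2 ^ (1 : ℝ) := Real.rpow_le_rpow_of_exponent_le (by norm_num) (by norm_num)
            _ = 2 := Real.rpow_one 2
  have h5 : (2 * ((z (2 * x) : ℝ) + 1) / L) ^ (k + 1) ≤ 4 ^ (k + 1) * (2 * t) / L ^ (k + 1) := by
    rw [div_pow]
    exact div_le_div_of_nonneg_right h4 (by positivity)
  calc (bl x : ℝ) ^ 2 * (2 * ((z (2 * x) : ℝ) + 1) / L) ^ (k + 1)
      ≤ ((bl x : ℝ) * t ^ 2) * (4 ^ (k + 1) * (2 * t) / L ^ (k + 1)) := by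
        apply mul_le_mul _ h5 (by positivity) (by positivity)
        rw [sq]
        exact mul_le_mul_of_nonneg_left hb hb0
    _ = (2 * 4 ^ (k + 1) * t ^ 3 / L) * ((bl x : ℝ) / L ^ k) := by
        rw [pow_succ L k]
        field_simp
    _ ≤ e * ((bl x : ℝ) / L ^ k) := by
        apply mul_le_mul_of_nonneg_right _ (by positivity)
        rw [div_le_iff₀ hL0, ← ht4]
        rw [div_le_iff₀ he] at ht
        have : 0 ≤ t ^ 3 := by positivity
        nlinarith

lemma ratio (κ : ℝ) (hκ : 0 < κ) (k : ℕ) :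
    ∀ᶠ x : ℕ in atTop, (1 - κ) * Real.log ((2 * x : ℕ) : ℝ) ^ k ≤ Real.log x ^ k := by
  filter_upwards [eventually_ge_atTop 2, logT.eventually_ge_atTop 1,
    logT.eventually_ge_atTop (k / κ)] with x hx hL hk
  have hx0 : (0 : ℝ) < x := by
    have : 0 < x := by omega
    exact_mod_cast this
  obtain ⟨L, hLd⟩ : ∃ L, L = Real.log (x : ℝ) := ⟨_, rfl⟩
  rw [← hLd] at hL hk ⊢
  obtain ⟨M, hMd⟩ : ∃ M, M = Real.log ((2 * x : ℕ) : ℝ) := ⟨_, rfl⟩
  rw [← hMd]
  have hM : M = Real.log 2 + L := by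
    rw [hMd, hLd]
    push_cast
    exact Real.log_mul (by norm_num) hx0.ne'
  have hl2 : 0 < Real.log 2 := Real.log_pos (by norm_num)
  have hl2' : Real.log 2 < 1 := by
    have := Real.log_two_lt_d9
    linarith
  have hM0 : 0 < M := by linarith
  have h1 : 1 + (k : ℝ) * (-(Real.log 2 / M)) ≤ (1 + (-(Real.log 2 / M))) ^ k := by
    apply one_add_mul_le_pow
    have : Real.log 2 / M ≤ 1 := by
      rw [div_le_one hM0]
      linarith
    linarith
  have h2 : 1 + (-(Real.log 2 / M)) = L / M := by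
    rw [hM]
    field_simp
    ring
  have h3 : (k : ℝ) * (Real.log 2 / M) ≤ κ := by
    rw [div_le_iff₀ hκ] at hk
    rw [← mul_div_assoc, div_le_iff₀ hM0]
    have hk0 : (0 : ℝ) ≤ k := Nat.cast_nonneg k
    nlinarith
  rw [h2, div_pow] at h1
  have h4 : 1 - κ ≤ L ^ k / M ^ k := by linarith
  rwa [le_div_iff₀ (by positivity)] at h4

lemma card_union (H : Finset ℕ) (hH : H.Nonempty) (n n' : ℕ) (h : n ≠ n') :
    H.card + 1 ≤ (H.image (fun h => n + h) ∪ H.image (fun h => n' + h)).card := by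
  have inj : ∀ m : ℕ, Function.Injective (fun h : ℕ => m + h) := fun m a b hab => Nat.add_left_cancel hab
  have c1 : ∀ m : ℕ, (H.image (fun h => m + h)).card = H.card := fun m =>
    Finset.card_image_of_injective H (inj m)
  by_contra hcon
  push Not at hcon
  have h1 : H.image (fun h => n + h) = H.image (fun h => n + h) ∪ H.image (fun h => n' + h) :=
    Finset.eq_of_subset_of_card_le Finset.subset_union_left (by rw [c1]; omega)
  have h2 : H.image (fun h => n' + h) = H.image (fun h => n + h) ∪ H.image (fun h => n' + h) :=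
    Finset.eq_of_subset_of_card_le Finset.subset_union_right (by rw [c1]; omega)
  have h3 : ∑ m ∈ H.image (fun h => n + h), m = ∑ m ∈ H.image (fun h => n' + h), m := by
    rw [h1, ← h2]
  rw [Finset.sum_image (fun a _ b _ hab => inj n hab), Finset.sum_image (fun a _ b _ hab => inj n' hab),
    Finset.sum_add_distrib, Finset.sum_add_distrib] at h3
  have h4 : H.card * n = H.card * n' := by
    simpa using h3
  exact h (Nat.eq_of_mul_eq_mul_left hH.card_pos h4)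

open Classical in
lemma block (H : Finset ℕ) (hH : H.Nonempty) (z : ℕ → ℕ) (hmono : Monotone z) (hWB : s_WB) (x b u : ℕ)
    (κ σ ε : ℝ) (hσ : 0 < σ) (hε : 0 < ε) (hε1 : ε < 1) (hκ : κ = ε / (16 * (H.card + 1)))
    (hx : 2 ≤ x) (hL : 1 ≤ Real.log x)
    (hW : ∀ m, x ≤ m → 0 ≤ W (z m) / Real.log m ∧ W (z m) / Real.log m ≤ 1 / 2)
    (hu : x ≤ u) (hu2 : u + b ≤ 2 * x) (hD : dm H ≤ x)
    (hP : 2 * ((z (2 * x) : ℝ) + 1) / Real.log x ≤ 1)
    (hcb : |∑ n ∈ Finset.Ioc u (u + b - dm H), wt z H n - σ * (b : ℝ)| ≤ (σ * ε / 32) * (b : ℝ))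
    (hsec : (b : ℝ) ^ 2 * (2 * ((z (2 * x) : ℝ) + 1) / Real.log x) ^ (H.card + 1) ≤
      (σ * ε / 32) * ((b : ℝ) / Real.log x ^ H.card))
    (hrat : (1 - κ) * Real.log ((2 * x : ℕ) : ℝ) ^ H.card ≤ Real.log x ^ H.card) :
    1 - ∑ n ∈ (Finset.Ioc u (u + b - dm H)).filter (fun n => Adm z H n),
        ∏ h ∈ H, (1 - κ) * (W (z (n + h)) / Real.log ((n + h : ℕ) : ℝ)) +
      ∑ p ∈ ((Finset.Ioc u (u + b - dm H)).filter (fun n => Adm z H n)).offDiag,
        ∏ m ∈ H.image (fun h => p.1 + h) ∪ H.image (fun h => p.2 + h),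
          (1 + κ) * (W (z m) / Real.log (m : ℝ)) ≤
      1 - (1 - ε / 4) * (σ * ((b : ℝ) / Real.log x ^ H.card)) := by
  obtain ⟨k, hk⟩ : ∃ k, k = H.card := ⟨_, rfl⟩
  have hk1 : 1 ≤ k := hk ▸ hH.card_pos
  rw [← hk] at hκ hsec hrat ⊢
  obtain ⟨L, hLd⟩ : ∃ L, L = Real.log (x : ℝ) := ⟨_, rfl⟩
  rw [← hLd] at hL hP hsec hrat ⊢
  have hL0 : 0 < L := by linarith
  obtain ⟨M, hMd⟩ : ∃ M, M = Real.log ((2 * x : ℕ) : ℝ) := ⟨_, rfl⟩
  rw [← hMd] at hrat
  have hx0 : (0 : ℝ) < x := by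
    have : 0 < x := by omega
    exact_mod_cast this
  have hLM : L ≤ M := by
    rw [hLd, hMd]
    apply Real.log_le_log hx0
    push_cast
    linarith
  have hM0 : 0 < M := by linarith
  have hkR : (1 : ℝ) ≤ k := by exact_mod_cast hk1
  have hκ0 : 0 < κ := by rw [hκ]; positivity
  have hκ1 : κ ≤ 1 / 32 := by
    rw [hκ, div_le_iff₀ (by positivity)]
    nlinarith
  obtain ⟨Bn, hBn⟩ : ∃ Bn, Bn = (Finset.Ioc u (u + b - dm H)).filter (fun n => Adm z H n) := ⟨_, rfl⟩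
  rw [← hBn]
  have hmem : ∀ n ∈ Bn, u < n ∧ n + dm H ≤ u + b ∧ Adm z H n := by
    intro n hn
    rw [hBn, Finset.mem_filter, Finset.mem_Ioc] at hn
    exact ⟨hn.1.1, by omega, hn.2⟩
  have hhd : ∀ h ∈ H, h ≤ dm H := fun h hh => Finset.le_sup (f := id) hh
  have htime : ∀ n ∈ Bn, ∀ h ∈ H, x ≤ n + h ∧ n + h ≤ 2 * x := by
    intro n hn h hh
    obtain ⟨h1, h2, _⟩ := hmem n hn
    have := hhd h hh
    omega
  -- first sum
  have hwt : ∑ n ∈ Finset.Ioc u (u + b - dm H), wt z H n = ∑ n ∈ Bn, ∏ h ∈ H, W (z (n + h)) := by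
    rw [hBn, Finset.sum_filter]
    rfl
  rw [hwt] at hcb
  have hfirst : ((1 - κ) / M) ^ k * ∑ n ∈ Bn, ∏ h ∈ H, W (z (n + h)) ≤
      ∑ n ∈ Bn, ∏ h ∈ H, (1 - κ) * (W (z (n + h)) / Real.log ((n + h : ℕ) : ℝ)) := by
    rw [Finset.mul_sum]
    apply Finset.sum_le_sum
    intro n hn
    rw [hk, ← Finset.prod_const, ← Finset.prod_mul_distrib]
    apply Finset.prod_le_prod
    · intro h hh
      have := (hWB.1 (z (n + h))).1
      have h1 : 0 < 1 - κ := by linarith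
      positivity
    · intro h hh
      obtain ⟨h1, h2⟩ := htime n hn h hh
      have h3 := (hWB.1 (z (n + h))).1
      have hm0 : (0 : ℝ) < ((n + h : ℕ) : ℝ) := by
        have : 0 < n + h := by omega
        exact_mod_cast this
      have h4 : L ≤ Real.log ((n + h : ℕ) : ℝ) := by
        rw [hLd]
        exact Real.log_le_log hx0 (by exact_mod_cast h1)
      have h5 : Real.log ((n + h : ℕ) : ℝ) ≤ M := by
        rw [hMd]
        exact Real.log_le_log hm0 (by exact_mod_cast h2)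
      rw [div_mul_eq_mul_div, mul_div_assoc]
      apply mul_le_mul_of_nonneg_left _ (by linarith)
      exact div_le_div_of_nonneg_left (by linarith) (by linarith) h5
  -- second sum
  obtain ⟨P, hPd⟩ : ∃ P, P = 2 * ((z (2 * x) : ℝ) + 1) / L := ⟨_, rfl⟩
  rw [← hPd] at hP hsec
  have hP0 : 0 ≤ P := by rw [hPd]; positivity
  have hsecond : ∑ p ∈ Bn.offDiag, ∏ m ∈ H.image (fun h => p.1 + h) ∪ H.image (fun h => p.2 + h),
      (1 + κ) * (W (z m) / Real.log (m : ℝ)) ≤ (b : ℝ) ^ 2 * P ^ (k + 1) := by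
    have hcard : (Bn.offDiag.card : ℝ) ≤ (b : ℝ) ^ 2 := by
      have h1 : Bn.card ≤ b := by
        rw [hBn]
        refine (Finset.card_filter_le _ _).trans ?_
        rw [Nat.card_Ioc]
        omega
      have h2 : Bn.offDiag.card ≤ Bn.card * Bn.card := by
        rw [Finset.offDiag_card]
        exact Nat.sub_le _ _
      have h3 : Bn.offDiag.card ≤ b ^ 2 := by
        rw [sq]
        exact h2.trans (Nat.mul_le_mul h1 h1)
      exact_mod_cast h3
    have hterm : ∀ p ∈ Bn.offDiag, ∏ m ∈ H.image (fun h => p.1 + h) ∪ H.image (fun h => p.2 + h),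
        (1 + κ) * (W (z m) / Real.log (m : ℝ)) ≤ P ^ (k + 1) := by
      intro p hp
      rw [Finset.mem_offDiag] at hp
      obtain ⟨hp1, hp2, hp3⟩ := hp
      have hmm : ∀ m ∈ H.image (fun h => p.1 + h) ∪ H.image (fun h => p.2 + h), x ≤ m ∧ m ≤ 2 * x := by
        intro m hm
        rw [Finset.mem_union, Finset.mem_image, Finset.mem_image] at hm
        rcases hm with ⟨h, hh, rfl⟩ | ⟨h, hh, rfl⟩
        · exact htime _ hp1 h hh
        · exact htime _ hp2 h hh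
      calc ∏ m ∈ H.image (fun h => p.1 + h) ∪ H.image (fun h => p.2 + h),
          (1 + κ) * (W (z m) / Real.log (m : ℝ)) ≤
          ∏ m ∈ H.image (fun h => p.1 + h) ∪ H.image (fun h => p.2 + h), P := by
            apply Finset.prod_le_prod
            · intro m hm
              have := (hW m (hmm m hm).1).1
              positivity
            · intro m hm
              obtain ⟨h1, h2⟩ := hmm m hm
              have h3 := hWB.1 (z m)
              have h4 : (z m : ℝ) ≤ z (2 * x) := by exact_mod_cast hmono h2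
              have h5 : L ≤ Real.log (m : ℝ) := by
                rw [hLd]
                exact Real.log_le_log hx0 (by exact_mod_cast h1)
              have h6 : W (z m) / Real.log (m : ℝ) ≤ ((z (2 * x) : ℝ) + 1) / L := by
                apply div_le_div₀ (by positivity) (by linarith) hL0 h5
              have h7 : 0 ≤ W (z m) / Real.log (m : ℝ) := (hW m h1).1
              rw [hPd, mul_div_assoc]
              nlinarith
        _ = P ^ (H.image (fun h => p.1 + h) ∪ H.image (fun h => p.2 + h)).card := by rw [Finset.prod_const]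
        _ ≤ P ^ (k + 1) := by
          apply pow_le_pow_of_le_one hP0 hP
          rw [hk]
          exact card_union H hH p.1 p.2 hp3
    calc _ ≤ ∑ p ∈ Bn.offDiag, P ^ (k + 1) := Finset.sum_le_sum hterm
      _ = (Bn.offDiag.card : ℝ) * P ^ (k + 1) := by rw [Finset.sum_const, nsmul_eq_mul]
      _ ≤ _ := mul_le_mul_of_nonneg_right hcard (by positivity)
  -- comparison
  obtain ⟨Sm, hS⟩ : ∃ Sm, Sm = ∑ n ∈ Bn, ∏ h ∈ H, W (z (n + h)) := ⟨_, rfl⟩
  rw [← hS] at hcb hfirst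
  rw [abs_le] at hcb
  have hb0 : (0 : ℝ) ≤ b := Nat.cast_nonneg b
  have hbern : 1 - ε / 16 ≤ (1 - κ) ^ (k + 1) := by
    have h1 : 1 + ((k + 1 : ℕ) : ℝ) * (-κ) ≤ (1 + (-κ)) ^ (k + 1) := one_add_mul_le_pow (by linarith) _
    have h2 : ((k + 1 : ℕ) : ℝ) * κ = ε / 16 := by
      rw [hκ]
      push_cast
      field_simp
    have h3 : 1 + (-κ) = 1 - κ := by ring
    rw [h3] at h1
    linarith
  have hA : (1 - ε / 16) / L ^ k ≤ ((1 - κ) / M) ^ k := by
    rw [div_pow, div_le_div_iff₀ (by positivity) (by positivity)]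
    have h1 : 0 ≤ (1 - κ) ^ k := pow_nonneg (by linarith) k
    calc (1 - ε / 16) * M ^ k ≤ (1 - κ) ^ (k + 1) * M ^ k := by gcongr
      _ = (1 - κ) ^ k * ((1 - κ) * M ^ k) := by ring
      _ ≤ (1 - κ) ^ k * L ^ k := mul_le_mul_of_nonneg_left hrat h1
  have hS1 : (1 - ε / 32) * (σ * b) ≤ Sm := by
    have : (1 - ε / 32) * (σ * b) = σ * b - σ * ε / 32 * b := by ring
    linarith
  have hS2 : (1 - ε / 16) / L ^ k * ((1 - ε / 32) * (σ * b)) ≤ ((1 - κ) / M) ^ k * Sm := by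
    apply mul_le_mul hA hS1 _ (by
      have : 0 ≤ (1 - κ) / M := div_nonneg (by linarith) hM0.le
      positivity)
    have : 0 ≤ 1 - ε / 32 := by linarith
    positivity
  obtain ⟨Q, hQ⟩ : ∃ Q, Q = σ * ((b : ℝ) / L ^ k) := ⟨_, rfl⟩
  have hQ0 : 0 ≤ Q := by rw [hQ]; positivity
  have e1 : (1 - ε / 16) / L ^ k * ((1 - ε / 32) * (σ * b)) = (1 - ε / 16) * (1 - ε / 32) * Q := by
    rw [hQ]
    field_simp
  have e2 : (σ * ε / 32) * ((b : ℝ) / L ^ k) = ε / 32 * Q := by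
    rw [hQ]
    ring
  rw [e1] at hS2
  rw [e2] at hsec
  rw [← hQ]
  have h9 : (1 - ε / 4) * Q ≤ (1 - ε / 16) * (1 - ε / 32) * Q - ε / 32 * Q := by
    nlinarith [mul_nonneg hε.le hQ0, mul_nonneg (mul_nonneg hε.le hε.le) hQ0]
  linarith

end TLx

theorem t_TL (h1 : s_LT) (h2 : s_CB) (h3 : s_DT) (h4 : s_WB) : s_TL := by
  classical
  intro H hH z hz σ hσ hSg Ω mΩ μ _ ℱ S hM ε hε hε1
  obtain ⟨κ, hκ⟩ : ∃ κ : ℝ, κ = ε / (16 * (H.card + 1)) := ⟨_, rfl⟩
  have hκ0 : 0 < κ := by rw [hκ]; positivity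
  have hk1 : 1 ≤ H.card := hH.1.card_pos
  have hkR : (1 : ℝ) ≤ H.card := by exact_mod_cast hk1
  have hκ1 : κ ≤ 1 / 32 := by
    rw [hκ, div_le_iff₀ (by positivity)]
    nlinarith
  refine ⟨κ, hκ0, 5 * ε ^ 2 * σ / 48, by positivity, ?_⟩
  obtain ⟨m0, hm0⟩ := eventually_atTop.1 (h3 z hz (1 / 2) (by norm_num))
  filter_upwards [h2 H hH z hz σ hσ hSg (σ * ε / 32) (by positivity), TLx.small_one z hz,
    TLx.small_sec z hz H.card (σ * ε / 32) (by positivity), TLx.ratio κ hκ0 H.card,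
    eventually_ge_atTop (m0 + dm H + 2), TLx.logT.eventually_ge_atTop (1 + σ ^ 2 + 12 / ε)]
    with x hcb hP hsec hrat hx hL
  intro y hy hyx N hNx
  have h12 : 0 < 12 / ε := by positivity
  have hσ2 : 0 < σ ^ 2 := by positivity
  have hL1 : 1 ≤ Real.log (x : ℝ) := by linarith
  obtain ⟨b, hb⟩ : ∃ b, b = bl x := ⟨_, rfl⟩
  have hb1 : 1 ≤ b := hb ▸ TLx.bl_pos x hL1
  have hbs : (b : ℝ) ≤ Real.sqrt (Real.log x) := hb ▸ TLx.bl_sq x
  rw [← hb] at hsec
  obtain ⟨r, hr⟩ : ∃ r, r = y / b := ⟨_, rfl⟩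
  have hrb : r * b ≤ y := hr ▸ Nat.div_mul_le_self y b
  have hrb2 : y < (r + 1) * b := by
    rw [hr, mul_comm]
    exact Nat.lt_mul_div_succ y (by omega)
  have hib : ∀ i < r, i * b + b ≤ y := by
    intro i hi
    have : (i + 1) * b ≤ r * b := Nat.mul_le_mul_right b hi
    have e : (i + 1) * b = i * b + b := by ring
    omega
  obtain ⟨B, hB⟩ : ∃ B : ℕ → Finset ℕ, B = fun i =>
    (Finset.Ioc (x + i * b) (x + i * b + b - dm H)).filter (fun n => Adm z H n) := ⟨_, rfl⟩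
  have hBm : ∀ i n, n ∈ B i → x + i * b < n ∧ n + dm H ≤ x + i * b + b ∧ Adm z H n := by
    intro i n hn
    rw [hB, Finset.mem_filter, Finset.mem_Ioc] at hn
    exact ⟨hn.1.1, by omega, hn.2⟩
  have hhd : ∀ h ∈ H, h ≤ dm H := fun h hh => Finset.le_sup (f := id) hh
  obtain ⟨L, hLd⟩ : ∃ L, L = Real.log (x : ℝ) := ⟨_, rfl⟩
  have hW : ∀ m, x ≤ m → 0 ≤ W (z m) / Real.log m ∧ W (z m) / Real.log m ≤ 1 / 2 :=
    fun m hm => hm0 m (by omega)
  have hx2 : x ≤ x ^ 2 := by nlinarith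
  have h2x : 2 * x ≤ x ^ 2 := by nlinarith
  have hblock : ∀ i < r, 1 - ∑ n ∈ B i, ∏ h ∈ H, (1 - κ) * (W (z (n + h)) / Real.log ((n + h : ℕ) : ℝ)) +
        ∑ p ∈ (B i).offDiag, ∏ m ∈ H.image (fun h => p.1 + h) ∪ H.image (fun h => p.2 + h),
          (1 + κ) * (W (z m) / Real.log (m : ℝ)) ≤ 1 - (1 - ε / 4) * (σ * ((b : ℝ) / Real.log x ^ H.card)) := by
    intro i hi
    have h5 := hib i hi
    have h6 := (hcb (x + i * b) (by omega) (by omega)).2
    rw [← hb] at h6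
    rw [hB]
    exact TLx.block H hH.1 z hz.1 h4 x b (x + i * b) κ σ ε hσ hε hε1 hκ (by omega) hL1 hW (by omega) (by omega)
      (by omega) hP h6 hsec hrat
  obtain ⟨ρ, hρ⟩ : ∃ ρ : ℝ, ρ = (1 - ε / 4) * (σ * ((b : ℝ) / Real.log x ^ H.card)) := ⟨_, rfl⟩
  rw [← hρ] at hblock
  rw [← hLd] at hL hL1 hy hρ hbs ⊢
  have hL0 : 0 < L := by linarith
  have hLk : L ≤ L ^ H.card := by
    calc L = L ^ 1 := (pow_one L).symm
      _ ≤ L ^ H.card := pow_le_pow_right₀ hL1 hk1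
  have hb0 : (0 : ℝ) < b := by exact_mod_cast hb1
  have hρ0 : 0 ≤ ρ := by
    rw [hρ]
    have : 0 < 1 - ε / 4 := by linarith
    positivity
  have hρ1 : ρ ≤ 1 := by
    have hsL : σ ≤ Real.sqrt L := by
      apply Real.le_sqrt_of_sq_le
      linarith
    have h5 : σ * b ≤ L := by
      calc σ * b ≤ Real.sqrt L * Real.sqrt L := mul_le_mul hsL hbs hb0.le (Real.sqrt_nonneg _)
        _ = L := Real.mul_self_sqrt hL0.le
    have h6 : σ * ((b : ℝ) / L ^ H.card) ≤ 1 := by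
      rw [← mul_div_assoc, div_le_one (by positivity)]
      exact h5.trans hLk
    have h7 : 0 ≤ σ * ((b : ℝ) / L ^ H.card) := by positivity
    rw [hρ]
    nlinarith
  obtain ⟨M, hMd⟩ : ∃ M : ℝ, M = σ * y / L ^ H.card := ⟨_, rfl⟩
  rw [← hMd]
  have hy0 : (0 : ℝ) < y := by
    have : 0 < L ^ (H.card + 2) := by positivity
    linarith
  have hM0 : 0 < M := by rw [hMd]; positivity
  have hLT := h1 Ω μ ℱ S hM.adapted H B x b r
    (fun m => (1 - κ) * (W (z m) / Real.log (m : ℝ))) (fun m => (1 + κ) * (W (z m) / Real.log (m : ℝ)))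
    ρ (ε / 4) ((1 - ε) * M) hρ0 hρ1 (by positivity) (by
      intro i hi n hn h hh
      obtain ⟨g1, g2, g3⟩ := hBm i n hn
      have g4 := hhd h hh
      have g5 := hib i hi
      have e : (i + 1) * b = i * b + b := by ring
      obtain ⟨w1, w2⟩ := hW (n + h) (by omega)
      have hκ2 : 0 ≤ 1 - κ := by linarith
      refine ⟨by omega, by omega, by positivity, ?_, ?_⟩
      · apply mul_le_mul_of_nonneg_right _ w1
        linarith
      · nlinarith) hblock
  -- the inclusion of the events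
  have hsub : {ω | (cnt S H ω x y : ℝ) ≤ (1 - ε) * M ∧ ω ∈ Lo μ ℱ S z κ N ∧ ω ∈ Up μ ℱ S z κ N} ⊆
      {ω | (((Finset.range r).filter (fun i => ∃ n ∈ B i, ∀ h ∈ H, ω ∈ S (n + h))).card : ℝ) ≤ (1 - ε) * M ∧
      ∀ i < r, ∀ n ∈ B i, ∀ h ∈ H,
        (1 - κ) * (W (z (n + h)) / Real.log ((n + h : ℕ) : ℝ)) ≤ cp μ ℱ S (n + h) ω ∧
        cp μ ℱ S (n + h) ω ≤ (1 + κ) * (W (z (n + h)) / Real.log ((n + h : ℕ) : ℝ))} := by
    rintro ω ⟨hc, hlo, hup⟩
    refine ⟨le_trans ?_ hc, ?_⟩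
    · have hch : ∀ i, ∃ n, (∃ n ∈ B i, ∀ h ∈ H, ω ∈ S (n + h)) → (n ∈ B i ∧ ∀ h ∈ H, ω ∈ S (n + h)) := by
        intro i
        by_cases hi : ∃ n ∈ B i, ∀ h ∈ H, ω ∈ S (n + h)
        · obtain ⟨n, hn⟩ := hi
          exact ⟨n, fun _ => hn⟩
        · exact ⟨0, fun h => absurd h hi⟩
      choose f hf using hch
      unfold cnt
      rw [Nat.cast_le]
      apply Finset.card_le_card_of_injOn f
      · intro i hi
        rw [Finset.mem_coe, Finset.mem_filter, Finset.mem_range] at hi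
        obtain ⟨g1, g2⟩ := hf i hi.2
        obtain ⟨g3, g4, _⟩ := hBm i _ g1
        have g5 := hib i hi.1
        rw [Finset.mem_coe, Finset.mem_filter, Finset.mem_Ioc]
        exact ⟨⟨by omega, by omega⟩, g2⟩
      · intro i hi j hj hij
        rw [Finset.mem_coe, Finset.mem_filter, Finset.mem_range] at hi hj
        obtain ⟨g1, _⟩ := hf i hi.2
        obtain ⟨g1', _⟩ := hf j hj.2
        obtain ⟨g3, g4, _⟩ := hBm i _ g1
        obtain ⟨g3', g4', _⟩ := hBm j _ g1'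
        rw [hij] at g3 g4
        rcases lt_trichotomy i j with h | h | h
        · exfalso
          have : (i + 1) * b ≤ j * b := Nat.mul_le_mul_right b h
          have e : (i + 1) * b = i * b + b := by ring
          omega
        · exact h
        · exfalso
          have : (j + 1) * b ≤ i * b := Nat.mul_le_mul_right b h
          have e : (j + 1) * b = j * b + b := by ring
          omega
    · intro i hi n hn h hh
      obtain ⟨g1, g2, g3⟩ := hBm i n hn
      exact ⟨hlo (n + h) (by omega) (g3 h hh), hup (n + h) (by omega) (g3 h hh)⟩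
  refine (measureReal_mono hsub).trans (hLT.trans ?_)
  -- the numerical estimate
  obtain ⟨e, he⟩ : ∃ e : ℝ, e = 1 - Real.exp (-(ε / 4)) := ⟨_, rfl⟩
  rw [← he]
  have he0 : 0 ≤ e := by
    rw [he]
    have : Real.exp (-(ε / 4)) ≤ 1 := Real.exp_le_one_iff.2 (by linarith)
    linarith
  have he1 : e ≤ 1 := by
    rw [he]
    have := Real.exp_pos (-(ε / 4))
    linarith
  have he2 : ε / 4 * (1 - ε / 4) ≤ e := by
    have h5 := Real.abs_exp_sub_one_sub_id_le (x := -(ε / 4)) (by rw [abs_neg, abs_of_pos (by positivity)]; linarith)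
    rw [abs_le] at h5
    rw [he]
    nlinarith
  have ht1 : e * ρ ≤ 1 := by nlinarith
  have hpow : (1 - e * ρ) ^ r ≤ Real.exp (-(e * ρ * r)) := by
    calc (1 - e * ρ) ^ r ≤ (Real.exp (-(e * ρ))) ^ r :=
          pow_le_pow_left₀ (by linarith) (Real.one_sub_le_exp_neg _) r
      _ = Real.exp (-(e * ρ * r)) := by
          rw [← Real.exp_nat_mul]
          congr 1
          ring
  have hyL : L ^ 2 ≤ (y : ℝ) := by
    refine le_trans ?_ hy
    exact pow_le_pow_right₀ hL1 (by omega)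
  have hby : (b : ℝ) ≤ ε / 12 * y := by
    have h5 : (b : ℝ) ≤ L := by
      refine hbs.trans ?_
      rw [Real.sqrt_le_left hL0.le]
      nlinarith
    have h6 : 12 ≤ ε * L := by
      have : 12 / ε ≤ L := by linarith
      rw [div_le_iff₀ hε] at this
      linarith
    nlinarith
  have hrbR : (y : ℝ) - b ≤ r * b := by
    have h5 : (y : ℝ) < (r + 1) * b := by exact_mod_cast hrb2
    linarith
  have hrρ : (1 - ε / 4) * (1 - ε / 12) * M ≤ ρ * r := by
    have h5 : (1 - ε / 12) * y ≤ r * b := by linarith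
    have h6 : ρ * r = (1 - ε / 4) * (σ * (r * b) / L ^ H.card) := by
      rw [hρ]
      ring
    have h7 : (1 - ε / 12) * M ≤ σ * (r * b) / L ^ H.card := by
      rw [hMd, ← mul_div_assoc]
      apply div_le_div_of_nonneg_right _ (by positivity)
      nlinarith
    rw [h6, mul_assoc]
    exact mul_le_mul_of_nonneg_left h7 (by linarith)
  have hML : σ * L ^ 2 ≤ M := by
    rw [hMd, le_div_iff₀ (by positivity)]
    have h5 : L ^ 2 * L ^ H.card ≤ y := by
      rw [← pow_add, add_comm]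
      exact hy
    nlinarith
  have hmain : ε / 4 * (1 - 7 * ε / 12) * M ≤ e * ρ * r := by
    have h5 : 0 ≤ (1 - ε / 4) * (1 - ε / 12) * M := by
      have : 0 ≤ 1 - ε / 4 := by linarith
      have : 0 ≤ 1 - ε / 12 := by linarith
      positivity
    calc ε / 4 * (1 - 7 * ε / 12) * M ≤ ε / 4 * (1 - ε / 4) * ((1 - ε / 4) * (1 - ε / 12) * M) := by
          have h6 : (1 - 7 * ε / 12) ≤ (1 - ε / 4) * ((1 - ε / 4) * (1 - ε / 12)) := by nlinarith [mul_pos hε hε]
          have h7 : 0 ≤ ε / 4 * M := by positivity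
          nlinarith
      _ ≤ e * (ρ * r) := by
          apply mul_le_mul he2 hrρ h5 he0
      _ = e * ρ * r := by ring
  calc Real.exp (ε / 4 * ((1 - ε) * M)) * (1 - e * ρ) ^ r
      ≤ Real.exp (ε / 4 * ((1 - ε) * M)) * Real.exp (-(e * ρ * r)) :=
        mul_le_mul_of_nonneg_left hpow (Real.exp_pos _).le
    _ = Real.exp (ε / 4 * ((1 - ε) * M) + -(e * ρ * r)) := (Real.exp_add _ _).symm
    _ ≤ Real.exp (-(5 * ε ^ 2 * σ / 48 * L ^ 2)) := by
        apply Real.exp_le_exp.2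
        have h5 : ε / 4 * ((1 - ε) * M) - ε / 4 * (1 - 7 * ε / 12) * M = -(5 * ε ^ 2 / 48 * M) := by ring
        have h6 : 5 * ε ^ 2 / 48 * (σ * L ^ 2) ≤ 5 * ε ^ 2 / 48 * M :=
          mul_le_mul_of_nonneg_left hML (by positivity)
        linarith

end Pool.Agent.J6H40.KT
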