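import Pool.Agent.J6H40.KT.Stm2

set_option autoImplicit false

/-!
# KT2-TN: twin pairs between consecutive cubes
-/

open MeasureTheory Filter
open scoped Topology

namespace Pool.Agent.J6H40.KT

open Pool.Agent.J6H40.WG2

namespace TN

/-- the length of the interval -/
def Y (n : ℕ) : ℕ := (n + 1) ^ 3 - 3 - n ^ 3

theorem cube (n : ℕ) : (n + 1) ^ 3 = n ^ 3 + 3 * n ^ 2 + 3 * n + 1 := by ring

theorem Y_add (n : ℕ) (hn : 1 ≤ n) : Y n + 2 = 3 * n ^ 2 + 3 * n := by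
  unfold Y
  rw [cube]
  omega

theorem Y_cast (n : ℕ) (hn : 1 ≤ n) : (Y n : ℝ) = 3 * (n : ℝ) ^ 2 + 3 * n - 2 := by
  have h : ((Y n + 2 : ℕ) : ℝ) = ((3 * n ^ 2 + 3 * n : ℕ) : ℝ) := by rw [Y_add n hn]
  push_cast at h
  linarith

theorem ncard_eq {Ω : Type} (S : ℕ → Set Ω) (ω : Ω) (n : ℕ) (hn : 1 ≤ n) :
    {p : ℕ | ω ∈ S p ∧ ω ∈ S (p + 2) ∧ n ^ 3 < p ∧ p + 2 < (n + 1) ^ 3}.ncard =
      cnt S {0, 2} ω (n ^ 3) (Y n) := by
  classical
  unfold cnt
  rw [← Set.ncard_coe_finset]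
  congr 1
  ext p
  have h1 := cube n
  have h2 := Y_add n hn
  have h3 : n ^ 3 + Y n + 3 = (n + 1) ^ 3 := by omega
  rw [Finset.coe_filter]
  simp only [Set.mem_setOf_eq, Finset.mem_Ioc, Finset.mem_insert, Finset.mem_singleton,
    forall_eq_or_imp, forall_eq, add_zero]
  constructor
  · rintro ⟨h4, h5, h6, h7⟩
    exact ⟨⟨h6, by omega⟩, h4, h5⟩
  · rintro ⟨⟨h6, h7⟩, h4, h5⟩
    exact ⟨h4, h5, h6, by omega⟩

theorem log_small : ∀ᶠ n : ℕ in atTop, Real.log ((n ^ 3 : ℕ) : ℝ) ^ 4 ≤ Y n := by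
  have h1 := (Real.isLittleO_pow_log_id_atTop (n := 4)).def (c := 1 / 81) (by norm_num)
  have h2 := (tendsto_natCast_atTop_atTop (R := ℝ)).eventually h1
  filter_upwards [h2, eventually_ge_atTop 1] with n h3 h4
  have h5 : (1 : ℝ) ≤ n := by exact_mod_cast h4
  have h6 : Real.log n ^ 4 ≤ 1 / 81 * (n : ℝ) := by
    have h7 := h3
    simp only [id, Real.norm_eq_abs] at h7
    rw [abs_of_nonneg (by linarith : (0 : ℝ) ≤ n)] at h7
    exact (le_abs_self _).trans h7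
  have h8 : Real.log ((n ^ 3 : ℕ) : ℝ) = 3 * Real.log n := by
    push_cast
    rw [Real.log_pow]
    norm_num
  rw [h8, mul_pow, Y_cast n h4]
  nlinarith

end TN

open TN in
theorem t_TN : s_TN := by
  intro Ω S ω σ hσ h
  have hlog3 : ∀ n : ℕ, Real.log ((n ^ 3 : ℕ) : ℝ) = 3 * Real.log n := by
    intro n
    push_cast
    rw [Real.log_pow]
    norm_num
  -- the quotient by the main term
  have hT1 : Tendsto (fun n : ℕ => (cnt S {0, 2} ω (n ^ 3) (Y n) : ℝ) /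
      (σ * (Y n : ℝ) / Real.log ((n ^ 3 : ℕ) : ℝ) ^ 2)) atTop (𝓝 1) := by
    rw [Metric.tendsto_nhds]
    intro ε hε
    obtain ⟨x0, hx0⟩ := h (ε / 2) (by linarith)
    filter_upwards [log_small, eventually_ge_atTop (max x0 5)] with n h1 h2
    have h3 : x0 ≤ n := (le_max_left _ _).trans h2
    have h4 : 5 ≤ n := (le_max_right _ _).trans h2
    have h5 : n ≤ n ^ 3 := Nat.le_self_pow (by norm_num) n
    have h6 : Y n ≤ n ^ 3 := by
      have h7 := Y_add n (by omega)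
      have h8 : 5 * n ^ 2 ≤ n ^ 3 := by nlinarith [pow_pos (by omega : 0 < n) 2]
      nlinarith
    have h9 := hx0 (n ^ 3) (Y n) (h3.trans h5) h1 h6
    have h10 : (5 : ℝ) ≤ n := by exact_mod_cast h4
    have h11 : 0 < Real.log n := Real.log_pos (by linarith)
    have h12 : 0 < (Y n : ℝ) := by
      rw [Y_cast n (by omega)]
      nlinarith
    have hM : 0 < σ * (Y n : ℝ) / Real.log ((n ^ 3 : ℕ) : ℝ) ^ 2 := by
      rw [hlog3]
      positivity
    rw [Real.dist_eq]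
    have h13 : (cnt S {0, 2} ω (n ^ 3) (Y n) : ℝ) /
        (σ * (Y n : ℝ) / Real.log ((n ^ 3 : ℕ) : ℝ) ^ 2) - 1 =
        ((cnt S {0, 2} ω (n ^ 3) (Y n) : ℝ) - σ * (Y n : ℝ) / Real.log ((n ^ 3 : ℕ) : ℝ) ^ 2) /
        (σ * (Y n : ℝ) / Real.log ((n ^ 3 : ℕ) : ℝ) ^ 2) := by
      rw [sub_div, div_self hM.ne']
    rw [h13, abs_div, abs_of_pos hM, div_lt_iff₀ hM]
    refine lt_of_le_of_lt h9 ?_
    nlinarith
  -- the main term
  have hT2 : Tendsto (fun n : ℕ => (σ * (Y n : ℝ) / Real.log ((n ^ 3 : ℕ) : ℝ) ^ 2) /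
      ((n : ℝ) ^ 2 / Real.log n ^ 2)) atTop (𝓝 (σ / 3)) := by
    have h1 : Tendsto (fun n : ℕ => σ / 9 * (3 + 3 * (1 / (n : ℝ)) - 2 * (1 / (n : ℝ)) ^ 2)) atTop
        (𝓝 (σ / 9 * (3 + 3 * 0 - 2 * 0 ^ 2))) := by
      have h2 := tendsto_one_div_atTop_nhds_zero_nat (𝕜 := ℝ)
      exact ((tendsto_const_nhds.add (h2.const_mul 3)).sub ((h2.pow 2).const_mul 2)).const_mul _
    have h3 : σ / 9 * (3 + 3 * 0 - 2 * 0 ^ 2) = σ / 3 := by ring
    rw [h3] at h1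
    refine h1.congr' ?_
    filter_upwards [eventually_ge_atTop 2] with n hn
    have h4 : (2 : ℝ) ≤ n := by exact_mod_cast hn
    have h5 : 0 < Real.log n := Real.log_pos (by linarith)
    rw [hlog3, Y_cast n (by omega)]
    have h6 : (n : ℝ) ≠ 0 := by linarith
    field_simp
    ring
  have hT := hT1.mul hT2
  rw [one_mul] at hT
  refine hT.congr' ?_
  filter_upwards [eventually_ge_atTop 2] with n hn
  have h4 : (2 : ℝ) ≤ n := by exact_mod_cast hn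
  have h5 : 0 < Real.log n := Real.log_pos (by linarith)
  have h12 : 0 < (Y n : ℝ) := by
    rw [Y_cast n (by omega)]
    nlinarith
  have hM : 0 < σ * (Y n : ℝ) / Real.log ((n ^ 3 : ℕ) : ℝ) ^ 2 := by
    rw [hlog3]
    positivity
  rw [ncard_eq S ω n (by omega), div_mul_div_cancel₀ hM.ne']

end Pool.Agent.J6H40.KT
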