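import Pool.Agent.J6H40.KT.Stm2

/-!
# Project KT, module TU: upper tail
-/

set_option autoImplicit false

open MeasureTheory Filter
open scoped Topology

namespace Pool.Agent.J6H40.KT

open Pool.Agent.J6H40.WG2

namespace TU

theorem W_nonneg (v : ℕ) : 0 ≤ W v := by
  unfold W
  refine Finset.prod_nonneg fun q hq => ?_
  rw [inv_nonneg, sub_nonneg]
  have h1 : 1 ≤ q := (Finset.mem_Icc.1 (Finset.mem_filter.1 hq).1).1
  exact inv_le_one_of_one_le₀ (by exact_mod_cast h1)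

theorem wt_nonneg (z : ℕ → ℕ) (H : Finset ℕ) (n : ℕ) : 0 ≤ wt z H n := by
  unfold wt
  split_ifs
  · exact Finset.prod_nonneg fun h _ => W_nonneg _
  · exact le_rfl

/-- the sum of the weights over consecutive blocks -/
theorem blocks (z : ℕ → ℕ) (H : Finset ℕ) (x b : ℕ) (C : ℝ) (r : ℕ)
    (h : ∀ i < r, ∑ n ∈ Finset.Ioc (x + i * b) (x + i * b + b), wt z H n ≤ C) :
    ∑ n ∈ Finset.Ioc x (x + r * b), wt z H n ≤ r * C := by
  induction r with
  | zero => simp
  | succ r ih =>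
    have h1 := ih fun i hi => h i (Nat.lt_succ_of_lt hi)
    have h2 := h r (Nat.lt_succ_self r)
    have e : x + (r + 1) * b = x + r * b + b := by ring
    rw [e, ← Finset.sum_Ioc_consecutive _ (Nat.le_add_right x (r * b)) (Nat.le_add_right _ b)]
    push_cast
    linarith

theorem wt_sum (z : ℕ → ℕ) (H : Finset ℕ) (x y b : ℕ) (hb : 1 ≤ b) (hx : 2 ≤ x) (hy : y ≤ x)
    (s : ℝ) (hs : 0 ≤ s)
    (h : ∀ u : ℕ, x ≤ u → u ≤ x ^ 2 → ∑ n ∈ Finset.Ioc u (u + b), wt z H n ≤ s * b) :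
    ∑ n ∈ Finset.Ioc x (x + y), wt z H n ≤ s * (y + b) := by
  have h1 := blocks z H x b (s * b) (y / b + 1) (fun i hi => by
    have h2 : i * b ≤ y := (Nat.mul_le_mul_right b (Nat.lt_succ_iff.1 hi)).trans
      (Nat.div_mul_le_self y b)
    refine h _ (Nat.le_add_right _ _) ?_
    have : x ^ 2 = x * x := sq x
    nlinarith)
  have h3 : y ≤ (y / b + 1) * b := by
    have := Nat.lt_div_mul_add (a := y) (b := b) (by omega)
    nlinarith
  have h4 : ∑ n ∈ Finset.Ioc x (x + y), wt z H n ≤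
      ∑ n ∈ Finset.Ioc x (x + (y / b + 1) * b), wt z H n :=
    Finset.sum_le_sum_of_subset_of_nonneg
      (Finset.Ioc_subset_Ioc_right (Nat.add_le_add_left h3 x)) fun n _ _ => wt_nonneg z H n
  refine h4.trans (h1.trans ?_)
  have h5 : (((y / b + 1 : ℕ) : ℝ)) * b ≤ y + b := by
    have h6 : (y / b + 1) * b ≤ y + b := by
      have := Nat.div_mul_le_self y b
      nlinarith
    exact_mod_cast h6
  have h7 := mul_le_mul_of_nonneg_left h5 hs
  have e : (((y / b + 1 : ℕ) : ℝ)) * (s * b) = s * ((((y / b + 1 : ℕ) : ℝ)) * b) := by ring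
  rw [e]
  exact h7

/-- the bound of UT -/
theorem tail_bound {B : Finset ℕ} {u : ℕ → ℝ} {lam ε K M' : ℝ} (hu : ∀ n ∈ B, 0 ≤ u n)
    (hlam : 0 ≤ lam) (he : Real.exp lam - 1 ≤ (1 + ε / 4) * lam)
    (hK : K = (1 + ε / 4) * ∑ n ∈ B, u n + M') :
    Real.exp (-(lam * K)) * ∏ n ∈ B, (1 + (Real.exp lam - 1) * u n) ≤
      Real.exp (-(lam * M')) := by
  have h0 : 0 ≤ Real.exp lam - 1 := by linarith [Real.one_le_exp hlam]
  have h1 : ∏ n ∈ B, (1 + (Real.exp lam - 1) * u n) ≤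
      Real.exp (∑ n ∈ B, (Real.exp lam - 1) * u n) := by
    rw [Real.exp_sum]
    refine Finset.prod_le_prod (fun n hn => ?_) fun n hn => ?_
    · have := mul_nonneg h0 (hu n hn)
      linarith
    · have := Real.add_one_le_exp ((Real.exp lam - 1) * u n)
      linarith
  have h2 : Real.exp (-(lam * K)) * ∏ n ∈ B, (1 + (Real.exp lam - 1) * u n) ≤
      Real.exp (-(lam * K)) * Real.exp (∑ n ∈ B, (Real.exp lam - 1) * u n) :=
    mul_le_mul_of_nonneg_left h1 (Real.exp_pos _).le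
  refine h2.trans ?_
  rw [← Real.exp_add, Real.exp_le_exp, ← Finset.mul_sum, hK]
  have h3 : 0 ≤ ∑ n ∈ B, u n := Finset.sum_nonneg hu
  have h4 := mul_le_mul_of_nonneg_right he h3
  nlinarith

end TU

open TU in
theorem t_TU (h1 : s_UT) (h2 : s_CB) (h3 : s_DT) : s_TU := by
  intro H hH z hz σ hσ hlim Ω _ μ _ ℱ S hM ε hε hε1
  classical
  obtain ⟨a, ha⟩ : ∃ a : ℝ, a = ε / 16 := ⟨_, rfl⟩
  have ha0 : 0 < a := by rw [ha]; linarith
  obtain ⟨κ, hκ0, hκ⟩ : ∃ κ : ℝ, 0 < κ ∧ (1 + κ) ^ H.card ≤ 1 + a := by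
    have hc : ContinuousAt (fun κ : ℝ => (1 + κ) ^ H.card) 0 := by fun_prop
    have he : ∀ᶠ κ in 𝓝 (0 : ℝ), (1 + κ) ^ H.card < 1 + a := by
      refine hc.eventually (Iio_mem_nhds ?_)
      simp only [add_zero, one_pow]
      linarith
    have he2 : ∀ᶠ κ in 𝓝[>] (0 : ℝ), 0 < κ ∧ (1 + κ) ^ H.card < 1 + a := by
      filter_upwards [self_mem_nhdsWithin, nhdsWithin_le_nhds he] with κ e1 e2
      exact ⟨e1, e2⟩
    obtain ⟨κ, e1, e2⟩ := he2.exists
    exact ⟨κ, e1, e2.le⟩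
  have hκ1 : 0 < 1 + κ := by linarith
  obtain ⟨D, hD⟩ : ∃ D, D = dm H := ⟨_, rfl⟩
  have hD1 : (0 : ℝ) < (D : ℝ) + 1 := by positivity
  obtain ⟨c, hc⟩ : ∃ c : ℝ, c = ε * ε * σ / (32 * ((D : ℝ) + 1)) := ⟨_, rfl⟩
  have hc0 : 0 < c := by rw [hc]; positivity
  refine ⟨κ, hκ0, c, hc0, ?_⟩
  have hDT := h3 z hz (1 / (1 + κ)) (by positivity)
  rw [eventually_atTop] at hDT
  obtain ⟨m0, hm0⟩ := hDT
  have hlog : Tendsto (fun x : ℕ => Real.log x) atTop atTop :=
    Real.tendsto_log_atTop.comp tendsto_natCast_atTop_atTop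
  filter_upwards [h2 H hH z hz σ hσ hlim (a * σ) (by positivity), eventually_ge_atTop m0,
    eventually_ge_atTop 2, hlog.eventually_ge_atTop 1, hlog.eventually_ge_atTop (1 / a),
    hlog.eventually_ge_atTop (Real.log ((D : ℝ) + 1) / c)] with x hCB hxm hx2 hL1 hLa hLD
  intro y hy1 hy2 N hN
  obtain ⟨L, hL⟩ : ∃ L, L = Real.log x := ⟨_, rfl⟩
  rw [← hL] at hL1 hLa hLD hy1
  have hL0 : 0 < L := by linarith
  have hb1 : 1 ≤ bl x := by
    unfold bl
    rw [Nat.one_le_floor_iff, ← hL, Real.one_le_sqrt]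
    exact hL1
  -- the length of a block
  have hk1 : L ≤ L ^ (H.card + 1) := le_self_pow₀ hL1 (Nat.succ_ne_zero _)
  have hby : (bl x : ℝ) ≤ a * y := by
    have e1 : (bl x : ℝ) ≤ Real.sqrt L := by
      rw [hL]
      exact Nat.floor_le (Real.sqrt_nonneg _)
    have e2 : Real.sqrt L ≤ L := by
      rw [Real.sqrt_le_left hL0.le]
      nlinarith
    have e3 : 1 ≤ a * L := by
      have := mul_le_mul_of_nonneg_left hLa ha0.le
      rwa [mul_one_div_cancel ha0.ne'] at this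
    have e4 : L ≤ a * (L ^ (H.card + 2)) := by
      have e5 : L ^ (H.card + 2) = L * L ^ (H.card + 1) := by ring
      rw [e5]
      nlinarith [mul_nonneg hL0.le hL0.le]
    have e6 := mul_le_mul_of_nonneg_left hy1 ha0.le
    linarith
  obtain ⟨Q, hQ⟩ : ∃ Q, Q = σ * y / L ^ H.card := ⟨_, rfl⟩
  have hQL : σ * L ^ 2 ≤ Q := by
    rw [hQ, le_div_iff₀ (pow_pos hL0 _), mul_assoc, ← pow_add]
    have e : 2 + H.card = H.card + 2 := by ring
    rw [e]
    exact mul_le_mul_of_nonneg_left hy1 hσ.le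
  have hQ0 : 0 ≤ Q := le_trans (by positivity) hQL
  -- the bounds for the conditional probabilities
  obtain ⟨pp, hpp⟩ : ∃ pp : ℕ → ℝ, pp = fun m => (1 + κ) * (W (z m) / Real.log m) := ⟨_, rfl⟩
  have hpp1 : ∀ m, x ≤ m → 0 ≤ pp m ∧ pp m ≤ 1 := by
    intro m hm
    have e := hm0 m (hxm.trans hm)
    rw [hpp]
    refine ⟨mul_nonneg hκ1.le e.1, ?_⟩
    have := mul_le_mul_of_nonneg_left e.2 hκ1.le
    rwa [mul_one_div_cancel hκ1.ne'] at this
  obtain ⟨B, hB⟩ : ∃ B : ℕ → Finset ℕ, B = fun r =>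
    (Finset.Ioc x (x + y)).filter (fun n => Adm z H n ∧ n % (D + 1) = r) := ⟨_, rfl⟩
  have memB : ∀ r n, n ∈ B r ↔ (x < n ∧ n ≤ x + y) ∧ Adm z H n ∧ n % (D + 1) = r := by
    intro r n
    rw [hB]
    simp only [Finset.mem_filter, Finset.mem_Ioc]
  obtain ⟨u, hu⟩ : ∃ u : ℕ → ℝ, u = fun n => ∏ h ∈ H, pp (n + h) := ⟨_, rfl⟩
  have hu0 : ∀ n, x ≤ n → 0 ≤ u n := by
    intro n hn
    rw [hu]
    exact Finset.prod_nonneg fun h _ => (hpp1 _ (hn.trans (Nat.le_add_right _ _))).1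
  obtain ⟨M', hM'⟩ : ∃ M' : ℝ, M' = ε * Q / (4 * ((D : ℝ) + 1)) := ⟨_, rfl⟩
  obtain ⟨K, hK⟩ : ∃ K : ℕ → ℝ, K = fun r => (1 + ε / 4) * ∑ n ∈ B r, u n + M' := ⟨_, rfl⟩
  have hlam : Real.exp (ε / 4) - 1 ≤ (1 + ε / 4) * (ε / 4) := by
    have h4 := Real.abs_exp_sub_one_sub_id_le (x := ε / 4) (by
      rw [abs_of_pos (by linarith)]
      linarith)
    have h5 := (abs_le.1 h4).2
    nlinarith
  have hE : ∀ r, μ.real {ω | K r ≤ (((B r).filter (fun n => ∀ h ∈ H, ω ∈ S (n + h))).card : ℝ) ∧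
      ∀ n ∈ B r, ∀ h ∈ H, cp μ ℱ S (n + h) ω ≤ pp (n + h)} ≤ Real.exp (-((ε / 4) * M')) := by
    intro r
    have h4 := h1 Ω μ ℱ S hM.adapted H (B r) pp (ε / 4) (K r) (by linarith) hH.1 (fun n hn => by
      obtain ⟨⟨e1, e2⟩, e3, e4⟩ := (memB r n).1 hn
      refine ⟨by omega, fun n' hn' hlt => ?_⟩
      obtain ⟨⟨f1, f2⟩, f3, f4⟩ := (memB r n').1 hn'
      rw [← hD]
      have g1 := Nat.div_add_mod n (D + 1)
      have g2 := Nat.div_add_mod n' (D + 1)
      rw [e4] at g1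
      rw [f4] at g2
      have g3 : n' / (D + 1) < n / (D + 1) := by
        by_contra hcon
        have := Nat.mul_le_mul_left (D + 1) (not_lt.1 hcon)
        omega
      have g4 := Nat.mul_le_mul_left (D + 1) (Nat.succ_le_of_lt g3)
      rw [Nat.mul_succ] at g4
      omega) (fun n hn h hh => by
      obtain ⟨⟨e1, e2⟩, e3, e4⟩ := (memB r n).1 hn
      exact hpp1 _ (by omega))
    refine h4.trans ?_
    have h5 := tail_bound (B := B r) (u := u) (lam := ε / 4) (ε := ε) (K := K r) (M' := M')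
      (fun n hn => hu0 n ((memB r n).1 hn).1.1.le) (by linarith) hlam (by rw [hK])
    rw [hu] at h5
    exact h5
  -- the sum of the means
  have hmean : ∑ r ∈ Finset.range (D + 1), ∑ n ∈ B r, u n ≤ (1 + ε / 4) * Q := by
    have e1 : ∑ r ∈ Finset.range (D + 1), ∑ n ∈ B r, u n =
        ∑ n ∈ (Finset.Ioc x (x + y)).filter (fun n => Adm z H n), u n := by
      have q1 := Finset.sum_fiberwise_of_maps_to
        (s := (Finset.Ioc x (x + y)).filter (fun n => Adm z H n))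
        (g := fun n => n % (D + 1)) (t := Finset.range (D + 1))
        (fun n _ => Finset.mem_range.2 (Nat.mod_lt _ (Nat.succ_pos D))) u
      rw [← q1]
      refine Finset.sum_congr rfl fun r _ => ?_
      refine Finset.sum_congr ?_ fun _ _ => rfl
      ext n
      rw [memB]
      simp only [Finset.mem_filter, Finset.mem_Ioc]
      tauto
    have e2 : ∑ n ∈ (Finset.Ioc x (x + y)).filter (fun n => Adm z H n), u n ≤
        ∑ n ∈ Finset.Ioc x (x + y), ((1 + κ) / L) ^ H.card * wt z H n := by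
      rw [Finset.sum_filter]
      refine Finset.sum_le_sum fun n hn => ?_
      have hxn : x < n := (Finset.mem_Ioc.1 hn).1
      unfold wt
      by_cases hA : Adm z H n
      · rw [if_pos hA, if_pos hA, hu, ← Finset.prod_const, ← Finset.prod_mul_distrib]
        refine Finset.prod_le_prod (fun h _ => (hpp1 _ (by omega)).1) fun h _ => ?_
        rw [hpp]
        have g1 : L ≤ Real.log ((n + h : ℕ) : ℝ) := by
          rw [hL]
          refine Real.log_le_log (by positivity) ?_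
          exact_mod_cast (by omega : x ≤ n + h)
        have g2 : W (z (n + h)) / Real.log ((n + h : ℕ) : ℝ) ≤ W (z (n + h)) / L :=
          div_le_div_of_nonneg_left (W_nonneg _) hL0 g1
        have g3 := mul_le_mul_of_nonneg_left g2 hκ1.le
        refine g3.trans (le_of_eq ?_)
        ring
      · rw [if_neg hA, if_neg hA, mul_zero]
    have e3 : ∑ n ∈ Finset.Ioc x (x + y), wt z H n ≤ ((1 + a) * σ) * (y + bl x) := by
      refine wt_sum z H x y (bl x) hb1 hx2 hy2 _ (by positivity) fun v hv1 hv2 => ?_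
      have := (abs_le.1 (hCB v hv1 hv2).1).2
      nlinarith
    have hy0 : (0 : ℝ) ≤ y := Nat.cast_nonneg y
    rw [e1]
    refine e2.trans ?_
    rw [← Finset.mul_sum]
    have e4 : ((1 + κ) / L) ^ H.card * ∑ n ∈ Finset.Ioc x (x + y), wt z H n ≤
        ((1 + κ) / L) ^ H.card * (((1 + a) * σ) * (y + bl x)) :=
      mul_le_mul_of_nonneg_left e3 (by positivity)
    refine e4.trans ?_
    have e5 : ((1 + κ) / L) ^ H.card * (((1 + a) * σ) * (y + bl x)) ≤
        ((1 + a) / L ^ H.card) * (((1 + a) * σ) * ((1 + a) * y)) := by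
      rw [div_pow]
      refine mul_le_mul (div_le_div_of_nonneg_right hκ (by positivity)) ?_ (by positivity)
        (by positivity)
      refine mul_le_mul_of_nonneg_left ?_ (by positivity)
      linarith
    refine e5.trans ?_
    have e6 : ((1 + a) / L ^ H.card) * (((1 + a) * σ) * ((1 + a) * y)) = (1 + a) ^ 3 * Q := by
      rw [hQ]
      ring
    rw [e6]
    refine mul_le_mul_of_nonneg_right ?_ hQ0
    have e7 : ε = 16 * a := by rw [ha]; ring
    have e8 : a ≤ 1 / 16 := by rw [ha]; linarith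
    rw [e7]
    nlinarith [mul_nonneg ha0.le ha0.le, mul_nonneg (mul_nonneg ha0.le ha0.le) ha0.le,
      mul_le_mul_of_nonneg_left e8 (mul_nonneg ha0.le ha0.le), mul_le_mul_of_nonneg_left e8 ha0.le]
  -- the event is contained in the union
  have hsub : {ω | (1 + ε) * (σ * y / Real.log x ^ H.card) ≤ (cnt S H ω x y : ℝ) ∧
      ω ∈ Up μ ℱ S z κ N} ⊆ ⋃ r ∈ Finset.range (D + 1),
      {ω | K r ≤ (((B r).filter (fun n => ∀ h ∈ H, ω ∈ S (n + h))).card : ℝ) ∧
        ∀ n ∈ B r, ∀ h ∈ H, cp μ ℱ S (n + h) ω ≤ pp (n + h)} := by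
    rintro ω ⟨f1, f2⟩
    rw [← hL, ← hQ] at f1
    have hbd : ∀ r, ∀ n ∈ B r, ∀ h ∈ H, cp μ ℱ S (n + h) ω ≤ pp (n + h) := by
      intro r n hn h hh
      obtain ⟨⟨e1, e2⟩, e3, e4⟩ := (memB r n).1 hn
      rw [hpp]
      exact f2 (n + h) (by omega) (e3 h hh)
    have hcnt : cnt S H ω x y = ∑ r ∈ Finset.range (D + 1),
        ((B r).filter (fun n => ∀ h ∈ H, ω ∈ S (n + h))).card := by
      unfold cnt
      rw [Finset.card_eq_sum_card_fiberwise (f := fun n => n % (D + 1))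
        (t := Finset.range (D + 1)) (fun n _ => Finset.mem_coe.2
          (Finset.mem_range.2 (Nat.mod_lt _ (Nat.succ_pos D))))]
      refine Finset.sum_congr rfl fun r _ => ?_
      congr 1
      ext n
      rw [Finset.mem_filter, Finset.mem_filter, Finset.mem_filter, memB, Finset.mem_Ioc]
      constructor
      · rintro ⟨⟨g1, g2⟩, g3⟩
        refine ⟨⟨g1, fun h hh => ?_, g3⟩, g2⟩
        by_contra hcon
        have := hM.sieved (n + h) hcon
        have g4 := g2 h hh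
        rw [this] at g4
        exact g4
      · rintro ⟨⟨g1, -, g3⟩, g2⟩
        exact ⟨⟨g1, g2⟩, g3⟩
    by_contra hcon
    simp only [Set.mem_iUnion, not_exists] at hcon
    have hlt : ∀ r ∈ Finset.range (D + 1),
        (((B r).filter (fun n => ∀ h ∈ H, ω ∈ S (n + h))).card : ℝ) ≤ K r := by
      intro r hr
      by_contra hcon2
      exact hcon r hr ⟨(not_le.1 hcon2).le, hbd r⟩
    have hne : ∃ r ∈ Finset.range (D + 1),
        (((B r).filter (fun n => ∀ h ∈ H, ω ∈ S (n + h))).card : ℝ) < K r := by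
      refine ⟨0, Finset.mem_range.2 (Nat.succ_pos D), ?_⟩
      by_contra hcon2
      exact hcon 0 (Finset.mem_range.2 (Nat.succ_pos D)) ⟨not_lt.1 hcon2, hbd 0⟩
    have hsum := Finset.sum_lt_sum hlt hne
    have hcnt' : (cnt S H ω x y : ℝ) = ∑ r ∈ Finset.range (D + 1),
        (((B r).filter (fun n => ∀ h ∈ H, ω ∈ S (n + h))).card : ℝ) := by
      rw [hcnt]
      push_cast
      rfl
    rw [← hcnt', hK, Finset.sum_add_distrib, ← Finset.mul_sum, Finset.sum_const,
      Finset.card_range, nsmul_eq_mul] at hsum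
    have e1 : ((D + 1 : ℕ) : ℝ) * M' = ε / 4 * Q := by
      rw [hM']
      push_cast
      field_simp
    rw [e1] at hsum
    have e2 := mul_le_mul_of_nonneg_left hmean (by linarith : (0 : ℝ) ≤ 1 + ε / 4)
    have e3 : (1 + ε / 4) * ((1 + ε / 4) * Q) + ε / 4 * Q ≤ (1 + ε) * Q := by
      have : (1 + ε / 4) * (1 + ε / 4) + ε / 4 ≤ 1 + ε := by nlinarith
      have := mul_le_mul_of_nonneg_right this hQ0
      linarith
    linarith
  -- conclusion
  refine (measureReal_mono hsub (measure_ne_top _ _)).trans ?_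
  refine (measureReal_biUnion_finset_le _ _).trans ?_
  refine (Finset.sum_le_sum fun r _ => hE r).trans ?_
  rw [Finset.sum_const, Finset.card_range, nsmul_eq_mul]
  have e1 : ((D + 1 : ℕ) : ℝ) ≤ Real.exp (c * L ^ 2) := by
    have e2 : Real.log ((D : ℝ) + 1) ≤ c * L ^ 2 := by
      rw [div_le_iff₀ hc0] at hLD
      nlinarith [mul_pos hc0 hL0]
    have e3 : ((D + 1 : ℕ) : ℝ) = Real.exp (Real.log ((D : ℝ) + 1)) := by
      rw [Real.exp_log hD1]
      push_cast
      rfl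
    rw [e3]
    exact Real.exp_le_exp.2 e2
  have e3 : (ε / 4) * M' ≥ 2 * c * L ^ 2 := by
    have e4 : (ε / 4) * M' = ε * ε / (16 * ((D : ℝ) + 1)) * Q := by
      rw [hM']
      field_simp
      ring
    have e5 : 2 * c * L ^ 2 = ε * ε / (16 * ((D : ℝ) + 1)) * (σ * L ^ 2) := by
      rw [hc]
      field_simp
      ring
    rw [e4, e5]
    exact mul_le_mul_of_nonneg_left hQL (by positivity)
  have e6 : Real.exp (-((ε / 4) * M')) ≤ Real.exp (-(2 * c * L ^ 2)) :=
    Real.exp_le_exp.2 (by linarith)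
  have e7 := mul_le_mul e1 e6 (Real.exp_pos _).le (Real.exp_pos _).le
  refine e7.trans ?_
  rw [← Real.exp_add, ← hL, Real.exp_le_exp]
  linarith

end Pool.Agent.J6H40.KT
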