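import Pool.Agent.J6H40.KT.Stm

/-! # Project KT (helper40), module U1 (helper10): block lemma, upper part -/

set_option autoImplicit false

open MeasureTheory Filter
open scoped Topology

namespace Pool.Agent.J6H40.KT

open Pool.Agent.J6H40.WG2

/-- **U1** -/
theorem t_U1 (h1 : s_PRD) (h2 : s_GU) (h3 : s_BON) : s_U1 := by
  classical
  intro Ω mΩ μ _ ℱ S hS H B y A pm pp hA hb
  obtain ⟨I, hIdef⟩ : ∃ I : ℕ → Finset ℕ, I = fun n => H.image (fun h => n + h) := ⟨_, rfl⟩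
  obtain ⟨U, hU⟩ : ∃ U : Finset ℕ, U = B.biUnion I := ⟨_, rfl⟩
  have hIm : ∀ n m, m ∈ I n ↔ ∃ h ∈ H, n + h = m := by
    intro n m
    rw [hIdef]
    exact Finset.mem_image
  have hUm : ∀ m ∈ U, ∃ n ∈ B, ∃ h ∈ H, n + h = m := by
    intro m hm
    rw [hU, Finset.mem_biUnion] at hm
    obtain ⟨n, hn, hm⟩ := hm
    exact ⟨n, hn, (hIm n m).1 hm⟩
  have hUb : ∀ m ∈ U, y < m ∧ 0 ≤ pm m ∧ pm m ≤ pp m ∧ pp m ≤ 1 := by
    intro m hm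
    obtain ⟨n, hn, h, hh, rfl⟩ := hUm m hm
    exact hb n hn h hh
  have hI : ∀ n ∈ B, I n ⊆ U := by
    intro n hn
    rw [hU]
    exact Finset.subset_biUnion_of_mem I hn
  have hG := h2 Ω μ ℱ S hS U pm pp (fun m hm => ⟨by have := (hUb m hm).1; omega, (hUb m hm).2⟩)
  obtain ⟨g, hg⟩ : ∃ g : ℕ → Ω → ℝ, g = gu μ ℱ S U pm pp := ⟨_, rfl⟩
  rw [← hg] at hG
  have hg0 : ∀ m ∈ U, ∀ ω, 0 ≤ g m ω ∧ g m ω ≤ 1 := fun m hm => (hG m hm).2.1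
  have hprod : ∀ (n : ℕ) (f : ℕ → ℝ), ∏ h ∈ H, f (n + h) = ∏ m ∈ I n, f m := by
    intro n f
    rw [hIdef]
    show _ = ∏ m ∈ H.image (fun h => n + h), f m
    rw [Finset.prod_image (fun a _ b _ h => Nat.add_left_cancel h)]
  have hT01 : ∀ T ⊆ U, ∀ ω, 0 ≤ ∏ m ∈ T, g m ω ∧ ∏ m ∈ T, g m ω ≤ 1 := by
    intro T hT ω
    exact ⟨Finset.prod_nonneg fun m hm => (hg0 m (hT hm) ω).1,
      Finset.prod_le_one (fun m hm => (hg0 m (hT hm) ω).1) fun m hm => (hg0 m (hT hm) ω).2⟩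
  obtain ⟨f0, hf0⟩ : ∃ f0 : Ω → ℝ, f0 = A.indicator (fun _ => (1 : ℝ)) := ⟨_, rfl⟩
  have hf0m : StronglyMeasurable[ℱ y] f0 := by
    rw [hf0]
    exact stronglyMeasurable_const.indicator hA
  have hf001 : ∀ ω, 0 ≤ f0 ω ∧ f0 ω ≤ 1 := by
    intro ω
    rw [hf0]
    by_cases h : ω ∈ A <;> simp [h]
  have hf0int : ∫ ω, f0 ω ∂μ = μ.real A := by
    rw [hf0]
    exact integral_indicator_one (ℱ.le y A hA)
  -- the products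
  have hP : ∀ T ⊆ U, (∏ m ∈ T, pm m) * μ.real A ≤ ∫ ω, f0 ω * ∏ m ∈ T, g m ω ∂μ ∧
      ∫ ω, f0 ω * ∏ m ∈ T, g m ω ∂μ ≤ (∏ m ∈ T, pp m) * μ.real A := by
    intro T hT
    rw [← hf0int]
    constructor
    · refine (h1 Ω μ ℱ g pm T y f0 1 hf0m hf001 (fun m hm => ⟨(hUb m (hT hm)).1, (hG m (hT hm)).1,
        fun ω => ⟨(hg0 m (hT hm) ω).1, (hg0 m (hT hm) ω).2.trans one_le_two⟩,
        (hUb m (hT hm)).2.1⟩)).2 ?_
      intro m hm f hf hf0 hfC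
      exact ((hG m (hT hm)).2.2 f hf hf0 hfC).1
    · refine (h1 Ω μ ℱ g pp T y f0 1 hf0m hf001 (fun m hm => ⟨(hUb m (hT hm)).1, (hG m (hT hm)).1,
        fun ω => ⟨(hg0 m (hT hm) ω).1, (hg0 m (hT hm) ω).2.trans one_le_two⟩,
        (hUb m (hT hm)).2.1.trans (hUb m (hT hm)).2.2.1⟩)).1 ?_
      intro m hm f hf hf0 hfC
      exact ((hG m (hT hm)).2.2 f hf hf0 hfC).2
  have hint : ∀ T ⊆ U, Integrable (fun ω => f0 ω * ∏ m ∈ T, g m ω) μ := by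
    intro T hT
    have hm1 : StronglyMeasurable (fun ω => f0 ω * ∏ m ∈ T, g m ω) := by
      refine (hf0m.mono (ℱ.le y)).mul ?_
      exact Finset.stronglyMeasurable_fun_prod T fun m hm => ((hG m (hT hm)).1.mono (ℱ.le m))
    refine Integrable.of_bound hm1.aestronglyMeasurable 1 (ae_of_all _ fun ω => ?_)
    rw [Real.norm_eq_abs, abs_of_nonneg (mul_nonneg (hf001 ω).1 (hT01 T hT ω).1)]
    exact mul_le_one₀ (hf001 ω).2 (hT01 T hT ω).1 (hT01 T hT ω).2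
  have hif0 : Integrable f0 μ := by
    have := hint ∅ (Finset.empty_subset _)
    simpa using this
  have hsub : ∀ p ∈ B.offDiag, I p.1 ∪ I p.2 ⊆ U := by
    intro p hp
    rw [Finset.mem_offDiag] at hp
    exact Finset.union_subset (hI _ hp.1) (hI _ hp.2.1)
  obtain ⟨F, hF⟩ : ∃ F : Ω → ℝ, F = fun ω => f0 ω - ∑ n ∈ B, f0 ω * ∏ m ∈ I n, g m ω +
    ∑ p ∈ B.offDiag, f0 ω * ∏ m ∈ I p.1 ∪ I p.2, g m ω := ⟨_, rfl⟩
  have hi1 : Integrable (fun ω => ∑ n ∈ B, f0 ω * ∏ m ∈ I n, g m ω) μ :=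
    integrable_finsetSum _ fun n hn => hint _ (hI n hn)
  have hi2 : Integrable (fun ω => ∑ p ∈ B.offDiag, f0 ω * ∏ m ∈ I p.1 ∪ I p.2, g m ω) μ :=
    integrable_finsetSum _ fun p hp => hint _ (hsub p hp)
  have hFi : Integrable F μ := by
    rw [hF]
    exact (hif0.sub hi1).add hi2
  have hF1 : ∫ ω, F ω ∂μ = μ.real A - ∑ n ∈ B, ∫ ω, f0 ω * ∏ m ∈ I n, g m ω ∂μ +
      ∑ p ∈ B.offDiag, ∫ ω, f0 ω * ∏ m ∈ I p.1 ∪ I p.2, g m ω ∂μ := by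
    have e1 : ∫ ω, F ω ∂μ = ∫ ω, (f0 ω - ∑ n ∈ B, f0 ω * ∏ m ∈ I n, g m ω) ∂μ +
        ∫ ω, ∑ p ∈ B.offDiag, f0 ω * ∏ m ∈ I p.1 ∪ I p.2, g m ω ∂μ := by
      rw [hF]
      exact integral_add (hif0.sub hi1) hi2
    have e2 : ∫ ω, (f0 ω - ∑ n ∈ B, f0 ω * ∏ m ∈ I n, g m ω) ∂μ = ∫ ω, f0 ω ∂μ -
        ∫ ω, ∑ n ∈ B, f0 ω * ∏ m ∈ I n, g m ω ∂μ := integral_sub hif0 hi1
    rw [e1, e2, integral_finsetSum _ (fun n hn => hint _ (hI n hn)),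
      integral_finsetSum _ (fun p hp => hint _ (hsub p hp)), hf0int]
  -- pointwise
  have hFe : ∀ ω, F ω = f0 ω * (1 - ∑ n ∈ B, ∏ m ∈ I n, g m ω + ∑ p ∈ B.offDiag, ∏ m ∈ I p.1 ∪ I p.2, g m ω) := by
    intro ω
    rw [hF]
    show f0 ω - _ + _ = _
    rw [← Finset.mul_sum, ← Finset.mul_sum]
    ring
  have hZZ : ∀ ω, ∀ p ∈ B.offDiag, (∏ m ∈ I p.1, g m ω) * (∏ m ∈ I p.2, g m ω) ≤ ∏ m ∈ I p.1 ∪ I p.2, g m ω := by
    intro ω p hp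
    rw [← Finset.prod_union_inter]
    have e1 := hT01 _ (hsub p hp) ω
    have e2 := hT01 (I p.1 ∩ I p.2) ((Finset.inter_subset_left.trans Finset.subset_union_left).trans (hsub p hp)) ω
    exact mul_le_of_le_one_right e1.1 e2.2
  have hF0 : ∀ ω, 0 ≤ F ω := by
    intro ω
    rw [hFe]
    refine mul_nonneg (hf001 ω).1 ?_
    have e1 := h3 B (fun n => ∏ m ∈ I n, g m ω) (fun n hn => hT01 _ (hI n hn) ω)
    have e2 : ∑ p ∈ B.offDiag, (∏ m ∈ I p.1, g m ω) * (∏ m ∈ I p.2, g m ω) ≤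
      ∑ p ∈ B.offDiag, ∏ m ∈ I p.1 ∪ I p.2, g m ω := Finset.sum_le_sum fun p hp => hZZ ω p hp
    have e3 : ∑ n ∈ B, ∏ m ∈ I n, g m ω - ∑ p ∈ B.offDiag, (∏ m ∈ I p.1, g m ω) * (∏ m ∈ I p.2, g m ω) ≤ 1 := e1
    linarith
  have hFE : A ∩ {ω | (∀ n ∈ B, ∃ h ∈ H, ω ∉ S (n + h)) ∧ ∀ n ∈ B, ∀ h ∈ H,
        pm (n + h) ≤ cp μ ℱ S (n + h) ω ∧ cp μ ℱ S (n + h) ω ≤ pp (n + h)} ⊆ {ω | 1 ≤ F ω} := by
    rintro ω ⟨hωA, hω1, hω2⟩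
    show 1 ≤ F ω
    rw [hFe]
    have e0 : f0 ω = 1 := by rw [hf0]; simp [hωA]
    have e1 : ∀ n ∈ B, ∏ m ∈ I n, g m ω = 0 := by
      intro n hn
      obtain ⟨h, hh, hS'⟩ := hω1 n hn
      refine Finset.prod_eq_zero ((hIm n (n + h)).2 ⟨h, hh, rfl⟩) ?_
      rw [hg]
      have e2 : ∀ k ∈ U, k ≤ n + h → pm k ≤ cp μ ℱ S k ω ∧ cp μ ℱ S k ω ≤ pp k := by
        intro k hk _
        obtain ⟨n', hn', h', hh', rfl⟩ := hUm k hk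
        exact hω2 n' hn' h' hh'
      unfold gu
      rw [if_pos e2, if_neg hS']
    rw [e0, Finset.sum_eq_zero e1]
    have e3 : 0 ≤ ∑ p ∈ B.offDiag, ∏ m ∈ I p.1 ∪ I p.2, g m ω :=
      Finset.sum_nonneg fun p hp => (hT01 _ (hsub p hp) ω).1
    linarith
  have hM := mul_meas_ge_le_integral_of_nonneg (ae_of_all μ hF0) hFi 1
  rw [one_mul] at hM
  have hM2 : μ.real (A ∩ {ω | (∀ n ∈ B, ∃ h ∈ H, ω ∉ S (n + h)) ∧ ∀ n ∈ B, ∀ h ∈ H,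
        pm (n + h) ≤ cp μ ℱ S (n + h) ω ∧ cp μ ℱ S (n + h) ω ≤ pp (n + h)}) ≤ μ.real {ω | 1 ≤ F ω} :=
    measureReal_mono hFE
  refine hM2.trans (hM.trans ?_)
  rw [hF1]
  have s1 : (∑ n ∈ B, ∏ h ∈ H, pm (n + h)) * μ.real A ≤ ∑ n ∈ B, ∫ ω, f0 ω * ∏ m ∈ I n, g m ω ∂μ := by
    rw [Finset.sum_mul]
    refine Finset.sum_le_sum fun n hn => ?_
    rw [hprod]
    exact (hP _ (hI n hn)).1
  have s2 : ∑ p ∈ B.offDiag, ∫ ω, f0 ω * ∏ m ∈ I p.1 ∪ I p.2, g m ω ∂μ ≤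
      (∑ p ∈ B.offDiag, ∏ m ∈ H.image (fun h => p.1 + h) ∪ H.image (fun h => p.2 + h), pp m) * μ.real A := by
    rw [Finset.sum_mul]
    refine Finset.sum_le_sum fun p hp => ?_
    have := (hP _ (hsub p hp)).2
    rw [hIdef] at this ⊢
    exact this
  nlinarith [s1, s2]

end Pool.Agent.J6H40.KT
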