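import Pool.Agent.J6H40.KT.Stm

set_option autoImplicit false

/-!
# Module U2: iteration over blocks
-/

open MeasureTheory Filter
open scoped Topology

namespace Pool.Agent.J6H40.KT

open Pool.Agent.J6H40.WG2

namespace U2aux

theorem meas {Ω : Type} {m' : MeasurableSpace Ω} (r : ℕ) (B : ℕ → Finset ℕ) (H : Finset ℕ)
    (S : ℕ → Set Ω) (c : ℕ → Ω → ℝ) (pm pp : ℕ → ℝ)
    (hS : ∀ i < r, ∀ n ∈ B i, ∀ h ∈ H, MeasurableSet (S (n + h)))
    (hc : ∀ i < r, ∀ n ∈ B i, ∀ h ∈ H, Measurable (c (n + h))) :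
    MeasurableSet {ω | (∀ i < r, ∀ n ∈ B i, ∃ h ∈ H, ω ∉ S (n + h)) ∧
      ∀ i < r, ∀ n ∈ B i, ∀ h ∈ H, pm (n + h) ≤ c (n + h) ω ∧ c (n + h) ω ≤ pp (n + h)} := by
  rw [Set.ofPred_and]
  refine MeasurableSet.inter ?_ ?_
  · simp only [Set.ofPred_forall]
    refine MeasurableSet.iInter fun i => MeasurableSet.iInter fun hi =>
      MeasurableSet.iInter fun n => MeasurableSet.iInter fun hn => ?_
    rw [Set.ofPred_exists]
    refine MeasurableSet.iUnion fun h => ?_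
    by_cases hh : h ∈ H
    · have : {ω | h ∈ H ∧ ω ∉ S (n + h)} = (S (n + h))ᶜ := by
        ext ω
        simp [hh]
      rw [this]
      exact (hS i hi n hn h hh).compl
    · have : {ω | h ∈ H ∧ ω ∉ S (n + h)} = ∅ := by
        ext ω
        simp [hh]
      rw [this]
      exact MeasurableSet.empty
  · simp only [Set.ofPred_forall]
    refine MeasurableSet.iInter fun i => MeasurableSet.iInter fun hi =>
      MeasurableSet.iInter fun n => MeasurableSet.iInter fun hn =>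
      MeasurableSet.iInter fun h => MeasurableSet.iInter fun hh => ?_
    rw [Set.ofPred_and]
    exact (measurableSet_le measurable_const (hc i hi n hn h hh)).inter
      (measurableSet_le (hc i hi n hn h hh) measurable_const)

end U2aux

/-- U2 -/
theorem t_U2 (h1 : s_U1) : s_U2 := by
  intro Ω mΩ μ _ ℱ S hS H B y b r pm pp ρ hρ
  induction r with
  | zero =>
    intro _ _
    rw [pow_zero]
    exact measureReal_le_one
  | succ r ih =>
    intro hB hsum
    set E : Set Ω := {ω | (∀ i < r, ∀ n ∈ B i, ∃ h ∈ H, ω ∉ S (n + h)) ∧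
      ∀ i < r, ∀ n ∈ B i, ∀ h ∈ H,
        pm (n + h) ≤ cp μ ℱ S (n + h) ω ∧ cp μ ℱ S (n + h) ω ≤ pp (n + h)} with hE
    have ih' : μ.real E ≤ (1 - ρ) ^ r :=
      ih (fun i hi => hB i (Nat.lt_succ_of_lt hi)) (fun i hi => hsum i (Nat.lt_succ_of_lt hi))
    have hle : ∀ i < r, ∀ n ∈ B i, ∀ h ∈ H, n + h ≤ y + r * b := by
      intro i hi n hn h hh
      have h2 := (hB i (Nat.lt_succ_of_lt hi) n hn h hh).2.1
      have h3 : (i + 1) * b ≤ r * b := Nat.mul_le_mul_right b hi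
      omega
    have hEm : MeasurableSet[ℱ (y + r * b)] E := by
      refine U2aux.meas (m' := ℱ (y + r * b)) r B H S (fun m => cp μ ℱ S m) pm pp ?_ ?_
      · intro i hi n hn h hh
        exact ℱ.mono (hle i hi n hn h hh) _ (hS (n + h))
      · intro i hi n hn h hh
        have h2 : StronglyMeasurable[ℱ (n + h - 1)] (cp μ ℱ S (n + h)) :=
          stronglyMeasurable_condExp
        exact (h2.mono (ℱ.mono ((Nat.sub_le _ _).trans (hle i hi n hn h hh)))).measurable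
    have h2 := h1 Ω μ ℱ S hS H (B r) (y + r * b) E pm pp hEm (by
      intro n hn h hh
      have h3 := hB r (Nat.lt_succ_self r) n hn h hh
      exact ⟨h3.1, h3.2.2⟩)
    have h3 := hsum r (Nat.lt_succ_self r)
    have h4 : μ.real {ω | (∀ i < r + 1, ∀ n ∈ B i, ∃ h ∈ H, ω ∉ S (n + h)) ∧
        ∀ i < r + 1, ∀ n ∈ B i, ∀ h ∈ H,
        pm (n + h) ≤ cp μ ℱ S (n + h) ω ∧ cp μ ℱ S (n + h) ω ≤ pp (n + h)} ≤
        μ.real (E ∩ {ω | (∀ n ∈ B r, ∃ h ∈ H, ω ∉ S (n + h)) ∧ ∀ n ∈ B r, ∀ h ∈ H,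
        pm (n + h) ≤ cp μ ℱ S (n + h) ω ∧ cp μ ℱ S (n + h) ω ≤ pp (n + h)}) := by
      refine measureReal_mono ?_ (measure_ne_top _ _)
      rintro ω ⟨ha, hb⟩
      exact ⟨⟨fun i hi => ha i (Nat.lt_succ_of_lt hi), fun i hi => hb i (Nat.lt_succ_of_lt hi)⟩,
        ha r (Nat.lt_succ_self r), hb r (Nat.lt_succ_self r)⟩
    have h5 : (0 : ℝ) ≤ 1 - ρ := by linarith
    calc _ ≤ _ := h4
      _ ≤ _ := h2
      _ ≤ (1 - ρ) * μ.real E := mul_le_mul_of_nonneg_right h3 measureReal_nonneg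
      _ ≤ (1 - ρ) * (1 - ρ) ^ r := mul_le_mul_of_nonneg_left ih' h5
      _ = (1 - ρ) ^ (r + 1) := by rw [pow_succ]; ring

end Pool.Agent.J6H40.KT
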