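import Pool.Agent.J6H40.KT.Stm

set_option autoImplicit false

/-!
# KT-UA: the probability bound, upper part
-/

open MeasureTheory Filter
open scoped Topology Classical

namespace Pool.Agent.J6H40.KT

open Pool.Agent.J6H40.WG2

namespace UA

/-- the admissible positions of a block -/
noncomputable def BB (z : ℕ → ℕ) (H : Finset ℕ) (y b : ℕ) : Finset ℕ :=
  (Finset.Ioc y (y + b - dm H)).filter (fun n => Adm z H n)

theorem le_dm {H : Finset ℕ} {h : ℕ} (hh : h ∈ H) : h ≤ dm H := Finset.le_sup (f := id) hh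

theorem union_card {H : Finset ℕ} (hH : H.Nonempty) {n n' : ℕ} (hn : n ≠ n') :
    H.card + 1 ≤ (H.image (fun h => n + h) ∪ H.image (fun h => n' + h)).card := by
  have hc : ∀ n : ℕ, (H.image (fun h => n + h)).card = H.card := fun n =>
    Finset.card_image_of_injective _ fun a b h => by simpa using h
  by_contra hlt
  push Not at hlt
  have h1 : H.image (fun h => n + h) = H.image (fun h => n + h) ∪ H.image (fun h => n' + h) :=
    Finset.eq_of_subset_of_card_le Finset.subset_union_left (by rw [hc]; omega)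
  have h2 : H.image (fun h => n' + h) = H.image (fun h => n + h) ∪ H.image (fun h => n' + h) :=
    Finset.eq_of_subset_of_card_le Finset.subset_union_right (by rw [hc]; omega)
  have h3 : H.image (fun h => n + h) = H.image (fun h => n' + h) := h1.trans h2.symm
  have h4 : ∀ n : ℕ, ∑ a ∈ H.image (fun h => n + h), a = H.card * n + ∑ h ∈ H, h := by
    intro n
    rw [Finset.sum_image (fun a _ b _ h => by simpa using h), Finset.sum_add_distrib,
      Finset.sum_const, smul_eq_mul]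
  have h5 := h4 n
  rw [h3, h4 n'] at h5
  have h6 : H.card * n' = H.card * n := by omega
  exact hn (Nat.eq_of_mul_eq_mul_left (Finset.card_pos.2 hH) h6).symm

/-- the estimate for one block -/
theorem block (hWB : ∀ v : ℕ, 1 ≤ W v ∧ W v ≤ v + 1) {H : Finset ℕ} (hH : H.Nonempty) {z : ℕ → ℕ}
    (hz : Monotone z) {σ θ κ ε' l : ℝ} {x y b : ℕ} (hl : l = Real.log x) (hl1 : 1 ≤ l) (hx : 1 ≤ x)
    (hκ0 : 0 < κ) (hκ1 : κ < 1) (hy : x ≤ y) (hy2 : y + b ≤ 2 * x) (hb : (b : ℝ) ≤ √l)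
    (hε' : ε' * √l ≤ l) (hq : (2 * ((z (2 * x) : ℝ) + 1)) ^ (H.card + 1) ≤ ε' * √l)
    (hcb : σ * b - ε' * b ≤ ∑ n ∈ Finset.Ioc y (y + b - dm H), wt z H n)
    (h1 : (1 - θ) * σ ≤ (1 - κ) ^ H.card * (l / (l + Real.log 2)) ^ H.card * (σ - ε') - ε') :
    (1 - θ) * σ * b / l ^ H.card ≤
      ∑ n ∈ BB z H y b, ∏ h ∈ H, (1 - κ) * (W (z (n + h)) / Real.log ((n + h : ℕ) : ℝ)) -
      ∑ p ∈ (BB z H y b).offDiag, ∏ m ∈ H.image (fun h => p.1 + h) ∪ H.image (fun h => p.2 + h),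
        (1 + κ) * (W (z m) / Real.log (m : ℝ)) := by
  have hl0 : 0 < l := by linarith
  have hlog2 : 0 < Real.log 2 := Real.log_pos (by norm_num)
  have hx0 : (0 : ℝ) < x := by exact_mod_cast hx
  have hlog2x : Real.log ((2 * x : ℕ) : ℝ) = l + Real.log 2 := by
    push_cast
    rw [Real.log_mul (by norm_num) hx0.ne', hl]
    ring
  -- the times
  have htime : ∀ n ∈ BB z H y b, ∀ h ∈ H, x ≤ n + h ∧ n + h ≤ 2 * x := by
    intro n hn h hh
    have h2 := Finset.mem_Ioc.1 (Finset.mem_filter.1 hn).1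
    have h3 := le_dm hh
    omega
  have hlogm : ∀ m : ℕ, x ≤ m → m ≤ 2 * x → l ≤ Real.log (m : ℝ) ∧
      Real.log (m : ℝ) ≤ l + Real.log 2 := by
    intro m h2 h3
    constructor
    · rw [hl]
      exact Real.log_le_log hx0 (by exact_mod_cast h2)
    · rw [← hlog2x]
      exact Real.log_le_log (lt_of_lt_of_le hx0 (by exact_mod_cast h2)) (by exact_mod_cast h3)
  -- first sum
  have ha : ((1 - κ) / (l + Real.log 2)) ^ H.card *
      ∑ n ∈ Finset.Ioc y (y + b - dm H), wt z H n ≤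
      ∑ n ∈ BB z H y b, ∏ h ∈ H, (1 - κ) * (W (z (n + h)) / Real.log ((n + h : ℕ) : ℝ)) := by
    have e1 : ∑ n ∈ Finset.Ioc y (y + b - dm H), wt z H n =
        ∑ n ∈ BB z H y b, ∏ h ∈ H, W (z (n + h)) := by
      unfold BB wt
      rw [Finset.sum_filter]
    rw [e1, Finset.mul_sum]
    refine Finset.sum_le_sum fun n hn => ?_
    rw [← Finset.prod_const, ← Finset.prod_mul_distrib]
    refine Finset.prod_le_prod (fun h _ => ?_) fun h hh => ?_
    · have := (hWB (z (n + h))).1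
      exact mul_nonneg (div_nonneg (by linarith) (by linarith)) (by linarith)
    · obtain ⟨h2, h3⟩ := htime n hn h hh
      obtain ⟨h4, h5⟩ := hlogm (n + h) h2 h3
      have h6 := (hWB (z (n + h))).1
      have h7 : W (z (n + h)) / (l + Real.log 2) ≤ W (z (n + h)) / Real.log ((n + h : ℕ) : ℝ) :=
        div_le_div_of_nonneg_left (by linarith) (by linarith) h5
      calc (1 - κ) / (l + Real.log 2) * W (z (n + h)) =
            (1 - κ) * (W (z (n + h)) / (l + Real.log 2)) := by ring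
        _ ≤ _ := mul_le_mul_of_nonneg_left h7 (by linarith)
  -- second sum
  have hV0 : (0 : ℝ) ≤ z (2 * x) := Nat.cast_nonneg _
  have hq1 : 2 * ((z (2 * x) : ℝ) + 1) ≤ l := by
    have h2 : (1 : ℝ) ≤ 2 * ((z (2 * x) : ℝ) + 1) := by linarith
    have h3 : 2 * ((z (2 * x) : ℝ) + 1) ≤ (2 * ((z (2 * x) : ℝ) + 1)) ^ (H.card + 1) :=
      le_self_pow₀ h2 (by omega)
    linarith
  have hbsum : ∑ p ∈ (BB z H y b).offDiag,
      ∏ m ∈ H.image (fun h => p.1 + h) ∪ H.image (fun h => p.2 + h),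
        (1 + κ) * (W (z m) / Real.log (m : ℝ)) ≤ ε' * b / l ^ H.card := by
    have h2 : ∀ p ∈ (BB z H y b).offDiag,
        ∏ m ∈ H.image (fun h => p.1 + h) ∪ H.image (fun h => p.2 + h),
          (1 + κ) * (W (z m) / Real.log (m : ℝ)) ≤
            (2 * ((z (2 * x) : ℝ) + 1) / l) ^ (H.card + 1) := by
      intro p hp
      rw [Finset.mem_offDiag] at hp
      have h3 : ∀ m ∈ H.image (fun h => p.1 + h) ∪ H.image (fun h => p.2 + h),
          x ≤ m ∧ m ≤ 2 * x := by
        intro m hm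
        rcases Finset.mem_union.1 hm with hm | hm
        · obtain ⟨h, hh, rfl⟩ := Finset.mem_image.1 hm
          exact htime _ hp.1 h hh
        · obtain ⟨h, hh, rfl⟩ := Finset.mem_image.1 hm
          exact htime _ hp.2.1 h hh
      have h4 : ∀ m ∈ H.image (fun h => p.1 + h) ∪ H.image (fun h => p.2 + h),
          0 ≤ (1 + κ) * (W (z m) / Real.log (m : ℝ)) ∧
          (1 + κ) * (W (z m) / Real.log (m : ℝ)) ≤ 2 * ((z (2 * x) : ℝ) + 1) / l := by
        intro m hm
        obtain ⟨h5, h6⟩ := h3 m hm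
        obtain ⟨h7, -⟩ := hlogm m h5 h6
        obtain ⟨h8, h9⟩ := hWB (z m)
        have h10 : (z m : ℝ) ≤ z (2 * x) := by exact_mod_cast hz h6
        have h11 : 0 ≤ W (z m) / Real.log (m : ℝ) := div_nonneg (by linarith) (by linarith)
        refine ⟨mul_nonneg (by linarith) h11, ?_⟩
        have h12 : W (z m) / Real.log (m : ℝ) ≤ ((z (2 * x) : ℝ) + 1) / l :=
          div_le_div₀ (by linarith) (by linarith) hl0 h7
        calc (1 + κ) * (W (z m) / Real.log (m : ℝ)) ≤ 2 * (((z (2 * x) : ℝ) + 1) / l) := by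
              nlinarith
          _ = _ := by ring
      refine (Finset.prod_le_prod (fun m hm => (h4 m hm).1) fun m hm => (h4 m hm).2).trans ?_
      rw [Finset.prod_const]
      refine pow_le_pow_of_le_one (by positivity) ?_ (union_card hH hp.2.2)
      rw [div_le_one hl0]
      exact hq1
    refine (Finset.sum_le_sum h2).trans ?_
    rw [Finset.sum_const, nsmul_eq_mul]
    have h3 : ((BB z H y b).offDiag.card : ℝ) ≤ b * b := by
      have h4 : (BB z H y b).card ≤ b := by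
        refine (Finset.card_filter_le _ _).trans ?_
        rw [Nat.card_Ioc]
        omega
      have h5 : (BB z H y b).offDiag.card ≤ b * b := by
        rw [Finset.offDiag_card]
        exact (Nat.sub_le _ _).trans (Nat.mul_le_mul h4 h4)
      exact_mod_cast h5
    have hb0 : (0 : ℝ) ≤ b := Nat.cast_nonneg _
    have hs : √l * √l = l := Real.mul_self_sqrt hl0.le
    calc ((BB z H y b).offDiag.card : ℝ) * (2 * ((z (2 * x) : ℝ) + 1) / l) ^ (H.card + 1)
        ≤ (b * b) * (2 * ((z (2 * x) : ℝ) + 1) / l) ^ (H.card + 1) :=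
          mul_le_mul_of_nonneg_right h3 (by positivity)
      _ = b * b * (2 * ((z (2 * x) : ℝ) + 1)) ^ (H.card + 1) / l ^ (H.card + 1) := by
          rw [div_pow]
          ring
      _ ≤ b * √l * (ε' * √l) / l ^ (H.card + 1) := by
          refine div_le_div_of_nonneg_right ?_ (by positivity)
          refine mul_le_mul (mul_le_mul_of_nonneg_left hb hb0) hq (by positivity) (by positivity)
      _ = ε' * b * l / l ^ (H.card + 1) := by
          have e : (b : ℝ) * √l * (ε' * √l) = ε' * b * (√l * √l) := by ring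
          rw [e, hs]
      _ = ε' * b / l ^ H.card := by
          rw [pow_succ]
          field_simp
  have hb0 : (0 : ℝ) ≤ b := Nat.cast_nonneg _
  have hc : 0 ≤ ((1 - κ) / (l + Real.log 2)) ^ H.card :=
    pow_nonneg (div_nonneg (by linarith) (by linarith)) _
  have h2 : ((1 - κ) / (l + Real.log 2)) ^ H.card * (σ * b - ε' * b) ≤
      ∑ n ∈ BB z H y b, ∏ h ∈ H, (1 - κ) * (W (z (n + h)) / Real.log ((n + h : ℕ) : ℝ)) :=
    (mul_le_mul_of_nonneg_left hcb hc).trans ha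
  have hlk : 0 < l ^ H.card := by positivity
  have h3 : (1 - θ) * σ * b / l ^ H.card ≤
      ((1 - κ) / (l + Real.log 2)) ^ H.card * (σ * b - ε' * b) - ε' * b / l ^ H.card := by
    have h4 : ((1 - κ) / (l + Real.log 2)) ^ H.card * (σ * b - ε' * b) - ε' * b / l ^ H.card =
        ((1 - κ) ^ H.card * (l / (l + Real.log 2)) ^ H.card * (σ - ε') - ε') *
          (b / l ^ H.card) := by
      rw [div_pow, div_pow]
      field_simp
    rw [h4]
    calc (1 - θ) * σ * b / l ^ H.card = (1 - θ) * σ * (b / l ^ H.card) := by ring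
      _ ≤ _ := mul_le_mul_of_nonneg_right h1 (by positivity)
  linarith

theorem eventually_ge_of_tendsto_gt' (θ : ℝ) (hθ : 0 < θ) : ∀ᶠ y : ℝ in 𝓝 1, 1 - θ / 4 ≤ y := by
  exact (eventually_ge_nhds (by linarith : (1 : ℝ) - θ / 4 < 1))

/-- all bounds which depend on `l = log x` only -/
theorem ev_l (k : ℕ) {σ θ ε' δ : ℝ} (hθ : 0 < θ) (hε' : 0 < ε')
    (hδ : δ = 1 / (4 * ((k : ℝ) + 1))) :
    ∀ᶠ l : ℝ in atTop, 1 ≤ l ∧ ε' ≤ √l ∧ σ ≤ θ * √l ∧ σ ≤ √l ∧
      1 - θ / 4 ≤ (l / (l + Real.log 2)) ^ k ∧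
      (2 * ((l + Real.log 2) ^ δ + 1)) ^ (k + 1) ≤ ε' * √l := by
  have hlog2 : 0 < Real.log 2 := Real.log_pos (by norm_num)
  have hs : Tendsto (fun l : ℝ => √l) atTop atTop := Real.tendsto_sqrt_atTop
  have h5 : Tendsto (fun l : ℝ => (l / (l + Real.log 2)) ^ k) atTop (𝓝 1) := by
    have e1 : Tendsto (fun l : ℝ => l / (l + Real.log 2)) atTop (𝓝 1) := by
      have e2 : Tendsto (fun l : ℝ => 1 - Real.log 2 / (l + Real.log 2)) atTop (𝓝 (1 - 0)) := by
        refine tendsto_const_nhds.sub ?_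
        exact tendsto_const_nhds.div_atTop (tendsto_atTop_add_const_right _ _ tendsto_id)
      rw [sub_zero] at e2
      refine e2.congr' ?_
      filter_upwards [eventually_ge_atTop 0] with l hl
      have : l + Real.log 2 ≠ 0 := by linarith
      field_simp
      ring
    simpa using e1.pow k
  have h6 : ∀ᶠ l : ℝ in atTop, (4 : ℝ) ^ (k + 1) * 2 ^ (1 / 4 : ℝ) ≤ ε' * l ^ (1 / 4 : ℝ) := by
    have e1 : Tendsto (fun l : ℝ => ε' * l ^ (1 / 4 : ℝ)) atTop atTop :=
      (tendsto_rpow_atTop (by norm_num)).const_mul_atTop hε'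
    exact e1.eventually_ge_atTop _
  filter_upwards [eventually_ge_atTop 1, hs.eventually_ge_atTop ε',
    hs.eventually_ge_atTop (σ / θ), hs.eventually_ge_atTop σ,
    h5.eventually (eventually_ge_of_tendsto_gt' θ hθ), h6] with l h1 h2 h3 h4 h5 h6
  refine ⟨h1, h2, ?_, h4, h5, ?_⟩
  · rw [div_le_iff₀ hθ] at h3
    linarith
  · have hk : (0 : ℝ) < 4 * ((k : ℝ) + 1) := by positivity
    have hδ0 : 0 < δ := by rw [hδ]; positivity
    have e1 : (1 : ℝ) ≤ (2 * l) ^ δ := Real.one_le_rpow (by linarith) hδ0.le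
    have hl2 : l + Real.log 2 ≤ 2 * l := by
      have : Real.log 2 ≤ 1 := by
        have := Real.log_two_lt_d9
        linarith
      linarith
    have e2 : (l + Real.log 2) ^ δ ≤ (2 * l) ^ δ :=
      Real.rpow_le_rpow (by linarith) hl2 hδ0.le
    have e3 : 2 * ((l + Real.log 2) ^ δ + 1) ≤ 4 * (2 * l) ^ δ := by linarith
    have e4 : (0 : ℝ) ≤ (l + Real.log 2) ^ δ := Real.rpow_nonneg (by linarith) _
    calc (2 * ((l + Real.log 2) ^ δ + 1)) ^ (k + 1) ≤ (4 * (2 * l) ^ δ) ^ (k + 1) :=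
          pow_le_pow_left₀ (by positivity) e3 _
      _ = 4 ^ (k + 1) * (2 * l) ^ (1 / 4 : ℝ) := by
          rw [mul_pow, ← Real.rpow_natCast ((2 * l) ^ δ), ← Real.rpow_mul (by linarith), hδ]
          congr 2
          push_cast
          field_simp
      _ = 4 ^ (k + 1) * 2 ^ (1 / 4 : ℝ) * l ^ (1 / 4 : ℝ) := by
          rw [Real.mul_rpow (by norm_num) (by linarith)]
          ring
      _ ≤ ε' * l ^ (1 / 4 : ℝ) * l ^ (1 / 4 : ℝ) :=
          mul_le_mul_of_nonneg_right h6 (Real.rpow_nonneg (by linarith) _)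
      _ = ε' * √l := by
          rw [mul_assoc, ← Real.rpow_add (by linarith), Real.sqrt_eq_rpow]
          norm_num

end UA

open UA in
theorem t_UA (h1 : s_U2) (h2 : s_CB) (h3 : s_DT) (h4 : s_WB) : s_UA := by
  intro H hH z hz σ hσ hT Ω mΩ μ _ ℱ S hS ε hε
  have hk1 : 1 ≤ H.card := Finset.card_pos.2 hH.1
  obtain ⟨θ, hθdef⟩ : ∃ θ : ℝ, θ = ε / (4 + 2 * ε) := ⟨_, rfl⟩
  have hθ0 : 0 < θ := by rw [hθdef]; positivity
  have hθe : θ * (4 + 2 * ε) = ε := by
    rw [hθdef]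
    field_simp
  have hθ1 : θ < 1 / 2 := by
    rw [hθdef, div_lt_iff₀ (by positivity)]
    linarith
  have hkR : (1 : ℝ) ≤ (H.card : ℝ) := by exact_mod_cast hk1
  obtain ⟨κ, hκdef⟩ : ∃ κ : ℝ, κ = θ / (4 * H.card) := ⟨_, rfl⟩
  have hκ0 : 0 < κ := by rw [hκdef]; positivity
  have hκk : (H.card : ℝ) * κ = θ / 4 := by
    rw [hκdef]
    field_simp
  have hκ1 : κ < 1 := by nlinarith
  obtain ⟨ε', hε'def⟩ : ∃ ε' : ℝ, ε' = θ * σ / 4 := ⟨_, rfl⟩
  have hε' : 0 < ε' := by rw [hε'def]; positivity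
  obtain ⟨δ, hδdef⟩ : ∃ δ : ℝ, δ = 1 / (4 * ((H.card : ℝ) + 1)) := ⟨_, rfl⟩
  have hδ0 : 0 < δ := by rw [hδdef]; positivity
  refine ⟨κ, hκ0, ?_⟩
  have hlt : Tendsto (fun x : ℕ => Real.log (x : ℝ)) atTop atTop :=
    Real.tendsto_log_atTop.comp tendsto_natCast_atTop_atTop
  have hev := hlt.eventually (ev_l H.card (σ := σ) hθ0 hε' hδdef)
  obtain ⟨m0, hm0⟩ := eventually_atTop.1 (h3 z hz (1 / 2) (by norm_num))
  obtain ⟨m1, hm1⟩ := eventually_atTop.1 (hz.2 δ hδ0)
  have hL : ∀ᶠ x : ℕ in atTop, (1 + ε) * Real.log x ^ (H.card + 1) / σ ≤ x := by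
    have e1 := (Real.isLittleO_pow_log_id_atTop (n := H.card + 1)).bound
      (c := σ / (1 + ε)) (by positivity)
    have e2 := tendsto_natCast_atTop_atTop (R := ℝ) |>.eventually e1
    filter_upwards [e2, eventually_ge_atTop 1] with x hx hx1
    rw [div_le_iff₀ hσ]
    have e3 : (0 : ℝ) ≤ Real.log x := Real.log_nonneg (by exact_mod_cast hx1)
    rw [Real.norm_of_nonneg (pow_nonneg e3 _), id_eq,
      Real.norm_of_nonneg (Nat.cast_nonneg x)] at hx
    calc (1 + ε) * Real.log x ^ (H.card + 1) ≤ (1 + ε) * (σ / (1 + ε) * x) :=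
          mul_le_mul_of_nonneg_left hx (by linarith)
      _ = x * σ := by field_simp
  filter_upwards [hev, h2 H hH z hz σ hσ hT ε' hε', hL,
    eventually_ge_atTop (max m0 (max m1 2))] with x hxl hcb hLx hx N hN
  obtain ⟨hl1, hl2, hl3, hl4, hl5, hl6⟩ := hxl
  have hx2 : 2 ≤ x := le_trans (le_max_right _ _ |>.trans (le_max_right _ _)) hx
  have hxm0 : m0 ≤ x := (le_max_left _ _).trans hx
  have hxm1 : m1 ≤ x := (le_max_left _ _ |>.trans (le_max_right _ _)).trans hx
  obtain ⟨l, hldef⟩ : ∃ l : ℝ, l = Real.log x := ⟨_, rfl⟩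
  rw [← hldef] at hl1 hl2 hl3 hl4 hl5 hl6 hLx
  have hl0 : 0 < l := by linarith
  have hx0 : (0 : ℝ) < x := by
    have : (2 : ℝ) ≤ x := by exact_mod_cast hx2
    linarith
  obtain ⟨b, hbdef⟩ : ∃ b : ℕ, b = bl x := ⟨_, rfl⟩
  rw [← hbdef] at hcb
  have hs1 : 1 ≤ √l := Real.one_le_sqrt.2 hl1
  have hss : √l * √l = l := Real.mul_self_sqrt hl0.le
  have hb1 : 1 ≤ b := by
    rw [hbdef]
    unfold bl
    rw [← hldef]
    exact Nat.le_floor (by exact_mod_cast hs1)
  have hbR : (1 : ℝ) ≤ b := by exact_mod_cast hb1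
  have hbs : (b : ℝ) ≤ √l := by
    rw [hbdef]
    unfold bl
    rw [← hldef]
    exact Nat.floor_le (Real.sqrt_nonneg _)
  obtain ⟨L, hLdef⟩ : ∃ L : ℝ, L = (1 + ε) * l ^ (H.card + 1) / σ := ⟨_, rfl⟩
  have hL0 : 0 < L := by rw [hLdef]; positivity
  rw [← hLdef] at hLx
  obtain ⟨r, hrdef⟩ : ∃ r : ℕ, r = ⌊L / b⌋₊ := ⟨_, rfl⟩
  have hrb : (r : ℝ) * b ≤ L := by
    have e1 : (r : ℝ) ≤ L / b := by
      rw [hrdef]
      exact Nat.floor_le (by positivity)
    rwa [le_div_iff₀ (by linarith)] at e1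
  have hr1 : L / b < r + 1 := by
    rw [hrdef]
    exact Nat.lt_floor_add_one _
  have hir : ∀ i < r, (((i + 1) * b : ℕ) : ℝ) ≤ L := by
    intro i hi
    have e1 : (i + 1) * b ≤ r * b := Nat.mul_le_mul_right _ hi
    have e2 : (((i + 1) * b : ℕ) : ℝ) ≤ ((r * b : ℕ) : ℝ) := by exact_mod_cast e1
    refine e2.trans ?_
    push_cast
    exact hrb
  have hir' : ∀ i < r, i * b + b ≤ x := by
    intro i hi
    have e1 : (((i + 1) * b : ℕ) : ℝ) ≤ x := (hir i hi).trans hLx
    have e2 : (i + 1) * b ≤ x := by exact_mod_cast e1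
    rwa [add_mul, one_mul] at e2
  have hlk : 1 ≤ l ^ H.card := one_le_pow₀ hl1
  obtain ⟨ρ, hρdef⟩ : ∃ ρ : ℝ, ρ = (1 - θ) * σ * b / l ^ H.card := ⟨_, rfl⟩
  have hρ0 : 0 ≤ ρ := by
    rw [hρdef]
    have : 0 ≤ 1 - θ := by linarith
    positivity
  have hρ1 : ρ ≤ 1 := by
    rw [hρdef, div_le_one (by positivity)]
    have e1 : l ≤ l ^ H.card := le_self_pow₀ hl1 (by omega)
    have e2 : σ * b ≤ √l * √l := mul_le_mul hl4 hbs (by linarith) (by linarith)
    have e3 : (1 - θ) * σ * b ≤ σ * b := by nlinarith [mul_pos hσ (by linarith : (0 : ℝ) < b)]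
    linarith
  -- the bound of U2
  have hmain : (1 - θ) * σ ≤ (1 - κ) ^ H.card * (l / (l + Real.log 2)) ^ H.card * (σ - ε') - ε' := by
    have e1 : 1 - θ / 4 ≤ (1 - κ) ^ H.card := by
      have := one_add_mul_le_pow (a := -κ) (by linarith) H.card
      have e : 1 + (-κ) = 1 - κ := by ring
      rw [e] at this
      linarith
    have e2 : (1 - θ / 4) * (1 - θ / 4) ≤ (1 - κ) ^ H.card * (l / (l + Real.log 2)) ^ H.card :=
      mul_le_mul e1 hl5 (by linarith) (by positivity)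
    have e3 : σ - ε' = σ * (1 - θ / 4) := by rw [hε'def]; ring
    have e4 : 0 ≤ σ * (1 - θ / 4) := mul_nonneg hσ.le (by linarith)
    have e5 := mul_le_mul_of_nonneg_right e2 e4
    rw [e3]
    have e6 : (1 - θ) * σ + ε' ≤ (1 - θ / 4) * (1 - θ / 4) * (σ * (1 - θ / 4)) := by
      rw [hε'def]
      have e7 : (1 - θ / 4) * (1 - θ / 4) * (σ * (1 - θ / 4)) - ((1 - θ) * σ + θ * σ / 4) =
          σ * (θ / 4) ^ 2 * (3 - θ / 4) := by ring
      have e8 : 0 ≤ σ * (θ / 4) ^ 2 * (3 - θ / 4) := by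
        have : 0 ≤ 3 - θ / 4 := by linarith
        positivity
      linarith
    linarith
  have hqq : (2 * ((z (2 * x) : ℝ) + 1)) ^ (H.card + 1) ≤ ε' * √l := by
    refine le_trans (pow_le_pow_left₀ (by positivity) ?_ _) hl6
    have e1 := hm1 (2 * x) (by omega)
    have e2 : Real.log ((2 * x : ℕ) : ℝ) = l + Real.log 2 := by
      push_cast
      rw [Real.log_mul (by norm_num) hx0.ne', hldef]
      ring
    rw [e2] at e1
    linarith
  have hU2 := h1 Ω μ ℱ S hS H (fun i => BB z H (x + i * b) b) x b r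
    (fun m => (1 - κ) * (W (z m) / Real.log (m : ℝ)))
    (fun m => (1 + κ) * (W (z m) / Real.log (m : ℝ))) ρ hρ1 (by
      intro i hi n hn h hh
      have e1 := Finset.mem_Ioc.1 (Finset.mem_filter.1 hn).1
      have e2 := le_dm hh
      have e3 := hir' i hi
      have e4 := hm0 (n + h) (by omega)
      refine ⟨by omega, ?_, ?_, ?_, ?_⟩
      · have : (i + 1) * b = i * b + b := by ring
        rw [this]
        omega
      · exact mul_nonneg (by linarith) e4.1
      · exact mul_le_mul_of_nonneg_right (by linarith) e4.1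
      · show (1 + κ) * (W (z (n + h)) / Real.log ((n + h : ℕ) : ℝ)) ≤ 1
        nlinarith [e4.1, e4.2]) (by
      intro i hi
      have e3 := hir' i hi
      have e5 := (hcb (x + i * b) (by omega) (by nlinarith)).2
      have e6 := block (l := l) (θ := θ) (κ := κ) h4.1 hH.1 hz.1 hldef hl1 (by omega) hκ0 hκ1
        (y := x + i * b) (b := b) (σ := σ) (ε' := ε') (by omega) (by omega) hbs
        (by nlinarith [Real.sqrt_nonneg l]) hqq (by
          have := (abs_le.1 e5).1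
          linarith) hmain
      rw [← hρdef] at e6
      show 1 - ∑ n ∈ BB z H (x + i * b) b, ∏ h ∈ H, (1 - κ) * (W (z (n + h)) /
        Real.log ((n + h : ℕ) : ℝ)) + ∑ p ∈ (BB z H (x + i * b) b).offDiag,
          ∏ m ∈ H.image (fun h => p.1 + h) ∪ H.image (fun h => p.2 + h),
            (1 + κ) * (W (z m) / Real.log (m : ℝ)) ≤ 1 - ρ
      linarith)
  have hsub : {ω | (∀ n : ℕ, x < n → (n : ℝ) ≤ x + (1 + ε) * Real.log x ^ (H.card + 1) / σ →
        ∃ h ∈ H, ω ∉ S (n + h)) ∧ ω ∈ Lo μ ℱ S z κ N ∧ ω ∈ Up μ ℱ S z κ N} ⊆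
      {ω | (∀ i < r, ∀ n ∈ BB z H (x + i * b) b, ∃ h ∈ H, ω ∉ S (n + h)) ∧
        ∀ i < r, ∀ n ∈ BB z H (x + i * b) b, ∀ h ∈ H,
          (1 - κ) * (W (z (n + h)) / Real.log ((n + h : ℕ) : ℝ)) ≤ cp μ ℱ S (n + h) ω ∧
          cp μ ℱ S (n + h) ω ≤ (1 + κ) * (W (z (n + h)) / Real.log ((n + h : ℕ) : ℝ))} := by
    rintro ω ⟨g1, g2, g3⟩
    refine ⟨fun i hi n hn => ?_, fun i hi n hn h hh => ?_⟩
    · have e1 := Finset.mem_Ioc.1 (Finset.mem_filter.1 hn).1
      refine g1 n (by omega) ?_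
      rw [← hldef, ← hLdef]
      have e2 : n ≤ x + (i + 1) * b := by
        have : (i + 1) * b = i * b + b := by ring
        rw [this]
        omega
      have e3 : (n : ℝ) ≤ ((x + (i + 1) * b : ℕ) : ℝ) := by exact_mod_cast e2
      refine e3.trans ?_
      have e4 := hir i hi
      rw [Nat.cast_add]
      linarith
    · have e1 := Finset.mem_Ioc.1 (Finset.mem_filter.1 hn).1
      have e2 : N ≤ n + h := by omega
      have e3 : Rough z (n + h) := (Finset.mem_filter.1 hn).2 h hh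
      exact ⟨g2 _ e2 e3, g3 _ e2 e3⟩
  refine (measureReal_mono hsub).trans (hU2.trans ?_)
  have f1 : (1 - ρ) ^ r ≤ Real.exp (-(ρ * r)) := by
    calc (1 - ρ) ^ r ≤ (Real.exp (-ρ)) ^ r :=
          pow_le_pow_left₀ (by linarith) (Real.one_sub_le_exp_neg ρ) _
      _ = Real.exp (-(ρ * r)) := by
          rw [← Real.exp_nat_mul]
          congr 1
          ring
  refine f1.trans ?_
  rw [Real.rpow_def_of_pos hx0, ← hldef]
  refine Real.exp_le_exp.2 ?_
  have f2 : ρ * (L / b - 1) ≤ ρ * r := mul_le_mul_of_nonneg_left (by linarith) hρ0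
  have f3 : ρ * (L / b - 1) = (1 - θ) * ((1 + ε) * l - σ * b / l ^ H.card) := by
    have hb0 : (b : ℝ) ≠ 0 := by linarith
    have hP : l ^ H.card ≠ 0 := by positivity
    have e1 : (1 - θ) * σ * b / l ^ H.card * ((1 + ε) * (l ^ H.card * l) / σ / b) =
        (1 - θ) * ((1 + ε) * l) := by
      field_simp
    have e2 : (1 - θ) * σ * b / l ^ H.card = (1 - θ) * (σ * b / l ^ H.card) := by ring
    rw [hρdef, hLdef, pow_succ, mul_sub, e1, mul_one, e2]
    ring
  have f4 : σ * b / l ^ H.card ≤ θ * l := by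
    rw [div_le_iff₀ (by positivity)]
    have e1 : σ * b ≤ (θ * √l) * √l := mul_le_mul hl3 hbs (by linarith) (by positivity)
    have e2 : θ * √l * √l = θ * l := by rw [mul_assoc, hss]
    have e3 : θ * l ≤ θ * l * l ^ H.card := le_mul_of_one_le_right (by positivity) hlk
    linarith
  have f5 : (1 - θ) * ((1 + ε) * l - θ * l) ≤ (1 - θ) * ((1 + ε) * l - σ * b / l ^ H.card) :=
    mul_le_mul_of_nonneg_left (by linarith) (by linarith)
  have f6 : (1 + ε / 2) * l ≤ (1 - θ) * ((1 + ε) * l - θ * l) := by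
    have e1 : (1 - θ) * ((1 + ε) * l - θ * l) - (1 + ε / 2) * l =
        (ε / 2 - θ * (4 + 2 * ε) / 2 + θ ^ 2) * l := by ring
    rw [hθe] at e1
    have e2 : (ε / 2 - ε / 2 + θ ^ 2) * l ≥ 0 := by
      have : ε / 2 - ε / 2 + θ ^ 2 = θ ^ 2 := by ring
      rw [this]
      positivity
    linarith
  rw [f3] at f2
  linarith

end Pool.Agent.J6H40.KT
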