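import Pool.Agent.J6H40.KT.Stm2

/-!
# Module UT: upper tail for separated positions
-/

set_option autoImplicit false

open MeasureTheory Filter
open scoped Topology

namespace Pool.Agent.J6H40.KT

open Pool.Agent.J6H40.WG2

namespace UTaux

variable {Ω : Type} [mΩ : MeasurableSpace Ω] (μ : Measure Ω) (ℱ : Filtration ℕ mΩ) (S : ℕ → Set Ω)
  (H : Finset ℕ) (pp : ℕ → ℝ)

/-- the pattern at `n` is chosen and the bounds hold -/
def P (n : ℕ) : Set Ω :=
  {ω | (∀ h ∈ H, ω ∈ S (n + h)) ∧ ∀ h ∈ H, cp μ ℱ S (n + h) ω ≤ pp (n + h)}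

theorem meas_cp (n N : ℕ) (hN : n ≤ N + 1) : Measurable[ℱ N] (cp μ ℱ S n) := by
  have h1 : StronglyMeasurable[ℱ (n - 1)] (cp μ ℱ S n) := stronglyMeasurable_condExp
  exact (h1.mono (ℱ.mono (by omega))).measurable

theorem meas_P (hS : ∀ n, MeasurableSet[ℱ n] (S n)) {n N : ℕ} (hN : ∀ h ∈ H, n + h ≤ N) :
    MeasurableSet[ℱ N] (P μ ℱ S H pp n) := by
  have e : P μ ℱ S H pp n =
      (⋂ h ∈ H, S (n + h)) ∩ ⋂ h ∈ H, {ω | cp μ ℱ S (n + h) ω ≤ pp (n + h)} := by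
    ext ω
    simp [P]
  rw [e]
  refine MeasurableSet.inter ?_ ?_
  · exact Finset.measurableSet_biInter H fun h hh => ℱ.mono (hN h hh) _ (hS (n + h))
  · refine Finset.measurableSet_biInter H fun h hh => ?_
    exact @measurableSet_le _ _ _ _ _ (ℱ N) _ _ _ _ _
      (meas_cp μ ℱ S (n + h) N (by have := hN h hh; omega)) measurable_const

/-- the factor of the position `n` -/
noncomputable def G (lam : ℝ) (n : ℕ) (ω : Ω) : ℝ :=
  1 + (Real.exp lam - 1) * (P μ ℱ S H pp n).indicator (fun _ => (1 : ℝ)) ω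

theorem meas_G (hS : ∀ n, MeasurableSet[ℱ n] (S n)) (lam : ℝ) {n N : ℕ}
    (hN : ∀ h ∈ H, n + h ≤ N) : Measurable[ℱ N] (G μ ℱ S H pp lam n) := by
  have h1 : Measurable[ℱ N] ((P μ ℱ S H pp n).indicator (fun _ => (1 : ℝ))) :=
    (@measurable_const _ _ _ (ℱ N) (1 : ℝ)).indicator (meas_P μ ℱ S H pp hS hN)
  exact (h1.const_mul (Real.exp lam - 1)).const_add 1

theorem G_bd {lam : ℝ} (hl : 0 ≤ lam) (n : ℕ) (ω : Ω) :
    1 ≤ G μ ℱ S H pp lam n ω ∧ G μ ℱ S H pp lam n ω ≤ Real.exp lam := by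
  have h1 : 1 ≤ Real.exp lam := Real.one_le_exp hl
  unfold G
  by_cases hω : ω ∈ P μ ℱ S H pp n
  · rw [Set.indicator_of_mem hω]
    constructor <;> linarith
  · rw [Set.indicator_of_notMem hω]
    constructor <;> linarith

theorem key (h1 : s_PRD) (h2 : s_GU) [IsProbabilityMeasure μ]
    (hS : ∀ n, MeasurableSet[ℱ n] (S n)) {n : ℕ} (hn : 1 ≤ n)
    (hpp : ∀ h ∈ H, 0 ≤ pp (n + h) ∧ pp (n + h) ≤ 1) (f : Ω → ℝ) (K : ℝ)
    (hf : StronglyMeasurable[ℱ (n - 1)] f) (hfb : ∀ ω, 0 ≤ f ω ∧ f ω ≤ K) :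
    ∫ ω, f ω * (P μ ℱ S H pp n).indicator (fun _ => (1 : ℝ)) ω ∂μ ≤
      (∏ h ∈ H, pp (n + h)) * ∫ ω, f ω ∂μ := by
  classical
  set U : Finset ℕ := H.image (fun h => n + h) with hU
  have hUm : ∀ m ∈ U, ∃ h ∈ H, n + h = m := fun m hm => Finset.mem_image.1 hm
  have hg := h2 Ω μ ℱ S hS U (fun _ => 0) pp (by
    intro m hm
    obtain ⟨h, hh, rfl⟩ := hUm m hm
    exact ⟨by omega, le_rfl, (hpp h hh).1, (hpp h hh).2⟩)
  have hprd := (h1 Ω μ ℱ (fun m => gu μ ℱ S U (fun _ => 0) pp m) pp U (n - 1) f K hf hfb (by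
    intro m hm
    obtain ⟨g1, g2, -⟩ := hg m hm
    obtain ⟨h, hh, rfl⟩ := hUm m hm
    exact ⟨by omega, g1, fun ω => ⟨(g2 ω).1, (g2 ω).2.trans (by norm_num)⟩, (hpp h hh).1⟩)).1 (by
    intro m hm f' hf' hf0 hfC
    exact ((hg m hm).2.2 f' hf' hf0 hfC).2)
  have hprod : ∏ m ∈ U, pp m = ∏ h ∈ H, pp (n + h) := by
    rw [hU, Finset.prod_image fun a _ b _ hab => by simpa using hab]
  rw [hprod] at hprd
  refine le_trans ?_ hprd
  have hfm : Measurable f := (hf.mono (ℱ.le _)).measurable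
  have hPm : MeasurableSet (P μ ℱ S H pp n) :=
    ℱ.le (n + H.sup id) _ (meas_P μ ℱ S H pp hS (N := n + H.sup id) fun h hh => by
      have : h ≤ H.sup id := Finset.le_sup (f := id) hh
      omega)
  have hgm : ∀ m ∈ U, Measurable (gu μ ℱ S U (fun _ => 0) pp m) := fun m hm =>
    ((hg m hm).1.mono (ℱ.le _)).measurable
  have hgpm : Measurable (fun ω => ∏ m ∈ U, gu μ ℱ S U (fun _ => 0) pp m ω) :=
    Finset.measurable_fun_prod U hgm
  have hg0 : ∀ ω, 0 ≤ ∏ m ∈ U, gu μ ℱ S U (fun _ => 0) pp m ω := fun ω =>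
    Finset.prod_nonneg fun m hm => ((hg m hm).2.1 ω).1
  have hg1 : ∀ ω, ∏ m ∈ U, gu μ ℱ S U (fun _ => 0) pp m ω ≤ 1 := fun ω =>
    Finset.prod_le_one (fun m hm => ((hg m hm).2.1 ω).1) fun m hm => ((hg m hm).2.1 ω).2
  have hi1 : Integrable (fun ω => f ω * (P μ ℱ S H pp n).indicator (fun _ => (1 : ℝ)) ω) μ := by
    refine Integrable.of_bound (hfm.mul (measurable_const.indicator hPm)).aestronglyMeasurable K
      (Eventually.of_forall fun ω => ?_)
    have hK := (hfb ω).1.trans (hfb ω).2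
    by_cases hω : ω ∈ P μ ℱ S H pp n
    · rw [Set.indicator_of_mem hω, mul_one, Real.norm_of_nonneg (hfb ω).1]
      exact (hfb ω).2
    · rw [Set.indicator_of_notMem hω, mul_zero, norm_zero]
      exact hK
  have hi2 : Integrable (fun ω => f ω * ∏ m ∈ U, gu μ ℱ S U (fun _ => 0) pp m ω) μ := by
    refine Integrable.of_bound (hfm.mul hgpm).aestronglyMeasurable K
      (Eventually.of_forall fun ω => ?_)
    rw [Real.norm_of_nonneg (mul_nonneg (hfb ω).1 (hg0 ω))]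
    calc _ ≤ f ω * 1 := mul_le_mul_of_nonneg_left (hg1 ω) (hfb ω).1
      _ ≤ K := by rw [mul_one]; exact (hfb ω).2
  have hcp : ∀ᵐ ω ∂μ, ∀ m ∈ U, 0 ≤ cp μ ℱ S m ω := by
    refine (Finset.eventually_all U).2 fun m _ => ?_
    exact condExp_nonneg (Eventually.of_forall fun ω =>
      Set.indicator_nonneg (fun _ _ => zero_le_one) ω)
  refine integral_mono_ae hi1 hi2 ?_
  filter_upwards [hcp] with ω hω
  by_cases hP : ω ∈ P μ ℱ S H pp n
  · rw [Set.indicator_of_mem hP]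
    refine mul_le_mul_of_nonneg_left (le_of_eq ?_) (hfb ω).1
    refine (Finset.prod_eq_one fun m hm => ?_).symm
    have hall : ∀ k ∈ U, k ≤ m → (0 : ℝ) ≤ cp μ ℱ S k ω ∧ cp μ ℱ S k ω ≤ pp k := by
      intro k hk _
      obtain ⟨h, hh, rfl⟩ := hUm k hk
      exact ⟨hω _ hk, hP.2 h hh⟩
    obtain ⟨h, hh, rfl⟩ := hUm m hm
    unfold gu
    rw [if_pos hall, if_pos (hP.1 h hh)]
  · rw [Set.indicator_of_notMem hP, mul_zero]
    exact mul_nonneg (hfb ω).1 (hg0 ω)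

theorem mean (h1 : s_PRD) (h2 : s_GU) [IsProbabilityMeasure μ]
    (hS : ∀ n, MeasurableSet[ℱ n] (S n)) {lam : ℝ} (hl : 0 ≤ lam) (B : Finset ℕ) :
    (∀ n ∈ B, 1 ≤ n ∧ ∀ n' ∈ B, n' < n → n' + dm H < n) →
    (∀ n ∈ B, ∀ h ∈ H, 0 ≤ pp (n + h) ∧ pp (n + h) ≤ 1) →
    ∫ ω, ∏ n ∈ B, G μ ℱ S H pp lam n ω ∂μ ≤
      ∏ n ∈ B, (1 + (Real.exp lam - 1) * ∏ h ∈ H, pp (n + h)) := by
  have hel : 0 ≤ Real.exp lam - 1 := by linarith [Real.one_le_exp hl]
  induction B using Finset.induction_on_max with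
  | empty =>
    intro _ _
    simp
  | insert a s hmax ih =>
    intro hB hpp
    have ha : a ∉ s := fun h => lt_irrefl _ (hmax a h)
    have ih' := ih (fun n hn => ⟨(hB n (Finset.mem_insert_of_mem hn)).1, fun n' hn' =>
      (hB n (Finset.mem_insert_of_mem hn)).2 n' (Finset.mem_insert_of_mem hn')⟩)
      (fun n hn => hpp n (Finset.mem_insert_of_mem hn))
    have hbd : ∀ ω, 0 ≤ ∏ n ∈ s, G μ ℱ S H pp lam n ω ∧
        ∏ n ∈ s, G μ ℱ S H pp lam n ω ≤ Real.exp lam ^ s.card := by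
      intro ω
      constructor
      · exact Finset.prod_nonneg fun n _ => zero_le_one.trans (G_bd μ ℱ S H pp hl n ω).1
      · calc ∏ n ∈ s, G μ ℱ S H pp lam n ω ≤ ∏ _n ∈ s, Real.exp lam :=
            Finset.prod_le_prod (fun n _ => zero_le_one.trans (G_bd μ ℱ S H pp hl n ω).1)
              fun n _ => (G_bd μ ℱ S H pp hl n ω).2
          _ = _ := by rw [Finset.prod_const]
    have hm : Measurable[ℱ (a - 1)] (fun ω => ∏ n ∈ s, G μ ℱ S H pp lam n ω) := by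
      refine Finset.measurable_fun_prod s fun n hn => meas_G μ ℱ S H pp hS lam fun h hh => ?_
      have h3 := (hB a (Finset.mem_insert_self _ _)).2 n (Finset.mem_insert_of_mem hn) (hmax n hn)
      have h4 : h ≤ dm H := Finset.le_sup (f := id) hh
      omega
    have hm' : Measurable (fun ω => ∏ n ∈ s, G μ ℱ S H pp lam n ω) := hm.mono (ℱ.le _) le_rfl
    have hk := key μ ℱ S H pp h1 h2 hS (hB a (Finset.mem_insert_self _ _)).1
      (hpp a (Finset.mem_insert_self _ _)) (fun ω => ∏ n ∈ s, G μ ℱ S H pp lam n ω)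
      (Real.exp lam ^ s.card) hm.stronglyMeasurable hbd
    have hPm : MeasurableSet (P μ ℱ S H pp a) :=
      ℱ.le (a + H.sup id) _ (meas_P μ ℱ S H pp hS (N := a + H.sup id) fun h hh => by
        have : h ≤ H.sup id := Finset.le_sup (f := id) hh
        omega)
    have hi1 : Integrable (fun ω => ∏ n ∈ s, G μ ℱ S H pp lam n ω) μ := by
      refine Integrable.of_bound hm'.aestronglyMeasurable (Real.exp lam ^ s.card)
        (Eventually.of_forall fun ω => ?_)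
      rw [Real.norm_of_nonneg (hbd ω).1]
      exact (hbd ω).2
    have hi2 : Integrable (fun ω => (∏ n ∈ s, G μ ℱ S H pp lam n ω) *
        (P μ ℱ S H pp a).indicator (fun _ => (1 : ℝ)) ω) μ := by
      refine Integrable.of_bound (hm'.mul (measurable_const.indicator hPm)).aestronglyMeasurable
        (Real.exp lam ^ s.card) (Eventually.of_forall fun ω => ?_)
      by_cases hω : ω ∈ P μ ℱ S H pp a
      · rw [Set.indicator_of_mem hω, mul_one, Real.norm_of_nonneg (hbd ω).1]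
        exact (hbd ω).2
      · rw [Set.indicator_of_notMem hω, mul_zero, norm_zero]
        positivity
    have e1 : ∀ ω, ∏ n ∈ insert a s, G μ ℱ S H pp lam n ω = ∏ n ∈ s, G μ ℱ S H pp lam n ω +
        (Real.exp lam - 1) * ((∏ n ∈ s, G μ ℱ S H pp lam n ω) *
          (P μ ℱ S H pp a).indicator (fun _ => (1 : ℝ)) ω) := by
      intro ω
      rw [Finset.prod_insert ha]
      unfold G
      ring
    simp_rw [e1]
    rw [integral_add hi1 (hi2.const_mul _), integral_const_mul, Finset.prod_insert ha]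
    have hnn : 0 ≤ 1 + (Real.exp lam - 1) * ∏ h ∈ H, pp (a + h) :=
      add_nonneg zero_le_one (mul_nonneg hel (Finset.prod_nonneg fun h hh =>
        (hpp a (Finset.mem_insert_self _ _) h hh).1))
    calc _ ≤ (∫ ω, ∏ n ∈ s, G μ ℱ S H pp lam n ω ∂μ) + (Real.exp lam - 1) *
          ((∏ h ∈ H, pp (a + h)) * ∫ ω, ∏ n ∈ s, G μ ℱ S H pp lam n ω ∂μ) := by
          have := mul_le_mul_of_nonneg_left hk hel
          linarith
      _ = (1 + (Real.exp lam - 1) * ∏ h ∈ H, pp (a + h)) *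
          ∫ ω, ∏ n ∈ s, G μ ℱ S H pp lam n ω ∂μ := by ring
      _ ≤ _ := mul_le_mul_of_nonneg_left ih' hnn

end UTaux

open UTaux in
theorem t_UT (h1 : s_PRD) (h2 : s_GU) : s_UT := by
  classical
  intro Ω mΩ μ _ ℱ S hS H B pp lam K hl hH hB hpp
  have hmean := mean μ ℱ S H pp h1 h2 hS hl B hB hpp
  have hbd : ∀ ω, 0 ≤ ∏ n ∈ B, G μ ℱ S H pp lam n ω ∧
      ∏ n ∈ B, G μ ℱ S H pp lam n ω ≤ Real.exp lam ^ B.card := by
    intro ω
    constructor
    · exact Finset.prod_nonneg fun n _ => zero_le_one.trans (G_bd μ ℱ S H pp hl n ω).1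
    · calc ∏ n ∈ B, G μ ℱ S H pp lam n ω ≤ ∏ _n ∈ B, Real.exp lam :=
          Finset.prod_le_prod (fun n _ => zero_le_one.trans (G_bd μ ℱ S H pp hl n ω).1)
            fun n _ => (G_bd μ ℱ S H pp hl n ω).2
        _ = _ := by rw [Finset.prod_const]
  have hm : Measurable (fun ω => ∏ n ∈ B, G μ ℱ S H pp lam n ω) := by
    refine Finset.measurable_fun_prod B fun n hn => ?_
    refine (meas_G μ ℱ S H pp hS lam (N := n + H.sup id) fun h hh => ?_).mono (ℱ.le _) le_rfl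
    have : h ≤ H.sup id := Finset.le_sup (f := id) hh
    omega
  have hi : Integrable (fun ω => ∏ n ∈ B, G μ ℱ S H pp lam n ω) μ := by
    refine Integrable.of_bound hm.aestronglyMeasurable (Real.exp lam ^ B.card)
      (Eventually.of_forall fun ω => ?_)
    rw [Real.norm_of_nonneg (hbd ω).1]
    exact (hbd ω).2
  have hmk := mul_meas_ge_le_integral_of_nonneg (Eventually.of_forall fun ω => (hbd ω).1) hi
    (Real.exp (lam * K))
  have hsub : {ω | K ≤ ((B.filter (fun n => ∀ h ∈ H, ω ∈ S (n + h))).card : ℝ) ∧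
      ∀ n ∈ B, ∀ h ∈ H, cp μ ℱ S (n + h) ω ≤ pp (n + h)} ⊆
      {ω | Real.exp (lam * K) ≤ ∏ n ∈ B, G μ ℱ S H pp lam n ω} := by
    rintro ω ⟨hω1, hω2⟩
    have e1 : ∏ n ∈ B, G μ ℱ S H pp lam n ω =
        ∏ n ∈ B, if (∀ h ∈ H, ω ∈ S (n + h)) then Real.exp lam else 1 := by
      refine Finset.prod_congr rfl fun n hn => ?_
      unfold G
      by_cases hp : ∀ h ∈ H, ω ∈ S (n + h)
      · have hP : ω ∈ P μ ℱ S H pp n := ⟨hp, hω2 n hn⟩
        rw [Set.indicator_of_mem hP, if_pos hp]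
        ring
      · have hP : ω ∉ P μ ℱ S H pp n := fun h => hp h.1
        rw [Set.indicator_of_notMem hP, if_neg hp]
        ring
    rw [Set.mem_ofPred_eq, e1, Finset.prod_ite, Finset.prod_const, Finset.prod_const_one, mul_one,
      ← Real.exp_nat_mul]
    refine Real.exp_le_exp.2 ?_
    rw [mul_comm]
    exact mul_le_mul_of_nonneg_right hω1 hl
  have hmono : μ.real {ω | K ≤ ((B.filter (fun n => ∀ h ∈ H, ω ∈ S (n + h))).card : ℝ) ∧
      ∀ n ∈ B, ∀ h ∈ H, cp μ ℱ S (n + h) ω ≤ pp (n + h)} ≤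
      μ.real {ω | Real.exp (lam * K) ≤ ∏ n ∈ B, G μ ℱ S H pp lam n ω} :=
    measureReal_mono hsub
  have hep : 0 < Real.exp (lam * K) := Real.exp_pos _
  have hfin : μ.real {ω | Real.exp (lam * K) ≤ ∏ n ∈ B, G μ ℱ S H pp lam n ω} ≤
      Real.exp (-(lam * K)) * ∏ n ∈ B, (1 + (Real.exp lam - 1) * ∏ h ∈ H, pp (n + h)) := by
    rw [Real.exp_neg, inv_mul_eq_div, le_div_iff₀ hep, mul_comm]
    exact hmk.trans hmean
  refine le_trans (le_of_eq ?_) (hmono.trans hfin)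
  congr!

end Pool.Agent.J6H40.KT
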