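import Pool.Agent.J6H40.KT.Final
import Pool.Agent.J6H40.WG2.All
import Pool.Agent.J6H40.KT.CNTH
import Pool.Agent.J6H40.KT.SING
import Pool.Agent.J6H40.KT.CB
import Pool.Agent.J6H40.KT.PRD
import Pool.Agent.J6H40.KT.GU
import Pool.Agent.J6H40.KT.BON
import Pool.Agent.J6H40.KT.U1
import Pool.Agent.J6H40.KT.U2
import Pool.Agent.J6H40.KT.UA
import Pool.Agent.J6H40.KT.PU
import Pool.Agent.J6H40.KT.LW
import Pool.Agent.J6H40.KT.L1
import Pool.Agent.J6H40.KT.L2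
import Pool.Agent.J6H40.KT.LA
import Pool.Agent.J6H40.KT.PL
import Pool.Agent.J6H40.KT.U1F
import Pool.Agent.J6H40.KT.LT
import Pool.Agent.J6H40.KT.UT
import Pool.Agent.J6H40.KT.TL
import Pool.Agent.J6H40.KT.TU
import Pool.Agent.J6H40.KT.TB
import Pool.Agent.J6H40.KT.TN

set_option autoImplicit false

/-!
# Assembly of all modules
-/

open MeasureTheory Filter
open scoped Topology ENNReal

namespace Pool.Agent.J6H40.KT

open Pool.Agent.J6H40.WG2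

theorem a_SING : s_SING := t_SING

theorem a_CB : s_CB := t_CB t_CNTH t_WB

theorem a_GU : s_GU := t_GU t_PULL

theorem a_U2 : s_U2 := t_U2 (t_U1 t_PRD a_GU t_BON)

theorem a_UA : s_UA := t_UA a_U2 a_CB a_DT t_WB

theorem a_PU : s_PU := t_PU a_UA a_GE

theorem a_L2 : s_L2 := t_L2 (t_L1 (t_LW t_PULL) t_PRD)

theorem a_LA : s_LA := t_LA a_L2 a_CB a_DT t_EXP

theorem a_PL : s_PL := t_PL a_LA a_GE

theorem a_LT : s_LT := t_LT (t_U1F t_PRD a_GU t_BON)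

theorem a_TL : s_TL := t_TL a_LT a_CB a_DT t_WB

theorem a_TU : s_TU := t_TU (t_UT t_PRD a_GU) a_CB a_DT

theorem a_TB : s_TB := t_TB a_TL a_TU a_GE

theorem a_TN : s_TN := t_TN

theorem all (H : Finset ℕ) (hH : Admissible H) (z : ℕ → ℕ) (hz : Slow z)
    (σ : ℝ) (hσ : 0 < σ) (hlim : Tendsto (fun m => Sg H (z m)) atTop (𝓝 σ)) {Ω : Type}
    [mΩ : MeasurableSpace Ω] (μ : Measure Ω) [IsProbabilityMeasure μ] (ℱ : Filtration ℕ mΩ)
    (S : ℕ → Set Ω) (hM : IsModel μ ℱ S z) :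
    ∀ᵐ ω ∂μ,
      (∀ ε : ℝ, 0 < ε → ∃ x0 : ℕ, ∀ x y : ℕ, x0 ≤ x → Real.log x ^ (H.card + 2) ≤ y → y ≤ x →
        |(cnt S H ω x y : ℝ) - σ * y / Real.log x ^ H.card| ≤ ε * (σ * y / Real.log x ^ H.card)) ∧
      limsup (fun x : ℕ => gap S H ω x / ENNReal.ofReal (Real.log x ^ (H.card + 1))) atTop =
        ENNReal.ofReal (1 / σ) :=
  final a_PU a_PL a_TB H hH z hz σ hσ hlim μ ℱ S hM

end Pool.Agent.J6H40.KT
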