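import Pool.Agent.J6H40.WG2.Def

set_option autoImplicit false

/-!
# Definitions for the maximal gap law for k-tuples in sequential random models
-/

open MeasureTheory Filter
open scoped Topology

namespace Pool.Agent.J6H40.KT

open Pool.Agent.J6H40.WG2

/-- the number of residue classes mod `q` met by `H` -/
def nu (H : Finset ℕ) (q : ℕ) : ℕ := (H.image (fun h => h % q)).card

/-- `H` is nonempty and covers no full residue system modulo a prime -/
def Admissible (H : Finset ℕ) : Prop := H.Nonempty ∧ ∀ q : ℕ, q.Prime → nu H q < q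

/-- `∏_{q ≤ v} (1 - ν(q)/q)` -/
noncomputable def Pr (H : Finset ℕ) (v : ℕ) : ℝ :=
  ∏ q ∈ (Finset.Icc 1 v).filter Nat.Prime, (1 - (nu H q : ℝ) / q)

/-- the truncated singular series `∏_{q ≤ v} (1 - ν(q)/q) (1 - 1/q)^(-k)` -/
noncomputable def Sg (H : Finset ℕ) (v : ℕ) : ℝ := W v ^ H.card * Pr H v

/-- the largest element of `H` -/
def dm (H : Finset ℕ) : ℕ := H.sup id

/-- all `n + h`, `h ∈ H`, are rough -/
def Adm (z : ℕ → ℕ) (H : Finset ℕ) (n : ℕ) : Prop := ∀ h ∈ H, Rough z (n + h)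

open Classical in
/-- the weight of the position `n` -/
noncomputable def wt (z : ℕ → ℕ) (H : Finset ℕ) (n : ℕ) : ℝ :=
  if Adm z H n then ∏ h ∈ H, W (z (n + h)) else 0

/-- the length of the blocks -/
noncomputable def bl (x : ℕ) : ℕ := ⌊Real.sqrt (Real.log x)⌋₊

open Classical in
/-- weights of the upper part -/
noncomputable def gu {Ω : Type} [mΩ : MeasurableSpace Ω] (μ : Measure Ω) (ℱ : Filtration ℕ mΩ)
    (S : ℕ → Set Ω) (U : Finset ℕ) (pm pp : ℕ → ℝ) (m : ℕ) (ω : Ω) : ℝ :=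
  if (∀ k ∈ U, k ≤ m → pm k ≤ cp μ ℱ S k ω ∧ cp μ ℱ S k ω ≤ pp k) then (if ω ∈ S m then 1 else 0)
  else pm m

open Classical in
/-- weights of the lower part; `C m` is the event that completing a pattern at the time `m` is possible -/
noncomputable def lw {Ω : Type} [mΩ : MeasurableSpace Ω] (μ : Measure Ω) (ℱ : Filtration ℕ mΩ)
    (S : ℕ → Set Ω) (C : ℕ → Set Ω) (U : Finset ℕ) (pp : ℕ → ℝ) (m : ℕ) (ω : Ω) : ℝ :=
  if (∀ k ∈ U, k ≤ m → cp μ ℱ S k ω ≤ pp k) then
    (if ω ∈ C m then (if ω ∈ S m then 0 else (1 - cp μ ℱ S m ω)⁻¹) else 1)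
  else 1

end Pool.Agent.J6H40.KT
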