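import Pool.Agent.J6H40.KT.Stm2

set_option autoImplicit false

/-!
# The final statement from PU, PL, TB, TN
-/

open MeasureTheory Filter
open scoped Topology ENNReal

namespace Pool.Agent.J6H40.KT

open Pool.Agent.J6H40.WG2

/-- the distance from `x` to the next `n > x` such that all `n + h`, `h ∈ H`, are chosen (`∞` if there is none) -/
noncomputable def gap {Ω : Type} (S : ℕ → Set Ω) (H : Finset ℕ) (ω : Ω) (x : ℕ) : ℝ≥0∞ :=
  ⨅ n ∈ {n : ℕ | x < n ∧ ∀ h ∈ H, ω ∈ S (n + h)}, ((n - x : ℕ) : ℝ≥0∞)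

lemma gap_le {Ω : Type} {S : ℕ → Set Ω} {H : Finset ℕ} {ω : Ω} {x : ℕ} {c : ℝ}
    (hx : 2 ≤ x) (h : ∃ n : ℕ, x < n ∧ (n : ℝ) ≤ x + c * Real.log x ^ (H.card + 1) ∧ ∀ h ∈ H, ω ∈ S (n + h)) :
    gap S H ω x / ENNReal.ofReal (Real.log x ^ (H.card + 1)) ≤ ENNReal.ofReal c := by
  have hb : 0 < Real.log x ^ (H.card + 1) := pow_pos (Real.log_pos (by exact_mod_cast hx)) _
  obtain ⟨n, hn1, hn2, hn3⟩ := h
  rw [ENNReal.div_le_iff_le_mul (Or.inl (ENNReal.ofReal_pos.2 hb).ne') (Or.inl ENNReal.ofReal_ne_top)]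
  refine (iInf₂_le n ⟨hn1, hn3⟩).trans ?_
  rw [← ENNReal.ofReal_mul' hb.le, ← ENNReal.ofReal_natCast]
  apply ENNReal.ofReal_le_ofReal
  rw [Nat.cast_sub hn1.le]
  linarith

lemma gap_ge {Ω : Type} {S : ℕ → Set Ω} {H : Finset ℕ} {ω : Ω} {x : ℕ} {c : ℝ}
    (hx : 2 ≤ x) (h : ∀ n : ℕ, x < n → (n : ℝ) ≤ x + c * Real.log x ^ (H.card + 1) → ∃ h ∈ H, ω ∉ S (n + h)) :
    ENNReal.ofReal c ≤ gap S H ω x / ENNReal.ofReal (Real.log x ^ (H.card + 1)) := by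
  have hb : 0 < Real.log x ^ (H.card + 1) := pow_pos (Real.log_pos (by exact_mod_cast hx)) _
  rw [ENNReal.le_div_iff_mul_le (Or.inl (ENNReal.ofReal_pos.2 hb).ne') (Or.inl ENNReal.ofReal_ne_top)]
  refine le_iInf₂ fun n hn => ?_
  obtain ⟨hn1, hn2⟩ := hn
  rw [← ENNReal.ofReal_mul' hb.le, ← ENNReal.ofReal_natCast]
  apply ENNReal.ofReal_le_ofReal
  rw [Nat.cast_sub hn1.le]
  by_contra hc
  push Not at hc
  obtain ⟨j, hj, hj2⟩ := h n hn1 (by linarith)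
  exact hj2 (hn2 j hj)

theorem final (h1 : s_PU) (h2 : s_PL) (h3 : s_TB) (H : Finset ℕ) (hH : Admissible H) (z : ℕ → ℕ) (hz : Slow z)
    (σ : ℝ) (hσ : 0 < σ) (hlim : Tendsto (fun m => Sg H (z m)) atTop (𝓝 σ)) {Ω : Type}
    [mΩ : MeasurableSpace Ω] (μ : Measure Ω) [IsProbabilityMeasure μ] (ℱ : Filtration ℕ mΩ)
    (S : ℕ → Set Ω) (hM : IsModel μ ℱ S z) :
    ∀ᵐ ω ∂μ,
      (∀ ε : ℝ, 0 < ε → ∃ x0 : ℕ, ∀ x y : ℕ, x0 ≤ x → Real.log x ^ (H.card + 2) ≤ y → y ≤ x →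
        |(cnt S H ω x y : ℝ) - σ * y / Real.log x ^ H.card| ≤ ε * (σ * y / Real.log x ^ H.card)) ∧
      limsup (fun x : ℕ => gap S H ω x / ENNReal.ofReal (Real.log x ^ (H.card + 1))) atTop =
        ENNReal.ofReal (1 / σ) := by
  have g1 : ∀ᵐ ω ∂μ, ∀ k : ℕ, ∃ x0 : ℕ, ∀ x : ℕ, x0 ≤ x →
      gap S H ω x / ENNReal.ofReal (Real.log x ^ (H.card + 1)) ≤
        ENNReal.ofReal ((1 + 1 / ((k : ℝ) + 1)) / σ) := by
    rw [ae_all_iff]
    intro k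
    filter_upwards [h1 H hH z hz σ hσ hlim Ω μ ℱ S hM (1 / ((k : ℝ) + 1)) (by positivity)] with ω hω
    obtain ⟨x0, hx0⟩ := hω
    refine ⟨max x0 2, fun x hx => gap_le (le_trans (le_max_right _ _) hx) ?_⟩
    obtain ⟨n, hn1, hn2, hn3⟩ := hx0 x (le_trans (le_max_left _ _) hx)
    refine ⟨n, hn1, ?_, hn3⟩
    rw [div_mul_eq_mul_div]
    exact hn2
  have g2 : ∀ᵐ ω ∂μ, ∀ k : ℕ, ∀ x0 : ℕ, ∃ x : ℕ, x0 ≤ x ∧
      ENNReal.ofReal ((1 - 1 / ((k : ℝ) + 2)) / σ) ≤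
        gap S H ω x / ENNReal.ofReal (Real.log x ^ (H.card + 1)) := by
    rw [ae_all_iff]
    intro k
    have e0 : (0 : ℝ) ≤ k := Nat.cast_nonneg k
    have e1 : 1 / ((k : ℝ) + 2) < 1 := by
      rw [div_lt_one (by positivity)]
      linarith
    filter_upwards [h2 H hH z hz σ hσ hlim Ω μ ℱ S hM (1 / ((k : ℝ) + 2)) (by positivity) e1] with ω hω x0
    obtain ⟨x, hx, h⟩ := hω (max x0 2)
    refine ⟨x, le_trans (le_max_left _ _) hx, gap_ge (le_trans (le_max_right _ _) hx) ?_⟩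
    intro n hn1 hn2
    apply h n hn1
    rw [div_mul_eq_mul_div] at hn2
    exact hn2
  have g3 : ∀ᵐ ω ∂μ, ∀ k : ℕ, ∃ x0 : ℕ, ∀ x y : ℕ, x0 ≤ x → Real.log x ^ (H.card + 2) ≤ y → y ≤ x →
      |(cnt S H ω x y : ℝ) - σ * y / Real.log x ^ H.card| ≤
        (1 / ((k : ℝ) + 1)) * (σ * y / Real.log x ^ H.card) := by
    rw [ae_all_iff]
    intro k
    exact h3 H hH z hz σ hσ hlim Ω μ ℱ S hM (1 / ((k : ℝ) + 1)) (by positivity)
  have t1 : Tendsto (fun k : ℕ => ENNReal.ofReal ((1 + 1 / ((k : ℝ) + 1)) / σ)) atTop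
      (𝓝 (ENNReal.ofReal (1 / σ))) := by
    apply ENNReal.tendsto_ofReal
    have h5 : Tendsto (fun k : ℕ => 1 + 1 / ((k : ℝ) + 1)) atTop (𝓝 (1 + 0)) :=
      Tendsto.add tendsto_const_nhds tendsto_one_div_add_atTop_nhds_zero_nat
    rw [add_zero] at h5
    exact h5.div_const σ
  have t2 : Tendsto (fun k : ℕ => ENNReal.ofReal ((1 - 1 / ((k : ℝ) + 2)) / σ)) atTop
      (𝓝 (ENNReal.ofReal (1 / σ))) := by
    apply ENNReal.tendsto_ofReal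
    have h5 : Tendsto (fun k : ℕ => 1 - 1 / ((k : ℝ) + 2)) atTop (𝓝 (1 - 0)) := by
      apply Tendsto.sub tendsto_const_nhds
      have := (tendsto_one_div_add_atTop_nhds_zero_nat (𝕜 := ℝ)).comp (tendsto_add_atTop_nat 1)
      refine this.congr fun k => ?_
      simp only [Function.comp]
      push_cast
      ring
    rw [sub_zero] at h5
    exact h5.div_const σ
  filter_upwards [g1, g2, g3] with ω k1 k2 k3
  refine ⟨?_, le_antisymm ?_ ?_⟩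
  · intro ε hε
    obtain ⟨k, hk⟩ := exists_nat_one_div_lt hε
    obtain ⟨x0, hx0⟩ := k3 k
    refine ⟨max x0 2, fun x y hx hy1 hy2 => (hx0 x y (le_trans (le_max_left _ _) hx) hy1 hy2).trans ?_⟩
    apply mul_le_mul_of_nonneg_right hk.le
    have h6 : 0 < Real.log x := Real.log_pos (by exact_mod_cast le_trans (le_max_right _ _) hx)
    positivity
  · refine ge_of_tendsto' t1 fun k => ?_
    obtain ⟨x0, hx0⟩ := k1 k
    exact limsup_le_of_le (by isBoundedDefault) (eventually_atTop.2 ⟨x0, hx0⟩)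
  · refine le_of_tendsto' t2 fun k => ?_
    refine le_limsup_of_frequently_le ?_ (by isBoundedDefault)
    rw [frequently_atTop]
    intro x0
    obtain ⟨x, hx, h⟩ := k2 k x0
    exact ⟨x, hx, h⟩

end Pool.Agent.J6H40.KT
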