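import Pool.Agent.J6H40.KT.Stm

set_option autoImplicit false

/-!
# Project KT, module L2: iteration over intervals
-/

open MeasureTheory Filter
open scoped Topology

namespace Pool.Agent.J6H40.KT

open Pool.Agent.J6H40.WG2

theorem L2_meas {Ω : Type} [mΩ : MeasurableSpace Ω] (μ : Measure Ω) (ℱ : Filtration ℕ mΩ)
    (S : ℕ → Set Ω) (hS : ∀ n, MeasurableSet[ℱ n] (S n)) (H : Finset ℕ) (R : ℕ → Finset ℕ)
    (N r : ℕ) (pp : ℕ → ℝ) (hN : ∀ i < r, ∀ n ∈ R i, ∀ h ∈ H, n + h ≤ N) :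
    MeasurableSet[ℱ N] {ω | (∀ i < r, ∃ n ∈ R i, ∀ h ∈ H, ω ∈ S (n + h)) ∧
      ∀ i < r, ∀ n ∈ R i, ∀ h ∈ H, cp μ ℱ S (n + h) ω ≤ pp (n + h)} := by
  have e : {ω | (∀ i < r, ∃ n ∈ R i, ∀ h ∈ H, ω ∈ S (n + h)) ∧
      ∀ i < r, ∀ n ∈ R i, ∀ h ∈ H, cp μ ℱ S (n + h) ω ≤ pp (n + h)} =
      (⋂ i, ⋂ (_ : i < r), ⋃ n ∈ R i, ⋂ h ∈ H, S (n + h)) ∩
      (⋂ i, ⋂ (_ : i < r), ⋂ n ∈ R i, ⋂ h ∈ H, cp μ ℱ S (n + h) ⁻¹' Set.Iic (pp (n + h))) := by
    ext ω
    simp only [Set.mem_ofPred_eq, Set.mem_inter_iff, Set.mem_iInter, Set.mem_iUnion,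
      Set.mem_preimage, Set.mem_Iic, exists_prop]
  rw [e]
  refine MeasurableSet.inter ?_ ?_
  · refine MeasurableSet.iInter fun i => MeasurableSet.iInter fun hi => ?_
    refine Finset.measurableSet_biUnion _ fun n hn => Finset.measurableSet_biInter _ fun h hh => ?_
    exact ℱ.mono (hN i hi n hn h hh) _ (hS (n + h))
  · refine MeasurableSet.iInter fun i => MeasurableSet.iInter fun hi => ?_
    refine Finset.measurableSet_biInter _ fun n hn => Finset.measurableSet_biInter _ fun h hh => ?_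
    have h1 : StronglyMeasurable[ℱ (n + h - 1)] (cp μ ℱ S (n + h)) := stronglyMeasurable_condExp
    have h2 : StronglyMeasurable[ℱ N] (cp μ ℱ S (n + h)) :=
      h1.mono (ℱ.mono ((Nat.sub_le _ _).trans (hN i hi n hn h hh)))
    exact h2.measurable measurableSet_Iic

theorem t_L2 (h1 : s_L1) : s_L2 := by
  intro Ω mΩ μ _ ℱ S hS H R y b r pp η a hH hη
  induction r with
  | zero =>
    intro _ _
    rw [pow_zero]
    exact measureReal_le_one
  | succ r ih =>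
    intro hb ha
    have ihr := ih (fun i hi => hb i (by omega)) (fun i hi => ha i (by omega))
    have hmeas := L2_meas μ ℱ S hS H R (y + r * b) r pp (fun i hi n hn h hh => by
      have h2 := (hb i (by omega) n hn h hh).2.1
      have h3 : (i + 1) * b ≤ r * b := Nat.mul_le_mul_right _ hi
      omega)
    have key := h1 Ω μ ℱ S hS H (R r) (y + r * b) _ pp η hH hη hmeas (fun n hn h hh => by
      obtain ⟨e1, -, e3, e4, e5⟩ := hb r (Nat.lt_succ_self r) n hn h hh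
      exact ⟨e1, e3, e4, e5⟩)
    have hx := ha r (Nat.lt_succ_self r)
    have hx0 : 0 ≤ (1 + η) * ∑ n ∈ R r, ∏ h ∈ H, pp (n + h) := by
      refine mul_nonneg (by linarith) (Finset.sum_nonneg fun n hn => Finset.prod_nonneg fun h hh => ?_)
      exact (hb r (Nat.lt_succ_self r) n hn h hh).2.2.1
    have ha0 : 0 ≤ 1 - Real.exp (-a) := by
      have : Real.exp (-a) ≤ 1 := Real.exp_le_one_iff.2 (by linarith)
      linarith
    have hxa : 1 - Real.exp (-((1 + η) * ∑ n ∈ R r, ∏ h ∈ H, pp (n + h))) ≤ 1 - Real.exp (-a) := by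
      have : Real.exp (-a) ≤ Real.exp (-((1 + η) * ∑ n ∈ R r, ∏ h ∈ H, pp (n + h))) :=
        Real.exp_le_exp.2 (by linarith)
      linarith
    have heq : {ω | (∀ i < r + 1, ∃ n ∈ R i, ∀ h ∈ H, ω ∈ S (n + h)) ∧
        ∀ i < r + 1, ∀ n ∈ R i, ∀ h ∈ H, cp μ ℱ S (n + h) ω ≤ pp (n + h)} =
        {ω | (∀ i < r, ∃ n ∈ R i, ∀ h ∈ H, ω ∈ S (n + h)) ∧
          ∀ i < r, ∀ n ∈ R i, ∀ h ∈ H, cp μ ℱ S (n + h) ω ≤ pp (n + h)} ∩
        {ω | (∃ n ∈ R r, ∀ h ∈ H, ω ∈ S (n + h)) ∧ ∀ n ∈ R r, ∀ h ∈ H,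
          cp μ ℱ S (n + h) ω ≤ pp (n + h)} := by
      ext ω
      constructor
      · rintro ⟨g1, g2⟩
        exact ⟨⟨fun i hi => g1 i (by omega), fun i hi => g2 i (by omega)⟩,
          g1 r (Nat.lt_succ_self r), g2 r (Nat.lt_succ_self r)⟩
      · rintro ⟨⟨g1, g2⟩, g3, g4⟩
        refine ⟨fun i hi => ?_, fun i hi => ?_⟩
        · rcases Nat.lt_succ_iff_lt_or_eq.1 hi with h | rfl
          · exact g1 i h
          · exact g3
        · rcases Nat.lt_succ_iff_lt_or_eq.1 hi with h | rfl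
          · exact g2 i h
          · exact g4
    rw [heq, pow_succ']
    refine key.trans ?_
    refine (mul_le_mul_of_nonneg_right hxa measureReal_nonneg).trans ?_
    exact mul_le_mul_of_nonneg_left ihr ha0

end Pool.Agent.J6H40.KT
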