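import Pool.Agent.J6H40.KT.Def
import Pool.Agent.J6H40.WG2.Stm

set_option autoImplicit false

/-!
# Project KT (MP_d610d0_nt): the maximal gap law for k-tuples in all sequential random models: statements

Every module `XX` is a file `Pool/Agent/J6H40/KT/XX.lean` with `theorem t_XX : s_XX` (or
`theorem t_XX (h1 : s_YY) ... : s_XX` with the statements named in its docstring as hypotheses).
The docstrings contain complete proofs.  The definitions are in `KT/Def.lean` and `WG2/Def.lean`.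
Available from `Pool.Agent.J6H40.WG2` (import the module): `t_PULL : s_PULL`, `t_WB : s_WB`, `t_DT t_WB : s_DT`,
`t_EXP : s_EXP`, `t_GE t_WB : s_GE`.
-/

open MeasureTheory Filter
open scoped Topology

namespace Pool.Agent.J6H40.KT

open Pool.Agent.J6H40.WG2

/-- CNTH (no hypotheses; uses the fundamental lemma `Pool.Agent.TH882.FL.fl1 k`, `k = H.card`; compare the module
`WG2/CNT.lean`, which is the case of one residue class per prime). The number of `n ∈ [u, w)` such that no prime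
`q ≤ v` divides an `n + h`.  `C0` from `fl1`, `b ≥ C0` with `(1/2) ^ b ≤ ε`, `z0 = C0`, `M = ∏` of the primes
`q ≤ min C0 v`, `P` = the primes in `(C0, v]`, `J` minimal with `v ≤ 2 ^ 2 ^ J`.  For `q ∈ P` let
`Om q = {(-h) mod q : h ∈ H}`, which has `nu H q ≤ k` elements.  For every good `r < M` (no prime `q ∣ M` divides
an `r + h`) put `S r = {n ∈ [u, w) : n % M = r}`, `A = (w - u) / M`; the condition of `fl1` holds by the Chinese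
remainder theorem.  Add over the `∏_{q ∣ M} (q - nu H q)` good `r` (induction on the primes dividing `M`).  The main
term is `(w - u) Pr H v`, the error at most `ε (w - u) Pr H v + M (J + 2) (2 ^ 2 ^ J) ^ (2 C0 b)`. -/
def s_CNTH : Prop := ∀ H : Finset ℕ, Admissible H → ∀ ε : ℝ, 0 < ε → ∃ s : ℕ, ∀ v u w : ℕ, u ≤ w →
  |(((Finset.Ico u w).filter (fun n => ∀ q ∈ Finset.Icc 1 v, q.Prime → ∀ h ∈ H, ¬ q ∣ n + h)).card : ℝ)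
    - ((w : ℝ) - u) * Pr H v| ≤ ε * (((w : ℝ) - u) * Pr H v) + ((v : ℝ) + 2) ^ s

/-- SING (no hypotheses). `k = H.card`. For a prime `q > dm H`, `nu H q = k`, and
`f(q) = (1 - k/q) (1 - 1/q)^(-k)` is at most `1` (Bernoulli) and at least `1 - k² 2^k / q²` (from
`(1 - 1/q)^k ≤ 1 - k/q + k²/(2q²)` and `(1 - 1/q)^(-k) ≤ 2^k`).  So `Sg H v` is antitone for `v ≥ dm H`, positive,
and bounded below by a positive constant (`∏_{q > q0} (1 - C/q²) ≥ 1 - ∑_{q > q0} C/q² ≥ 1 - C/q0 ≥ 1/2`, the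
finitely many other factors are positive), hence it has a positive limit.  If `z` is monotone, it is either
eventually constant or tends to infinity. -/
def s_SING : Prop := ∀ H : Finset ℕ, Admissible H → (∀ v, 0 < Sg H v) ∧
  ∀ z : ℕ → ℕ, Monotone z → ∃ σ : ℝ, 0 < σ ∧ Tendsto (fun m => Sg H (z m)) atTop (𝓝 σ)

/-- CB (hypotheses `s_CNTH`, `s_WB`). Counting in blocks of length `b = bl x ~ √(log x)`. `V = z (x² + b + dm H)`,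
which is at most `(3 log x) ^ δ` for every `δ > 0` and large `x`.  Split the block `(y, y + b]` according to the value
`v = z n` (intervals, at most `V + 1` of them).  Positions `n` with `z n ≠ z (n + dm H)` are at most
`dm H (V + 1)` many with `0 ≤ wt ≤ (V + 1)^k` (`W v ≤ v + 1`).  For the others `wt z H n = W v ^ k` if no prime
`q ≤ v` divides an `n + h`, else `0`; CNTH on the intervals gives `∑ wt = ∑_v len_v Sg H v (1 ± ε) ± (V + 2)^s'`,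
and `Sg H v = σ ± ε` for all `v = z n`, `n ≥ x` large.  The errors `(V + 2)^s'` are at most `ε b`. -/
def s_CB : Prop := ∀ (H : Finset ℕ), Admissible H → ∀ z : ℕ → ℕ, Slow z → ∀ σ : ℝ, 0 < σ →
  Tendsto (fun m => Sg H (z m)) atTop (𝓝 σ) → ∀ ε : ℝ, 0 < ε → ∀ᶠ x : ℕ in atTop,
    ∀ y : ℕ, x ≤ y → y ≤ x ^ 2 →
      |∑ n ∈ Finset.Ioc y (y + bl x), wt z H n - σ * (bl x : ℝ)| ≤ ε * (bl x : ℝ) ∧
      |∑ n ∈ Finset.Ioc y (y + bl x - dm H), wt z H n - σ * (bl x : ℝ)| ≤ ε * (bl x : ℝ)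

/-- PRD (no hypotheses). Induction on `T` by `Finset.induction_on_max` (for the largest element `M` use
`f = f0 ∏_{T'} g`, which is nonnegative, bounded and `ℱ (M - 1)`-measurable, `y ≤ M - 1`). -/
def s_PRD : Prop := ∀ (Ω : Type) [mΩ : MeasurableSpace Ω] (μ : Measure Ω) [IsProbabilityMeasure μ]
  (ℱ : Filtration ℕ mΩ) (g : ℕ → Ω → ℝ) (c : ℕ → ℝ) (T : Finset ℕ) (y : ℕ) (f0 : Ω → ℝ) (K : ℝ),
  StronglyMeasurable[ℱ y] f0 → (∀ ω, 0 ≤ f0 ω ∧ f0 ω ≤ K) →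
  (∀ m ∈ T, y < m ∧ StronglyMeasurable[ℱ m] (g m) ∧ (∀ ω, 0 ≤ g m ω ∧ g m ω ≤ 2) ∧ 0 ≤ c m) →
  ((∀ m ∈ T, ∀ f : Ω → ℝ, StronglyMeasurable[ℱ (m - 1)] f → (∀ ω, 0 ≤ f ω) → (∃ C : ℝ, ∀ ω, f ω ≤ C) →
      ∫ ω, f ω * g m ω ∂μ ≤ c m * ∫ ω, f ω ∂μ) →
    ∫ ω, f0 ω * ∏ m ∈ T, g m ω ∂μ ≤ (∏ m ∈ T, c m) * ∫ ω, f0 ω ∂μ) ∧
  ((∀ m ∈ T, ∀ f : Ω → ℝ, StronglyMeasurable[ℱ (m - 1)] f → (∀ ω, 0 ≤ f ω) → (∃ C : ℝ, ∀ ω, f ω ≤ C) →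
      c m * ∫ ω, f ω ∂μ ≤ ∫ ω, f ω * g m ω ∂μ) →
    (∏ m ∈ T, c m) * ∫ ω, f0 ω ∂μ ≤ ∫ ω, f0 ω * ∏ m ∈ T, g m ω ∂μ)

/-- GU (hypothesis `s_PULL`). With `V = {∀ k ∈ U, k ≤ m → pm k ≤ cp k ω ≤ pp k}` (`ℱ (m - 1)`-measurable),
`gu = 1_V 1_{S m} + 1_{Vᶜ} pm m`, so `∫ f gu = ∫ f 1_V cp m + pm m ∫ f 1_{Vᶜ}` by PULL. -/
def s_GU : Prop := ∀ (Ω : Type) [mΩ : MeasurableSpace Ω] (μ : Measure Ω) [IsProbabilityMeasure μ]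
  (ℱ : Filtration ℕ mΩ) (S : ℕ → Set Ω), (∀ n, MeasurableSet[ℱ n] (S n)) →
  ∀ (U : Finset ℕ) (pm pp : ℕ → ℝ), (∀ m ∈ U, 1 ≤ m ∧ 0 ≤ pm m ∧ pm m ≤ pp m ∧ pp m ≤ 1) → ∀ m ∈ U,
    StronglyMeasurable[ℱ m] (gu μ ℱ S U pm pp m) ∧
    (∀ ω, 0 ≤ gu μ ℱ S U pm pp m ω ∧ gu μ ℱ S U pm pp m ω ≤ 1) ∧
    (∀ f : Ω → ℝ, StronglyMeasurable[ℱ (m - 1)] f → (∀ ω, 0 ≤ f ω) → (∃ C : ℝ, ∀ ω, f ω ≤ C) →
      pm m * ∫ ω, f ω ∂μ ≤ ∫ ω, f ω * gu μ ℱ S U pm pp m ω ∂μ ∧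
      ∫ ω, f ω * gu μ ℱ S U pm pp m ω ∂μ ≤ pp m * ∫ ω, f ω ∂μ)

/-- BON (no hypotheses). Bonferroni: `∑ Z - ∑_{i < j} Z_i Z_j ≤ 1 - ∏ (1 - Z) ≤ 1` by induction on `B` (each
unordered pair is counted twice here, which is weaker). -/
def s_BON : Prop := ∀ (B : Finset ℕ) (Z : ℕ → ℝ), (∀ n ∈ B, 0 ≤ Z n ∧ Z n ≤ 1) →
  ∑ n ∈ B, Z n - ∑ p ∈ B.offDiag, Z p.1 * Z p.2 ≤ 1

/-- U1 (hypotheses `s_PRD`, `s_GU`, `s_BON`). `U = ⋃_{n ∈ B} (n + H)`, `g m = gu μ ℱ S U pm pp m`,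
`Z n = ∏_{h ∈ H} g (n + h) ∈ [0, 1]`.  On the event all `Z n = 0`, so everywhere
`1 - 1_event ≥ ∑ Z n - ∑_{offDiag} Z n Z n'` (BON, both cases).  Multiply by `1_A` and integrate;
`∫ 1_A Z n ≥ ∏ pm μ(A)` and, as `g² ≤ g`, `Z n Z n' ≤ ∏_{m ∈ (n + H) ∪ (n' + H)} g m`, whose integral over `A` is at
most `∏ pp μ(A)` (PRD with `f0 = 1_A`). -/
def s_U1 : Prop := ∀ (Ω : Type) [mΩ : MeasurableSpace Ω] (μ : Measure Ω) [IsProbabilityMeasure μ]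
  (ℱ : Filtration ℕ mΩ) (S : ℕ → Set Ω), (∀ n, MeasurableSet[ℱ n] (S n)) →
  ∀ (H B : Finset ℕ) (y : ℕ) (A : Set Ω) (pm pp : ℕ → ℝ), MeasurableSet[ℱ y] A →
    (∀ n ∈ B, ∀ h ∈ H, y < n + h ∧ 0 ≤ pm (n + h) ∧ pm (n + h) ≤ pp (n + h) ∧ pp (n + h) ≤ 1) →
    μ.real (A ∩ {ω | (∀ n ∈ B, ∃ h ∈ H, ω ∉ S (n + h)) ∧ ∀ n ∈ B, ∀ h ∈ H,
        pm (n + h) ≤ cp μ ℱ S (n + h) ω ∧ cp μ ℱ S (n + h) ω ≤ pp (n + h)}) ≤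
      (1 - ∑ n ∈ B, ∏ h ∈ H, pm (n + h) +
        ∑ p ∈ B.offDiag, ∏ m ∈ H.image (fun h => p.1 + h) ∪ H.image (fun h => p.2 + h), pp m) * μ.real A

/-- U2 (hypothesis `s_U1`). Induction on `r`: the event for `r + 1` is contained in `A ∩ {event of the block r}`,
where `A`, the event for `r`, is `ℱ (y + r b)`-measurable (all times are `≤ y + r b`). -/
def s_U2 : Prop := ∀ (Ω : Type) [mΩ : MeasurableSpace Ω] (μ : Measure Ω) [IsProbabilityMeasure μ]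
  (ℱ : Filtration ℕ mΩ) (S : ℕ → Set Ω), (∀ n, MeasurableSet[ℱ n] (S n)) →
  ∀ (H : Finset ℕ) (B : ℕ → Finset ℕ) (y b r : ℕ) (pm pp : ℕ → ℝ) (ρ : ℝ), ρ ≤ 1 →
    (∀ i < r, ∀ n ∈ B i, ∀ h ∈ H, y + i * b < n + h ∧ n + h ≤ y + (i + 1) * b ∧
      0 ≤ pm (n + h) ∧ pm (n + h) ≤ pp (n + h) ∧ pp (n + h) ≤ 1) →
    (∀ i < r, 1 - ∑ n ∈ B i, ∏ h ∈ H, pm (n + h) +
        ∑ p ∈ (B i).offDiag, ∏ m ∈ H.image (fun h => p.1 + h) ∪ H.image (fun h => p.2 + h), pp m ≤ 1 - ρ) →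
    μ.real {ω | (∀ i < r, ∀ n ∈ B i, ∃ h ∈ H, ω ∉ S (n + h)) ∧ ∀ i < r, ∀ n ∈ B i, ∀ h ∈ H,
        pm (n + h) ≤ cp μ ℱ S (n + h) ω ∧ cp μ ℱ S (n + h) ω ≤ pp (n + h)} ≤ (1 - ρ) ^ r

/-- UA (hypotheses `s_U2`, `s_CB`, `s_DT`, `s_WB`). `k = H.card`, `L = (1 + ε) (log x)^(k+1) / σ`, `b = bl x`,
`r = ⌊L / b⌋`, `B i` = the positions `n ∈ (x + i b, x + (i+1) b - dm H]` with `Adm z H n`,
`pm m = (1 - κ) W (z m) / log m`, `pp m = (1 + κ) W (z m) / log m`.  All times are in `[x, 2x]`.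
`∑_{B i} ∏ pm ≥ (1 - κ)^k (log (2x))^(-k) ∑ wt ≥ (1 - κ)^k (1 - ε') σ b (log (2x))^(-k)` by CB; for a pair
`n ≠ n'` the union has at least `k + 1` elements, so the second sum is at most
`b² ((1 + κ) (V + 1) / log x)^(k+1)`, `V = z (2x)`, which is at most `ε' σ b (log x)^(-k)` as `b ≤ √(log x)` and
`V = (log x)^o(1)`.  So `ρ = (1 - ε'') σ b (log x)^(-k)` is allowed, and
`(1 - ρ)^r ≤ exp (- r ρ) ≤ exp (- (1 + ε/2) log x)` if `κ, ε'` are small in terms of `ε, k`. -/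
def s_UA : Prop := ∀ (H : Finset ℕ), Admissible H → ∀ z : ℕ → ℕ, Slow z → ∀ σ : ℝ, 0 < σ →
  Tendsto (fun m => Sg H (z m)) atTop (𝓝 σ) → ∀ (Ω : Type) [mΩ : MeasurableSpace Ω] (μ : Measure Ω)
  [IsProbabilityMeasure μ] (ℱ : Filtration ℕ mΩ) (S : ℕ → Set Ω), (∀ n, MeasurableSet[ℱ n] (S n)) →
  ∀ ε : ℝ, 0 < ε → ∃ κ : ℝ, 0 < κ ∧ ∀ᶠ x : ℕ in atTop, ∀ N : ℕ, N ≤ x →
    μ.real {ω | (∀ n : ℕ, x < n → (n : ℝ) ≤ x + (1 + ε) * Real.log x ^ (H.card + 1) / σ →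
        ∃ h ∈ H, ω ∉ S (n + h)) ∧ ω ∈ Lo μ ℱ S z κ N ∧ ω ∈ Up μ ℱ S z κ N} ≤ (x : ℝ) ^ (-(1 + ε / 2))

/-- PU (hypotheses `s_UA`, `s_GE`). Borel–Cantelli over the integers `x` for every `N`; GE gives `N`. -/
def s_PU : Prop := ∀ (H : Finset ℕ), Admissible H → ∀ z : ℕ → ℕ, Slow z → ∀ σ : ℝ, 0 < σ →
  Tendsto (fun m => Sg H (z m)) atTop (𝓝 σ) → ∀ (Ω : Type) [mΩ : MeasurableSpace Ω] (μ : Measure Ω)
  [IsProbabilityMeasure μ] (ℱ : Filtration ℕ mΩ) (S : ℕ → Set Ω), IsModel μ ℱ S z →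
  ∀ ε : ℝ, 0 < ε → ∀ᵐ ω ∂μ, ∃ x0 : ℕ, ∀ x : ℕ, x0 ≤ x →
    ∃ n : ℕ, x < n ∧ (n : ℝ) ≤ x + (1 + ε) * Real.log x ^ (H.card + 1) / σ ∧ ∀ h ∈ H, ω ∈ S (n + h)

/-- LW (hypothesis `s_PULL`). `V = {∀ k ∈ U, k ≤ m → cp k ω ≤ pp k}` and `C m` are `ℱ (m - 1)`-measurable.
`lw = 1_{(V ∩ C)ᶜ} + 1_{V ∩ C} (1 - 1_{S m}) (1 - cp m)⁻¹`, and `lw 1_{S m} 1_V = 1_{S m} 1_V 1_{Cᶜ}`; PULL. -/
def s_LW : Prop := ∀ (Ω : Type) [mΩ : MeasurableSpace Ω] (μ : Measure Ω) [IsProbabilityMeasure μ]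
  (ℱ : Filtration ℕ mΩ) (S : ℕ → Set Ω), (∀ n, MeasurableSet[ℱ n] (S n)) →
  ∀ (C : ℕ → Set Ω) (U : Finset ℕ) (pp : ℕ → ℝ),
    (∀ m ∈ U, 1 ≤ m ∧ 0 ≤ pp m ∧ pp m ≤ 1 / 2 ∧ MeasurableSet[ℱ (m - 1)] (C m)) → ∀ m ∈ U,
    StronglyMeasurable[ℱ m] (lw μ ℱ S C U pp m) ∧
    (∀ ω, 0 ≤ lw μ ℱ S C U pp m ω ∧ lw μ ℱ S C U pp m ω ≤ 2) ∧
    (∀ f : Ω → ℝ, StronglyMeasurable[ℱ (m - 1)] f → (∀ ω, 0 ≤ f ω) → (∃ K : ℝ, ∀ ω, f ω ≤ K) →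
      ∫ ω, f ω * lw μ ℱ S C U pp m ω ∂μ = ∫ ω, f ω ∂μ ∧
      ∫ ω, f ω * (lw μ ℱ S C U pp m ω * (S m ∩ {ω | ∀ k ∈ U, k ≤ m → cp μ ℱ S k ω ≤ pp k}).indicator
        (fun _ => (1 : ℝ)) ω) ∂μ ≤ pp m * ∫ ω, f ω ∂μ)

/-- L1 (hypotheses `s_LW`, `s_PRD`). `D = dm H`, `U = ⋃_{n ∈ R} (n + H)`, for `m ∈ U` let
`C m = {ω : D ≤ m, m - D ∈ R and ω ∈ S (m - D + h) for all h ∈ H, h < D}` (`ℱ (m - 1)`-measurable),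
`w m = lw μ ℱ S C U pp m`, `M = ∏_{m ∈ U} w m`, so `∫ 1_A M = μ(A)` (PRD both parts with `c = 1`).  Let
`F` be the event and `V m = {∀ k ∈ U, k ≤ m → cp k ω ≤ pp k}`.  On `F` one has `M = 0`: if the pattern at `n ∈ R` is
chosen and all bounds hold, then `w (n + D) = 0`.  Let `Y = ∑_{m ∈ U} (1 + η) pp m 1_{C m ∩ V m}`; then `M ≤ e^Y`
(`(1 - cp)⁻¹ ≤ (1 - pp)⁻¹ ≤ exp ((1 + η) pp)`).  With `a = (1 + η) ∑_{n ∈ R} ∏_{h ∈ H} pp (n + h)` we have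
everywhere `1_{Fᶜ} ≥ M e^(-Y) ≥ M e^(-a) (1 + a - Y)` (on `F` both sides are `0`), so
`μ (A \ F) ≥ e^(-a) ((1 + a) μ(A) - ∫ 1_A M Y)`.  Finally
`∫ 1_A M 1_{C m ∩ V m} = ∫ 1_A ∏_{j ∈ U, j < m} w j 1_{C m ∩ V m}` (PRD from the time `m - 1` on, or PRD with `≤`)
`≤ ∫ 1_A ∏_{j ∈ U, j < m} w' j ≤ ∏_{h ∈ H, h < D} pp (n + h) μ(A)`, `n = m - D ∈ R`, where `w' j = w j 1_{S j ∩ V j}`
for `j = n + h` and `w' j = w j` otherwise (LW and PRD).  So `∫ 1_A M Y ≤ a μ(A)` and `μ (A \ F) ≥ e^(-a) μ(A)`. -/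
def s_L1 : Prop := ∀ (Ω : Type) [mΩ : MeasurableSpace Ω] (μ : Measure Ω) [IsProbabilityMeasure μ]
  (ℱ : Filtration ℕ mΩ) (S : ℕ → Set Ω), (∀ n, MeasurableSet[ℱ n] (S n)) →
  ∀ (H R : Finset ℕ) (y : ℕ) (A : Set Ω) (pp : ℕ → ℝ) (η : ℝ), H.Nonempty → 0 < η → MeasurableSet[ℱ y] A →
    (∀ n ∈ R, ∀ h ∈ H, y < n + h ∧ 0 ≤ pp (n + h) ∧ pp (n + h) ≤ 1 / 2 ∧
      Real.exp (-((1 + η) * pp (n + h))) ≤ 1 - pp (n + h)) →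
    μ.real (A ∩ {ω | (∃ n ∈ R, ∀ h ∈ H, ω ∈ S (n + h)) ∧ ∀ n ∈ R, ∀ h ∈ H,
        cp μ ℱ S (n + h) ω ≤ pp (n + h)}) ≤
      (1 - Real.exp (-((1 + η) * ∑ n ∈ R, ∏ h ∈ H, pp (n + h)))) * μ.real A

/-- L2 (hypothesis `s_L1`). Induction on `r` as in U2. -/
def s_L2 : Prop := ∀ (Ω : Type) [mΩ : MeasurableSpace Ω] (μ : Measure Ω) [IsProbabilityMeasure μ]
  (ℱ : Filtration ℕ mΩ) (S : ℕ → Set Ω), (∀ n, MeasurableSet[ℱ n] (S n)) →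
  ∀ (H : Finset ℕ) (R : ℕ → Finset ℕ) (y b r : ℕ) (pp : ℕ → ℝ) (η a : ℝ), H.Nonempty → 0 < η →
    (∀ i < r, ∀ n ∈ R i, ∀ h ∈ H, y + i * b < n + h ∧ n + h ≤ y + (i + 1) * b ∧
      0 ≤ pp (n + h) ∧ pp (n + h) ≤ 1 / 2 ∧ Real.exp (-((1 + η) * pp (n + h))) ≤ 1 - pp (n + h)) →
    (∀ i < r, (1 + η) * ∑ n ∈ R i, ∏ h ∈ H, pp (n + h) ≤ a) →
    μ.real {ω | (∀ i < r, ∃ n ∈ R i, ∀ h ∈ H, ω ∈ S (n + h)) ∧ ∀ i < r, ∀ n ∈ R i, ∀ h ∈ H,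
        cp μ ℱ S (n + h) ω ≤ pp (n + h)} ≤ (1 - Real.exp (-a)) ^ r

/-- LA (hypotheses `s_L2`, `s_CB`, `s_DT`, `s_EXP`). `k = H.card`, `β = bl X`, and the interval length `b = t β`,
`t` an integer with `(1 - ε) (log (2X))^(k+1) / σ + dm H + 1 ≤ b ≤ (1 - ε/2) (log X)^(k+1) / σ` (large `X`);
`y = X`, `r = ⌊X / b⌋`, `R i` = the positions `n ∈ (X + i b, X + (i+1) b - dm H]` with `Adm z H n`,
`pp m = (1 + κ) W (z m) / log m`, `η = κ` in EXP.  By CB (on `t` consecutive blocks of length `β`)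
`∑_{R i} ∏ pp ≤ (1 + κ)^k (log X)^(-k) (1 + ε') σ b`, so `a = (1 - ε/4) log X` is allowed if `κ, ε'` are small.
Hence the probability is at most `(1 - X^(-(1 - ε/4)))^r ≤ exp (- r X^(-(1 - ε/4))) ≤ exp (- X^(ε/8))`.  The event of
LA is contained in that of L2: for `x = X + i b` the pattern `n` with `x < n ≤ x + (1 - ε)(log x)^(k+1) / σ` has
`n ≤ X + (i + 1) b - dm H`, and `Adm z H n` by `sieved`. -/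
def s_LA : Prop := ∀ (H : Finset ℕ), Admissible H → ∀ z : ℕ → ℕ, Slow z → ∀ σ : ℝ, 0 < σ →
  Tendsto (fun m => Sg H (z m)) atTop (𝓝 σ) → ∀ (Ω : Type) [mΩ : MeasurableSpace Ω] (μ : Measure Ω)
  [IsProbabilityMeasure μ] (ℱ : Filtration ℕ mΩ) (S : ℕ → Set Ω), IsModel μ ℱ S z →
  ∀ ε : ℝ, 0 < ε → ε < 1 → ∃ κ : ℝ, 0 < κ ∧ ∀ᶠ X : ℕ in atTop, ∀ N : ℕ, N ≤ X →
    μ.real {ω | (∀ x : ℕ, X ≤ x → x ≤ 2 * X → ∃ n : ℕ, x < n ∧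
        (n : ℝ) ≤ x + (1 - ε) * Real.log x ^ (H.card + 1) / σ ∧ ∀ h ∈ H, ω ∈ S (n + h)) ∧
      ω ∈ Up μ ℱ S z κ N} ≤ Real.exp (-(X : ℝ) ^ (ε / 8))

/-- PL (hypotheses `s_LA`, `s_GE`). For every `x0` and `N` the event {for all `x ≥ x0` there is such an `n`} ∩ `Up N`
has probability at most `exp (- X^(ε/8))` for every large `X`, so `0`. -/
def s_PL : Prop := ∀ (H : Finset ℕ), Admissible H → ∀ z : ℕ → ℕ, Slow z → ∀ σ : ℝ, 0 < σ →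
  Tendsto (fun m => Sg H (z m)) atTop (𝓝 σ) → ∀ (Ω : Type) [mΩ : MeasurableSpace Ω] (μ : Measure Ω)
  [IsProbabilityMeasure μ] (ℱ : Filtration ℕ mΩ) (S : ℕ → Set Ω), IsModel μ ℱ S z →
  ∀ ε : ℝ, 0 < ε → ε < 1 → ∀ᵐ ω ∂μ, ∀ x0 : ℕ, ∃ x : ℕ, x0 ≤ x ∧
    ∀ n : ℕ, x < n → (n : ℝ) ≤ x + (1 - ε) * Real.log x ^ (H.card + 1) / σ → ∃ h ∈ H, ω ∉ S (n + h)

end Pool.Agent.J6H40.KT
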