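import Pool.Agent.J6H40.KT.Stm

set_option autoImplicit false

/-!
# Project KT, second part: the Hardy–Littlewood law in short intervals in all sequential random models

Same conventions as in `KT/Stm.lean`.
-/

open MeasureTheory Filter
open scoped Topology

namespace Pool.Agent.J6H40.KT

open Pool.Agent.J6H40.WG2

open Classical in
/-- the number of `n ∈ (x, x + y]` such that all `n + h` are chosen -/
noncomputable def cnt {Ω : Type} (S : ℕ → Set Ω) (H : Finset ℕ) (ω : Ω) (x y : ℕ) : ℕ :=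
  ((Finset.Ioc x (x + y)).filter (fun n => ∀ h ∈ H, ω ∈ S (n + h))).card

/-- U1F (hypotheses `s_PRD`, `s_GU`, `s_BON`). The version of U1 for functions, with the same proof
(U1 is the case `f0 = 1_A`): `U = ⋃_{n ∈ B} (n + H)`, `g m = gu μ ℱ S U pm pp m`,
`Z n = ∏_{h ∈ H} g (n + h) ∈ [0, 1]`, everywhere `1 - 1_event ≥ ∑ Z n - ∑_{offDiag} Z n Z n'` (BON); multiply by
`f0`, integrate, and use PRD (`Z n Z n' ≤ ∏_{m ∈ (n + H) ∪ (n' + H)} g m`). -/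
def s_U1F : Prop := ∀ (Ω : Type) [mΩ : MeasurableSpace Ω] (μ : Measure Ω) [IsProbabilityMeasure μ]
  (ℱ : Filtration ℕ mΩ) (S : ℕ → Set Ω), (∀ n, MeasurableSet[ℱ n] (S n)) →
  ∀ (H B : Finset ℕ) (y : ℕ) (f0 : Ω → ℝ) (K : ℝ) (pm pp : ℕ → ℝ), StronglyMeasurable[ℱ y] f0 →
    (∀ ω, 0 ≤ f0 ω ∧ f0 ω ≤ K) →
    (∀ n ∈ B, ∀ h ∈ H, y < n + h ∧ 0 ≤ pm (n + h) ∧ pm (n + h) ≤ pp (n + h) ∧ pp (n + h) ≤ 1) →
    ∫ ω, f0 ω * ({ω | (∀ n ∈ B, ∃ h ∈ H, ω ∉ S (n + h)) ∧ ∀ n ∈ B, ∀ h ∈ H,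
        pm (n + h) ≤ cp μ ℱ S (n + h) ω ∧ cp μ ℱ S (n + h) ω ≤ pp (n + h)}).indicator
          (fun _ => (1 : ℝ)) ω ∂μ ≤
      (1 - ∑ n ∈ B, ∏ h ∈ H, pm (n + h) +
        ∑ p ∈ B.offDiag, ∏ m ∈ H.image (fun h => p.1 + h) ∪ H.image (fun h => p.2 + h), pp m) *
      ∫ ω, f0 ω ∂μ

open Classical in
/-- LT (hypothesis `s_U1F`). Lower tail.  Let `X i = 1` if the block `i` contains a chosen pattern, and `V i` the
event that the bounds hold in the block `i`.  By induction on `r`,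
`∫ ∏_{i < r} e^(-λ X i) 1_{V i} ≤ (1 - (1 - e^(-λ)) ρ)^r`: with `f` = the product for `r`
(`ℱ (y + r b)`-measurable) and `e^(-λ X) 1_V ≤ e^(-λ) + (1 - e^(-λ)) 1_{X = 0} 1_V` this is U1F.  Then Markov's
inequality: on the event the product is at least `e^(-λ K)`. -/
def s_LT : Prop := ∀ (Ω : Type) [mΩ : MeasurableSpace Ω] (μ : Measure Ω) [IsProbabilityMeasure μ]
  (ℱ : Filtration ℕ mΩ) (S : ℕ → Set Ω), (∀ n, MeasurableSet[ℱ n] (S n)) →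
  ∀ (H : Finset ℕ) (B : ℕ → Finset ℕ) (y b r : ℕ) (pm pp : ℕ → ℝ) (ρ lam K : ℝ), 0 ≤ ρ → ρ ≤ 1 → 0 ≤ lam →
    (∀ i < r, ∀ n ∈ B i, ∀ h ∈ H, y + i * b < n + h ∧ n + h ≤ y + (i + 1) * b ∧
      0 ≤ pm (n + h) ∧ pm (n + h) ≤ pp (n + h) ∧ pp (n + h) ≤ 1) →
    (∀ i < r, 1 - ∑ n ∈ B i, ∏ h ∈ H, pm (n + h) +
        ∑ p ∈ (B i).offDiag, ∏ m ∈ H.image (fun h => p.1 + h) ∪ H.image (fun h => p.2 + h), pp m ≤ 1 - ρ) →
    μ.real {ω | (((Finset.range r).filter (fun i => ∃ n ∈ B i, ∀ h ∈ H, ω ∈ S (n + h))).card : ℝ) ≤ K ∧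
      ∀ i < r, ∀ n ∈ B i, ∀ h ∈ H,
        pm (n + h) ≤ cp μ ℱ S (n + h) ω ∧ cp μ ℱ S (n + h) ω ≤ pp (n + h)} ≤
      Real.exp (lam * K) * (1 - (1 - Real.exp (-lam)) * ρ) ^ r

open Classical in
/-- UT (hypotheses `s_PRD`, `s_GU`). Upper tail for separated positions.  By `Finset.induction_on_max` on `B`,
`∫ ∏_{n ∈ B} (1 + (e^lam - 1) 1_{pattern at n}) 1_V ≤ ∏_{n ∈ B} (1 + (e^lam - 1) ∏_h pp (n + h))`, `V` = the bounds: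
for the largest `n` the product `f` over the smaller positions (with their bounds) is measurable with respect to
`ℱ (n - 1)`, as `n' + dm H < n` (all `n ≥ 1` here), and `∫ f 1_{pattern at n} 1_V ≤ ∏_h pp (n + h) ∫ f` by PRD and GU
with `U = n + H`, `pm = 0`
(`cp ≥ 0` almost everywhere).  Then Markov's inequality. -/
def s_UT : Prop := ∀ (Ω : Type) [mΩ : MeasurableSpace Ω] (μ : Measure Ω) [IsProbabilityMeasure μ]
  (ℱ : Filtration ℕ mΩ) (S : ℕ → Set Ω), (∀ n, MeasurableSet[ℱ n] (S n)) →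
  ∀ (H B : Finset ℕ) (pp : ℕ → ℝ) (lam K : ℝ), 0 ≤ lam → H.Nonempty →
    (∀ n ∈ B, 1 ≤ n ∧ ∀ n' ∈ B, n' < n → n' + dm H < n) →
    (∀ n ∈ B, ∀ h ∈ H, 0 ≤ pp (n + h) ∧ pp (n + h) ≤ 1) →
    μ.real {ω | K ≤ ((B.filter (fun n => ∀ h ∈ H, ω ∈ S (n + h))).card : ℝ) ∧
      ∀ n ∈ B, ∀ h ∈ H, cp μ ℱ S (n + h) ω ≤ pp (n + h)} ≤
      Real.exp (-(lam * K)) * ∏ n ∈ B, (1 + (Real.exp lam - 1) * ∏ h ∈ H, pp (n + h))

/-- TL (hypotheses `s_LT`, `s_CB`, `s_DT`, `s_WB`). `k = H.card`, `M = σ y / (log x)^k ≥ σ (log x)²`, `b = bl x`,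
`r = ⌊y / b⌋`, `B i` = the positions `n ∈ (x + i b, x + (i+1) b - dm H]` with `Adm z H n`, `pm`, `pp` and
`ρ = (1 - ε/4) σ b / (log x)^k` as in UA (same verification; all times are in `[x, 2x]`).  The count is at least the
number of blocks containing a pattern, `r ρ ≥ (1 - ε/3) M`.  With `K = (1 - ε) M`, `lam = ε / 2`,
`1 - e^(-lam) ≥ lam (1 - lam/2)`, the bound of LT is at most
`exp (lam (1 - ε) M - lam (1 - ε/4)(1 - ε/3) M) ≤ exp (- lam (5 ε / 12) M)`. -/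
def s_TL : Prop := ∀ (H : Finset ℕ), Admissible H → ∀ z : ℕ → ℕ, Slow z → ∀ σ : ℝ, 0 < σ →
  Tendsto (fun m => Sg H (z m)) atTop (𝓝 σ) → ∀ (Ω : Type) [mΩ : MeasurableSpace Ω] (μ : Measure Ω)
  [IsProbabilityMeasure μ] (ℱ : Filtration ℕ mΩ) (S : ℕ → Set Ω), IsModel μ ℱ S z →
  ∀ ε : ℝ, 0 < ε → ε < 1 → ∃ κ : ℝ, 0 < κ ∧ ∃ c : ℝ, 0 < c ∧ ∀ᶠ x : ℕ in atTop, ∀ y : ℕ,
    Real.log x ^ (H.card + 2) ≤ y → y ≤ x → ∀ N : ℕ, N ≤ x →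
    μ.real {ω | (cnt S H ω x y : ℝ) ≤ (1 - ε) * (σ * y / Real.log x ^ H.card) ∧
      ω ∈ Lo μ ℱ S z κ N ∧ ω ∈ Up μ ℱ S z κ N} ≤ Real.exp (-(c * Real.log x ^ 2))

/-- TU (hypotheses `s_UT`, `s_CB`, `s_DT`). `k = H.card`, `D = dm H`, `M = σ y / (log x)^k ≥ σ (log x)²`.  Chosen
patterns in `(x, x + y]` are at positions with `Adm z H n` (`sieved`).  Split them according to the residue `c` of `n` mod
`D + 1` into `B c`; `pp m = (1 + κ) W (z m) / log m`, `mean c = ∑_{n ∈ B c} ∏ pp (n + h)`.  By CB on the consecutive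
blocks of length `bl x` covering `(x, x + y]`, `∑_c mean c ≤ (1 + κ)^k (1 + ε') M` for large `x`.  If the count is at
least `(1 + ε) M` then for some `c` the count in `B c` is at least
`K c = (1 + ε/4) mean c + ε M / (4 (D + 1))`.  For `lam > 0` with `e^lam - 1 ≤ (1 + ε/4) lam` the bound of UT is at most
`exp (- lam K c + (e^lam - 1) mean c) ≤ exp (- lam ε M / (4 (D + 1)))`. -/
def s_TU : Prop := ∀ (H : Finset ℕ), Admissible H → ∀ z : ℕ → ℕ, Slow z → ∀ σ : ℝ, 0 < σ →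
  Tendsto (fun m => Sg H (z m)) atTop (𝓝 σ) → ∀ (Ω : Type) [mΩ : MeasurableSpace Ω] (μ : Measure Ω)
  [IsProbabilityMeasure μ] (ℱ : Filtration ℕ mΩ) (S : ℕ → Set Ω), IsModel μ ℱ S z →
  ∀ ε : ℝ, 0 < ε → ε < 1 → ∃ κ : ℝ, 0 < κ ∧ ∃ c : ℝ, 0 < c ∧ ∀ᶠ x : ℕ in atTop, ∀ y : ℕ,
    Real.log x ^ (H.card + 2) ≤ y → y ≤ x → ∀ N : ℕ, N ≤ x →
    μ.real {ω | (1 + ε) * (σ * y / Real.log x ^ H.card) ≤ (cnt S H ω x y : ℝ) ∧
      ω ∈ Up μ ℱ S z κ N} ≤ Real.exp (-(c * Real.log x ^ 2))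

/-- TB (hypotheses `s_TL`, `s_TU`, `s_GE`). Borel–Cantelli over `x`, with the union over the `y ≤ x`
(`∑ x exp (- c log² x) < ∞`), for every `N`. -/
def s_TB : Prop := ∀ (H : Finset ℕ), Admissible H → ∀ z : ℕ → ℕ, Slow z → ∀ σ : ℝ, 0 < σ →
  Tendsto (fun m => Sg H (z m)) atTop (𝓝 σ) → ∀ (Ω : Type) [mΩ : MeasurableSpace Ω] (μ : Measure Ω)
  [IsProbabilityMeasure μ] (ℱ : Filtration ℕ mΩ) (S : ℕ → Set Ω), IsModel μ ℱ S z →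
  ∀ ε : ℝ, 0 < ε → ∀ᵐ ω ∂μ, ∃ x0 : ℕ, ∀ x y : ℕ, x0 ≤ x → Real.log x ^ (H.card + 2) ≤ y → y ≤ x →
    |(cnt S H ω x y : ℝ) - σ * y / Real.log x ^ H.card| ≤ ε * (σ * y / Real.log x ^ H.card)

/-- TN (no hypotheses). The number of twin pairs between consecutive cubes: with `x = n ^ 3`,
`y = (n + 1) ^ 3 - 3 - n ^ 3`, `T = cnt x y`; `log (n ^ 3) = 3 log n`, so `σ y / (3 log n)² ~ (σ/3) n² / log² n`. -/
def s_TN : Prop := ∀ (Ω : Type) (S : ℕ → Set Ω) (ω : Ω) (σ : ℝ), 0 < σ →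
  (∀ ε : ℝ, 0 < ε → ∃ x0 : ℕ, ∀ x y : ℕ, x0 ≤ x → Real.log x ^ 4 ≤ y → y ≤ x →
    |(cnt S {0, 2} ω x y : ℝ) - σ * y / Real.log x ^ 2| ≤ ε * (σ * y / Real.log x ^ 2)) →
  Tendsto (fun n : ℕ => (({p : ℕ | ω ∈ S p ∧ ω ∈ S (p + 2) ∧ n ^ 3 < p ∧ p + 2 < (n + 1) ^ 3}.ncard : ℝ)) /
    ((n : ℝ) ^ 2 / Real.log n ^ 2)) atTop (𝓝 (σ / 3))

end Pool.Agent.J6H40.KT
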